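import Mathlib

set_option autoImplicit false

namespace Pool.Agent.Lib.MP_39e620_al

instance fact17 : Fact (Nat.Prime 17) := ⟨by norm_num⟩

abbrev F : Type := ZMod 17
abbrev U : Type := (ZMod 17)ˣ

theorem card_U : Fintype.card U = 16 := by
  rw [ZMod.card_units 17]

theorem U_pow16 (u : U) : u ^ 16 = 1 := by
  rw [← card_U]; exact pow_card_eq_one

theorem orth {X : Type} [Fintype X] [DecidableEq X] (D : Subgroup (X → U)) [Fintype D]
    (i j k : X) (a b c : ℕ) (h : ∃ t ∈ D, t i ^ a * t j ^ b * t k ^ c ≠ 1) :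
    ∑ t : D, ((t.1 i : F) ^ a * (t.1 j : F) ^ b * (t.1 k : F) ^ c) = 0 := by
  let f : D →* F :=
    { toFun := fun t => (t.1 i : F) ^ a * (t.1 j : F) ^ b * (t.1 k : F) ^ c
      map_one' := by simp
      map_mul' := by
        intro s t
        simp only [Subgroup.coe_mul, Pi.mul_apply, Units.val_mul, mul_pow]
        ring }
  have hf : f ≠ 1 := by
    intro h1
    obtain ⟨t, ht, hne⟩ := h
    apply hne
    have h2 : f ⟨t, ht⟩ = 1 := by rw [h1]; rfl
    apply Units.ext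
    simpa [f] using h2
  exact sum_hom_units_eq_zero f hf

theorem card_ne_zero_F {X : Type} [Fintype X] [DecidableEq X] (D : Subgroup (X → U))
    [Fintype D] : ((Fintype.card D : ℕ) : F) ≠ 0 := by
  intro h
  rw [ZMod.natCast_eq_zero_iff] at h
  have h1 : Nat.card D ∣ Nat.card (X → U) := Subgroup.card_subgroup_dvd_card D
  rw [Nat.card_eq_fintype_card, Nat.card_eq_fintype_card, Fintype.card_fun, card_U] at h1
  have h2 := (Nat.Prime.dvd_of_dvd_pow (by norm_num : Nat.Prime 17) (h.trans h1))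
  norm_num at h2

/-- Exponent `16`: two coordinates are linked by the multiplier `1` or `9`. -/
theorem link16 {X : Type} [Fintype X] [DecidableEq X] (D : Subgroup (X → U)) (i0 : X)
    (h0 : ∃ t ∈ D, t i0 ^ 8 ≠ 1)
    (q : ∀ t ∈ D, ∑ i, (t i : F) ^ 9 = ∑ i, (t i : F)) :
    ∃ j, i0 ≠ j ∧ ((∀ t ∈ D, t j = t i0) ∨ (∀ t ∈ D, t j = t i0 ^ 9)) := by
  classical
  by_contra hcon
  push Not at hcon
  have e16 : ∀ u : U, (u : F) ^ 16 = 1 := fun u => by
    rw [← Units.val_pow_eq_pow_val, U_pow16, Units.val_one]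
  have h1 : ∑ t : D, ∑ j, ((t.1 i0 : F) ^ 15 * (t.1 j : F) ^ 1 * (t.1 j : F) ^ 0)
      = (Fintype.card D : F) := by
    rw [Finset.sum_comm, Finset.sum_eq_single i0]
    · have : ∀ t : D, (t.1 i0 : F) ^ 15 * (t.1 i0 : F) ^ 1 * (t.1 i0 : F) ^ 0 = 1 := by
        intro t
        rw [← pow_add, ← pow_add]
        exact e16 _
      simp only [this, Finset.sum_const, Finset.card_univ, nsmul_eq_mul, mul_one]
    · intro j _ hj
      apply orth
      obtain ⟨t, ht, hne⟩ := (hcon j (Ne.symm hj)).1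
      refine ⟨t, ht, fun h => hne ?_⟩
      have h2 : t i0 ^ 15 * t i0 = 1 := by rw [← pow_succ]; exact U_pow16 _
      rw [pow_zero, mul_one, pow_one, ← h2] at h
      exact mul_left_cancel h
    · simp
  have h2 : ∑ t : D, ∑ j, ((t.1 i0 : F) ^ 15 * (t.1 j : F) ^ 9 * (t.1 j : F) ^ 0) = 0 := by
    rw [Finset.sum_comm]
    apply Finset.sum_eq_zero
    intro j _
    apply orth
    have key : ∀ t : X → U, t i0 ^ 15 * t j ^ 9 * t j ^ 0 = 1 → t j ^ 9 = t i0 := by
      intro t h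
      have h2 : t i0 ^ 15 * t i0 = 1 := by rw [← pow_succ]; exact U_pow16 _
      rw [pow_zero, mul_one, ← h2] at h
      exact mul_left_cancel h
    by_cases hj : i0 = j
    · subst hj
      obtain ⟨t, ht, hne⟩ := h0
      refine ⟨t, ht, fun h => hne ?_⟩
      have h3 := key t h
      have h4 : t i0 ^ 8 * t i0 = 1 * t i0 := by rw [← pow_succ, one_mul]; exact h3
      exact mul_right_cancel h4
    · obtain ⟨t, ht, hne⟩ := (hcon j hj).2
      refine ⟨t, ht, fun h => hne ?_⟩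
      rw [← key t h, ← pow_mul]
      have : t j ^ (9 * 9) = (t j ^ 16) ^ 5 * t j := by rw [← pow_mul, ← pow_succ]
      rw [this, U_pow16, one_pow, one_mul]
  apply card_ne_zero_F D
  rw [← h1, ← h2]
  apply Finset.sum_congr rfl
  intro t _
  simp only [pow_zero, mul_one, pow_one, ← Finset.mul_sum]
  rw [q t.1 t.2]

/-- Exponent `8`: two coordinates agree on the squares of the elements of order dividing `4`. -/
theorem link8 {X : Type} [Fintype X] [DecidableEq X] (D : Subgroup (X → U)) (i0 : X)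
    (h8 : ∀ t ∈ D, ∀ i, t i ^ 8 = 1) (h0 : ∃ t ∈ D, t i0 ^ 4 ≠ 1)
    (q : ∀ t ∈ D, ∃ j : ℕ, (j % 8 = 3 ∨ j % 8 = 5 ∨ j % 8 = 7) ∧
      ∀ k : ℕ, ∑ i, (t i : F) ^ (j * k) = ∑ i, (t i : F) ^ k) :
    ∃ i j, i ≠ j ∧ ∀ t ∈ D, (∀ x, t x ^ 4 = 1) → t i ^ 2 = t j ^ 2 := by
  classical
  by_contra hcon
  have hcon' : ∀ i j, (∀ t ∈ D, (∀ x, t x ^ 4 = 1) → t i ^ 2 = t j ^ 2) → i = j := by
    intro i j h
    by_contra hne
    exact hcon ⟨i, j, hne, h⟩
  have e8 : ∀ (t : D) (i : X), (t.1 i : F) ^ 8 = 1 := fun t i => by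
    rw [← Units.val_pow_eq_pow_val, h8 t.1 t.2, Units.val_one]
  have emod : ∀ (t : D) (i : X) (n : ℕ), (t.1 i : F) ^ n = (t.1 i : F) ^ (n % 8) := by
    intro t i n
    conv_lhs => rw [← Nat.div_add_mod n 8, pow_add, pow_mul, e8, one_pow, one_mul]
  have red : ∀ (u : U) (m n : ℕ), u ^ m = 1 → u ^ n = u ^ (n % m) := by
    intro u m n h
    conv_lhs => rw [← Nat.div_add_mod n m, pow_add, pow_mul, h, one_pow, one_mul]
  -- off-diagonal characters are nontrivial
  have off : ∀ (j k : X) (e e' : ℕ), e % 2 = 1 → e' % 2 = 1 → (e + e') % 4 = 2 →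
      ¬ (j = i0 ∧ k = i0) →
      ∑ t : D, ((t.1 i0 : F) ^ 6 * (t.1 j : F) ^ e * (t.1 k : F) ^ e') = 0 := by
    intro j k e e' he he' hee hjk
    apply orth
    by_contra hall
    push Not at hall
    have hjk' : j = k := by
      apply hcon'
      intro s hs h4
      have h1 := hall (s ^ 2) (D.pow_mem hs 2)
      simp only [Pi.pow_apply, ← pow_mul] at h1
      rw [red _ 4 _ (h4 i0), red _ 4 (2 * e) (h4 j), red _ 4 (2 * e') (h4 k)] at h1
      have e1 : 2 * e % 4 = 2 := by omega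
      have e2 : 2 * e' % 4 = 2 := by omega
      rw [e1, e2] at h1
      norm_num at h1
      have h2 : s k ^ 2 * s k ^ 2 = 1 := by rw [← pow_add]; exact h4 k
      rw [← h2] at h1
      exact mul_right_cancel h1
    subst hjk'
    have hj : i0 = j := by
      apply hcon'
      intro s hs h4
      have h1 := hall s hs
      rw [mul_assoc, ← pow_add, red _ 4 _ (h4 i0), red _ 4 (e + e') (h4 j), hee] at h1
      norm_num at h1
      have h2 : s j ^ 2 * s j ^ 2 = 1 := by rw [← pow_add]; exact h4 j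
      rw [← h2] at h1
      exact mul_right_cancel h1
    exact hjk ⟨hj.symm, hj.symm⟩
  have four : ∑ t : D, (t.1 i0 : F) ^ 4 = 0 := by
    have := orth D i0 i0 i0 4 0 0 (by simpa using h0)
    simpa using this
  have expand : ∀ a b : ℕ, a % 2 = 1 → b % 2 = 1 → (a + b) % 4 = 2 →
      ∑ t : D, (t.1 i0 : F) ^ 6 * (∑ i, (t.1 i : F) ^ a - ∑ i, (t.1 i : F) ^ b) ^ 2 =
      ∑ t : D, (t.1 i0 : F) ^ 6 * ((t.1 i0 : F) ^ a - (t.1 i0 : F) ^ b) ^ 2 := by
    intro a b ha hb hab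
    have h1 : ∀ t : D, (t.1 i0 : F) ^ 6 * (∑ i, (t.1 i : F) ^ a - ∑ i, (t.1 i : F) ^ b) ^ 2 =
        ∑ p : X × X, (t.1 i0 : F) ^ 6 * (((t.1 p.1 : F) ^ a - (t.1 p.1 : F) ^ b) *
          ((t.1 p.2 : F) ^ a - (t.1 p.2 : F) ^ b)) := by
      intro t
      rw [← Finset.sum_sub_distrib, sq, Finset.sum_mul_sum, ← Finset.mul_sum,
        ← Finset.univ_product_univ, Finset.sum_product]
    simp only [h1]
    rw [Finset.sum_comm, Finset.sum_eq_single (i0, i0)]
    · simp only [sq]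
    · rintro ⟨j, k⟩ _ hjk
      have hjk' : ¬ (j = i0 ∧ k = i0) := by
        rintro ⟨rfl, rfl⟩
        exact hjk rfl
      have e1 := off j k a a ha ha (by omega) hjk'
      have e2 := off j k a b ha hb hab hjk'
      have e3 := off j k b a hb ha (by omega) hjk'
      have e4 := off j k b b hb hb (by omega) hjk'
      have : ∀ t : D, (t.1 i0 : F) ^ 6 * (((t.1 j : F) ^ a - (t.1 j : F) ^ b) *
          ((t.1 k : F) ^ a - (t.1 k : F) ^ b)) =
          (t.1 i0 : F) ^ 6 * (t.1 j : F) ^ a * (t.1 k : F) ^ a -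
          (t.1 i0 : F) ^ 6 * (t.1 j : F) ^ a * (t.1 k : F) ^ b -
          (t.1 i0 : F) ^ 6 * (t.1 j : F) ^ b * (t.1 k : F) ^ a +
          (t.1 i0 : F) ^ 6 * (t.1 j : F) ^ b * (t.1 k : F) ^ b := by
        intro t; ring
      simp only [this, Finset.sum_add_distrib, Finset.sum_sub_distrib, e1, e2, e3, e4]
      ring
    · simp
  have E1 := expand 1 5 (by norm_num) (by norm_num) (by norm_num)
  have E2 := expand 7 3 (by norm_num) (by norm_num) (by norm_num)
  have hsq : ∀ t : D, (∑ i, (t.1 i : F) ^ 1 - ∑ i, (t.1 i : F) ^ 5) ^ 2 =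
      (∑ i, (t.1 i : F) ^ 7 - ∑ i, (t.1 i : F) ^ 3) ^ 2 := by
    intro t
    obtain ⟨j, hj, hq⟩ := q t.1 t.2
    have hm : ∀ k r : ℕ, (j * k) % 8 = r → ∑ i, (t.1 i : F) ^ r = ∑ i, (t.1 i : F) ^ k := by
      intro k r hr
      rw [← hq k, ← hr]
      exact Finset.sum_congr rfl (fun i _ => (emod t i _).symm)
    rcases hj with hj | hj | hj
    · rw [hm 1 3 (by omega), hm 5 7 (by omega)]; ring
    · rw [hm 1 5 (by omega), hm 3 7 (by omega)]; ring
    · rw [hm 1 7 (by omega), hm 5 3 (by omega)]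
  have d1 : ∀ t : D, (t.1 i0 : F) ^ 6 * ((t.1 i0 : F) ^ 1 - (t.1 i0 : F) ^ 5) ^ 2 =
      2 - 2 * (t.1 i0 : F) ^ 4 := by
    intro t
    have := e8 t i0
    linear_combination (1 - 2 * (t.1 i0 : F) ^ 4 + ((t.1 i0 : F) ^ 8 + 1)) * this
  have d2 : ∀ t : D, (t.1 i0 : F) ^ 6 * ((t.1 i0 : F) ^ 7 - (t.1 i0 : F) ^ 3) ^ 2 =
      2 * (t.1 i0 : F) ^ 4 - 2 := by
    intro t
    have := e8 t i0
    linear_combination ((t.1 i0 : F) ^ 4 * ((t.1 i0 : F) ^ 8 + 1) - 2 * ((t.1 i0 : F) ^ 8 + 1)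
      + (t.1 i0 : F) ^ 4) * this
  simp only [hsq] at E1
  rw [E2] at E1
  simp only [d1, d2, Finset.sum_sub_distrib, ← Finset.mul_sum, four, Finset.sum_const,
    Finset.card_univ, nsmul_eq_mul] at E1
  apply card_ne_zero_F D
  have h4 : (4 : F) ≠ 0 := by decide
  apply mul_left_cancel₀ h4
  linear_combination -E1

end Pool.Agent.Lib.MP_39e620_al
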