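import Pool.Agent.Lib.MP_39e620_al.Perm
import Pool.Agent.Lib.MP_39e620_al.Chars

set_option autoImplicit false

namespace Pool.Agent.Lib.MP_39e620_al

open Equiv

theorem cnt {X : Type} [Fintype X] [DecidableEq X] (S : Subgroup (X → U)) (W : Finset X)
    (B : X → Finset U) (hinj : ∀ v ∈ S, ∀ v' ∈ S, (∀ i ∈ W, v i = v' i) → v = v')
    (hmem : ∀ v ∈ S, ∀ i ∈ W, v i ∈ B i) : Nat.card S ≤ ∏ i ∈ W, (B i).card := by
  let f : S → (∀ i : W, B i) := fun v i => ⟨v.1 i, hmem v.1 v.2 i i.2⟩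
  have hf : Function.Injective f := by
    intro v v' h
    apply Subtype.ext
    apply hinj v.1 v.2 v'.1 v'.2
    intro i hi
    exact congrArg Subtype.val (congrFun h ⟨i, hi⟩)
  have h1 := Nat.card_le_card_of_injective f hf
  rw [Nat.card_pi] at h1
  rw [← Finset.prod_coe_sort W (fun i => (B i).card)]
  refine h1.trans (le_of_eq (Finset.prod_congr rfl fun i _ => ?_))
  rw [Nat.card_eq_fintype_card, Fintype.card_coe]

theorem cnt_pow {X : Type} [Fintype X] [DecidableEq X] (S : Subgroup (X → U)) (W : Finset X)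
    (n : ℕ) (hn : 0 < n) (hinj : ∀ v ∈ S, ∀ v' ∈ S, (∀ i ∈ W, v i = v' i) → v = v')
    (hmem : ∀ v ∈ S, ∀ i ∈ W, v i ^ n = 1) : Nat.card S ≤ n ^ W.card := by
  classical
  have h1 := cnt S W (fun _ => Finset.univ.filter (fun u : U => u ^ n = 1)) hinj
    (fun v hv i hi => Finset.mem_filter.2 ⟨Finset.mem_univ _, hmem v hv i hi⟩)
  rw [Finset.prod_const] at h1
  exact h1.trans (Nat.pow_le_pow_left (IsCyclic.card_pow_eq_one_le hn) _)

theorem card_split {G H : Type} [Group G] [Group H] (f : G →* H) (K : Subgroup G) :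
    Nat.card K = Nat.card (K ⊓ f.ker : Subgroup G) * Nat.card (K.map f) := by
  rw [← Subgroup.relIndex_ker, Subgroup.relIndex, ← (f.ker.subgroupOf K).card_mul_index]
  congr 1
  rw [← Subgroup.inf_subgroupOf_left]
  exact Nat.card_congr (Subgroup.subgroupOfEquivOfLe inf_le_left).toEquiv

/-- The twisted difference `w ↦ (w ∘ σ) / w`. -/
def delta {X : Type} (σ : Perm X) : (X → U) →* (X → U) where
  toFun w := fun i => w (σ i) * (w i)⁻¹
  map_one' := by ext; simp
  map_mul' := by
    intro a b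
    funext i
    simp only [Pi.mul_apply, mul_inv_rev]
    rw [mul_comm (b i)⁻¹, mul_mul_mul_comm]

/-- Killing the coordinates in `W`. -/
def kill {X : Type} [DecidableEq X] (W : Finset X) : (X → U) →* (X → U) where
  toFun w := fun i => if i ∈ W then 1 else w i
  map_one' := by ext; simp
  map_mul' := by
    intro a b
    funext i
    by_cases h : i ∈ W <;> simp [h]

/-- The three possible shapes of the diagonal group relative to the matching `ι`. -/
def Shape {X : Type} (D : Subgroup (X → U)) (ι : Perm X) : Prop :=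
  (∀ t ∈ D, ∀ i, t i ^ 4 = 1) ∨
  ((∀ t ∈ D, ∀ i, t i ^ 8 = 1) ∧ ∀ i, ∀ t ∈ D, (∀ x, t x ^ 4 = 1) → t i ^ 2 = t (ι i) ^ 2) ∨
  (∀ i, (∀ t ∈ D, t (ι i) = t i) ∨ (∀ t ∈ D, t (ι i) = t i ^ 9))

theorem coverage {X : Type} [Fintype X] [DecidableEq X] (D : Subgroup (X → U)) (σ ι : Perm X)
    (k : ℕ) (hk : σ ^ 2 ^ k = 1) (hι : ∀ x, ι (ι x) = x) (hc : ∀ x, σ (ι x) = ι (σ x))
    (hσ : ∀ x, σ x ≠ x) (ρ : X → Prop) [DecidablePred ρ] (hρ : ∀ x, ρ (ι x) ↔ ¬ ρ x)
    (hD : Shape D ι) :
    Nat.card (D.comap (delta σ)) * 2 ^ Fintype.card X ≤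
      16 ^ Fintype.card X * 2 ^ (Finset.univ.filter (fun i => σ i = ι i ∧ ρ i)).card := by
  classical
  obtain ⟨κ, hκι, hκσ⟩ := exists_colouring σ ι k hk hι hc hσ
  set Φ : Finset X := Finset.univ.filter (fun i => σ i = ι i ∧ ρ i) with hΦ
  set Y0 : Finset X := Finset.univ.filter (fun i => σ i ≠ ι i ∧ κ i ∧ ρ i) with hY0
  set Y1 : Finset X := Finset.univ.filter (fun i => σ i ≠ ι i ∧ κ i ∧ ¬ ρ i) with hY1
  have mΦ : ∀ i, i ∈ Φ ↔ σ i = ι i ∧ ρ i := fun i => by simp [hΦ]
  have mY0 : ∀ i, i ∈ Y0 ↔ σ i ≠ ι i ∧ κ i ∧ ρ i := fun i => by simp [hY0]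
  have mY1 : ∀ i, i ∈ Y1 ↔ σ i ≠ ι i ∧ κ i ∧ ¬ ρ i := fun i => by simp [hY1]
  have hsw : ∀ i, σ (ι i) = ι (ι i) ↔ σ i = ι i := by
    intro i
    rw [hc]
    exact ι.injective.eq_iff
  have hsw' : ∀ i, σ (σ i) = ι (σ i) ↔ σ i = ι i := by
    intro i
    rw [← hc]
    exact σ.injective.eq_iff
  have hY01 : ∀ i, i ∈ Y1 ↔ ι i ∈ Y0 := by
    intro i
    rw [mY0, mY1, Ne, Ne, hsw, hκι, hρ]
  have hcardY : Y1.card = Y0.card := by
    apply Finset.card_bij (fun i _ => ι i)
    · intro i hi; exact (hY01 i).1 hi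
    · intro a _ b _ h; exact ι.injective h
    · intro b hb
      exact ⟨ι b, (hY01 _).2 (by rw [hι]; exact hb), hι b⟩
  set W0 : Finset X := Y0 ∪ Φ with hW0
  set W : Finset X := Y1 ∪ W0 with hW
  have mW : ∀ i, i ∈ W ↔ (σ i ≠ ι i ∧ κ i) ∨ (σ i = ι i ∧ ρ i) := by
    intro i
    rw [hW, hW0, Finset.mem_union, Finset.mem_union, mΦ, mY0, mY1]
    tauto
  have hdis0 : Disjoint Y0 Φ := by
    rw [Finset.disjoint_left]
    intro i h1 h2
    exact ((mY0 i).1 h1).1 ((mΦ i).1 h2).1
  have hcW0 : W0.card = Y0.card + Φ.card := Finset.card_union_of_disjoint hdis0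
  have hcW : W.card = 2 * Y0.card + Φ.card := by
    rw [hW, Finset.card_union_of_disjoint, hcW0, hcardY]
    · ring
    · rw [Finset.disjoint_left]
      intro i h1 h2
      rw [hW0, Finset.mem_union, mY0, mΦ] at h2
      rw [mY1] at h1
      tauto
  have hσW : ∀ i, σ i ∈ W ↔ i ∉ W := by
    intro i
    rw [mW, mW, Ne, hsw']
    by_cases h : σ i = ι i
    · have : ρ (σ i) ↔ ¬ ρ i := by rw [h]; exact hρ i
      tauto
    · have := hκσ i h
      tauto
  have hcC : Wᶜ.card = W.card := by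
    apply Finset.card_bij (fun i _ => σ i)
    · intro i hi; exact (hσW i).2 (Finset.mem_compl.1 hi)
    · intro a _ b _ h; exact σ.injective h
    · intro b hb
      refine ⟨σ.symm b, Finset.mem_compl.2 ((hσW _).1 ?_), by simp⟩
      simpa using hb
  have hd : Fintype.card X = 2 * W.card := by
    have := Finset.card_add_card_compl W
    omega
  set G := D.comap (delta σ) with hG
  set E := G ⊓ (kill W).ker with hE
  have h1 : Nat.card G = Nat.card E * Nat.card (G.map (kill W)) := card_split _ _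
  have h2 : Nat.card (G.map (kill W)) ≤ 16 ^ W.card := by
    rw [← hcC]
    apply cnt_pow _ _ 16 (by norm_num)
    · rintro _ ⟨v, -, rfl⟩ _ ⟨v', -, rfl⟩ h
      funext i
      by_cases hi : i ∈ W
      · simp [kill, hi]
      · exact h i (Finset.mem_compl.2 hi)
    · intro v _ i _
      exact U_pow16 _
  have hEout : ∀ v ∈ E, ∀ i, i ∉ W → v i = 1 := by
    intro v hv i hi
    have := congrFun (MonoidHom.mem_ker.1 hv.2) i
    simpa [kill, hi] using this
  have hED : ∀ v ∈ E, delta σ v ∈ D := fun v hv => hv.1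
  have hEin : ∀ v ∈ E, ∀ i ∈ W, delta σ v i = (v i)⁻¹ := by
    intro v hv i hi
    have : σ i ∉ W := fun h => (hσW i).1 h hi
    simp [delta, hEout v hv _ this]
  have hEsw : ∀ v ∈ E, ∀ i ∈ Φ, delta σ v (ι i) = v i := by
    intro v hv i hi
    have h3 := ((mΦ i).1 hi).1
    have hiW : i ∈ W := by rw [mW]; exact Or.inr ((mΦ i).1 hi)
    have h4 : ι i ∉ W := by rw [← h3]; exact fun h => (hσW i).1 h hiW
    have h5 : σ (ι i) = i := by rw [hc, h3, hι]
    simp [delta, hEout v hv _ h4, h5]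
  have hEinj : ∀ v ∈ E, ∀ v' ∈ E, (∀ i ∈ W, v i = v' i) → v = v' := by
    intro v hv v' hv' h
    funext i
    by_cases hi : i ∈ W
    · exact h i hi
    · rw [hEout v hv i hi, hEout v' hv' i hi]
  have hY0W : ∀ i ∈ Y0, i ∈ W := fun i hi =>
    Finset.mem_union_right _ (Finset.mem_union_left _ hi)
  have hY1W : ∀ i ∈ Y1, i ∈ W := fun i hi => Finset.mem_union_left _ hi
  have hΦW : ∀ i ∈ Φ, i ∈ W := fun i hi =>
    Finset.mem_union_right _ (Finset.mem_union_right _ hi)
  have h3 : Nat.card E ≤ 16 ^ Y0.card * 8 ^ Φ.card := by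
    rcases hD with hD | ⟨h8, hD⟩ | hD
    · have := cnt_pow E W 4 (by norm_num) hEinj (by
        intro v hv i hi
        have := hD _ (hED v hv) i
        rw [hEin v hv i hi, inv_pow, inv_eq_one] at this
        exact this)
      rw [hcW, pow_add, pow_mul] at this
      refine this.trans (Nat.mul_le_mul (le_of_eq (by norm_num)) ?_)
      exact Nat.pow_le_pow_left (by norm_num) _
    · let sq2 : (X → U) →* (X → U) := powMonoidHom 2
      have hv8 : ∀ v ∈ E, ∀ i, v i ^ 8 = 1 := by
        intro v hv i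
        by_cases hi : i ∈ W
        · have := h8 _ (hED v hv) i
          rw [hEin v hv i hi, inv_pow, inv_eq_one] at this
          exact this
        · rw [hEout v hv i hi, one_pow]
      have a1 : Nat.card E = Nat.card (E ⊓ sq2.ker : Subgroup _) * Nat.card (E.map sq2) :=
        card_split _ _
      have a2 : Nat.card (E.map sq2) = Nat.card (E.map sq2 ⊓ sq2.ker : Subgroup _) *
          Nat.card ((E.map sq2).map sq2) := card_split _ _
      have a3 : Nat.card (E ⊓ sq2.ker : Subgroup _) ≤ 2 ^ W.card := by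
        apply cnt_pow _ _ 2 (by norm_num)
        · intro v hv v' hv'
          exact hEinj v hv.1 v' hv'.1
        · intro v hv i _
          exact congrFun (MonoidHom.mem_ker.1 hv.2) i
      have a4 : Nat.card (E.map sq2 ⊓ sq2.ker : Subgroup _) ≤ 2 ^ W0.card := by
        have hpair : ∀ u ∈ (E.map sq2 ⊓ sq2.ker : Subgroup _), ∀ i ∈ Y1, u i = u (ι i) := by
          rintro _ ⟨⟨v, hv, rfl⟩, hu⟩ i hi
          have hv4 : ∀ x, v x ^ 4 = 1 := by
            intro x
            have := congrFun (MonoidHom.mem_ker.1 hu) x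
            simp only [sq2, powMonoidHom_apply, Pi.pow_apply, ← pow_mul, Pi.one_apply] at this
            exact this
          have hd4 : ∀ x, delta σ v x ^ 4 = 1 := by
            intro x
            simp [delta, mul_pow, hv4]
          have := hD i _ (hED v hv) hd4
          rw [hEin v hv i (hY1W i hi), hEin v hv _ (hY0W _ ((hY01 i).1 hi)), inv_pow, inv_pow,
            inv_inj] at this
          exact this
        apply cnt_pow _ _ 2 (by norm_num)
        · intro u hu u' hu' h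
          have huE : u ∈ E := by
            obtain ⟨⟨v, hv, rfl⟩, -⟩ := hu
            exact E.pow_mem hv 2
          have huE' : u' ∈ E := by
            obtain ⟨⟨v, hv, rfl⟩, -⟩ := hu'
            exact E.pow_mem hv 2
          apply hEinj u huE u' huE'
          intro i hi
          rcases Finset.mem_union.1 hi with hi | hi
          · rw [hpair u hu i hi, hpair u' hu' i hi]
            exact h _ (Finset.mem_union_left _ ((hY01 i).1 hi))
          · exact h i hi
        · intro v hv i _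
          exact congrFun (MonoidHom.mem_ker.1 hv.2) i
      have a5 : Nat.card ((E.map sq2).map sq2) ≤
          Nat.card (E.map sq2 ⊓ sq2.ker : Subgroup _) := by
        apply Subgroup.card_le_of_le
        rintro _ ⟨u, hu, rfl⟩
        refine ⟨(E.map sq2).pow_mem hu 2, ?_⟩
        obtain ⟨v, hv, rfl⟩ := hu
        apply MonoidHom.mem_ker.2
        funext i
        simp only [sq2, powMonoidHom_apply, Pi.pow_apply, ← pow_mul, Pi.one_apply]
        exact hv8 v hv i
      calc Nat.card E ≤ 2 ^ W.card * (2 ^ W0.card * 2 ^ W0.card) := by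
            rw [a1, a2]
            exact Nat.mul_le_mul a3 (Nat.mul_le_mul a4 (a5.trans a4))
        _ = 16 ^ Y0.card * 8 ^ Φ.card := by
            rw [hcW, hcW0, show (16 : ℕ) = 2 ^ 4 by norm_num, show (8 : ℕ) = 2 ^ 3 by norm_num,
              ← pow_mul, ← pow_mul, ← pow_add, ← pow_add, ← pow_add]
            congr 1
            ring
    · have hle := cnt E W0 (fun i => if i ∈ Y0 then Finset.univ else
          Finset.univ.filter (fun u : U => u ^ 2 = 1)) (by
        intro v hv v' hv' h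
        apply hEinj v hv v' hv'
        intro i hi
        rcases Finset.mem_union.1 hi with hi | hi
        · have hi0 := (hY01 i).1 hi
          have e0 := h _ (Finset.mem_union_left _ hi0)
          have b1 := hEin v hv _ (hY0W _ hi0)
          have b2 := hEin v' hv' _ (hY0W _ hi0)
          have b3 := hEin v hv _ (hY1W _ hi)
          have b4 := hEin v' hv' _ (hY1W _ hi)
          rw [← inv_inj, ← b3, ← b4]
          rcases hD (ι i) with hD | hD
          · have c1 := hD _ (hED v hv)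
            have c2 := hD _ (hED v' hv')
            rw [hι] at c1 c2
            rw [c1, c2, b1, b2, e0]
          · have c1 := hD _ (hED v hv)
            have c2 := hD _ (hED v' hv')
            rw [hι] at c1 c2
            rw [c1, c2, b1, b2, e0]
        · exact h i hi) (by
        intro v hv i hi
        by_cases h0 : i ∈ Y0
        · simp [h0]
        · have hiΦ : i ∈ Φ := (Finset.mem_union.1 hi).resolve_left h0
          simp only [h0, if_false, Finset.mem_filter, Finset.mem_univ, true_and]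
          have b1 := hEsw v hv i hiΦ
          have b2 := hEin v hv i (hΦW i hiΦ)
          rcases hD i with hD | hD
          · have c1 := hD _ (hED v hv)
            rw [b1, b2] at c1
            rw [sq]
            nth_rewrite 1 [c1]
            exact inv_mul_cancel _
          · have c1 := hD _ (hED v hv)
            rw [b1, b2, inv_pow, eq_inv_iff_mul_eq_one, ← pow_succ'] at c1
            have c2 := U_pow16 (v i)
            have c3 : v i ^ 2 * (v i ^ 10) ^ 3 = (v i ^ 16) ^ 2 := by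
              rw [← pow_mul, ← pow_mul, ← pow_add]
            rw [c1, c2] at c3
            simpa using c3)
      rw [hW0, Finset.prod_union hdis0] at hle
      refine hle.trans (Nat.mul_le_mul ?_ ?_)
      · apply Finset.prod_le_pow_card
        intro i hi
        rw [if_pos hi, Finset.card_univ, card_U]
      · apply Finset.prod_le_pow_card
        intro i hi
        have h0 : i ∉ Y0 := fun h => Finset.disjoint_left.1 hdis0 h hi
        simp only [h0, if_false]
        exact (IsCyclic.card_pow_eq_one_le (by norm_num)).trans (by norm_num)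
  calc Nat.card G * 2 ^ Fintype.card X
      ≤ (16 ^ Y0.card * 8 ^ Φ.card * 16 ^ W.card) * 2 ^ Fintype.card X := by
        rw [h1]
        exact Nat.mul_le_mul_right _ (Nat.mul_le_mul h3 h2)
    _ = 16 ^ Fintype.card X * 2 ^ Φ.card := by
        rw [hd, hcW, show (16 : ℕ) = 2 ^ 4 by norm_num, show (8 : ℕ) = 2 ^ 3 by norm_num]
        simp only [← pow_mul, ← pow_add]
        congr 1
        ring

theorem exists_shape {X : Type} [Fintype X] [DecidableEq X] (P : Subgroup (Perm X))
    (hP : IsPGroup 2 P) (htr : ∀ x y : X, ∃ σ ∈ P, σ x = y) (i1 j1 : X) (hne : i1 ≠ j1)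
    (D : Subgroup (X → U)) (hinv : ∀ σ ∈ P, ∀ t ∈ D, (fun i => t (σ i)) ∈ D)
    (q1 : ∀ t ∈ D, ∑ i, (t i : F) ^ 9 = ∑ i, (t i : F))
    (q2 : ∀ t ∈ D, ∃ j : ℕ, (j % 8 = 3 ∨ j % 8 = 5 ∨ j % 8 = 7) ∧
      ∀ k : ℕ, ∑ i, (t i : F) ^ (j * k) = ∑ i, (t i : F) ^ k) :
    ∃ ι : Perm X, (∀ x, ι (ι x) = x) ∧ (∀ x, ι x ≠ x) ∧ (∀ σ ∈ P, ∀ x, σ (ι x) = ι (σ x)) ∧
      Shape D ι := by
  by_cases h4 : ∀ t ∈ D, ∀ i, t i ^ 4 = 1
  · obtain ⟨ι, a, b, c, -⟩ := exists_matching P hP htr (fun _ _ => True)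
      ⟨fun _ => trivial, fun _ => trivial, fun _ _ => trivial⟩ (fun _ _ _ _ _ => trivial)
      i1 j1 hne trivial
    exact ⟨ι, a, b, c, Or.inl h4⟩
  by_cases h8 : ∀ t ∈ D, ∀ i, t i ^ 8 = 1
  · push Not at h4
    obtain ⟨t0, ht0, i0, hi0⟩ := h4
    obtain ⟨i, j, hij, h⟩ := link8 D i0 h8 ⟨t0, ht0, hi0⟩ q2
    obtain ⟨ι, a, b, c, d⟩ := exists_matching P hP htr
      (fun i j => ∀ t ∈ D, (∀ x, t x ^ 4 = 1) → t i ^ 2 = t j ^ 2)
      ⟨fun _ _ _ _ => rfl, fun h t ht h4 => (h t ht h4).symm,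
        fun h h' t ht h4 => (h t ht h4).trans (h' t ht h4)⟩
      (fun σ hσ x y h t ht h4 => h _ (hinv σ hσ t ht) (fun z => h4 _)) i j hij h
    exact ⟨ι, a, b, c, Or.inr (Or.inl ⟨h8, d⟩)⟩
  · push Not at h8
    obtain ⟨t0, ht0, i0, hi0⟩ := h8
    obtain ⟨j, hij, h⟩ := link16 D i0 ⟨t0, ht0, hi0⟩ q1
    have e81 : ∀ u : U, (u ^ 9) ^ 9 = u := by
      intro u
      have : (u ^ 9) ^ 9 = (u ^ 16) ^ 5 * u := by rw [← pow_mul, ← pow_mul, ← pow_succ]
      rw [this, U_pow16, one_pow, one_mul]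
    obtain ⟨ι, a, b, c, d⟩ := exists_matching P hP htr
      (fun i j => (∀ t ∈ D, t j = t i) ∨ (∀ t ∈ D, t j = t i ^ 9))
      ⟨fun _ => Or.inl fun _ _ => rfl, by
        rintro x y (h | h)
        · exact Or.inl fun t ht => (h t ht).symm
        · exact Or.inr fun t ht => by rw [h t ht, e81], by
        rintro x y z (h | h) (h' | h')
        · exact Or.inl fun t ht => by rw [h' t ht, h t ht]
        · exact Or.inr fun t ht => by rw [h' t ht, h t ht]
        · exact Or.inr fun t ht => by rw [h' t ht, h t ht]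
        · exact Or.inl fun t ht => by rw [h' t ht, h t ht, e81]⟩
      (by
        rintro σ hσ x y (h | h)
        · exact Or.inl fun t ht => h _ (hinv σ hσ t ht)
        · exact Or.inr fun t ht => h _ (hinv σ hσ t ht)) i0 j hij h
    exact ⟨ι, a, b, c, Or.inr (Or.inr d)⟩

/-- The union bound: the derangements of a transitive `2`-group cannot cover all vectors. -/
theorem core {X : Type} [Fintype X] [DecidableEq X] [Nonempty X] (P : Subgroup (Perm X))
    (hP : IsPGroup 2 P) (htr : ∀ x y : X, ∃ σ ∈ P, σ x = y)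
    (D : Subgroup (X → U)) (hinv : ∀ σ ∈ P, ∀ t ∈ D, (fun i => t (σ i)) ∈ D)
    (q1 : ∀ t ∈ D, ∑ i, (t i : F) ^ 9 = ∑ i, (t i : F))
    (q2 : ∀ t ∈ D, ∃ j : ℕ, (j % 8 = 3 ∨ j % 8 = 5 ∨ j % 8 = 7) ∧
      ∀ k : ℕ, ∑ i, (t i : F) ^ (j * k) = ∑ i, (t i : F) ^ k)
    (c : Perm X → X → U)
    (hcov : ∀ w : X → U, ∃ σ ∈ P, (∀ x, σ x ≠ x) ∧ delta σ w * (c σ)⁻¹ ∈ D) : False := by
  classical
  obtain ⟨σ0, -, hσ0, -⟩ := hcov 1
  obtain ⟨x0⟩ := ‹Nonempty X›
  obtain ⟨ι, hι, hιne, hc, hD⟩ := exists_shape P hP htr _ _ (hσ0 x0) D hinv q1 q2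
  let e := Fintype.equivFin X
  let ρ : X → Prop := fun x => e x < e (ι x)
  have hρ : ∀ x, ρ (ι x) ↔ ¬ ρ x := by
    intro x
    have h1 : e (ι x) ≠ e x := fun h => hιne x (e.injective h)
    simp only [ρ, hι, not_lt]
    exact ⟨le_of_lt, fun h => lt_of_le_of_ne h h1⟩
  let Der : Finset (Perm X) := Finset.univ.filter (fun σ => σ ∈ P ∧ ∀ x, σ x ≠ x)
  let Φ : Perm X → Finset X := fun σ => Finset.univ.filter (fun i => σ i = ι i ∧ ρ i)
  let C : Perm X → Finset (X → U) := fun σ =>
    Finset.univ.filter (fun w => delta σ w * (c σ)⁻¹ ∈ D)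
  have h1 : 16 ^ Fintype.card X ≤ ∑ σ ∈ Der, (C σ).card := by
    have : (Finset.univ : Finset (X → U)) ⊆ Der.biUnion C := by
      intro w _
      obtain ⟨σ, hσ, h, h'⟩ := hcov w
      exact Finset.mem_biUnion.2 ⟨σ, Finset.mem_filter.2 ⟨Finset.mem_univ _, hσ, h⟩,
        Finset.mem_filter.2 ⟨Finset.mem_univ _, h'⟩⟩
    have h2 := (Finset.card_le_card this).trans Finset.card_biUnion_le
    rwa [Finset.card_univ, Fintype.card_fun, card_U] at h2
  have h2 : ∀ σ, (C σ).card ≤ Nat.card (D.comap (delta σ)) := by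
    intro σ
    rcases (C σ).eq_empty_or_nonempty with h | ⟨w0, hw0⟩
    · rw [h]; exact Nat.zero_le _
    · rw [← Fintype.card_coe, ← Nat.card_eq_fintype_card]
      have hm : ∀ w : C σ, w.1 * w0⁻¹ ∈ D.comap (delta σ) := by
        intro w
        have a1 := (Finset.mem_filter.1 w.2).2
        have a2 := (Finset.mem_filter.1 hw0).2
        have a3 := D.mul_mem a1 (D.inv_mem a2)
        rw [Subgroup.mem_comap, map_mul, map_inv]
        have : delta σ w.1 * (delta σ w0)⁻¹ =
            delta σ w.1 * (c σ)⁻¹ * (delta σ w0 * (c σ)⁻¹)⁻¹ := by group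
        rw [this]
        exact a3
      apply Nat.card_le_card_of_injective (fun w : C σ => (⟨w.1 * w0⁻¹, hm w⟩ : D.comap (delta σ)))
      intro w w' h
      exact Subtype.ext (mul_right_cancel (congrArg Subtype.val h))
  have h3 : 16 ^ Fintype.card X * 2 ^ Fintype.card X ≤
      16 ^ Fintype.card X * ∑ σ ∈ Der, 2 ^ (Φ σ).card := by
    refine (Nat.mul_le_mul_right _ h1).trans ?_
    rw [Finset.sum_mul, Finset.mul_sum]
    apply Finset.sum_le_sum
    intro σ hσ
    obtain ⟨hσP, hσd⟩ := (Finset.mem_filter.1 hσ).2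
    obtain ⟨k, hk⟩ := hP ⟨σ, hσP⟩
    have hk' : σ ^ 2 ^ k = 1 := by simpa using congrArg Subtype.val hk
    exact (Nat.mul_le_mul_right _ (h2 σ)).trans
      (coverage D σ ι k hk' hι (hc σ hσP) hσd ρ hρ hD)
  have h4 : 2 ^ Fintype.card X ≤ ∑ σ ∈ Der, 2 ^ (Φ σ).card :=
    Nat.le_of_mul_le_mul_left h3 (by positivity)
  -- the enlarged `2`-group
  let Q : Subgroup (Perm X) :=
    { carrier := {τ | (∀ x, τ (ι x) = ι (τ x)) ∧ ∃ σ ∈ P, ∀ x, τ x = σ x ∨ τ x = ι (σ x)}
      one_mem' := ⟨fun _ => rfl, 1, P.one_mem, fun _ => Or.inl rfl⟩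
      mul_mem' := by
        rintro a b ⟨ha, σ, hσ, ha'⟩ ⟨hb, τ, hτ, hb'⟩
        refine ⟨fun x => by simp only [Perm.mul_apply, ha, hb], σ * τ, P.mul_mem hσ hτ, ?_⟩
        intro x
        simp only [Perm.mul_apply]
        rcases hb' x with h | h <;> rcases ha' (τ x) with h' | h' <;> rw [h]
        · exact Or.inl h'
        · exact Or.inr h'
        · rw [ha, h']; exact Or.inr rfl
        · rw [ha, h', hι]; exact Or.inl rfl
      inv_mem' := by
        rintro a ⟨ha, σ, hσ, ha'⟩
        refine ⟨fun x => ?_, σ⁻¹, P.inv_mem hσ, fun x => ?_⟩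
        · rw [Perm.inv_eq_iff_eq, ha]; simp
        · have h := ha' (a⁻¹ x)
          have hx : a (a⁻¹ x) = x := by simp
          rw [hx] at h
          rcases h with h | h
          · left
            rw [Perm.eq_inv_iff_eq]
            exact h.symm
          · right
            rw [← hc _ (P.inv_mem hσ), Perm.eq_inv_iff_eq]
            have := congrArg ι h
            rw [hι] at this
            exact this.symm }
  have hQ : IsPGroup 2 Q := by
    rintro ⟨τ, hτ, σ, hσ, h⟩
    obtain ⟨k, hk⟩ := hP ⟨σ, hσ⟩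
    have hk' : σ ^ 2 ^ k = 1 := by simpa using congrArg Subtype.val hk
    have hn : ∀ n : ℕ, ∀ x, (τ ^ n) x = (σ ^ n) x ∨ (τ ^ n) x = ι ((σ ^ n) x) := by
      intro n
      induction n with
      | zero => exact fun x => Or.inl rfl
      | succ n ih =>
        intro x
        simp only [pow_succ', Perm.mul_apply]
        rcases ih x with h1 | h1 <;> rcases h ((σ ^ n) x) with h2 | h2 <;> rw [h1]
        · exact Or.inl h2
        · exact Or.inr h2
        · rw [hτ, h2]; exact Or.inr rfl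
        · rw [hτ, h2, hι]; exact Or.inl rfl
    have hτn : ∀ n : ℕ, ∀ x, (τ ^ n) (ι x) = ι ((τ ^ n) x) := by
      intro n
      induction n with
      | zero => exact fun x => rfl
      | succ n ih => intro x; simp only [pow_succ', Perm.mul_apply, ih, hτ]
    refine ⟨k + 1, Subtype.ext ?_⟩
    have : τ ^ 2 ^ (k + 1) = 1 := by
      ext x
      rw [pow_succ, pow_mul, sq, Perm.mul_apply]
      have h1 := hn (2 ^ k) x
      rw [hk'] at h1
      rcases h1 with h1 | h1
      · have h1' : (τ ^ 2 ^ k) x = x := h1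
        rw [h1', h1']; rfl
      · have h1' : (τ ^ 2 ^ k) x = ι x := h1
        rw [h1', hτn, h1', hι]; rfl
    simpa using this
  have hlt := card_two_subgroup_lt Q hQ
  have hinvol : ∀ Z : Finset X,
      Function.Involutive (fun x => if x ∈ Z ∨ ι x ∈ Z then ι x else x) := by
    intro Z x
    by_cases h : x ∈ Z ∨ ι x ∈ Z
    · simp only [if_pos h, hι, if_pos h.symm]
    · simp only [if_neg h]
  let sw : Finset X → Perm X := fun Z => (hinvol Z).toPerm
  have hsw : ∀ Z x, sw Z x = if x ∈ Z ∨ ι x ∈ Z then ι x else x := fun _ _ => rfl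
  have h5 : ∑ σ ∈ Der, 2 ^ (Φ σ).card ≤ Nat.card Q := by
    have e1 : ∑ σ ∈ Der, 2 ^ (Φ σ).card = (Der.sigma fun σ => (Φ σ).powerset).card := by
      rw [Finset.card_sigma]
      simp only [Finset.card_powerset]
    rw [e1, ← Fintype.card_coe, ← Nat.card_eq_fintype_card]
    have hm : ∀ p : (Der.sigma fun σ => (Φ σ).powerset), p.1.1 * sw p.1.2 ∈ Q := by
      rintro ⟨⟨σ, Z⟩, hp⟩
      have hσP : σ ∈ P := (Finset.mem_filter.1 (Finset.mem_sigma.1 hp).1).2.1
      refine ⟨fun x => ?_, σ, hσP, fun x => ?_⟩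
      · simp only [Perm.mul_apply, hsw, hι]
        by_cases h : x ∈ Z ∨ ι x ∈ Z
        · rw [if_pos h, if_pos h.symm, hc σ hσP, hι]
        · rw [if_neg h, if_neg (fun h' => h h'.symm), hc σ hσP]
      · simp only [Perm.mul_apply, hsw]
        by_cases h : x ∈ Z ∨ ι x ∈ Z
        · rw [if_pos h, hc σ hσP]; exact Or.inr rfl
        · rw [if_neg h]; exact Or.inl rfl
    apply Nat.card_le_card_of_injective
      (fun p : (Der.sigma fun σ => (Φ σ).powerset) => (⟨p.1.1 * sw p.1.2, hm p⟩ : Q))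
    have sub : ∀ p p' : (Der.sigma fun σ => (Φ σ).powerset),
        p.1.1 * sw p.1.2 = p'.1.1 * sw p'.1.2 → p.1.2 ⊆ p'.1.2 := by
      rintro ⟨⟨σ, Z⟩, hp⟩ ⟨⟨σ', Z'⟩, hp'⟩ h x hx
      have a1 := Finset.mem_filter.1 (Finset.mem_sigma.1 hp).1
      have a2 := Finset.mem_powerset.1 (Finset.mem_sigma.1 hp).2
      have b1 := Finset.mem_filter.1 (Finset.mem_sigma.1 hp').1
      have b2 := Finset.mem_powerset.1 (Finset.mem_sigma.1 hp').2
      have a3 := (Finset.mem_filter.1 (a2 hx)).2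
      have h6 : (σ * sw Z) x = x := by
        rw [Perm.mul_apply, hsw, if_pos (Or.inl hx), hc σ a1.2.1, a3.1, hι]
      have h' : σ * sw Z = σ' * sw Z' := h
      rw [h', Perm.mul_apply, hsw] at h6
      by_cases hz : x ∈ Z' ∨ ι x ∈ Z'
      · rcases hz with hz | hz
        · exact hz
        · exact absurd a3.2 ((hρ x).1 (Finset.mem_filter.1 (b2 hz)).2.2)
      · rw [if_neg hz] at h6
        exact absurd h6 (b1.2.2 x)
    intro p p' h
    have h' : p.1.1 * sw p.1.2 = p'.1.1 * sw p'.1.2 := congrArg Subtype.val h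
    have hZ : p.1.2 = p'.1.2 := Finset.Subset.antisymm (sub p p' h') (sub p' p h'.symm)
    rw [hZ] at h'
    have hσ := mul_right_cancel h'
    obtain ⟨⟨σ, Z⟩, hp⟩ := p
    obtain ⟨⟨σ', Z'⟩, hp'⟩ := p'
    simp only at hZ hσ
    subst hZ hσ
    rfl
  omega

end Pool.Agent.Lib.MP_39e620_al
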