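import Mathlib

set_option autoImplicit false

namespace Pool.Agent.Lib.MP_39e620_al.Full

instance fact17 : Fact (Nat.Prime 17) := ⟨by norm_num⟩

abbrev F : Type := ZMod 17

/-- The two consequences of semi-rationality that are used. -/
structure QR (H : Type) [Group H] : Prop where
  sq : ∀ (h : H) (j : ℕ), j.Coprime (Nat.card H) → IsConj h (h ^ (j * j))
  odd : ∀ h : H, ∃ j : ℕ, (j % 8 = 3 ∨ j % 8 = 5 ∨ j % 8 = 7) ∧ IsConj h (h ^ j)

/-- `x` is a 2-element. -/
def Two {G : Type} [Monoid G] (x : G) : Prop := ∃ k : ℕ, x ^ 2 ^ k = 1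

/-- Block model: `H` permutes the blocks `I` transitively, every block is a copy of `W`,
`c h i` is the map from block `i` to block `h • i`. -/
structure LM (H I G W : Type) [Group H] [MulAction H I] [Group G] [AddCommGroup W]
    [DistribMulAction G W] where
  c : H → I → G
  coc : ∀ g h i, c (g * h) i = c g (h • i) * c h i
  surj : ∀ (i : I) (γ : G), ∃ h : H, h • i = i ∧ c h i = γ
  trans : ∀ i j : I, ∃ h : H, h • i = j
  h17 : ∀ w : W, (17 : ℤ) • w = 0
  ev : ∀ v : I → W, ∃ x : H, Two x ∧ ∀ i, c x i • v i = (2 : ℤ) • v (x • i)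

/-- Size of the `z`-eigenspace of `γ`. -/
noncomputable def eig {G : Type} (W : Type) [Group G] [AddCommGroup W] [DistribMulAction G W]
    (γ : G) (z : ℤ) : ℕ := Nat.card {w : W // γ • w = z • w}

/-- `w` is strictly good. -/
def Strict (G : Type) {W : Type} [Group G] [AddCommGroup W] [DistribMulAction G W]
    (w : W) : Prop :=
  ∀ γ : G, Two γ → γ • w = (2 : ℤ) • w → ∀ z : ℤ, (z = 8 ∨ z = -2 ∨ z = -8) →
    eig W γ z < eig W γ 2

/-- `w` is weakly good. -/
def Weak (G : Type) {W : Type} [Group G] [AddCommGroup W] [DistribMulAction G W]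
    (w : W) : Prop :=
  ∀ γ : G, Two γ → γ • w = (2 : ℤ) • w → ∀ z : ℤ, (z = 8 ∨ z = -2 ∨ z = -8) →
    eig W γ z ≤ eig W γ 2

/-- A strictly good vector and a weakly good vector in different orbits. -/
def GoodPair (G W : Type) [Group G] [AddCommGroup W] [DistribMulAction G W] : Prop :=
  ∃ w₁ w₂ : W, (∀ γ : G, γ • w₁ ≠ (2 : ℤ) • w₂) ∧ Strict G w₁ ∧ Weak G w₂

/-- `G` acts semilinearly over the field `K`, and normal linear abelian subgroups are scalar. -/
structure Prim (G K W : Type) [Group G] [Field K] [AddCommGroup W] [Module K W]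
    [DistribMulAction G W] : Prop where
  semi : ∀ γ : G, ∃ σ : K ≃+* K, ∀ (a : K) (w : W), γ • (a • w) = σ a • γ • w
  prim : ∀ B : Subgroup G, B.Normal → (∀ b ∈ B, ∀ (a : K) (w : W), b • (a • w) = a • b • w) →
    (∀ b ∈ B, ∀ b' ∈ B, b * b' = b' * b) → ∀ b ∈ B, ∃ a : K, ∀ w : W, b • w = a • w

/-- The 24 elements of the one-qubit Clifford group modulo scalars, rows `(a, b)`, `(c, d)`. -/
def L24 : List (F × F × F × F) :=
  [(0, 1, 1, 0), (0, 1, 4, 0), (0, 1, 13, 0), (0, 1, 16, 0), (1, 0, 0, 1), (1, 0, 0, 4),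
   (1, 0, 0, 13), (1, 0, 0, 16), (1, 1, 1, 16), (1, 1, 4, 13), (1, 1, 13, 4), (1, 1, 16, 1),
   (1, 4, 1, 13), (1, 4, 4, 1), (1, 4, 13, 16), (1, 4, 16, 4), (1, 13, 1, 4), (1, 13, 4, 16),
   (1, 13, 13, 1), (1, 13, 16, 13), (1, 16, 1, 1), (1, 16, 4, 4), (1, 16, 13, 13),
   (1, 16, 16, 16)]

/-- The matrix `s * m` applied to a vector. -/
def act (s : F) (m : F × F × F × F) (w : F × F) : F × F :=
  (s * (m.1 * w.1 + m.2.1 * w.2), s * (m.2.2.1 * w.1 + m.2.2.2 * w.2))

/-- In suitable coordinates `G` acts on `W = F × F` through scalars times Clifford matrices. -/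
def S4Data (G W : Type) [Group G] [AddCommGroup W] [DistribMulAction G W] : Prop :=
  ∃ φ : W ≃+ F × F, ∀ γ : G, ∃ s : F, ∃ m ∈ L24, ∀ w : W, φ (γ • w) = act s m (φ w)

section basics

variable {H I G W : Type} [Group H] [MulAction H I] [Group G] [AddCommGroup W]
  [DistribMulAction G W]

theorem LM.c_one (M : LM H I G W) (i : I) : M.c 1 i = 1 := by
  have := M.coc 1 1 i
  rw [one_mul, one_smul] at this
  exact left_eq_mul.1 this

theorem LM.c_inv (M : LM H I G W) (h : H) (i : I) : M.c h⁻¹ (h • i) = (M.c h i)⁻¹ := by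
  have := M.coc h⁻¹ h i
  rw [inv_mul_cancel, M.c_one] at this
  exact eq_inv_of_mul_eq_one_left this.symm

theorem LM.c_inv_fix (M : LM H I G W) {h : H} {i : I} (hi : h • i = i) :
    M.c h⁻¹ i = (M.c h i)⁻¹ := by
  rw [← M.c_inv, hi]

theorem LM.c_mul_fix (M : LM H I G W) (g : H) {h : H} {i : I} (hi : h • i = i) :
    M.c (g * h) i = M.c g i * M.c h i := by
  rw [M.coc, hi]

theorem pow_fix {h : H} {i : I} (hi : h • i = i) (n : ℕ) : h ^ n • i = i := by
  induction n with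
  | zero => simp
  | succ n ih => rw [pow_succ, mul_smul, hi, ih]

theorem LM.c_pow (M : LM H I G W) {h : H} {i : I} (hi : h • i = i) (n : ℕ) :
    M.c (h ^ n) i = M.c h i ^ n := by
  induction n with
  | zero => simp [M.c_one]
  | succ n ih => rw [pow_succ, M.coc, hi, ih, pow_succ]

theorem LM.c_conj (M : LM H I G W) (g h : H) (i : I) :
    M.c (g * h * g⁻¹) (g • i) = M.c g (h • i) * M.c h i * (M.c g i)⁻¹ := by
  rw [M.coc, M.coc, inv_smul_smul, M.c_inv]

theorem LM.two_c (M : LM H I G W) {x : H} {i : I} (hx : Two x) (hi : x • i = i) :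
    Two (M.c x i) := by
  obtain ⟨k, hk⟩ := hx
  exact ⟨k, by rw [← M.c_pow hi, hk, M.c_one]⟩

theorem smul_zsmul (γ : G) (z : ℤ) (w : W) : γ • (z • w) = z • γ • w :=
  (DistribSMul.toAddMonoidHom W γ).map_zsmul z w

theorem pow_eig {γ : G} {z : ℤ} {w : W} (h : γ • w = z • w) (n : ℕ) :
    γ ^ n • w = z ^ n • w := by
  induction n with
  | zero => simp
  | succ n ih => rw [pow_succ, mul_smul, h, smul_zsmul, ih, smul_smul, pow_succ, mul_comm]

/-- The elements with property `P` act on the blocks in `C` in at most `T` ways. -/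
def LM.Lab (M : LM H I G W) (C : Finset I) (P : H → Prop) (T : ℕ) : Prop :=
  ∃ (A : Type) (Ψ : H → A) (R : Finset A), R.card ≤ T ∧ (∀ h, P h → Ψ h ∈ R) ∧
    ∀ h h', P h → P h' → Ψ h = Ψ h' → ∀ i ∈ C, h • i = h' • i ∧ M.c h i = M.c h' i

/-- The elements that can occur in the conclusion of `LM.comp`. -/
def LM.Bad (M : LM H I G W) (C : Finset I) (x : H) : Prop :=
  Two x ∧ (∀ i ∈ C, x • i ∈ C) ∧
    (∀ i ∈ C, x • i = i → ¬ ∀ y : W, M.c x i • y = (2 : ℤ) • y) ∧
    ∃ w : I → W, ∀ i ∈ C, w i ≠ 0 ∧ M.c x i • w i = (2 : ℤ) • w (x • i)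

end basics

end Pool.Agent.Lib.MP_39e620_al.Full
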