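import Pool.Agent.Lib.MP_39e620_al.F0

set_option autoImplicit false

namespace Pool.Agent.Lib.MP_39e620_al.Full

variable {H I G W : Type} [Group H] [MulAction H I] [Group G] [AddCommGroup W]
  [DistribMulAction G W]

/-- If `x ~ x ^ j` then both have the same fixed points. -/
theorem fix_of_conj_pow {Λ : Type} [MulAction H Λ] [Finite Λ] {x : H} {j : ℕ}
    (h : IsConj x (x ^ j)) {i : Λ} (hi : x ^ j • i = i) : x • i = i := by
  obtain ⟨g, hg⟩ := isConj_iff.1 h
  have h1 : {i : Λ | x • i = i} ⊆ {i : Λ | x ^ j • i = i} := fun i hi => pow_fix hi j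
  have h2 : {i : Λ | x ^ j • i = i}.ncard ≤ {i : Λ | x • i = i}.ncard := by
    refine Set.ncard_le_ncard_of_injOn (fun i => g⁻¹ • i) ?_ ?_
    · intro i hi
      have hi' : x ^ j • i = i := hi
      change x • g⁻¹ • i = g⁻¹ • i
      rw [← hg, mul_smul, mul_smul, smul_eq_iff_eq_inv_smul] at hi'
      exact hi'
    · intro a _ b _ hab
      exact MulAction.injective g⁻¹ hab
  have h3 := Set.eq_of_subset_of_ncard_le h1 h2
  have : i ∈ {i : Λ | x • i = i} := by rw [h3]; exact hi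
  exact this

/-- `x ~ x ^ j` permutes the blocks fixed by `x`. -/
theorem LM.conj_of [Finite I] (M : LM H I G W) {x : H} {j : ℕ} (h : IsConj x (x ^ j)) :
    ∃ g : H, ∀ i, x • i = i → x • g • i = g • i ∧ IsConj (M.c x i ^ j) (M.c x (g • i)) := by
  obtain ⟨g, hg⟩ := isConj_iff.1 h.symm
  refine ⟨g, fun i hi => ?_⟩
  have h1 : x ^ j • i = i := pow_fix hi j
  constructor
  · nth_rewrite 1 [← hg]
    rw [mul_smul, mul_smul, inv_smul_smul, h1]
  · have h2 := M.c_conj g (x ^ j) i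
    rw [hg, h1, M.c_pow hi] at h2
    exact isConj_iff.2 ⟨M.c g i, h2.symm⟩

theorem LM.conj [Finite I] (M : LM H I G W) (hq : QR H) (x : H) :
    ∃ (j : ℕ) (g : H), (j % 8 = 3 ∨ j % 8 = 5 ∨ j % 8 = 7) ∧
      ∀ i, x • i = i → x • g • i = g • i ∧ IsConj (M.c x i ^ j) (M.c x (g • i)) := by
  obtain ⟨j, hj, h⟩ := hq.odd x
  obtain ⟨g, hg⟩ := M.conj_of h
  exact ⟨j, g, hj, hg⟩

theorem zsmul_mod (h17 : ∀ w : W, (17 : ℤ) • w = 0) {a b : ℤ} (h : a % 17 = b % 17) (w : W) :
    a • w = b • w := by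
  obtain ⟨c, hc⟩ := Int.modEq_iff_dvd.1 h
  have : b = a + c * 17 := by linarith
  rw [this, add_smul, mul_smul, h17, smul_zero, add_zero]

theorem two_inj (h17 : ∀ w : W, (17 : ℤ) • w = 0) (y y' : W)
    (h : (2 : ℤ) • y = (2 : ℤ) • y') : y = y' := by
  have e : ∀ y : W, (9 : ℤ) • (2 : ℤ) • y = y := fun y => by
    rw [smul_smul, zsmul_mod h17 (b := 1) (by norm_num), one_smul]
  rw [← e y, h, e]

theorem two_pow_mod {j : ℕ} (hj : j % 8 = 3 ∨ j % 8 = 5 ∨ j % 8 = 7) :
    ∃ z : ℤ, (z = 8 ∨ z = -2 ∨ z = -8) ∧ (2 : ℤ) ^ j % 17 = z % 17 := by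
  have key : (2 : ℤ) ^ j % 17 = 2 ^ (j % 8) % 17 := by
    conv_lhs => rw [← Nat.div_add_mod j 8, pow_add, pow_mul]
    have : ((2 : ℤ) ^ 8) ^ (j / 8) ≡ 1 ^ (j / 8) [ZMOD 17] := Int.ModEq.pow _ (by decide)
    have := this.mul_right (2 ^ (j % 8))
    rw [one_pow, one_mul] at this
    exact this
  rcases hj with h | h | h
  · exact ⟨8, by simp, by rw [key, h]; norm_num⟩
  · exact ⟨-2, by simp, by rw [key, h]; norm_num⟩
  · exact ⟨-8, by simp, by rw [key, h]; norm_num⟩

theorem eig_conj {γ δ : G} (h : IsConj γ δ) (z : ℤ) : eig W γ z = eig W δ z := by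
  obtain ⟨g, rfl⟩ := isConj_iff.1 h
  refine Nat.card_congr ((MulAction.toPerm g).subtypeEquiv fun w => ?_)
  change γ • w = z • w ↔ (g * γ * g⁻¹) • g • w = z • g • w
  rw [mul_smul, mul_smul, inv_smul_smul, ← smul_zsmul, smul_left_cancel_iff]

theorem eig_pow [Finite W] (h17 : ∀ w : W, (17 : ℤ) • w = 0) (γ : G) (j : ℕ) {y z : ℤ}
    (h : y ^ j % 17 = z % 17) : eig W γ y ≤ eig W (γ ^ j) z := by
  refine Nat.card_le_card_of_injective
    (fun w => ⟨w.1, by rw [pow_eig w.2, zsmul_mod h17 h]⟩) ?_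
  intro a b hab
  exact Subtype.ext (Subtype.mk.inj hab)

theorem eig_pos [Finite W] (γ : G) (z : ℤ) : 0 < eig W γ z := by
  have : Nonempty {w : W // γ • w = z • w} := ⟨⟨0, by simp⟩⟩
  exact Nat.card_pos

theorem LM.conj_eig [Finite I] [Finite W] (M : LM H I G W) (hq : QR H) (x : H) :
    ∃ (z : ℤ) (g : H), (z = 8 ∨ z = -2 ∨ z = -8) ∧
      ∀ i, x • i = i → x • g • i = g • i ∧ eig W (M.c x i) 2 ≤ eig W (M.c x (g • i)) z := by
  obtain ⟨j, g, hj, hg⟩ := M.conj hq x
  obtain ⟨z, hz, h⟩ := two_pow_mod hj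
  refine ⟨z, g, hz, fun i hi => ⟨(hg i hi).1, ?_⟩⟩
  rw [← eig_conj (hg i hi).2]
  exact eig_pow M.h17 _ j h

/-- Strict at one fixed block and weak at all fixed blocks is impossible. -/
theorem LM.not_strict [Finite I] [Finite W] (M : LM H I G W) (hq : QR H) (x : H) {i₀ : I}
    (h0 : x • i₀ = i₀)
    (hs : ∀ z : ℤ, (z = 8 ∨ z = -2 ∨ z = -8) → eig W (M.c x i₀) z < eig W (M.c x i₀) 2)
    (hw : ∀ i, x • i = i → ∀ z : ℤ, (z = 8 ∨ z = -2 ∨ z = -8) →
      eig W (M.c x i) z ≤ eig W (M.c x i) 2) : False := by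
  classical
  have := Fintype.ofFinite I
  obtain ⟨z, g, hz, hg⟩ := M.conj_eig hq x
  let S : Finset I := Finset.univ.filter fun i => x • i = i
  have hS : ∀ i, i ∈ S ↔ x • i = i := by simp [S]
  have h1 : ∑ i ∈ S, eig W (M.c x i) z < ∑ i ∈ S, eig W (M.c x i) 2 :=
    Finset.sum_lt_sum (fun i hi => hw i ((hS i).1 hi) z hz) ⟨i₀, (hS _).2 h0, hs z hz⟩
  have h2 : ∑ i ∈ S, eig W (M.c x i) 2 ≤ ∑ i ∈ S, eig W (M.c x (g • i)) z :=
    Finset.sum_le_sum fun i hi => (hg i ((hS i).1 hi)).2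
  have h3 : ∑ i ∈ S, eig W (M.c x (g • i)) z ≤ ∑ i ∈ S, eig W (M.c x i) z := by
    rw [← Finset.sum_image (s := S) (g := fun i => g • i) (f := fun i => eig W (M.c x i) z)
      (fun a _ b _ hab => MulAction.injective g hab)]
    refine Finset.sum_le_sum_of_subset fun i hi => ?_
    obtain ⟨a, ha, rfl⟩ := Finset.mem_image.1 hi
    exact (hS _).2 (hg a ((hS a).1 ha)).1
  omega

theorem LM.not_goodPair [Finite I] [Nonempty I] [Finite W] (M : LM H I G W) (hq : QR H) :
    ¬ GoodPair G W := by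
  classical
  rintro ⟨w₁, w₂, h12, h1, h2⟩
  obtain ⟨i₀⟩ := ‹Nonempty I›
  obtain ⟨x, hx, hv⟩ := M.ev fun i => if i = i₀ then w₁ else w₂
  have h0 : x • i₀ = i₀ := by
    by_contra h
    have := hv i₀
    rw [if_pos rfl, if_neg h] at this
    exact h12 _ this
  have hs := h1 _ (M.two_c hx h0) (by have := hv i₀; rwa [h0, if_pos rfl] at this)
  refine M.not_strict hq x h0 hs fun i hi => ?_
  by_cases h : i = i₀
  · subst h
    exact fun z hz => (hs z hz).le
  · exact h2 _ (M.two_c hx hi) (by have := hv i; rwa [hi, if_neg h] at this)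

theorem eq_zero_of_eig (h17 : ∀ w : W, (17 : ℤ) • w = 0) {z : ℤ} (hz : z = 8 ∨ z = -2 ∨ z = -8)
    {w : W} (h : z • w = (2 : ℤ) • w) : w = 0 := by
  have h1 : (z - 2) • w = 0 := by rw [sub_smul, h, sub_self]
  have h2 : ∀ u : ℤ, (u * (z - 2)) % 17 = 1 % 17 → w = 0 := fun u hu => by
    rw [← one_smul ℤ w, ← zsmul_mod h17 hu, mul_smul, h1, smul_zero]
  rcases hz with rfl | rfl | rfl
  · exact h2 3 (by norm_num)
  · exact h2 4 (by norm_num)
  · exact h2 5 (by norm_num)

/-- With a vector of full support, `x` is not the scalar 2 on a fixed block. -/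
theorem LM.no_scalar [Finite I] [Finite W] (M : LM H I G W) (hq : QR H) {v : I → W}
    (hv : ∀ i, v i ≠ 0) {x : H} (hx : ∀ i, M.c x i • v i = (2 : ℤ) • v (x • i)) {i : I}
    (hi : x • i = i) : ¬ ∀ y : W, M.c x i • y = (2 : ℤ) • y := by
  intro h
  obtain ⟨z, g, hz, hg⟩ := M.conj_eig hq x
  obtain ⟨h1, h2⟩ := hg i hi
  have h3 : eig W (M.c x i) 2 = Nat.card W := Nat.card_congr (Equiv.subtypeUnivEquiv h)
  have h4 : ∀ y : W, M.c x (g • i) • y = z • y := by
    have hb : Function.Bijective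
        (Subtype.val : {w : W // M.c x (g • i) • w = z • w} → W) :=
      Subtype.val_injective.bijective_of_nat_card_le (by rw [← h3]; exact h2)
    intro y
    obtain ⟨y, rfl⟩ := hb.2 y
    exact y.2
  have h5 := hx (g • i)
  rw [h1, h4] at h5
  exact hv _ (eq_zero_of_eig M.h17 hz h5)

/-- Colouring a block of imprimitivity `C` by `w` and its translates by `u`. -/
theorem LM.comp [Finite H] [Finite I] [Finite W] (M : LM H I G W) (hq : QR H) (C : Finset I)
    (hne : C.Nonempty) (hC : ∀ h : H, ∀ i ∈ C, h • i ∈ C → ∀ j ∈ C, h • j ∈ C) (w u : I → W)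
    (hw : ∀ i ∈ C, w i ≠ 0) (hu : ∀ i ∈ C, u i ≠ 0)
    (hwu : ∀ h : H, (∀ i ∈ C, h • i ∈ C) →
      ¬ ∀ i ∈ C, M.c h i • w i = (2 : ℤ) • u (h • i)) :
    ∃ x : H, Two x ∧ (∀ i ∈ C, x • i ∈ C) ∧ (∀ i ∈ C, M.c x i • w i = (2 : ℤ) • w (x • i)) ∧
      ∀ i, x • i = i → ¬ ∀ y : W, M.c x i • y = (2 : ℤ) • y := by
  classical
  obtain ⟨i₀, hi₀⟩ := hne
  let St : Subgroup H :=
    { carrier := {h | h • i₀ ∈ C}
      one_mem' := by simpa using hi₀
      mul_mem' := fun {a b} ha hb => by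
        change (a * b) • i₀ ∈ C
        rw [mul_smul]
        exact hC a i₀ hi₀ ha _ hb
      inv_mem' := fun {a} ha => hC a⁻¹ (a • i₀) ha (by rwa [inv_smul_smul]) i₀ hi₀ }
  have hSt : ∀ h, h ∈ St ↔ h • i₀ ∈ C := fun _ => Iff.rfl
  choose t ht using M.trans i₀
  let r : I → H := fun i => (t i : H ⧸ St).out
  have hr : ∀ i, (r i)⁻¹ • i ∈ C := fun i => by
    have : (r i)⁻¹ * t i ∈ St := QuotientGroup.eq.1 (QuotientGroup.out_eq' _)
    rw [hSt, mul_smul, ht] at this
    exact this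
  let v : I → W := fun i => if i ∈ C then w i else M.c (r i) ((r i)⁻¹ • i) • u ((r i)⁻¹ • i)
  have hv : ∀ i, v i ≠ 0 := fun i => by
    simp only [v]
    split_ifs with h
    · exact hw i h
    · rw [Ne, smul_eq_zero_iff_eq]
      exact hu _ (hr i)
  obtain ⟨x, hx, hxv⟩ := M.ev v
  have hxC : ∀ i ∈ C, x • i ∈ C := by
    refine hC x i₀ hi₀ ?_
    by_contra hx0
    have hout : ∀ i ∈ C, x • i ∉ C := fun i hi h => hx0 (hC x i hi h i₀ hi₀)
    have hst : ∀ i ∈ C, ((r (x • i₀))⁻¹ * x) • i ∈ C :=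
      hC _ i₀ hi₀ (by rw [mul_smul]; exact hr _)
    have hrr : ∀ i ∈ C, r (x • i) = r (x • i₀) := fun i hi => by
      have : (t (x • i) : H ⧸ St) = t (x • i₀) := by
        rw [QuotientGroup.eq, hSt, mul_smul, ht]
        refine (?_ : ∀ j ∈ C, (t (x • i))⁻¹ • x • j ∈ C) i₀ hi₀
        intro j hj
        rw [← mul_smul]
        refine hC _ i hi ?_ j hj
        rw [mul_smul, inv_smul_eq_iff.2 (ht (x • i)).symm]
        exact hi₀
      simp only [r, this]
    refine hwu _ hst fun i hi => ?_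
    have h1 := hxv i
    simp only [v, if_pos hi, if_neg (hout i hi)] at h1
    rw [hrr i hi, ← smul_zsmul, ← mul_smul (r (x • i₀))⁻¹] at h1
    have h2 := M.coc (r (x • i₀)) ((r (x • i₀))⁻¹ * x) i
    rw [mul_inv_cancel_left] at h2
    rw [h2, mul_smul, smul_left_cancel_iff] at h1
    exact h1
  refine ⟨x, hx, hxC, fun i hi => ?_, fun i hi => M.no_scalar hq hv hxv hi⟩
  have h1 := hxv i
  simp only [v, if_pos hi, if_pos (hxC i hi)] at h1
  exact h1

/-- Product bound: outer labels `Φ` up to a subgroup `D` fixing `C` pointwise, inner labels `α`. -/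
theorem LM.lab_of_kernel (M : LM H I G W) (C : Finset I) (P : H → Prop) {B U : Type}
    (Φ : H → B) (RB : Finset B) (α : H → U) (RU : Finset U) (D : H → Prop)
    (hΦ : ∀ h, P h → Φ h ∈ RB) (hD : ∀ h h', P h → P h' → Φ h = Φ h' → D (h⁻¹ * h'))
    (hfix : ∀ d, D d → ∀ i ∈ C, d • i = i) (hα : ∀ d, D d → α d ∈ RU)
    (hinj : ∀ d d', D d → D d' → α d = α d' → ∀ i ∈ C, M.c d i = M.c d' i) :
    M.Lab C P (RU.card * RB.card) := by
  classical
  let r : B → H := fun b => if h : ∃ h, P h ∧ Φ h = b then h.choose else 1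
  have hr : ∀ h, P h → P (r (Φ h)) ∧ Φ (r (Φ h)) = Φ h := fun h hh => by
    have e : ∃ h', P h' ∧ Φ h' = Φ h := ⟨h, hh, rfl⟩
    simp only [r, dif_pos e]
    exact e.choose_spec
  have hd : ∀ h, P h → D ((r (Φ h))⁻¹ * h) := fun h hh => hD _ _ (hr h hh).1 hh (hr h hh).2
  refine ⟨U × B, fun h => (α ((r (Φ h))⁻¹ * h), Φ h), RU ×ˢ RB, by rw [Finset.card_product],
    fun h hh => Finset.mem_product.2 ⟨hα _ (hd h hh), hΦ h hh⟩, ?_⟩
  intro h h' hh hh' he i hi
  have e1 : Φ h = Φ h' := congrArg Prod.snd he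
  have e2 : α ((r (Φ h))⁻¹ * h) = α ((r (Φ h'))⁻¹ * h') := congrArg Prod.fst he
  have d1 := hd h hh
  have d2 := hd h' hh'
  have e3 := hinj _ _ d1 d2 e2 i hi
  have f1 := hfix _ d1 i hi
  have f2 := hfix _ d2 i hi
  rw [← e1] at e3 f2
  constructor
  · rw [mul_smul, inv_smul_eq_iff] at f1 f2
    rw [f1, f2]
  · have a1 := M.c_mul_fix (r (Φ h)) f1
    have a2 := M.c_mul_fix (r (Φ h)) f2
    rw [mul_inv_cancel_left] at a1 a2
    rw [a1, a2, e3]

/-- Triangular count. -/
theorem tri {C X : Type} [LinearOrder C] [DecidableEq (C → Option X)] (S : Finset (C → X))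
    (k : C → ℕ) (T : Finset C) :
    (∀ j ∈ T, ∀ v₀ ∈ S, ∃ A : Finset X, A.card ≤ k j ∧
      ∀ v ∈ S, (∀ i ∈ T, i < j → v i = v₀ i) → v j ∈ A) →
    (S.image fun v i => if i ∈ T then some (v i) else none).card ≤ ∏ j ∈ T, k j := by
  classical
  induction T using Finset.induction_on_max with
  | empty =>
    intro _
    rw [Finset.prod_empty, Finset.card_le_one]
    intro a ha b hb
    obtain ⟨a, -, rfl⟩ := Finset.mem_image.1 ha
    obtain ⟨b, -, rfl⟩ := Finset.mem_image.1 hb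
    simp
  | insert a s has ih =>
    intro h
    have hna : a ∉ s := fun h => lt_irrefl _ (has a h)
    have ih' := ih fun j hj v₀ hv₀ => by
      obtain ⟨A, hA, hA'⟩ := h j (Finset.mem_insert_of_mem hj) v₀ hv₀
      refine ⟨A, hA, fun v hv hi => hA' v hv fun i hi' hij => ?_⟩
      rcases Finset.mem_insert.1 hi' with rfl | hi'
      · exact absurd (has j hj) (not_lt.2 hij.le)
      · exact hi i hi' hij
    rw [Finset.prod_insert hna]
    refine le_trans ?_ (Nat.mul_le_mul_left _ ih')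
    have e : (S.image fun v i => if i ∈ s then some (v i) else none) =
        (S.image fun v i => if i ∈ insert a s then some (v i) else none).image
          (fun u i => if i ∈ s then u i else none) := by
      rw [Finset.image_image]
      refine Finset.image_congr fun v _ => ?_
      funext i
      by_cases hi : i ∈ s <;> simp [hi]
    rw [e]
    refine Finset.card_le_mul_card_image _ _ fun u hu => ?_
    rw [← e] at hu
    obtain ⟨v₀, hv₀, rfl⟩ := Finset.mem_image.1 hu
    obtain ⟨A, hA, hA'⟩ := h a (Finset.mem_insert_self _ _) v₀ hv₀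
    refine le_trans ?_ ((Finset.card_image_le (f := some)).trans hA)
    refine Finset.card_le_card_of_injOn (fun u => u a) ?_ ?_
    · intro u hu
      obtain ⟨hu1, hu2⟩ := Finset.mem_filter.1 hu
      obtain ⟨v, hv, rfl⟩ := Finset.mem_image.1 hu1
      simp only [Finset.mem_insert_self, if_true, Finset.coe_image]
      refine ⟨v a, hA' v hv fun i hi hia => ?_, rfl⟩
      have hi' : i ∈ s := (Finset.mem_insert.1 hi).resolve_left hia.ne
      have := congrFun hu2 i
      simpa [hi'] using this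
    · intro u hu u' hu' huu
      obtain ⟨hu1, hu2⟩ := Finset.mem_filter.1 hu
      obtain ⟨hu1', hu2'⟩ := Finset.mem_filter.1 hu'
      obtain ⟨v, hv, rfl⟩ := Finset.mem_image.1 hu1
      obtain ⟨v', hv', rfl⟩ := Finset.mem_image.1 hu1'
      funext i
      by_cases hi : i ∈ s
      · have := congrFun (hu2.trans hu2'.symm) i
        simpa [hi] using this
      · by_cases hia : i = a
        · subst hia
          exact huu
        · simp [hi, hia]

theorem tri_univ {C X : Type} [Fintype C] (r : C → ℤ) (hr : Function.Injective r)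
    (S : Finset (C → X)) (k : C → ℕ)
    (h : ∀ j, ∀ v₀ ∈ S, ∃ A : Finset X, A.card ≤ k j ∧
      ∀ v ∈ S, (∀ i, r i < r j → v i = v₀ i) → v j ∈ A) : S.card ≤ ∏ j, k j := by
  classical
  let o : LinearOrder C := LinearOrder.lift' r hr
  have := tri S k Finset.univ (fun j _ v₀ hv₀ => by
    obtain ⟨A, hA, hA'⟩ := h j v₀ hv₀
    exact ⟨A, hA, fun v hv hi => hA' v hv fun i hij => hi i (Finset.mem_univ _) hij⟩)
  rwa [Finset.card_image_of_injective] at this
  intro v v' hv
  funext i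
  simpa using congrFun hv i

theorem count_one {C X : Type} [Fintype C] [Fintype X] [DecidableEq C] (r : C → ℤ)
    (hr : Function.Injective r) (π : Equiv.Perm C) (S : Finset (C → X)) (m s : ℕ)
    (hfix : ∀ i, π i = i → ∃ A : Finset X, A.card ≤ m ∧ ∀ v ∈ S, v i ∈ A)
    (hmov : ∀ i, π i ≠ i → ∀ y : X, ∃ A : Finset X, A.card ≤ s ∧
      ∀ v ∈ S, v i = y → v (π i) ∈ A) :
    S.card ≤ ∏ j, if π j = j then m else if r (π.symm j) < r j then s else Fintype.card X := by
  refine tri_univ r hr S _ fun j v₀ _ => ?_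
  split_ifs with h1 h2
  · obtain ⟨A, hA, hA'⟩ := hfix j h1
    exact ⟨A, hA, fun v hv _ => hA' v hv⟩
  · obtain ⟨A, hA, hA'⟩ := hmov (π.symm j) 
      (by rw [Equiv.apply_symm_apply]; intro e; rw [← e] at h2; exact lt_irrefl _ h2)
      (v₀ (π.symm j))
    refine ⟨A, hA, fun v hv hi => ?_⟩
    have := hA' v hv (hi _ h2)
    rwa [Equiv.apply_symm_apply] at this
  · exact ⟨Finset.univ, le_rfl, fun v _ _ => Finset.mem_univ _⟩

/-- Two-sided triangular count. -/
theorem count_sq {C X : Type} [Fintype C] [Fintype X] (π : Equiv.Perm C) (S : Finset (C → X))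
    (b m s : ℕ) (hm : m * m ≤ b) (hs : Fintype.card X * s ≤ b)
    (hfix : ∀ i, π i = i → ∃ A : Finset X, A.card ≤ m ∧ ∀ v ∈ S, v i ∈ A)
    (hmov : ∀ i, π i ≠ i → ∀ y : X, ∃ A : Finset X, A.card ≤ s ∧
      ∀ v ∈ S, v i = y → v (π i) ∈ A) :
    S.card ^ 2 ≤ b ^ Fintype.card C := by
  classical
  let r : C → ℤ := fun i => ((Fintype.equivFin C i : ℕ) : ℤ)
  have hr : Function.Injective r := fun a b hab =>
    (Fintype.equivFin C).injective (Fin.ext (Nat.cast_injective hab))
  have h1 := count_one r hr π S m s hfix hmov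
  have h2 := count_one (fun i => -r i) (fun a b hab => hr (neg_injective hab)) π S m s hfix hmov
  rw [sq]
  refine (Nat.mul_le_mul h1 h2).trans ?_
  rw [← Finset.prod_mul_distrib, ← Finset.card_univ (α := C), ← Finset.prod_const]
  refine Finset.prod_le_prod' fun j _ => ?_
  by_cases e : π j = j
  · rw [if_pos e, if_pos e]
    exact hm
  · rw [if_neg e, if_neg e]
    have e' : r (π.symm j) ≠ r j := fun h => e (by rw [← hr h, Equiv.apply_symm_apply, hr h])
    rcases lt_or_gt_of_ne e' with h | h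
    · rw [if_pos h, if_neg (by omega), mul_comm]
      exact hs
    · rw [if_neg (by omega), if_pos (by omega)]
      exact hs

/-- Union bound on a block of imprimitivity. -/
theorem LM.comp_count [Finite H] [Finite I] [Finite W] (M : LM H I G W) (hq : QR H)
    (C : Finset I) (hne : C.Nonempty)
    (hC : ∀ h : H, ∀ i ∈ C, h • i ∈ C → ∀ j ∈ C, h • j ∈ C) (T T' : ℕ)
    (hfix : ∀ γ : G, (¬ ∀ y : W, γ • y = (2 : ℤ) • y) → (eig W γ 2 - 1) ^ 2 ≤ Nat.card W - 1)
    (hT : M.Lab C (fun h => ∀ i ∈ C, h • i ∈ C) T) (hT' : M.Lab C (M.Bad C) T')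
    (h1 : T < (Nat.card W - 1) ^ C.card) (h2 : T' ^ 2 < (Nat.card W - 1) ^ C.card) : False := by
  classical
  have := Fintype.ofFinite W
  let X := {y : W // y ≠ 0}
  have hX : Fintype.card X = Nat.card W - 1 := by
    rw [Nat.card_eq_fintype_card, Fintype.card_subtype_compl, Fintype.card_subtype_eq]
  set b := Nat.card W - 1 with hb
  have hCX : Fintype.card (C → X) = b ^ C.card := by
    rw [Fintype.card_fun, hX, Fintype.card_coe]
  let ext : (C → X) → I → W := fun v i => if h : i ∈ C then (v ⟨i, h⟩).1 else 0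
  have hext : ∀ v i (h : i ∈ C), ext v i = (v ⟨i, h⟩).1 := fun v i h => dif_pos h
  have hext0 : ∀ v, ∀ i ∈ C, ext v i ≠ 0 := fun v i h => by rw [hext v i h]; exact (v _).2
  have two_inj : ∀ y y' : W, (2 : ℤ) • y = (2 : ℤ) • y' → y = y' := two_inj M.h17
  -- a vector that is not covered
  obtain ⟨w, hw⟩ : ∃ w : C → X, ∀ x, M.Bad C x →
      ¬ ∀ i ∈ C, M.c x i • ext w i = (2 : ℤ) • ext w (x • i) := by
    by_contra hcon
    push Not at hcon
    obtain ⟨A, Ψ, R, hR, hΨ, hinj⟩ := hT'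
    let Sol : A → Finset (C → X) := fun a => Finset.univ.filter fun w =>
      ∃ x, M.Bad C x ∧ Ψ x = a ∧ ∀ i ∈ C, M.c x i • ext w i = (2 : ℤ) • ext w (x • i)
    have hcov : (Finset.univ : Finset (C → X)) ⊆ R.biUnion Sol := fun w _ => by
      obtain ⟨x, hx, h⟩ := hcon w
      exact Finset.mem_biUnion.2 ⟨Ψ x, hΨ x hx, Finset.mem_filter.2 ⟨Finset.mem_univ _, x, hx, rfl, h⟩⟩
    have hsol : ∀ a ∈ R, (Sol a).card ≤ Nat.sqrt (b ^ C.card) := fun a _ => by
      rw [Nat.le_sqrt']
      rcases (Sol a).eq_empty_or_nonempty with h | ⟨w₀, hw₀⟩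
      · simp [h]
      obtain ⟨x, hx, hxa, -⟩ := (Finset.mem_filter.1 hw₀).2
      have hall : ∀ w ∈ Sol a, ∀ i ∈ C, M.c x i • ext w i = (2 : ℤ) • ext w (x • i) := by
        intro w hw i hi
        obtain ⟨x', hx', hxa', h⟩ := (Finset.mem_filter.1 hw).2
        obtain ⟨e1, e2⟩ := hinj x x' hx hx' (hxa.trans hxa'.symm) i hi
        rw [e1, e2]
        exact h i hi
      let π₀ : C → C := fun i => ⟨x • i.1, hx.2.1 i.1 i.2⟩
      have hπ₀ : Function.Injective π₀ := fun i j hij =>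
        Subtype.ext (MulAction.injective x (congrArg Subtype.val hij))
      let π : Equiv.Perm C := Equiv.ofBijective π₀ (Finite.injective_iff_bijective.1 hπ₀)
      have hπ : ∀ i : C, (π i).1 = x • i.1 := fun _ => rfl
      rw [← Fintype.card_coe C]
      refine count_sq π (Sol a) b (Nat.sqrt b) 1 (Nat.sqrt_le b) (by rw [hX, mul_one]) ?_ ?_
      · intro i hi
        have hi' : x • i.1 = i.1 := congrArg Subtype.val hi
        refine ⟨Finset.univ.filter fun y : X => M.c x i • y.1 = (2 : ℤ) • y.1, ?_, ?_⟩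
        · rw [Nat.le_sqrt']
          refine le_trans (Nat.pow_le_pow_left ?_ 2) (hfix _ (hx.2.2.1 i i.2 hi'))
          have e : eig W (M.c x i) 2 =
              (Finset.univ.filter fun y : W => M.c x i • y = (2 : ℤ) • y).card := by
            rw [eig, Nat.card_eq_fintype_card, Fintype.card_subtype]
          rw [e, ← Finset.card_erase_of_mem (a := (0 : W)) (by simp)]
          refine Finset.card_le_card_of_injOn Subtype.val ?_ Subtype.val_injective.injOn
          intro y hy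
          simp only [Finset.coe_filter, Finset.mem_univ, true_and, Set.mem_ofPred_eq] at hy
          simp only [Finset.coe_erase, Finset.coe_filter, Finset.mem_univ, true_and]
          exact ⟨hy, y.2⟩
        · intro v hv
          have := hall v hv i i.2
          rw [hi', hext v i i.2] at this
          exact Finset.mem_filter.2 ⟨Finset.mem_univ _, this⟩
      · intro i _ y
        refine ⟨Finset.univ.filter fun y' : X => M.c x i • y.1 = (2 : ℤ) • y'.1, ?_, ?_⟩
        · rw [Finset.card_le_one]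
          intro a ha a' ha'
          exact Subtype.ext (two_inj _ _
            ((Finset.mem_filter.1 ha).2.symm.trans (Finset.mem_filter.1 ha').2))
        · intro v hv hy
          have := hall v hv i i.2
          rw [hext v i i.2, hext v _ (hx.2.1 i.1 i.2)] at this
          refine Finset.mem_filter.2 ⟨Finset.mem_univ _, ?_⟩
          rw [← hy]
          exact this
    have h3 := (Finset.card_le_card hcov).trans (Finset.card_biUnion_le_card_mul _ _ _ hsol)
    rw [Finset.card_univ, hCX] at h3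
    have h4 := Nat.sqrt_le' (b ^ C.card)
    set B := b ^ C.card
    set s := Nat.sqrt B
    have h5 : B ≤ T' * s := h3.trans (Nat.mul_le_mul_right _ hR)
    have h6 : B * B ≤ T' ^ 2 * B := by
      calc B * B ≤ (T' * s) * (T' * s) := Nat.mul_le_mul h5 h5
        _ = T' ^ 2 * s ^ 2 := by ring
        _ ≤ T' ^ 2 * B := Nat.mul_le_mul_left _ h4
    have h7 : 0 < B := lt_of_le_of_lt (Nat.zero_le _) h2
    have := Nat.le_of_mul_le_mul_right h6 h7
    omega
  -- a vector in another orbit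
  obtain ⟨u, hu⟩ : ∃ u : C → X, ∀ h : H, (∀ i ∈ C, h • i ∈ C) →
      ¬ ∀ i ∈ C, M.c h i • ext w i = (2 : ℤ) • ext u (h • i) := by
    by_contra hcon
    push Not at hcon
    choose g hg hg' using hcon
    obtain ⟨A, Ψ, R, hR, hΨ, hinj⟩ := hT
    have h3 : (Finset.univ : Finset (C → X)).card ≤ R.card := by
      refine Finset.card_le_card_of_injOn (fun u => Ψ (g u)) (fun u _ => hΨ _ (hg u)) ?_
      intro u _ u' _ huu
      have e := hinj _ _ (hg u) (hg u') huu
      funext j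
      let π₀ : C → C := fun i => ⟨g u • i.1, hg u i.1 i.2⟩
      have hπ₀ : Function.Injective π₀ := fun i j hij =>
        Subtype.ext (MulAction.injective (g u) (congrArg Subtype.val hij))
      obtain ⟨i, rfl⟩ := (Finite.injective_iff_surjective.1 hπ₀) j
      have a1 := hg' u i i.2
      have a2 := hg' u' i i.2
      rw [← (e i i.2).1, ← (e i i.2).2, a1] at a2
      have a3 := two_inj _ _ a2
      rw [hext _ _ (hg u i.1 i.2), hext _ _ (hg u i.1 i.2)] at a3
      exact Subtype.ext a3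
    rw [Finset.card_univ, hCX] at h3
    omega
  obtain ⟨x, x1, x2, x3, x4⟩ := M.comp hq C hne hC (ext w) (ext u) (hext0 w) (hext0 u) hu
  exact hw x ⟨x1, x2, fun i _ hi => x4 i hi, ext w, fun i hi => ⟨hext0 w i hi, x3 i hi⟩⟩ x3

end Pool.Agent.Lib.MP_39e620_al.Full
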