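import Mathlib

/-! Elementary arithmetic of divisors of `17 ^ f - 1`. -/

set_option autoImplicit false

namespace Pool.Agent.Lib.MP_39e620_al.Full

/-- Modulo `N` all squares of units lie in at most `c` cosets `k * 17 ^ e`, one with `k = 1`. -/
def ResK (N f c : ℕ) : Prop :=
  ∃ K : Finset ℕ, K.card ≤ c ∧ 1 ∈ K ∧
    ∀ j : ℕ, j.Coprime N → ∃ k ∈ K, ∃ e < f, j * j ≡ k * 17 ^ e [MOD N]

namespace FArith

theorem ResK_mono {N f c c' : ℕ} (h : ResK N f c) (hc : c ≤ c') : ResK N f c' := by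
  obtain ⟨K, h1, h2, h3⟩ := h
  exact ⟨K, h1.trans hc, h2, h3⟩

theorem grow (A B k f0 : ℕ) (hk : 3 ^ k ≤ 17 * 2 ^ k) (hf0 : 2 ≤ f0)
    (h0 : A * f0 ^ k + B ≤ 17 ^ f0) {f : ℕ} (hf : f0 ≤ f) : A * f ^ k + B ≤ 17 ^ f := by
  induction f, hf using Nat.le_induction with
  | base => exact h0
  | succ f hf ih =>
    have h1 : (2 * (f + 1)) ^ k ≤ (3 * f) ^ k := Nat.pow_le_pow_left (by omega) k
    rw [mul_pow, mul_pow] at h1
    have h2 : 2 ^ k * (f + 1) ^ k ≤ 2 ^ k * (17 * f ^ k) :=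
      h1.trans (by rw [← mul_assoc, mul_comm (2 ^ k) 17]; exact Nat.mul_le_mul_right _ hk)
    have h3 : (f + 1) ^ k ≤ 17 * f ^ k := Nat.le_of_mul_le_mul_left h2 (by positivity)
    have h4 : A * (f + 1) ^ k ≤ A * (17 * f ^ k) := Nat.mul_le_mul_left _ h3
    rw [pow_succ 17 f]
    nlinarith

theorem pow_modEq {N f : ℕ} (hN : N ∣ 17 ^ f - 1) : 17 ^ f ≡ 1 [MOD N] :=
  ((Nat.modEq_iff_dvd' (Nat.one_le_pow _ _ (by norm_num))).2 hN).symm

theorem pow_mod_modEq {N f : ℕ} (hN : N ∣ 17 ^ f - 1) (n : ℕ) :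
    17 ^ n ≡ 17 ^ (n % f) [MOD N] := by
  conv_lhs => rw [← Nat.div_add_mod n f, pow_add, pow_mul]
  simpa using ((pow_modEq hN).pow (n / f)).mul_right (17 ^ (n % f))

theorem card_le {N f c : ℕ} (hf : 1 ≤ f) (hN : N ∣ 17 ^ f - 1) (h : ResK N f c) (J : Finset ℕ)
    (hJ : ∀ j ∈ J, j.Coprime N) :
    ((Finset.range f ×ˢ J).image fun x : ℕ × ℕ => 17 ^ x.1 * (x.2 * x.2) % N).card ≤ c * f := by
  obtain ⟨K, h1, -, h3⟩ := h
  have hsub : ((Finset.range f ×ˢ J).image fun x : ℕ × ℕ => 17 ^ x.1 * (x.2 * x.2) % N) ⊆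
      (K ×ˢ Finset.range f).image fun x : ℕ × ℕ => x.1 * 17 ^ x.2 % N := by
    intro r hr
    obtain ⟨⟨a, j⟩, hx, rfl⟩ := Finset.mem_image.1 hr
    obtain ⟨k, hk, e, -, he⟩ := h3 j (hJ j (Finset.mem_product.1 hx).2)
    refine Finset.mem_image.2 ⟨(k, (a + e) % f), Finset.mem_product.2
      ⟨hk, Finset.mem_range.2 (Nat.mod_lt _ hf)⟩, ?_⟩
    have h4 : 17 ^ a * (j * j) ≡ k * 17 ^ (a + e) [MOD N] := by
      have := he.mul_left (17 ^ a)
      rwa [mul_left_comm (17 ^ a) k, ← pow_add] at this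
    exact (h4.trans ((pow_mod_modEq hN (a + e)).mul_left k)).symm
  refine (Finset.card_le_card hsub).trans (Finset.card_image_le.trans ?_)
  rw [Finset.card_product, Finset.card_range]
  exact Nat.mul_le_mul_right _ h1

theorem no72 : ¬ ResK 72 2 2 := fun h =>
  absurd (card_le (by norm_num) (by norm_num) h {1, 5, 7} (by decide +kernel)) (by decide +kernel)

theorem no96 : ¬ ResK 96 2 2 := fun h =>
  absurd (card_le (by norm_num) (by norm_num) h {1, 5, 7} (by decide +kernel)) (by decide +kernel)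

theorem no144 : ¬ ResK 144 2 3 := fun h =>
  absurd (card_le (by norm_num) (by norm_num) h {1, 5, 7, 11} (by decide +kernel))
    (by decide +kernel)

theorem no288 : ¬ ResK 288 2 4 := fun h =>
  absurd (card_le (by norm_num) (by norm_num) h {1, 5, 7, 11, 13} (by decide +kernel))
    (by decide +kernel)

theorem no2456 : ¬ ResK 2456 3 3 := fun h =>
  absurd (card_le (by norm_num) (by norm_num) h {1, 3, 5, 7} (by decide +kernel))
    (by decide +kernel)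

theorem no4912 : ¬ ResK 4912 3 3 := fun h =>
  absurd (card_le (by norm_num) (by norm_num) h {1, 3, 5, 7} (by decide +kernel))
    (by decide +kernel)

theorem no83520 : ¬ ResK 83520 4 3 := fun h =>
  absurd (card_le (by norm_num) (by norm_num) h {1, 7, 11, 13} (by decide +kernel))
    (by decide +kernel)

theorem two_part {a f : ℕ} (hf : 1 ≤ f) (h : 2 ^ a ∣ 17 ^ f - 1) : 2 ^ a ≤ 16 * f := by
  have h1 : (2 : ℤ) ^ a ∣ 17 ^ f - 1 ^ f := by
    have := Int.natCast_dvd_natCast.2 h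
    rw [Nat.cast_sub (Nat.one_le_pow _ _ (by norm_num))] at this
    simpa using this
  have h2 := Int.two_pow_sub_pow' (x := 17) (y := 1) f (by norm_num) (by norm_num)
  rw [← emultiplicity_mul Int.prime_two] at h2
  have h3 : (2 : ℤ) ^ a ∣ (17 - 1) * (f : ℤ) := by
    rw [pow_dvd_iff_le_emultiplicity, ← h2, ← pow_dvd_iff_le_emultiplicity]
    exact h1
  have h4 := Int.le_of_dvd (by positivity) h3
  have : ((2 ^ a : ℕ) : ℤ) ≤ ((16 * f : ℕ) : ℤ) := by push_cast; linarith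
  exact_mod_cast this

theorem cop_aux {a o : ℕ} (ho : Odd o) (s : ℕ) : (2 ^ (s + 1) + o).Coprime (2 ^ a * o) := by
  refine Nat.Coprime.mul_right (Nat.Coprime.pow_right _ ?_) ?_
  · rw [Nat.coprime_two_right]
    exact (Even.add_odd (by simp [Nat.even_pow]) ho)
  · rw [Nat.coprime_add_self_left]
    exact Nat.Coprime.pow_left _ (Nat.coprime_two_left.2 ho)

theorem sq_mod {a o f : ℕ} (ho : Odd o) {K : Finset ℕ}
    (h : ∀ j : ℕ, j.Coprime (2 ^ a * o) → ∃ k ∈ K, ∃ e < f, j * j ≡ k * 17 ^ e [MOD 2 ^ a * o])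
    (s : ℕ) : ∃ k ∈ K, ∃ e < f, 2 ^ (s + 1) * 2 ^ (s + 1) ≡ k * 17 ^ e [MOD o] := by
  obtain ⟨k, hk, e, he, h1⟩ := h _ (cop_aux ho s)
  refine ⟨k, hk, e, he, Nat.ModEq.trans ?_ (h1.of_mul_left _)⟩
  have : 2 ^ (s + 1) ≡ 2 ^ (s + 1) + o [MOD o] := by simp [Nat.ModEq]
  exact this.mul this

theorem key {a o f : ℕ} (hf : 1 ≤ f) (ho : Odd o) (hN : o ∣ 17 ^ f - 1)
    (h : ResK (2 ^ a * o) f 2) : ∃ b < f, 16 ≡ 17 ^ b [MOD o] := by
  obtain ⟨K, h1, h2, h3⟩ := h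
  obtain ⟨k1, hk1, e1, he1, h4⟩ := sq_mod ho h3 0
  obtain ⟨k2, hk2, e2, he2, h5⟩ := sq_mod ho h3 1
  norm_num at h4 h5
  have fin : ∀ n, 4 ≡ 17 ^ n [MOD o] → ∃ b < f, 16 ≡ 17 ^ b [MOD o] := fun n hn =>
    ⟨(n + n) % f, Nat.mod_lt _ hf, by
      have := hn.mul hn
      rw [← pow_add] at this
      exact this.trans (pow_mod_modEq hN _)⟩
  by_cases c2 : k2 = 1
  · exact ⟨e2, he2, by simpa [c2] using h5⟩
  by_cases c1 : k1 = 1
  · exact fin e1 (by simpa [c1] using h4)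
  have c3 : k1 = k2 := by
    by_contra c3
    have : ({1, k1, k2} : Finset ℕ) ⊆ K := by
      intro x hx
      simp only [Finset.mem_insert, Finset.mem_singleton] at hx
      rcases hx with rfl | rfl | rfl <;> assumption
    have h6 := Finset.card_le_card this
    rw [Finset.card_eq_three.2 ⟨1, k1, k2, Ne.symm c1, Ne.symm c2, c3, rfl⟩] at h6
    omega
  subst c3
  refine fin (e2 + (f - e1)) ?_
  have h6 : 4 * 17 ^ (e2 + (f - e1)) ≡ 4 * 4 [MOD o] := by
    have a1 := h4.mul_right (17 ^ (e2 + (f - e1)))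
    have a2 : k1 * 17 ^ e1 * 17 ^ (e2 + (f - e1)) = k1 * 17 ^ e2 * 17 ^ f := by
      rw [mul_assoc, mul_assoc, ← pow_add, ← pow_add]
      congr 2
      omega
    rw [a2] at a1
    have a3 := h5.symm.mul (pow_modEq hN)
    exact a1.trans (by simpa using a3)
  have h7 : Nat.gcd o 4 = 1 := by
    have : Nat.Coprime o (2 ^ 2) := Nat.Coprime.pow_right _ (Nat.coprime_two_right.2 ho)
    simpa using this
  exact (Nat.ModEq.cancel_left_of_coprime h7 h6).symm

theorem small_check : ∀ f ∈ Finset.Icc 3 8, ∀ b ∈ Finset.range f,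
    16 * f * Nat.gcd (17 ^ f - 1) (16 * 17 ^ (f - b) - 1) * ((f - 1) ^ 2 + f ^ 2) <
      17 ^ f - 1 := by
  decide +kernel

end FArith

open FArith

theorem arith_f1_c1 {N : ℕ} (hN : N ∣ 16) (h : ResK N 1 1) : N ≤ 8 := by
  obtain ⟨d, hd⟩ := id hN
  rcases Nat.lt_or_ge d 2 with h1 | h1
  · have h2 : N = 16 := by interval_cases d <;> omega
    subst h2
    exact absurd (card_le le_rfl (by norm_num) h {1, 3} (by decide +kernel)) (by decide +kernel)
  · nlinarith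

theorem arith_f1 {c : ℕ} (hc : 6 ≤ c) : (16 * 3 ^ (c - 1)) ^ 2 < 16 ^ c := by
  induction c, hc using Nat.le_induction with
  | base => norm_num
  | succ c hc ih =>
    obtain ⟨d, rfl⟩ : ∃ d, c = d + 1 := ⟨c - 1, by omega⟩
    simp only [Nat.add_sub_cancel] at ih ⊢
    rw [pow_succ 3 d, pow_succ 16 (d + 1)]
    nlinarith

theorem arith_c2 {N f : ℕ} (hf : 2 ≤ f) (hN : N ∣ 17 ^ f - 1) (h : ResK N f 2) :
    N * ((f - 1) ^ 2 + f ^ 2) < 17 ^ f - 1 := by
  rcases hf.eq_or_lt with rfl | hf3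
  · norm_num at hN ⊢
    obtain ⟨d, hd⟩ := id hN
    rcases Nat.lt_or_ge d 5 with h1 | h1
    · exfalso
      interval_cases d
      · omega
      · exact no288 (ResK_mono ((show N = 288 by omega) ▸ h) (by norm_num))
      · exact no144 (ResK_mono ((show N = 144 by omega) ▸ h) (by norm_num))
      · exact no96 ((show N = 96 by omega) ▸ h)
      · exact no72 ((show N = 72 by omega) ▸ h)
    · have : N * 5 ≤ 288 := by rw [hd]; exact Nat.mul_le_mul_left _ h1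
      omega
  have hQ : 0 < 17 ^ f - 1 := by
    have := Nat.one_lt_pow (n := f) (a := 17) (by omega) (by norm_num)
    omega
  obtain ⟨a, o, ho, rfl⟩ := Nat.exists_eq_two_pow_mul_odd (n := N) (by rintro rfl; simp at hN; omega)
  have ha := two_part (by omega) ((Dvd.intro _ rfl).trans hN)
  have hoN : o ∣ 17 ^ f - 1 := (Dvd.intro_left _ rfl).trans hN
  obtain ⟨b, hb, h16⟩ := key (by omega) ho hoN h
  have hp : ∀ n : ℕ, 1 ≤ 17 ^ n := fun n => Nat.one_le_pow _ _ (by norm_num)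
  have h1 : o ∣ 16 * 17 ^ (f - b) - 1 := by
    refine (Nat.modEq_iff_dvd' (by have := hp (f - b); omega)).1 (Nat.ModEq.symm ?_)
    have := h16.mul_right (17 ^ (f - b))
    rw [← pow_add, Nat.add_sub_cancel' hb.le] at this
    exact this.trans (pow_modEq hoN)
  rcases Nat.lt_or_ge f 9 with h9 | h9
  · have h2 := small_check f (Finset.mem_Icc.2 ⟨hf3, by omega⟩) b (Finset.mem_range.2 hb)
    have h3 := Nat.le_of_dvd (Nat.gcd_pos_of_pos_left _ hQ) (Nat.dvd_gcd hoN h1)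
    exact lt_of_le_of_lt (Nat.mul_le_mul_right _ (Nat.mul_le_mul ha h3)) h2
  have h2 : o ≤ 16 * 17 ^ (f / 2) := by
    rcases Nat.lt_or_ge (f / 2) b with h3 | h3
    · have h4 := Nat.le_of_dvd (by have := hp (f - b); omega) h1
      have h5 : 17 ^ (f - b) ≤ 17 ^ (f / 2) := Nat.pow_le_pow_right (by norm_num) (by omega)
      omega
    · have h5 : 17 ^ b ≤ 17 ^ (f / 2) := Nat.pow_le_pow_right (by norm_num) h3
      have h6 := hp (f / 2)
      rcases Nat.eq_zero_or_pos b with rfl | hb0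
      · have := Nat.le_of_dvd (by norm_num) ((Nat.modEq_iff_dvd' (by norm_num)).1 h16.symm)
        omega
      · have h7 : 17 ^ 1 ≤ 17 ^ b := Nat.pow_le_pow_right (by norm_num) hb0
        have := Nat.le_of_dvd (by omega) ((Nat.modEq_iff_dvd' (by omega)).1 h16)
        omega
  have h3 := grow 4096 2 3 5 (by norm_num) (by norm_num) (by norm_num) (f := f - f / 2) (by omega)
  have h4 : 17 ^ f = 17 ^ (f - f / 2) * 17 ^ (f / 2) := by
    rw [← pow_add]; congr 1; omega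
  have h5 : (f - 1) ^ 2 + f ^ 2 ≤ 2 * f ^ 2 := by
    have : (f - 1) ^ 2 ≤ f ^ 2 := Nat.pow_le_pow_left (by omega) 2
    omega
  have h6 : f ^ 3 ≤ (2 * (f - f / 2)) ^ 3 := Nat.pow_le_pow_left (by omega) 3
  have h7 : 2 ^ a * o * ((f - 1) ^ 2 + f ^ 2) ≤ 16 * f * (16 * 17 ^ (f / 2)) * (2 * f ^ 2) :=
    Nat.mul_le_mul (Nat.mul_le_mul ha h2) h5
  have h8 : (512 * f ^ 3 + 2) * 17 ^ (f / 2) ≤ 17 ^ (f - f / 2) * 17 ^ (f / 2) :=
    Nat.mul_le_mul_right _ (by rw [mul_pow] at h6; omega)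
  have h9 := hp (f / 2)
  have h10 : 16 * f * (16 * 17 ^ (f / 2)) * (2 * f ^ 2) + 2 * 17 ^ (f / 2) =
      (512 * f ^ 3 + 2) * 17 ^ (f / 2) := by ring
  omega

theorem arith_c1 {N f : ℕ} (hf : 2 ≤ f) (hN : N ∣ 17 ^ f - 1) (h : ResK N f 1) :
    N * f < 17 ^ f - 1 :=
  lt_of_le_of_lt (Nat.mul_le_mul_left _ (by nlinarith [Nat.zero_le ((f - 1) ^ 2)]))
    (arith_c2 hf hN (ResK_mono h (by norm_num)))

theorem arith_c1' {N g : ℕ} (hg : 1 ≤ g) (hN : N ∣ 17 ^ (2 * g) - 1) (h : ResK N (2 * g) 1) :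
    ¬ 17 ^ g + 1 ∣ 8 * N := by
  intro hd
  have hQ := Nat.one_lt_pow (n := 2 * g) (a := 17) (by omega) (by norm_num)
  obtain ⟨a, o, ho, rfl⟩ := Nat.exists_eq_two_pow_mul_odd (n := N) (by rintro rfl; simp at hN; omega)
  obtain ⟨K, h1, h2, h3⟩ := h
  obtain ⟨k, hk, e, he, h4⟩ := sq_mod ho h3 0
  have hk1 : k = 1 := Finset.card_le_one.1 h1 k hk 1 h2
  subst hk1
  norm_num at h4
  have h5 : 17 ^ g % 4 = 1 := by rw [Nat.pow_mod]; norm_num
  obtain ⟨M, hM, hMo⟩ : ∃ M, 17 ^ g + 1 = 2 * M ∧ Odd M :=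
    ⟨(17 ^ g + 1) / 2, by omega, Nat.odd_iff.2 (by omega)⟩
  have h6 : M ∣ o := by
    have h7 : M ∣ 2 ^ (3 + a) * o := by
      rw [pow_add, mul_assoc]
      exact (Dvd.intro_left 2 hM.symm).trans hd
    exact (Nat.Coprime.pow_right _ (Nat.coprime_two_right.2 hMo)).dvd_of_dvd_mul_left h7
  have h7 := h4.of_dvd h6
  obtain ⟨g', rfl⟩ : ∃ g', g = g' + 1 := ⟨g - 1, by omega⟩
  have hp : ∀ n : ℕ, 1 ≤ 17 ^ n := fun n => Nat.one_le_pow _ _ (by norm_num)
  have h8 := hp g'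
  have hM' := hM
  rw [pow_succ] at hM'
  rcases Nat.lt_or_ge e (g' + 1) with h9 | h9
  · have h10 : 17 ^ e ≤ 17 ^ g' := Nat.pow_le_pow_right (by norm_num) (by omega)
    have h11 : 17 ^ e % 2 = 1 := by rw [Nat.pow_mod]; norm_num
    have := h7.eq_of_lt_of_lt (by omega) (by omega)
    omega
  · obtain ⟨d, rfl⟩ : ∃ d, e = d + (g' + 1) := ⟨e - (g' + 1), by omega⟩
    have h10 : 17 ^ d ≤ 17 ^ g' := Nat.pow_le_pow_right (by norm_num) (by omega)
    have h11 : M ∣ 4 + 17 ^ d := by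
      have h12 := h7.add_right (17 ^ d)
      have h13 : 17 ^ (d + (g' + 1)) + 17 ^ d = M * (2 * 17 ^ d) := by
        rw [pow_add, ← Nat.mul_add_one, hM]; ring
      rw [h13] at h12
      exact (Nat.modEq_zero_iff_dvd.1 (h12.trans (Nat.modEq_zero_iff_dvd.2 (Dvd.intro _ rfl))))
    have := Nat.le_of_dvd (by positivity) h11
    omega

theorem arith_c2' {f : ℕ} (hf : 1 ≤ f) : 2 * f ^ 2 < 17 ^ f - 1 := by
  rcases hf.eq_or_lt with rfl | h2
  · norm_num
  · have := grow 2 2 2 2 (by norm_num) le_rfl (by norm_num) (f := f) h2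
    omega

theorem arith_c3 {N f c p : ℕ} (hf : 2 ≤ f) (hc : 3 ≤ c) (hN : N ∣ 17 ^ f - 1) (h : ResK N f c)
    (hp : p ≤ c.factorial) (hp' : p ≤ 3 ^ (c - 1)) :
    (N * (f ^ c * p)) ^ 2 < (17 ^ f - 1) ^ c := by
  have hQ : 0 < 17 ^ f - 1 := by
    have := Nat.one_lt_pow (n := f) (a := 17) (by omega) (by norm_num)
    omega
  have mono : ∀ N' p' : ℕ, N ≤ N' → p ≤ p' → (N' * (f ^ c * p')) ^ 2 < (17 ^ f - 1) ^ c →
      (N * (f ^ c * p)) ^ 2 < (17 ^ f - 1) ^ c := fun N' p' h1 h2 h3 =>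
    lt_of_le_of_lt (Nat.pow_le_pow_left (Nat.mul_le_mul h1 (Nat.mul_le_mul_left _ h2)) 2) h3
  have hNQ := Nat.le_of_dvd hQ hN
  obtain ⟨d, hd⟩ := id hN
  have hd0 : d ≠ 0 := by rintro rfl; omega
  have hd2 : N ≠ 17 ^ f - 1 → N * 2 ≤ 17 ^ f - 1 := fun h1 => by
    have : d ≠ 1 := by rintro rfl; omega
    rw [hd]; exact Nat.mul_le_mul_left _ (by omega)
  have hd3 : N ≠ 17 ^ f - 1 → N * 2 ≠ 17 ^ f - 1 → N * 3 ≤ 17 ^ f - 1 := fun h1 h2 => by
    have : d ≠ 1 := by rintro rfl; omega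
    have : d ≠ 2 := by rintro rfl; omega
    rw [hd]; exact Nat.mul_le_mul_left _ (by omega)
  clear hd hd0
  rcases hc.eq_or_lt with rfl | hc4
  · rcases Nat.lt_or_ge f 5 with h5 | h5
    · interval_cases f
      · have h1 : N ≠ 288 := by rintro rfl; exact no288 (ResK_mono h (by norm_num))
        have h2 : N ≠ 144 := by rintro rfl; exact no144 h
        exact mono 96 _ (by omega) hp (by decide +kernel)
      · have h1 : N ≠ 4912 := by rintro rfl; exact no4912 h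
        have h2 : N ≠ 2456 := by rintro rfl; exact no2456 h
        exact mono 1638 _ (by omega) hp (by decide +kernel)
      · have h1 : N ≠ 83520 := by rintro rfl; exact no83520 h
        exact mono 41760 _ (by omega) hp (by decide +kernel)
    · refine mono _ _ hNQ hp ?_
      have h1 := grow 36 2 6 5 (by norm_num) (by norm_num) (by norm_num) h5
      have h2 : 36 * f ^ 6 < 17 ^ f - 1 := by omega
      generalize 17 ^ f - 1 = Q at h2 hQ
      calc (Q * (f ^ 3 * Nat.factorial 3)) ^ 2 = Q ^ 2 * (36 * f ^ 6) := by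
            simp only [Nat.factorial]; ring
        _ < Q ^ 2 * Q := Nat.mul_lt_mul_of_pos_left h2 (by positivity)
        _ = Q ^ 3 := by ring
  rcases (show 4 = c ∨ 5 ≤ c by omega) with rfl | hc5
  · rcases hf.eq_or_lt with rfl | h3
    · have h1 : N ≠ 288 := by rintro rfl; exact no288 h
      exact mono 144 _ (by omega) hp (by decide +kernel)
    · refine mono _ _ hNQ hp ?_
      have h1 := grow 24 2 4 3 (by norm_num) (by norm_num) (by norm_num) h3
      have h2 : 24 * f ^ 4 < 17 ^ f - 1 := by omega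
      generalize 17 ^ f - 1 = Q at h2 hQ
      calc (Q * (f ^ 4 * Nat.factorial 4)) ^ 2 = Q ^ 2 * (24 * f ^ 4) ^ 2 := by
            simp only [Nat.factorial]; ring
        _ < Q ^ 2 * Q ^ 2 :=
            Nat.mul_lt_mul_of_pos_left (Nat.pow_lt_pow_left h2 (by norm_num)) (by positivity)
        _ = Q ^ 4 := by ring
  refine mono _ _ hNQ hp' ?_
  have h1 := grow 18 1 4 2 (by norm_num) le_rfl (by norm_num) hf
  have h2 : 18 * f ^ 4 ≤ 17 ^ f - 1 := by omega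
  clear mono hd2 hd3 hNQ hN h hp hp' h1 hc hc4
  generalize 17 ^ f - 1 = Q at h2 hQ
  have h4 : 4 ≤ f ^ 2 := by nlinarith
  have h5 : 9 * f ^ 2 ≤ Q := by
    have : f ^ 4 = f ^ 2 * f ^ 2 := by ring
    nlinarith
  induction c, hc5 using Nat.le_induction with
  | base =>
    have h6 : (18 * f ^ 4) ^ 3 ≤ Q ^ 3 := Nat.pow_le_pow_left h2 3
    have h7 : 0 < f ^ 10 := by positivity
    have h8 : 6561 * f ^ 10 < (18 * f ^ 4) ^ 3 := by
      have : (18 * f ^ 4) ^ 3 = 5832 * f ^ 2 * f ^ 10 := by ring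
      rw [this]
      exact Nat.mul_lt_mul_of_pos_right (by omega) h7
    calc (Q * (f ^ 5 * 3 ^ (5 - 1))) ^ 2 = Q ^ 2 * (6561 * f ^ 10) := by norm_num; ring
      _ < Q ^ 2 * Q ^ 3 := Nat.mul_lt_mul_of_pos_left (h8.trans_le h6) (by positivity)
      _ = Q ^ 5 := by ring
  | succ c hc ih =>
    obtain ⟨d, rfl⟩ : ∃ d, c = d + 1 := ⟨c - 1, by omega⟩
    simp only [Nat.add_sub_cancel] at ih ⊢
    calc (Q * (f ^ (d + 1 + 1) * 3 ^ (d + 1))) ^ 2
        = (Q * (f ^ (d + 1) * 3 ^ d)) ^ 2 * (9 * f ^ 2) := by ring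
      _ ≤ (Q * (f ^ (d + 1) * 3 ^ d)) ^ 2 * Q := Nat.mul_le_mul_left _ h5
      _ < Q ^ (d + 1) * Q := Nat.mul_lt_mul_of_pos_right ih hQ
      _ = Q ^ (d + 1 + 1) := by ring

end Pool.Agent.Lib.MP_39e620_al.Full
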