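import Pool.Agent.Lib.MP_39e620_al.FCyc2

set_option autoImplicit false

namespace Pool.Agent.Lib.MP_39e620_al.Full

section model
variable {H I G K W : Type} [Group H] [MulAction H I] [Group G] [Field K] [AddCommGroup W]
  [DistribMulAction G W] {M : LM H I G W} {D : CycD G K W} {f : ℕ} {C : Finset I} {i₀ : I}
  {U : Subgroup Kˣ}

theorem Comp.resK [Finite K] (h : Comp M D f C i₀ U) : ResK (Nat.card U) f C.card := by
  classical
  obtain ⟨u, hu⟩ := IsCyclic.exists_ofOrder_eq_natCard (α := U)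
  obtain ⟨d, hd, hdu⟩ := (h.memU u).1 u.2
  have ho : orderOf (D.α (M.c d i₀)) = Nat.card U := by rw [hdu, Subgroup.orderOf_coe, hu]
  have hk : ∀ j, ∃ k : ℕ, (j = i₀ → k = 1) ∧
      (j ∈ C → D.α (M.c d j) = D.α (M.c d i₀) ^ k) := fun j => by
    by_cases hj : j = i₀
    · exact ⟨1, fun _ => rfl, fun _ => by rw [hj, pow_one]⟩
    by_cases hj' : j ∈ C
    · obtain ⟨θ, hθ⟩ := h.aut j hj'
      obtain ⟨k, hk⟩ := aut_pow θ.toMonoidHom
      exact ⟨k, fun e => absurd e hj, fun _ => (hθ d hd).trans (hk _)⟩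
    · exact ⟨1, fun _ => rfl, fun e => absurd e hj'⟩
  choose κ h1 h2 using hk
  refine ⟨C.image κ, Finset.card_image_le, Finset.mem_image.2 ⟨i₀, h.mem, h1 _ rfl⟩,
    fun j hj => ?_⟩
  obtain ⟨i, hi, e, he, h3⟩ := h.res j hj
  refine ⟨κ i, Finset.mem_image_of_mem _ hi, e, he, ?_⟩
  have h4 := h3 d hd
  rw [h2 i hi, ← pow_mul, pow_eq_pow_iff_modEq, ho] at h4
  exact h4.symm

theorem lin_of_eq {h h' : H} {i : I} (h1 : h • i = h' • i)
    (h2 : D.σ (M.c h i) = D.σ (M.c h' i)) : Lin M D (h⁻¹ * h') i :=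
  ⟨by rw [mul_smul, ← h1, inv_smul_smul], by
    rw [M.coc, ← h1, M.c_inv, map_mul, map_inv, h2, inv_mul_cancel]⟩

theorem Comp.lab [FaithfulSMul G W] (h : Comp M D f C i₀ U) {π : H → Equiv.Perm C}
    (hπ : ∀ x : H, (∀ i ∈ C, x • i ∈ C) → ∀ i : C, (π x i : I) = x • i.1) (P : H → Prop)
    (hP : ∀ x, P x → ∀ i ∈ C, x • i ∈ C) (RB : Finset (Equiv.Perm C × (C → (K ≃+* K))))
    (hRB : ∀ x, P x → (π x, fun i : C => D.σ (M.c x i)) ∈ RB) (RU : Finset Kˣ)
    (hRU : ∀ x x', P x → P x' → (∀ i ∈ C, x • i = x' • i) → (∀ i ∈ C, Lin M D (x⁻¹ * x') i) →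
      D.α (M.c (x⁻¹ * x') i₀) ∈ RU) : M.Lab C P (RU.card * RB.card) := by
  refine M.lab_of_kernel C P (fun x => (π x, fun i : C => D.σ (M.c x i))) RB
    (fun d => D.α (M.c d i₀)) RU (fun d => (∀ i ∈ C, Lin M D d i) ∧ D.α (M.c d i₀) ∈ RU) hRB
    ?_ (fun d hd i hi => (hd.1 i hi).1) (fun d hd => hd.2) ?_
  · intro x x' hx hx' he
    have e1 : ∀ i ∈ C, x • i = x' • i := fun i hi => by
      rw [← hπ x (hP x hx) ⟨i, hi⟩, ← hπ x' (hP x' hx') ⟨i, hi⟩, (Prod.mk.inj he).1]
    have e2 : ∀ i ∈ C, Lin M D (x⁻¹ * x') i := fun i hi =>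
      lin_of_eq (e1 i hi) (congrFun (Prod.mk.inj he).2 ⟨i, hi⟩)
    exact ⟨e2, hRU x x' hx hx' e1 e2⟩
  · intro d d' hd hd' he i hi
    obtain ⟨θ, hθ⟩ := h.aut i hi
    exact D.ext' ((hd.1 i hi).2.trans (hd'.1 i hi).2.symm) (by rw [hθ d hd.1, hθ d' hd'.1, he])

theorem bad_der {x : H} (hx : M.Bad C x) {i : I} (hi : i ∈ C) (h : x • i = i) :
    D.σ (M.c x i) ≠ 1 := by
  obtain ⟨-, -, h1, w, hw⟩ := hx
  intro h2
  have h3 := (hw i hi).2
  rw [h] at h3
  exact h1 i hi h (D.scalar h2 (hw i hi).1 h3)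

/-- Components with one block over a proper extension field. -/
theorem Comp.single [Finite K] (hf : GalD K f) (h : Comp M D f {i₀} i₀ U)
    (hcov : ∀ w : W, w ≠ 0 → ∃ x, M.Bad {i₀} x ∧ M.c x i₀ • w = (2 : ℤ) • w) : False := by
  have hfix : ∀ x, M.Bad {i₀} x → x • i₀ = i₀ := fun x hx =>
    Finset.mem_singleton.1 (hx.2.1 i₀ h.mem)
  have key : ∀ a : Kˣ, ∃ (x : H) (g m : ℕ), x • i₀ = i₀ ∧ 1 ≤ g ∧ f = 2 * g ∧
      (∀ y, D.σ (M.c x i₀) y = y ^ 17 ^ g) ∧
      (a : K) ^ 17 ^ g * D.α (M.c x i₀) = (2 : K) ^ m * a := fun a => by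
    obtain ⟨x, hx, h1⟩ := hcov (D.φ a) (by simp)
    have h2 : Two (D.σ (M.c x i₀)) := by
      obtain ⟨k, hk⟩ := M.two_c hx.1 (hfix x hx)
      exact ⟨k, by rw [← map_pow, hk, map_one]⟩
    obtain ⟨k, h3, h4⟩ := exists_invol (bad_der (D := D) hx h.mem (hfix x hx)) h2
    rw [← map_pow, ← M.c_pow (hfix x hx)] at h3 h4
    obtain ⟨g, g1, g2, g3⟩ := hf.invol h3 h4
    refine ⟨x ^ 2 ^ k, g, 2 ^ k, pow_fix (hfix x hx) _, g1, g2, g3, ?_⟩
    have h5 := pow_eig h1 (2 ^ k)
    rw [← M.c_pow (hfix x hx), D.eq_iff, g3] at h5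
    exact_mod_cast h5
  obtain ⟨t, ht⟩ := IsCyclic.exists_ofOrder_eq_natCard (α := Kˣ)
  obtain ⟨x, g, m, x1, g1, g2, x2, x3⟩ := key 1
  obtain ⟨y, g', m', y1, -, g2', y2, y3⟩ := key t
  obtain rfl : g' = g := by omega
  subst g2
  have hl : Lin M D (x⁻¹ * y) i₀ := lin_of_eq (x1.trans y1.symm) (by ext a; rw [x2, y2])
  have hu : D.α (M.c (x⁻¹ * y) i₀) ∈ U :=
    (h.memU _).2 ⟨_, fun i hi => by rw [Finset.mem_singleton.1 hi]; exact hl, rfl⟩
  have e1 := M.c_mul_fix x hl.1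
  rw [mul_inv_cancel_left] at e1
  have e2 := congrArg Units.val (D.α_mul (M.c x i₀) (M.c (x⁻¹ * y) i₀))
  rw [← e1, Units.val_mul, ua_val, x2] at e2
  have e3 : ((D.α (M.c (x⁻¹ * y) i₀) : Kˣ) : K) ^ Nat.card U = 1 := by
    rw [← Units.val_pow_eq_pow_val, orderOf_dvd_iff_pow_eq_one.1 (U.orderOf_dvd_natCard hu),
      Units.val_one]
  have e4 : (2 : K) ^ 8 = 1 := by
    have := (D.eq_iff 1 1 1 256).1 (by
      rw [one_smul, zsmul_mod M.h17 (b := 1) (by norm_num), one_smul])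
    have h1 := (D.eq_iff 1 1 1 1).1 (by rw [one_smul, one_smul])
    rw [h1] at this
    push_cast at this
    linear_combination -this
  rw [Units.val_one, one_pow, one_mul, mul_one] at x3
  rw [e2, x3] at y3
  have e5 := congrArg (· ^ (8 * Nat.card U)) y3
  have p1 : ∀ n : ℕ, ((2 : K) ^ n) ^ (8 * Nat.card U) = 1 := fun n => by
    rw [← pow_mul, mul_comm n, pow_mul, pow_mul, e4, one_pow, one_pow]
  have p2 : (((D.α (M.c (x⁻¹ * y) i₀) : Kˣ) : K) ^ 17 ^ g') ^ (8 * Nat.card U) = 1 := by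
    rw [← pow_mul, ← mul_assoc, mul_comm, pow_mul, e3, one_pow]
  simp only [mul_pow, p1, p2, mul_one, one_mul] at e5
  have e6 : t ^ (8 * Nat.card U * (17 ^ g' - 1)) = 1 := by
    rw [pow_mul]
    apply pow_sub_of
    rw [Units.val_pow_eq_pow_val, ← pow_mul, mul_comm _ (17 ^ g'), pow_mul _ (17 ^ g'), e5]
  have e7 := orderOf_dvd_of_pow_eq_one e6
  have hN : Nat.card U ∣ 17 ^ (2 * g') - 1 := by
    rw [← hf.card_units]
    exact Subgroup.card_subgroup_dvd_card U
  have hp : 1 < 17 ^ g' := Nat.one_lt_pow (by omega) (by norm_num)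
  have e8 : 17 ^ (2 * g') - 1 = (17 ^ g' + 1) * (17 ^ g' - 1) := by
    rw [mul_comm 2, pow_mul, ← Nat.sq_sub_sq, one_pow]
  rw [ht, hf.card_units, e8] at e7
  exact arith_c1' g1 hN (by simpa using h.resK) (Nat.dvd_of_mul_dvd_mul_right (by omega) e7)

/-- Components with two blocks over the prime field. -/
theorem Comp.pair [Finite K] (hf : GalD K 1) (h : Comp M D 1 C i₀ U) (hc : C.card = 2) {x x' : H}
    (hx : M.Bad C x) (hx' : M.Bad C x')
    (hl : ∀ i ∈ C, Lin M D (x⁻¹ * x') i) : D.α (M.c (x⁻¹ * x') i₀) ^ 8 = 1 := by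
  classical
  have hσ : ∀ σ : K ≃+* K, σ = 1 := fun σ => by
    obtain ⟨e, he, h1⟩ := hf.frob σ
    obtain rfl : e = 0 := by omega
    ext a
    rw [h1]
    simp
  have h16 : ∀ u : Kˣ, u ^ 16 = 1 := fun u => by
    have := pow_card_eq_one' (x := u)
    rwa [hf.card_units] at this
  have hN : Nat.card U ∣ 16 := by
    have := Subgroup.card_subgroup_dvd_card U
    rwa [hf.card_units] at this
  obtain ⟨j, hj, e, he', h1⟩ := h.res 3 (Nat.Coprime.coprime_dvd_right hN (by norm_num))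
  obtain rfl : e = 0 := by omega
  have h2 := h1 _ hl
  rw [pow_zero, pow_one] at h2
  by_cases hj0 : j = i₀
  · rw [hj0, show 3 * 3 = 8 + 1 from rfl, pow_succ] at h2
    exact mul_eq_right.1 h2.symm
  have hCe : ∀ i ∈ C, i = i₀ ∨ i = j := fun i hi => by
    have : ({i₀, j} : Finset I) = C := Finset.eq_of_subset_of_card_le
      (Finset.insert_subset h.mem (Finset.singleton_subset_iff.2 hj))
      (by rw [hc, Finset.card_pair (Ne.symm hj0)])
    rw [← this] at hi
    simpa using hi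
  have hprod : ∀ y, M.Bad C y → (D.α (M.c y i₀) : K) * D.α (M.c y j) = 4 := fun y hy => by
    have s1 : y • i₀ = j :=
      (hCe _ (hy.2.1 _ h.mem)).resolve_left fun e => bad_der (D := D) hy h.mem e (hσ _)
    have s2 : y • j = i₀ :=
      (hCe _ (hy.2.1 _ hj)).resolve_right fun e => bad_der (D := D) hy hj e (hσ _)
    obtain ⟨-, -, -, w, hw⟩ := hy
    obtain ⟨a1, a2⟩ := hw _ h.mem
    obtain ⟨b1, b2⟩ := hw _ hj
    obtain ⟨a, ha⟩ := D.φ.surjective (w i₀)
    obtain ⟨b, hb⟩ := D.φ.surjective (w j)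
    rw [s1, ← ha, ← hb, D.eq_iff, hσ (D.σ _)] at a2
    rw [s2, ← ha, ← hb, D.eq_iff, hσ (D.σ _)] at b2
    have a0 : a ≠ 0 := fun e => a1 (by rw [← ha, e, map_zero])
    have b0 : b ≠ 0 := fun e => b1 (by rw [← hb, e, map_zero])
    change a * _ = _ at a2
    change b * _ = _ at b2
    push_cast at a2 b2
    apply mul_left_cancel₀ (mul_ne_zero a0 b0)
    linear_combination (b * (D.α (M.c y j) : K)) * a2 + 2 * b * b2
  have hm : ∀ i ∈ C, D.α (M.c x' i) = D.α (M.c (x⁻¹ * x') i) * D.α (M.c x i) := fun i hi => by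
    have e1 := M.c_mul_fix x (hl i hi).1
    rw [mul_inv_cancel_left] at e1
    rw [e1, D.α_mul, hσ (D.σ _), ua_one]
  have p1 := hprod x hx
  have p2 := hprod x' hx'
  rw [hm _ h.mem, hm _ hj, h2, ← p1, ← Units.val_mul, ← Units.val_mul] at p2
  have p3 := Units.val_injective p2
  set u := D.α (M.c (x⁻¹ * x') i₀)
  have p4 : u ^ 10 = 1 := by
    rw [mul_mul_mul_comm, mul_eq_right, ← pow_succ'] at p3
    exact p3
  have p5 : u ^ 2 = 1 := pow_gcd_eq_one.2 ⟨p4, h16 u⟩
  rw [show 8 = 2 * 4 from rfl, pow_mul, p5, one_pow]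

end model

theorem cyc_false {H I G K W : Type} [Group H] [Finite H] [Group.IsSolvable H] [MulAction H I]
    [Finite I] [Nonempty I] [Group G] [Field K] [Finite K] [CharP K 17] [AddCommGroup W]
    [Finite W] [Module K W] [DistribMulAction G W] [FaithfulSMul G W] (M : LM H I G W) (hq : QR H)
    (hsemi : ∀ γ : G, ∃ σ : K ≃+* K, ∀ (a : K) (w : W), γ • (a • w) = σ a • γ • w)
    (h1 : Module.finrank K W = 1) : False := by
  classical
  obtain ⟨D⟩ := exists_cycD hsemi h1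
  obtain ⟨f, hf⟩ := exists_galD K
  obtain ⟨i₀⟩ := ‹Nonempty I›
  obtain ⟨C, U, h⟩ := exists_comp M D hf hq i₀
  obtain ⟨π, P, hP, hπ⟩ := exists_perms (H := H) C
  have := hf.finite
  have := Fintype.ofFinite (K ≃+* K)
  have := Fintype.ofFinite Kˣ
  have hW : Nat.card W - 1 = 17 ^ f - 1 := by rw [← Nat.card_congr D.φ.toEquiv, hf.card]
  have hA : Fintype.card (K ≃+* K) ≤ f := by rw [← Nat.card_eq_fintype_card]; exact hf.card_aut
  have hN : Nat.card U ∣ 17 ^ f - 1 := by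
    rw [← hf.card_units]
    exact Subgroup.card_subgroup_dvd_card U
  have hf0 := hf.pos
  have hn : 0 < 17 ^ f - 1 := Nat.sub_pos_of_lt (Nat.one_lt_pow hf0.ne' (by norm_num))
  have hN' := Nat.le_of_dvd hn hN
  have hP' : P.card ≤ C.card.factorial := by
    rw [← Fintype.card_coe C, ← Fintype.card_perm]
    exact Finset.card_le_univ _
  have hc0 : 0 < C.card := Finset.card_pos.2 ⟨i₀, h.mem⟩
  have hres := h.resK
  let RU : Finset Kˣ := Finset.univ.filter (· ∈ U)
  have hRU : RU.card = Nat.card U := by rw [Nat.card_eq_fintype_card, Fintype.card_subtype]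
  have hRU' : ∀ d : H, (∀ i ∈ C, Lin M D d i) → D.α (M.c d i₀) ∈ RU := fun d hd =>
    Finset.mem_filter.2 ⟨Finset.mem_univ _, (h.memU _).2 ⟨d, hd, rfl⟩⟩
  have hpow : (Finset.univ : Finset (C → (K ≃+* K))).card ≤ f ^ C.card := by
    rw [Finset.card_univ, Fintype.card_fun, Fintype.card_coe]
    exact Nat.pow_le_pow_left hA _
  have lab1 : ∀ Q : H → Prop, (∀ x, Q x → ∀ i ∈ C, x • i ∈ C) →
      M.Lab C Q (Nat.card U * (f ^ C.card * P.card)) := fun Q hQ => by
    refine (h.lab (fun x hx => (hπ x hx).2) Q hQ (P ×ˢ Finset.univ)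
      (fun x hx => Finset.mem_product.2 ⟨(hπ x (hQ x hx)).1, Finset.mem_univ _⟩) RU
      (fun _ _ _ _ _ hd => hRU' _ hd)).mono ?_
    rw [hRU, Finset.card_product, mul_comm P.card]
    exact Nat.mul_le_mul_left _ (Nat.mul_le_mul_right _ hpow)
  have labT := lab1 (fun x => ∀ i ∈ C, x • i ∈ C) fun _ hx => hx
  have labB := lab1 (M.Bad C) fun _ hx => hx.2.1
  have fin : ∀ T', M.Lab C (M.Bad C) T' →
      Nat.card U * (f ^ C.card * P.card) < (17 ^ f - 1) ^ C.card →
      T' ^ 2 < (17 ^ f - 1) ^ C.card → False := fun T' a b c =>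
    M.comp_count hq C ⟨i₀, h.mem⟩ h.blk _ T' (D.hfix hf) labT a (by rwa [hW]) (by rwa [hW])
  have fin' : (Nat.card U * (f ^ C.card * P.card)) ^ 2 < (17 ^ f - 1) ^ C.card → False :=
    fun a => fin _ labB (lt_of_le_of_lt (Nat.le_self_pow (by norm_num) _) a) a
  rcases Nat.lt_or_ge 1 f with hf2 | hf1
  · -- proper extension fields
    rcases Nat.lt_or_ge 2 C.card with hc | hc
    · exact fin' (arith_c3 hf2 hc hN hres hP' hP)
    rcases Nat.lt_or_ge 1 C.card with hc' | hc'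
    · have hc2 : C.card = 2 := by omega
      let RB : Finset (Equiv.Perm C × (C → (K ≃+* K))) :=
        ({1} ×ˢ Fintype.piFinset fun _ => Finset.univ.erase 1) ∪
          (Finset.univ.erase 1 ×ˢ Finset.univ)
      have hRB : RB.card ≤ (f - 1) ^ 2 + f ^ 2 := by
        refine (Finset.card_union_le _ _).trans (Nat.add_le_add ?_ ?_)
        · rw [Finset.card_product, Finset.card_singleton, one_mul, Fintype.card_piFinset,
            Finset.prod_const, Finset.card_univ, Fintype.card_coe, hc2,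
            Finset.card_erase_of_mem (Finset.mem_univ _), Finset.card_univ]
          exact Nat.pow_le_pow_left (Nat.sub_le_sub_right hA 1) 2
        · rw [Finset.card_product, Finset.card_erase_of_mem (Finset.mem_univ _), Finset.card_univ,
            Fintype.card_perm, Fintype.card_coe, hc2]
          rw [hc2] at hpow
          simpa using hpow
      have lab2 := h.lab (fun x hx => (hπ x hx).2) (M.Bad C) (fun _ hx => hx.2.1) RB
        (fun x hx => by
          by_cases e : π x = 1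
          · refine Finset.mem_union_left _ (Finset.mem_product.2 ⟨Finset.mem_singleton.2 e, ?_⟩)
            refine Fintype.mem_piFinset.2 fun i => Finset.mem_erase.2 ⟨?_, Finset.mem_univ _⟩
            refine bad_der hx i.2 ?_
            rw [← (hπ x hx.2.1).2 i, e]
            rfl
          · exact Finset.mem_union_right _ (Finset.mem_product.2
              ⟨Finset.mem_erase.2 ⟨e, Finset.mem_univ _⟩, Finset.mem_univ _⟩))
        RU (fun _ _ _ _ _ hd => hRU' _ hd)
      rw [hc2] at hres hP'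
      have a1 := arith_c2 hf2 hN hres
      have a2 := arith_c2' hf0
      refine fin _ lab2 ?_ ?_
      · rw [hc2, sq (17 ^ f - 1)]
        refine Nat.mul_lt_mul_of_le_of_lt hN' (lt_of_le_of_lt ?_ a2) hn
        rw [mul_comm]
        exact Nat.mul_le_mul_right _ hP'
      · rw [hc2, hRU]
        exact Nat.pow_lt_pow_left (lt_of_le_of_lt (Nat.mul_le_mul_left _ hRB) a1) (by norm_num)
    · have hc1 : C.card = 1 := by omega
      obtain ⟨i, hi⟩ := Finset.card_eq_one.1 hc1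
      have hm := h.mem
      rw [hi, Finset.mem_singleton] at hm
      subst hm
      have a1 := arith_c1 hf2 hN (hc1 ▸ hres)
      have hcov := M.covered hq C ⟨i₀, h.mem⟩ h.blk _ labT (by
        rw [hW, hc1, pow_one, pow_one]
        rw [hc1] at hP'
        exact lt_of_le_of_lt (Nat.mul_le_mul_left _ (by simpa using Nat.mul_le_mul_left f hP')) a1)
      subst hi
      refine h.single hf fun w hw => ?_
      obtain ⟨x, hx, hx'⟩ := hcov (fun _ => w) fun _ _ => hw
      exact ⟨x, hx, hx' i₀ h.mem⟩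
  · -- the prime field
    obtain rfl : f = 1 := by omega
    rw [show 17 ^ 1 - 1 = 16 from rfl] at *
    rw [one_pow, one_mul] at fin fin'
    rw [one_pow] at hpow
    rcases Nat.lt_or_ge 5 C.card with hc | hc
    · exact fin' (lt_of_le_of_lt (Nat.pow_le_pow_left (Nat.mul_le_mul hN' hP) 2) (arith_f1 hc))
    let RB : Finset (Equiv.Perm C × (C → (K ≃+* K))) :=
      Finset.univ.filter (· ∈ derangements C) ×ˢ Finset.univ
    have hRB : RB.card ≤ numDerangements C.card := by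
      rw [Finset.card_product, ← Fintype.card_subtype, card_derangements_eq_numDerangements,
        Fintype.card_coe]
      simpa using Nat.mul_le_mul_left _ hpow
    have hRB' : ∀ x, M.Bad C x → (π x, fun i : C => D.σ (M.c x i)) ∈ RB := fun x hx => by
      refine Finset.mem_product.2 ⟨Finset.mem_filter.2 ⟨Finset.mem_univ _, fun i e => ?_⟩,
        Finset.mem_univ _⟩
      refine bad_der (D := D) hx i.2 ?_ (Fintype.card_le_one_iff.1 hA _ _)
      rw [← (hπ x hx.2.1).2 i, e]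
    have lab2 := (h.lab (fun x hx => (hπ x hx).2) (M.Bad C) (fun _ hx => hx.2.1) RB hRB' RU
      (fun _ _ _ _ _ hd => hRU' _ hd)).mono (Nat.mul_le_mul (hRU.le.trans hN') hRB)
    have hT := Nat.mul_le_mul hN' hP
    by_cases hc1 : C.card = 1
    · rw [hc1] at hres hP lab2 fin
      have := arith_f1_c1 hN hres
      exact fin _ lab2 (lt_of_le_of_lt (Nat.mul_le_mul this hP) (by norm_num)) (by decide)
    by_cases hc2 : C.card = 2
    · have lab3 := (h.lab (fun x hx => (hπ x hx).2) (M.Bad C) (fun _ hx => hx.2.1) RB hRB'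
        (Finset.univ.filter fun u : Kˣ => u ^ 8 = 1)
        (fun x x' hx hx' _ hd => Finset.mem_filter.2
          ⟨Finset.mem_univ _, h.pair hf hc2 hx hx' hd⟩)).mono
        (Nat.mul_le_mul (IsCyclic.card_pow_eq_one_le (by norm_num)) hRB)
      rw [hc2] at hT lab3 fin
      exact fin _ lab3 (lt_of_le_of_lt hT (by norm_num)) (by decide)
    have : C.card = 3 ∨ C.card = 4 ∨ C.card = 5 := by omega
    rcases this with e | e | e <;> rw [e] at hT lab2 fin <;>
      exact fin _ lab2 (lt_of_le_of_lt hT (by norm_num)) (by decide)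

end Pool.Agent.Lib.MP_39e620_al.Full
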