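import Pool.Agent.Lib.MP_39e620_al.FMackey

set_option autoImplicit false

namespace Pool.Agent.Lib.MP_39e620_al.Full

/-- Galois theory of a finite field of characteristic 17. -/
structure GalD (K : Type) [Field K] (f : ℕ) : Prop where
  pos : 0 < f
  card : Nat.card K = 17 ^ f
  frob : ∀ σ : K ≃+* K, ∃ e < f, ∀ x, σ x = x ^ 17 ^ e

theorem exists_galD (K : Type) [Field K] [Finite K] [CharP K 17] : ∃ f, GalD K f := by
  let _ : Algebra (ZMod 17) K := ZMod.algebra K 17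
  have := Fintype.ofFinite K
  refine ⟨Module.finrank (ZMod 17) K, Module.finrank_pos, ?_, fun σ => ?_⟩
  · rw [Module.natCard_eq_pow_finrank (K := ZMod 17), Nat.card_zmod]
  · let σ' : K ≃ₐ[ZMod 17] K := AlgEquiv.ofRingEquiv (f := σ) fun x =>
      DFunLike.congr_fun (RingHom.ext_zmod (σ.toRingHom.comp (algebraMap (ZMod 17) K))
        (algebraMap (ZMod 17) K)) x
    obtain ⟨⟨e, he⟩, h⟩ := (FiniteField.bijective_frobeniusAlgEquivOfAlgebraic_pow (ZMod 17) K).2 σ'
    refine ⟨e, he, fun x => ?_⟩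
    have h1 := DFunLike.congr_fun h x
    simp only [AlgEquiv.coe_pow, FiniteField.coe_frobeniusAlgEquivOfAlgebraic_iterate,
      ZMod.card] at h1
    exact h1.symm

section gal
variable {K : Type} [Field K] {f : ℕ}

theorem GalD.finite (h : GalD K f) : Finite (K ≃+* K) := by
  choose e he he' using h.frob
  refine Finite.of_injective (fun σ => (⟨e σ, he σ⟩ : Fin f)) fun σ τ hst => ?_
  ext x
  rw [he', he', Fin.mk.inj hst]

theorem GalD.card_aut (h : GalD K f) : Nat.card (K ≃+* K) ≤ f := by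
  choose e he he' using h.frob
  have := Nat.card_le_card_of_injective (fun σ => (⟨e σ, he σ⟩ : Fin f)) fun σ τ hst => by
    ext x
    rw [he', he', Fin.mk.inj hst]
  simpa using this

theorem GalD.card_units [Finite K] (h : GalD K f) : Nat.card Kˣ = 17 ^ f - 1 := by
  rw [Nat.card_units, h.card]

theorem pow_sub_of {x : Kˣ} {e : ℕ} (h : (x : K) = (x : K) ^ 17 ^ e) : x ^ (17 ^ e - 1) = 1 := by
  have h1 : x ^ 17 ^ e = x := Units.ext (by rw [Units.val_pow_eq_pow_val, ← h])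
  have h2 : 17 ^ e = (17 ^ e - 1) + 1 := (Nat.sub_add_cancel (Nat.one_le_pow _ _ (by norm_num))).symm
  rw [h2, pow_succ] at h1
  exact mul_eq_right.1 h1

/-- A nontrivial automorphism fixes few units. -/
theorem GalD.fix_le [Finite K] (h : GalD K f) {σ : K ≃+* K} (hσ : σ ≠ 1) :
    (Nat.card {x : Kˣ // σ x = x}) ^ 2 ≤ 17 ^ f - 1 := by
  classical
  have := Fintype.ofFinite K
  obtain ⟨e, he, h1⟩ := h.frob σ
  have he0 : 0 < e := Nat.pos_of_ne_zero fun h0 => hσ (by ext x; rw [h1, h0]; simp)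
  have hg : 2 * Nat.gcd e f ≤ f := by
    obtain ⟨c, hc⟩ := Nat.gcd_dvd_right e f
    have h2 : Nat.gcd e f ≤ e := Nat.gcd_le_left _ he0
    have h3 : 2 ≤ c := by
      by_contra h3
      have : c = 0 ∨ c = 1 := by omega
      rcases this with rfl | rfl <;> omega
    nlinarith
  have hg0 : 0 < Nat.gcd e f := Nat.gcd_pos_of_pos_left _ he0
  have hp : 1 < 17 ^ Nat.gcd e f := Nat.one_lt_pow hg0.ne' (by norm_num)
  have h2 : Nat.card {x : Kˣ // σ x = x} ≤ 17 ^ Nat.gcd e f - 1 := by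
    refine le_trans ?_ (IsCyclic.card_pow_eq_one_le (α := Kˣ) (by omega))
    rw [Nat.card_eq_fintype_card, Fintype.card_subtype]
    refine Finset.card_le_card fun x hx => ?_
    rw [Finset.mem_filter] at hx ⊢
    refine ⟨hx.1, ?_⟩
    rw [← Nat.pow_sub_one_gcd_pow_sub_one, pow_gcd_eq_one]
    refine ⟨pow_sub_of (by rw [← h1, hx.2]), ?_⟩
    rw [← h.card_units, pow_card_eq_one']
  have h3 : 17 ^ (2 * Nat.gcd e f) ≤ 17 ^ f := Nat.pow_le_pow_right (by norm_num) hg
  rw [mul_comm, pow_mul] at h3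
  refine (Nat.pow_le_pow_left h2 2).trans ?_
  obtain ⟨y, hy⟩ := Nat.exists_eq_add_of_le' hp.le
  rw [hy] at h3 ⊢
  rw [Nat.add_sub_cancel]
  have : (y + 1) ^ 2 = y ^ 2 + 2 * y + 1 := by ring
  omega

/-- The involution. -/
theorem GalD.invol [Finite K] (h : GalD K f) {σ : K ≃+* K} (hσ : σ ≠ 1) (h2 : σ * σ = 1) :
    ∃ g, 1 ≤ g ∧ f = 2 * g ∧ ∀ x, σ x = x ^ 17 ^ g := by
  obtain ⟨e, he, h1⟩ := h.frob σ
  have he0 : 0 < e := Nat.pos_of_ne_zero fun h0 => hσ (by ext x; rw [h1, h0]; simp)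
  refine ⟨e, he0, ?_, h1⟩
  obtain ⟨t, ht⟩ := IsCyclic.exists_ofOrder_eq_natCard (α := Kˣ)
  have h3 : t ^ (17 ^ (2 * e) - 1) = 1 := by
    apply pow_sub_of
    have h4 : σ (σ t) = t := DFunLike.congr_fun h2 t.1
    rw [h1, h1, ← pow_mul, ← pow_add, ← two_mul] at h4
    exact h4.symm
  have h4 := orderOf_dvd_of_pow_eq_one h3
  rw [ht, h.card_units] at h4
  have h5 := Nat.gcd_eq_left h4
  rw [Nat.pow_sub_one_gcd_pow_sub_one] at h5
  have h6 : 17 ^ Nat.gcd f (2 * e) = 17 ^ f := by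
    have a1 : 1 ≤ 17 ^ Nat.gcd f (2 * e) := Nat.one_le_pow _ _ (by norm_num)
    have a2 : 1 ≤ 17 ^ f := Nat.one_le_pow _ _ (by norm_num)
    omega
  obtain ⟨c, hc⟩ := Nat.gcd_eq_left_iff_dvd.1 (Nat.pow_right_injective (by norm_num) h6)
  have : c = 1 := by
    by_contra h7
    have : c = 0 ∨ 2 ≤ c := by omega
    rcases this with rfl | h8
    · omega
    · nlinarith
  rw [hc, this, mul_one]

/-- The action of a field automorphism on units. -/
def ua (τ : K ≃+* K) : MulAut Kˣ := Units.mapEquiv τ.toMulEquiv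

theorem ua_val (τ : K ≃+* K) (x : Kˣ) : (ua τ x : K) = τ x := rfl

theorem ua_mul (σ τ : K ≃+* K) (x : Kˣ) : ua (σ * τ) x = ua σ (ua τ x) := rfl

theorem ua_one (x : Kˣ) : ua (1 : K ≃+* K) x = x := rfl

theorem GalD.ua_pow (h : GalD K f) (τ : K ≃+* K) : ∃ e < f, ∀ x, ua τ x = x ^ 17 ^ e := by
  obtain ⟨e, he, h1⟩ := h.frob τ
  exact ⟨e, he, fun x => Units.ext (by rw [ua_val, h1, Units.val_pow_eq_pow_val])⟩

end gal

theorem exists_invol {A : Type} [Group A] {σ : A} (hσ : σ ≠ 1) (h2 : Two σ) :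
    ∃ k : ℕ, σ ^ 2 ^ k ≠ 1 ∧ σ ^ 2 ^ k * σ ^ 2 ^ k = 1 := by
  obtain ⟨k, hk⟩ := h2
  induction k with
  | zero => exact absurd (by simpa using hk) hσ
  | succ k ih =>
    by_cases h : σ ^ 2 ^ k = 1
    · exact ih h
    · exact ⟨k, h, by rw [← pow_add, ← mul_two, ← pow_succ, hk]⟩

theorem aut_pow {A : Type} [Group A] [Finite A] [IsCyclic A] (θ : A →* A) :
    ∃ k : ℕ, ∀ x, θ x = x ^ k := by
  obtain ⟨m, hm⟩ := θ.map_cyclic
  refine ⟨(m % Nat.card A).toNat, fun x => ?_⟩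
  rw [hm, ← zpow_natCast, Int.toNat_of_nonneg (Int.emod_nonneg _ (by
    exact_mod_cast (Nat.card_pos (α := A)).ne')), zpow_mod_natCard]

/-- Coordinates for a semilinear action on a line. -/
structure CycD (G K W : Type) [Group G] [Field K] [AddCommGroup W] [DistribMulAction G W] where
  φ : K ≃+ W
  σ : G →* (K ≃+* K)
  α : G → Kˣ
  act : ∀ γ a, γ • φ a = φ (σ γ a * α γ)

theorem exists_cycD {G K W : Type} [Group G] [Field K] [AddCommGroup W] [Module K W]
    [DistribMulAction G W]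
    (hsemi : ∀ γ : G, ∃ σ : K ≃+* K, ∀ (a : K) (w : W), γ • (a • w) = σ a • γ • w)
    (h1 : Module.finrank K W = 1) : Nonempty (CycD G K W) := by
  obtain ⟨φ⟩ := Module.nonempty_linearEquiv_of_finrank_eq_one h1
  choose σ hσ using hsemi
  have h0 : ∀ γ : G, φ.symm (γ • φ 1) ≠ 0 := fun γ h => by
    rw [LinearEquiv.map_eq_zero_iff, smul_eq_zero_iff_eq, LinearEquiv.map_eq_zero_iff] at h
    exact one_ne_zero h
  have hact : ∀ (γ : G) (a : K), γ • φ a = φ (σ γ a * φ.symm (γ • φ 1)) := fun γ a => by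
    rw [← smul_eq_mul, φ.map_smul, LinearEquiv.apply_symm_apply, ← hσ, ← φ.map_smul, smul_eq_mul,
      mul_one]
  refine ⟨⟨φ.toAddEquiv, MonoidHom.mk' σ fun γ δ => ?_, fun γ => Units.mk0 _ (h0 γ), hact⟩⟩
  ext a
  have e1 := hσ (γ * δ) a (φ 1)
  rw [mul_smul γ δ (a • φ 1), hσ, hσ, ← mul_smul γ δ] at e1
  have e2 := congrArg φ.symm e1
  rw [φ.symm.map_smul, φ.symm.map_smul, smul_eq_mul, smul_eq_mul] at e2
  exact (mul_right_cancel₀ (h0 _) e2).symm

section cyc
variable {G K W : Type} [Group G] [Field K] [AddCommGroup W] [DistribMulAction G W]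
  (D : CycD G K W)

theorem CycD.α_mul (γ δ : G) : D.α (γ * δ) = ua (D.σ γ) (D.α δ) * D.α γ := by
  apply Units.ext
  have h := D.act (γ * δ) 1
  rw [mul_smul, D.act, D.act, map_one, map_one, one_mul, one_mul] at h
  exact (D.φ.injective h).symm

theorem CycD.ext' [FaithfulSMul G W] {γ δ : G} (h1 : D.σ γ = D.σ δ) (h2 : D.α γ = D.α δ) :
    γ = δ := by
  refine FaithfulSMul.eq_of_smul_eq_smul (α := W) fun w => ?_
  obtain ⟨a, rfl⟩ := D.φ.surjective w
  rw [D.act, D.act, h1, h2]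

theorem CycD.eq_iff (γ : G) (a b : K) (z : ℤ) :
    γ • D.φ a = z • D.φ b ↔ D.σ γ a * D.α γ = z * b := by
  rw [D.act, ← map_zsmul, D.φ.injective.eq_iff, zsmul_eq_mul]

theorem CycD.scalar {γ : G} (h : D.σ γ = 1) {w : W} (hw : w ≠ 0) (h2 : γ • w = (2 : ℤ) • w)
    (y : W) : γ • y = (2 : ℤ) • y := by
  obtain ⟨a, rfl⟩ := D.φ.surjective w
  obtain ⟨b, rfl⟩ := D.φ.surjective y
  rw [D.eq_iff, h] at h2 ⊢
  have ha : a ≠ 0 := fun h => hw (by rw [h, map_zero])
  change a * _ = _ at h2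
  change b * _ = _
  rw [mul_comm] at h2
  rw [mul_right_cancel₀ ha h2, mul_comm]

include D in
theorem CycD.hfix [Finite K] [Finite W] {f : ℕ} (hf : GalD K f) (γ : G)
    (h : ¬ ∀ y : W, γ • y = (2 : ℤ) • y) : (eig W γ 2 - 1) ^ 2 ≤ Nat.card W - 1 := by
  classical
  rw [← Nat.card_congr D.φ.toEquiv, hf.card]
  by_cases h0 : ∃ w : W, w ≠ 0 ∧ γ • w = (2 : ℤ) • w
  · obtain ⟨w, hw, hw2⟩ := h0
    have hσ : D.σ γ ≠ 1 := fun h1 => h (D.scalar h1 hw hw2)
    refine le_trans (Nat.pow_le_pow_left ?_ 2) (hf.fix_le hσ)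
    obtain ⟨a, rfl⟩ := D.φ.surjective w
    have ha : a ≠ 0 := fun h => hw (by rw [h, map_zero])
    rw [D.eq_iff] at hw2
    have : Finite {x : Kˣ // D.σ γ x = x} := inferInstance
    rw [Nat.sub_le_iff_le_add, ← Finite.card_option]
    have hs : Function.Surjective (fun x : Option {x : Kˣ // D.σ γ x = x} =>
        (⟨D.φ (x.elim 0 fun y => y.1.1 * a), by
          rw [D.eq_iff]
          cases x with
          | none => simp
          | some y =>
            simp only [Option.elim, map_mul, y.2]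
            rw [mul_assoc, hw2]
            ring⟩ : {w : W // γ • w = (2 : ℤ) • w})) := by
      rintro ⟨w, hw'⟩
      obtain ⟨b, rfl⟩ := D.φ.surjective w
      by_cases hb : b = 0
      · exact ⟨none, Subtype.ext (by simp [hb])⟩
      · rw [D.eq_iff] at hw'
        refine ⟨some ⟨Units.mk0 (b / a) (div_ne_zero hb ha), ?_⟩, Subtype.ext ?_⟩
        · have h2 : D.σ γ a ≠ 0 := by simpa using ha
          rw [Units.val_mk0, map_div₀, div_eq_div_iff h2 ha]
          apply mul_right_cancel₀ (D.α γ).ne_zero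
          linear_combination a * hw' - b * hw2
        · simp [ha]
    exact Nat.card_le_card_of_surjective _ hs
  · have : eig W γ 2 ≤ 1 := by
      rw [eig, Finite.card_le_one_iff_subsingleton]
      refine ⟨fun a b => Subtype.ext ?_⟩
      have e : ∀ a : {w : W // γ • w = (2 : ℤ) • w}, a.1 = 0 := fun a => by
        by_contra h1
        exact h0 ⟨a.1, h1, a.2⟩
      rw [e a, e b]
    rw [Nat.sub_eq_zero_of_le this]
    simp

end cyc

end Pool.Agent.Lib.MP_39e620_al.Full
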