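import Mathlib

set_option autoImplicit false

namespace Pool.Agent.Lib.MP_39e620_al

/-- Stabiliser chain bound for groups of automorphisms fixing a subgroup pointwise. -/
theorem aut_chain {N : Type} [Group N] [Finite N] (j : ℕ) :
    ∀ (k : ℕ) (A : Subgroup (MulAut N)) (C : Subgroup N), (∀ a ∈ A, ∀ x ∈ C, a x = x) →
      2 ^ k ≤ Nat.card C → Nat.card N ≤ 2 ^ (k + j) →
      Nat.card A ≤ ∏ i ∈ Finset.range j, max 1 (Nat.card N - 2 ^ (k + i)) := by
  have triv : ∀ (A : Subgroup (MulAut N)), (∀ a ∈ A, ∀ x, a x = x) → Nat.card A = 1 := by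
    intro A h
    have : A = ⊥ := by
      rw [eq_bot_iff]
      intro a ha
      rw [Subgroup.mem_bot]
      ext x
      simpa using h a ha x
    subst this
    simp
  induction j with
  | zero =>
    intro k A C hC hk hN
    have hCt : C = ⊤ := by
      apply Subgroup.eq_top_of_le_card
      simpa using hN.trans hk
    rw [triv A (fun a ha x => hC a ha x (hCt ▸ Subgroup.mem_top x))]
    simp
  | succ j ih =>
    intro k A C hC hk hN
    by_cases hall : ∀ a ∈ A, ∀ x, a x = x
    · rw [triv A hall]
      exact Finset.one_le_prod' (fun i _ => le_max_left _ _)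
    push Not at hall
    obtain ⟨a, ha, x, hx⟩ := hall
    have hfin : Finite (MulAut N) := Finite.of_injective (fun f : MulAut N => (f : N → N))
      DFunLike.coe_injective
    let A' : Subgroup (MulAut N) := A ⊓ MulAction.stabilizer (MulAut N) x
    let C' : Subgroup N :=
      { carrier := {y | ∀ b ∈ A', b y = y}
        mul_mem' := by
          intro y z hy hz b hb
          rw [map_mul, hy b hb, hz b hb]
        one_mem' := by intro b _; simp
        inv_mem' := by
          intro y hy b hb
          rw [map_inv, hy b hb] }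
    have hCC' : C ≤ C' := fun y hy b hb => hC b hb.1 y hy
    have hxC' : x ∈ C' := fun b hb => hb.2
    have hxC : x ∉ C := fun h => hx (hC a ha x h)
    have hcard : 2 * Nat.card C ≤ Nat.card C' := by
      obtain ⟨c, hc⟩ := Subgroup.card_dvd_of_le hCC'
      have hpos : 0 < Nat.card C' := Nat.card_pos
      have hc1 : c ≠ 1 := by
        rintro rfl
        have : C = C' := Subgroup.eq_of_le_of_card_ge hCC' (by omega)
        exact hxC (this ▸ hxC')
      have hc0 : c ≠ 0 := by
        rintro rfl
        omega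
      have : 2 ≤ c := by omega
      nlinarith
    have ih' := ih (k + 1) A' C' (fun b hb y hy => hy b hb) (by rw [pow_succ]; omega)
      (by rwa [show k + 1 + j = k + (j + 1) by ring])
    have horb : Nat.card (MulAction.orbit A x) ≤ Nat.card N - 2 ^ k := by
      have hsub : MulAction.orbit A x ⊆ (C : Set N)ᶜ := by
        rintro y ⟨b, rfl⟩ hy
        apply hxC
        have h1 := hC _ (A.inv_mem b.2) _ hy
        have h2 : ((b : MulAut N)⁻¹) ((fun m : A => m • x) b) = x := by
          show ((b : MulAut N)⁻¹) ((b : MulAut N) x) = x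
          simp
        rw [h2] at h1
        rw [h1]
        exact hy
      have h1 := Set.ncard_le_ncard hsub
      have h2 := Set.ncard_add_ncard_compl (C : Set N)
      have h3 : (C : Set N).ncard = Nat.card C := rfl
      have h4 : (MulAction.orbit A x).ncard = Nat.card (MulAction.orbit A x) := rfl
      omega
    have hst : Nat.card (MulAction.stabilizer A x) = Nat.card A' := by
      have : (MulAction.stabilizer A x).map A.subtype = A' := by
        ext b
        simp only [Subgroup.mem_map, MulAction.mem_stabilizer_iff, A', Subgroup.mem_inf]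
        constructor
        · rintro ⟨c, hc, rfl⟩
          exact ⟨c.2, hc⟩
        · rintro ⟨h1, h2⟩
          exact ⟨⟨b, h1⟩, h2, rfl⟩
      rw [← this, Subgroup.card_map_of_injective A.subtype_injective]
    have hos : Nat.card (MulAction.orbit A x) * Nat.card (MulAction.stabilizer A x) =
        Nat.card A := by
      rw [← Nat.card_prod]
      exact Nat.card_congr (MulAction.orbitProdStabilizerEquivGroup A x)
    rw [Finset.prod_range_succ', ← hos, hst, mul_comm]
    refine Nat.mul_le_mul ?_ (horb.trans (le_max_right _ _))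
    refine ih'.trans (le_of_eq ?_)
    refine Finset.prod_congr rfl (fun i _ => ?_)
    rw [show k + 1 + i = k + (i + 1) by ring]

theorem chain_num (m : ℕ) (hm : 1 ≤ m) : ∃ j, m ≤ 2 ^ j ∧
    m * ∏ i ∈ Finset.range j, max 1 (m - 2 ^ i) ≤ 3 ^ (m - 1) := by
  by_cases h : m ≤ 32
  · refine ⟨5, h, ?_⟩
    interval_cases m <;> decide
  push Not at h
  refine ⟨Nat.clog 2 m, Nat.le_pow_clog (by norm_num) m, ?_⟩
  have h1 : m ≤ 2 ^ Nat.clog 2 m := Nat.le_pow_clog (by norm_num) m
  have h2 : 2 ^ (Nat.clog 2 m).pred < m := Nat.pow_pred_clog_lt_self (by norm_num) (by omega)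
  have h3 : 5 < Nat.clog 2 m := by
    by_contra h4
    push Not at h4
    have := Nat.pow_le_pow_right (show 0 < 2 by norm_num) h4
    omega
  obtain ⟨t, ht⟩ : ∃ t, Nat.clog 2 m = t + 6 := ⟨Nat.clog 2 m - 6, by omega⟩
  rw [ht] at h1 h2 ⊢
  have h4 : ∏ i ∈ Finset.range (t + 6), max 1 (m - 2 ^ i) ≤ m ^ (t + 6) := by
    have := Finset.prod_le_pow_card (Finset.range (t + 6)) (fun i => max 1 (m - 2 ^ i)) m
      (fun i _ => max_le hm (Nat.sub_le _ _))
    simpa using this
  have h5 : ∀ s : ℕ, (s + 6) * (s + 7) ≤ 3 * 2 ^ (s + 4) := by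
    intro s
    induction s with
    | zero => norm_num
    | succ s ih =>
      have : s + 7 ≤ 2 ^ (s + 4) := by
        have := @Nat.lt_two_pow_self (s + 3)
        have h6 : 2 ^ (s + 4) = 2 * 2 ^ (s + 3) := by ring
        omega
      have h6 : 2 ^ (s + 1 + 4) = 2 * 2 ^ (s + 4) := by ring
      nlinarith
  have h6 : 2 ^ (t + 5) ≤ m - 1 := by
    have : (t + 6).pred = t + 5 := rfl
    rw [this] at h2
    omega
  calc m * ∏ i ∈ Finset.range (t + 6), max 1 (m - 2 ^ i) ≤ m * m ^ (t + 6) :=
        Nat.mul_le_mul_left _ h4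
    _ = m ^ (t + 7) := by ring
    _ ≤ (2 ^ (t + 6)) ^ (t + 7) := Nat.pow_le_pow_left h1 _
    _ = 2 ^ ((t + 6) * (t + 7)) := by rw [← pow_mul]
    _ ≤ 2 ^ (3 * 2 ^ (t + 4)) := Nat.pow_le_pow_right (by norm_num) (h5 t)
    _ = 8 ^ (2 ^ (t + 4)) := by rw [pow_mul]; norm_num
    _ ≤ 9 ^ (2 ^ (t + 4)) := Nat.pow_le_pow_left (by norm_num) _
    _ = 3 ^ (2 ^ (t + 5)) := by
        rw [show 2 ^ (t + 5) = 2 * 2 ^ (t + 4) by ring, pow_mul]; norm_num
    _ ≤ 3 ^ (m - 1) := Nat.pow_le_pow_right (by norm_num) h6

theorem h66_abelian_normal (G : Type) [Group G] [Nontrivial G] [Group.IsSolvable G] :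
    ∃ A : Subgroup G, A.Normal ∧ A ≠ ⊥ ∧ ∀ a ∈ A, ∀ b ∈ A, a * b = b * a := by
  classical
  have hex : ∃ n, derivedSeries G n = ⊥ := (Group.isSolvable_def G).1 inferInstance
  have h0 : Nat.find hex ≠ 0 := by
    intro h
    have := Nat.find_spec hex
    rw [h] at this
    exact top_ne_bot this
  obtain ⟨n, hn⟩ := Nat.exists_eq_succ_of_ne_zero h0
  refine ⟨derivedSeries G n, derivedSeries_normal G n, Nat.find_min hex (by omega), ?_⟩
  have := Nat.find_spec hex
  rw [hn, derivedSeries_succ, Subgroup.commutator_eq_bot_iff_le_centralizer] at this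
  intro a ha b hb
  exact (Subgroup.mem_centralizer_iff.1 (this hb) a ha)

/-- A faithful action with a transitive abelian normal subgroup. -/
theorem dixon_regular {G α : Type} [Group G] [Finite G] [Finite α] [MulAction G α]
    [FaithfulSMul G α] (N : Subgroup G) [N.Normal] (hN : ∀ a ∈ N, ∀ b ∈ N, a * b = b * a)
    (a0 : α) (htr : ∀ y : α, ∃ n ∈ N, n • a0 = y) : Nat.card G ≤ 3 ^ (Nat.card α - 1) := by
  have hreg : ∀ n ∈ N, n • a0 = a0 → n = 1 := by
    intro n hn h
    apply eq_of_smul_eq_smul (α := α)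
    intro y
    obtain ⟨n', hn', rfl⟩ := htr y
    rw [← mul_smul, hN n hn n' hn', mul_smul, h, one_smul]
  have hcN : Nat.card N = Nat.card α := by
    refine Nat.card_congr (Equiv.ofBijective (fun n : N => (n : G) • a0) ⟨?_, ?_⟩)
    · intro n n' h
      have h1 : ((n' : G)⁻¹ * n) • a0 = a0 := by
        rw [mul_smul]
        have h' : (n : G) • a0 = (n' : G) • a0 := h
        rw [h', inv_smul_smul]
      have h2 := hreg _ (N.mul_mem (N.inv_mem n'.2) n.2) h1
      exact Subtype.ext (inv_mul_eq_one.1 h2).symm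
    · intro y
      obtain ⟨n, hn, h⟩ := htr y
      exact ⟨⟨n, hn⟩, h⟩
  let S := MulAction.stabilizer G a0
  let f : S →* MulAut N := (MulAut.conjNormal : G →* MulAut N).comp S.subtype
  have hf : Function.Injective f := by
    rw [injective_iff_map_eq_one]
    intro s hs
    apply Subtype.ext
    apply eq_of_smul_eq_smul (α := α)
    intro y
    obtain ⟨n, hn, rfl⟩ := htr y
    have h1 : (s : G) * n * (s : G)⁻¹ = n := by
      have := congrArg (fun e : MulAut N => ((e ⟨n, hn⟩ : N) : G)) hs
      simpa [f] using this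
    have h2 : (s : G) • a0 = a0 := s.2
    have h3 : (s : G) * n = n * s := by
      conv_rhs => rw [← h1]
      group
    rw [← mul_smul, h3, mul_smul, h2]
    simp
  have hm : 1 ≤ Nat.card α := by
    have : Nonempty α := ⟨a0⟩
    exact Nat.card_pos
  obtain ⟨j, hj1, hj2⟩ := chain_num _ hm
  have h1 := aut_chain j 0 f.range ⊥ (by
    intro a _ x hx
    rw [Subgroup.mem_bot] at hx
    rw [hx, map_one]) (by simp) (by rwa [hcN, zero_add])
  have h2 : Nat.card f.range = Nat.card S :=
    (Nat.card_congr (MonoidHom.ofInjective hf).toEquiv).symm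
  have hos : Nat.card (MulAction.orbit G a0) * Nat.card S = Nat.card G := by
    rw [← Nat.card_prod]
    exact Nat.card_congr (MulAction.orbitProdStabilizerEquivGroup G a0)
  have h3 : Nat.card (MulAction.orbit G a0) ≤ Nat.card α :=
    Nat.card_le_card_of_injective Subtype.val Subtype.val_injective
  rw [← hos]
  simp only [zero_add, hcN, h2] at h1
  exact (Nat.mul_le_mul h3 h1).trans hj2

theorem dixon_aux (m : ℕ) : ∀ (α : Type) [Finite α] (P : Subgroup (Equiv.Perm α)),
    Group.IsSolvable P → Nat.card α = m → Nat.card P ≤ 3 ^ (m - 1) := by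
  induction m using Nat.strong_induction_on with
  | _ m ih =>
  intro α _ P hP hm
  have ih2 : ∀ (G β : Type) [Group G] [Group.IsSolvable G] [Finite β] (φ : G →* Equiv.Perm β),
      Nat.card β < m → Nat.card φ.range ≤ 3 ^ (Nat.card β - 1) := by
    intro G β _ _ _ φ hβ
    exact ih _ hβ β φ.range (Group.isSolvable_of_surjective φ.rangeRestrict_surjective) rfl
  by_cases hP1 : Nontrivial P
  swap
  · rw [not_nontrivial_iff_subsingleton] at hP1
    rw [Nat.card_of_subsingleton (1 : P)]
    exact Nat.one_le_pow _ _ (by norm_num)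
  obtain ⟨N, hNn, hN0, hN⟩ := h66_abelian_normal P
  let Q := MulAction.orbitRel.Quotient N α
  let p : α → Q := Quotient.mk _
  have hp : ∀ x y : α, p x = p y ↔ ∃ n ∈ N, n • y = x := by
    intro x y
    rw [show p x = p y ↔ (MulAction.orbitRel N α) x y from Quotient.eq,
      MulAction.orbitRel_apply, MulAction.mem_orbit_iff]
    constructor
    · rintro ⟨n, h⟩
      exact ⟨n, n.2, h⟩
    · rintro ⟨n, hn, h⟩
      exact ⟨⟨n, hn⟩, h⟩
  have hps : Function.Surjective p := Quotient.mk_surjective
  by_cases hone : ∃ a0 : α, ∀ y, p y = p a0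
  · obtain ⟨a0, h⟩ := hone
    rw [← hm]
    exact dixon_regular N hN a0 (fun y => (hp y a0).1 (h y))
  push Not at hone
  have hcomp : ∀ (g : P) (x y : α), p x = p y → p (g • x) = p (g • y) := by
    intro g x y h
    obtain ⟨n, hn, rfl⟩ := (hp x y).1 h
    refine (hp _ _).2 ⟨g * n * g⁻¹, hNn.conj_mem n hn g, ?_⟩
    simp [mul_smul]
  let act : MulAction P Q :=
    { smul := fun g => Quotient.map' (fun x => g • x) (fun x y h =>
        Quotient.exact (hcomp g x y (Quotient.sound h)))
      one_smul := by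
        intro q
        obtain ⟨x, rfl⟩ := hps q
        exact congrArg p (one_smul P x)
      mul_smul := by
        intro g h q
        obtain ⟨x, rfl⟩ := hps q
        exact congrArg p (mul_smul g h x) }
  have hsm : ∀ (g : P) (x : α), g • p x = p (g • x) := fun g x => rfl
  let ψ := MulAction.toPermHom P Q
  have hQ : Nat.card Q < m := by
    obtain ⟨n, hn, hn1⟩ : ∃ n ∈ N, n ≠ 1 := by
      by_contra h
      push Not at h
      exact hN0 ((Subgroup.eq_bot_iff_forall N).2 h)
    obtain ⟨x, hx⟩ : ∃ x : α, n • x ≠ x := by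
      by_contra h
      push Not at h
      exact hn1 (Subtype.ext (Equiv.ext h))
    have h1 : Nat.card Q ≤ Nat.card α := Nat.card_le_card_of_surjective p hps
    rcases h1.lt_or_eq with h2 | h2
    · omega
    · exfalso
      have h3 := (Nat.bijective_iff_surjective_and_card p).2 ⟨hps, h2.symm⟩
      exact hx (h3.1 ((hp _ _).2 ⟨n, hn, rfl⟩))
  have hker : ∀ k ∈ ψ.ker, ∀ x, p (k • x) = p x := by
    intro k hk x
    have := congrArg (fun e : Equiv.Perm Q => e (p x)) (MonoidHom.mem_ker.1 hk)
    exact this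
  let φ : ∀ q : Q, ψ.ker →* Equiv.Perm {x // p x = q} := fun q =>
    { toFun := fun k => Equiv.Perm.subtypePerm ((k : P) : Equiv.Perm α) (fun x => by
        have := hker k k.2 x
        change p ((k : P) • x) = q ↔ _
        rw [this])
      map_one' := by ext x; rfl
      map_mul' := by intro a b; ext x; rfl }
  have hfib : ∀ q : Q, Nat.card {x // p x = q} < m := by
    intro q
    obtain ⟨a0, rfl⟩ := hps q
    obtain ⟨y, hy⟩ := hone a0
    rw [← hm]
    exact Finite.card_subtype_lt (p := fun x => p x = p a0) hy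
  have hinj : Function.Injective (fun k : ψ.ker => fun q : Q => (φ q).rangeRestrict k) := by
    intro k k' h
    apply Subtype.ext
    apply Subtype.ext
    ext x
    have h1 := congrArg (fun e : (φ (p x)).range => (e.1 ⟨x, rfl⟩).1)
      (congrFun h (p x))
    exact h1
  have h1 := Nat.card_le_card_of_injective _ hinj
  have := Fintype.ofFinite Q
  rw [Nat.card_pi] at h1
  have h2 : ∏ q : Q, Nat.card (φ q).range ≤ ∏ q : Q, 3 ^ (Nat.card {x // p x = q} - 1) :=
    Finset.prod_le_prod' (fun q _ => ih2 _ _ (φ q) (hfib q))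
  rw [Finset.prod_pow_eq_pow_sum] at h2
  have h3 : ∑ q : Q, (Nat.card {x // p x = q} - 1) + Nat.card Q = m := by
    rw [← hm, ← Nat.card_congr (Equiv.sigmaFiberEquiv p), Nat.card_sigma, Nat.card_eq_fintype_card,
      ← Finset.card_univ, Finset.card_eq_sum_ones, ← Finset.sum_add_distrib]
    refine Finset.sum_congr rfl (fun q _ => ?_)
    obtain ⟨a0, rfl⟩ := hps q
    have : Nonempty {x // p x = p a0} := ⟨⟨a0, rfl⟩⟩
    have : 0 < Nat.card {x // p x = p a0} := Nat.card_pos
    omega
  have h4 := ih2 P Q ψ hQ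
  have h5 : Nat.card P = Nat.card ψ.range * Nat.card ψ.ker := by
    rw [Subgroup.card_eq_card_quotient_mul_card_subgroup ψ.ker,
      Nat.card_congr (QuotientGroup.quotientKerEquivRange ψ).toEquiv]
  have h6 : 0 < Nat.card Q := by
    obtain ⟨g, hg⟩ := exists_ne (1 : P)
    by_cases hα : Nonempty α
    · obtain ⟨a⟩ := hα
      have : Nonempty Q := ⟨p a⟩
      exact Nat.card_pos
    · exfalso
      apply hg
      apply Subtype.ext
      ext x
      exact absurd ⟨x⟩ hα
  rw [h5]
  refine (Nat.mul_le_mul h4 (h1.trans h2)).trans ?_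
  rw [← pow_add]
  exact Nat.pow_le_pow_right (by norm_num) (by omega)

/-- A solvable group of permutations of `m` points has at most `3 ^ (m - 1)` elements. -/
theorem dixon_lite {G α : Type} [Group G] [Group.IsSolvable G] [Finite α]
    (φ : G →* Equiv.Perm α) : Nat.card φ.range ≤ 3 ^ (Nat.card α - 1) :=
  dixon_aux _ α φ.range (Group.isSolvable_of_surjective φ.rangeRestrict_surjective) rfl

end Pool.Agent.Lib.MP_39e620_al
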