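import Pool.Agent.Lib.MP_39e620_al.FCyc1
import Pool.Agent.Lib.MP_39e620_al.FArith
import Pool.Agent.Lib.MP_39e620_al.H66Dixon

set_option autoImplicit false

namespace Pool.Agent.Lib.MP_39e620_al.Full

section general
variable {H I G W : Type} [Group H] [MulAction H I] [Group G] [AddCommGroup W]
  [DistribMulAction G W]

/-- Every vector of full support on `C` is covered by a bad element. -/
theorem LM.covered [Finite H] [Finite I] [Finite W] (M : LM H I G W) (hq : QR H)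
    (C : Finset I) (hne : C.Nonempty)
    (hC : ∀ h : H, ∀ i ∈ C, h • i ∈ C → ∀ j ∈ C, h • j ∈ C) (T : ℕ)
    (hT : M.Lab C (fun h => ∀ i ∈ C, h • i ∈ C) T) (h1 : T < (Nat.card W - 1) ^ C.card)
    (w : I → W) (hw : ∀ i ∈ C, w i ≠ 0) :
    ∃ x, M.Bad C x ∧ ∀ i ∈ C, M.c x i • w i = (2 : ℤ) • w (x • i) := by
  classical
  have := Fintype.ofFinite W
  let X := {y : W // y ≠ 0}
  have hX : Fintype.card X = Nat.card W - 1 := by
    rw [Nat.card_eq_fintype_card, Fintype.card_subtype_compl, Fintype.card_subtype_eq]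
  have hCX : Fintype.card (C → X) = (Nat.card W - 1) ^ C.card := by
    rw [Fintype.card_fun, hX, Fintype.card_coe]
  let ext : (C → X) → I → W := fun v i => if h : i ∈ C then (v ⟨i, h⟩).1 else 0
  have hext : ∀ v i (h : i ∈ C), ext v i = (v ⟨i, h⟩).1 := fun v i h => dif_pos h
  have hext0 : ∀ v, ∀ i ∈ C, ext v i ≠ 0 := fun v i h => by rw [hext v i h]; exact (v _).2
  obtain ⟨u, hu⟩ : ∃ u : C → X, ∀ h : H, (∀ i ∈ C, h • i ∈ C) →
      ¬ ∀ i ∈ C, M.c h i • w i = (2 : ℤ) • ext u (h • i) := by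
    by_contra hcon
    push Not at hcon
    choose g hg hg' using hcon
    obtain ⟨A, Ψ, R, hR, hΨ, hinj⟩ := hT
    have h3 : (Finset.univ : Finset (C → X)).card ≤ R.card := by
      refine Finset.card_le_card_of_injOn (fun u => Ψ (g u)) (fun u _ => hΨ _ (hg u)) ?_
      intro u _ u' _ huu
      have e := hinj _ _ (hg u) (hg u') huu
      funext j
      let π₀ : C → C := fun i => ⟨g u • i.1, hg u i.1 i.2⟩
      have hπ₀ : Function.Injective π₀ := fun i j hij =>
        Subtype.ext (MulAction.injective (g u) (congrArg Subtype.val hij))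
      obtain ⟨i, rfl⟩ := (Finite.injective_iff_surjective.1 hπ₀) j
      have a1 := hg' u i i.2
      have a2 := hg' u' i i.2
      rw [← (e i i.2).1, ← (e i i.2).2, a1] at a2
      have a3 := two_inj M.h17 _ _ a2
      rw [hext _ _ (hg u i.1 i.2), hext _ _ (hg u i.1 i.2)] at a3
      exact Subtype.ext a3
    rw [Finset.card_univ, hCX] at h3
    omega
  obtain ⟨x, x1, x2, x3, x4⟩ := M.comp hq C hne hC w (ext u) hw (hext0 u) hu
  exact ⟨x, ⟨x1, x2, fun i _ hi => x4 i hi, w, fun i hi => ⟨hw i hi, x3 i hi⟩⟩, x3⟩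

theorem LM.Lab.mono {M : LM H I G W} {C : Finset I} {P : H → Prop} {T T' : ℕ} (h : M.Lab C P T)
    (hT : T ≤ T') : M.Lab C P T' := by
  obtain ⟨A, Ψ, R, hR, h1, h2⟩ := h
  exact ⟨A, Ψ, R, hR.trans hT, h1, h2⟩

/-- The permutations of `C` induced by its stabiliser. -/
theorem exists_perms [Finite H] [Group.IsSolvable H] (C : Finset I) :
    ∃ (π : H → Equiv.Perm C) (P : Finset (Equiv.Perm C)), P.card ≤ 3 ^ (C.card - 1) ∧
      ∀ h : H, (∀ i ∈ C, h • i ∈ C) → π h ∈ P ∧ ∀ i : C, (π h i : I) = h • i.1 := by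
  classical
  let St : Subgroup H :=
    { carrier := {h | ∀ i, h • i ∈ C ↔ i ∈ C}
      one_mem' := fun i => by rw [one_smul]
      mul_mem' := fun {a b} ha hb i => by rw [mul_smul, ha, hb]
      inv_mem' := fun {a} ha i => by rw [← ha, smul_inv_smul] }
  let φ : St →* Equiv.Perm C :=
    { toFun := fun h => (MulAction.toPerm h.1).subtypePerm h.2
      map_one' := by ext i; simp
      map_mul' := fun a b => by ext i; exact mul_smul a.1 b.1 i.1 }
  have hSt : ∀ h : H, (∀ i ∈ C, h • i ∈ C) → h ∈ St := fun h hh i => by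
    refine ⟨fun hi => ?_, hh i⟩
    let π₀ : C → C := fun i => ⟨h • i.1, hh i.1 i.2⟩
    have hπ₀ : Function.Injective π₀ := fun i j hij =>
      Subtype.ext (MulAction.injective h (congrArg Subtype.val hij))
    obtain ⟨j, hj⟩ := (Finite.injective_iff_surjective.1 hπ₀) ⟨_, hi⟩
    rw [← MulAction.injective h (congrArg Subtype.val hj)]
    exact j.2
  refine ⟨fun h => if hh : h ∈ St then φ ⟨h, hh⟩ else 1, Finset.univ.filter (· ∈ φ.range), ?_,
    fun h hh => ?_⟩
  · have := dixon_lite φ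
    rwa [Nat.card_eq_fintype_card, Fintype.card_subtype, Nat.card_eq_fintype_card,
      Fintype.card_coe] at this
  · simp only [dif_pos (hSt h hh)]
    exact ⟨Finset.mem_filter.2 ⟨Finset.mem_univ _, _, rfl⟩, fun i => rfl⟩

end general

section model
variable {H I G K W : Type} [Group H] [MulAction H I] [Group G] [Field K] [AddCommGroup W]
  [DistribMulAction G W] (M : LM H I G W) (D : CycD G K W)

/-- `h` fixes the block `i` and acts linearly on it. -/
def Lin (h : H) (i : I) : Prop := h • i = i ∧ D.σ (M.c h i) = 1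

/-- The characters of two blocks agree up to an automorphism on the common linear stabiliser. -/
def Link (i j : I) : Prop :=
  ∃ θ : MulAut Kˣ, ∀ h, Lin M D h i → Lin M D h j → D.α (M.c h j) = θ (D.α (M.c h i))

variable {M D}

theorem Lin.conj {h : H} {i : I} (hl : Lin M D h i) (g : H) : Lin M D (g * h * g⁻¹) (g • i) ∧
    D.α (M.c (g * h * g⁻¹) (g • i)) = ua (D.σ (M.c g i)) (D.α (M.c h i)) := by
  have e := M.c_conj g h i
  rw [hl.1] at e
  have e1 : D.σ (M.c (g * h * g⁻¹) (g • i)) = 1 := by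
    rw [e, map_mul, map_mul, hl.2, mul_one, map_inv, mul_inv_cancel]
  refine ⟨⟨by rw [mul_smul, mul_smul, inv_smul_smul, hl.1], e1⟩, ?_⟩
  have e2 := D.α_mul (M.c (g * h * g⁻¹) (g • i)) (M.c g i)
  rw [e1, ua_one] at e2
  nth_rewrite 1 [e] at e2
  rw [inv_mul_cancel_right, D.α_mul, mul_comm] at e2
  exact (mul_left_cancel e2).symm

theorem Lin.one (i : I) : Lin M D 1 i := ⟨one_smul _ _, by rw [M.c_one, map_one]⟩

theorem Lin.mul {g h : H} {i : I} (hg : Lin M D g i) (hh : Lin M D h i) :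
    Lin M D (g * h) i ∧ D.α (M.c (g * h) i) = D.α (M.c g i) * D.α (M.c h i) := by
  refine ⟨⟨by rw [mul_smul, hh.1, hg.1], ?_⟩, ?_⟩
  · rw [M.c_mul_fix g hh.1, map_mul, hg.2, hh.2, mul_one]
  · rw [M.c_mul_fix g hh.1, D.α_mul, hg.2, ua_one, mul_comm]

theorem Lin.inv {g : H} {i : I} (hg : Lin M D g i) : Lin M D g⁻¹ i :=
  ⟨inv_smul_eq_iff.2 hg.1.symm, by rw [M.c_inv_fix hg.1, map_inv, hg.2, inv_one]⟩

theorem Link.symm {i j : I} (h : Link M D i j) : Link M D j i := by
  obtain ⟨θ, hθ⟩ := h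
  exact ⟨θ⁻¹, fun h h1 h2 => by rw [hθ h h2 h1, MulAut.inv_apply_self]⟩

theorem Link.smul {i j : I} (h : Link M D i j) (g : H) : Link M D (g • i) (g • j) := by
  obtain ⟨θ, hθ⟩ := h
  refine ⟨ua (D.σ (M.c g j)) * θ * (ua (D.σ (M.c g i)))⁻¹, fun h h1 h2 => ?_⟩
  have a1 := (h1.conj g⁻¹).1
  have a2 := (h2.conj g⁻¹).1
  rw [inv_smul_smul] at a1 a2
  have b1 := (a1.conj g).2
  have b2 := (a2.conj g).2
  have e : g * (g⁻¹ * h * g⁻¹⁻¹) * g⁻¹ = h := by group
  rw [e] at b1 b2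
  rw [b1, b2, hθ _ a1 a2, MulAut.mul_apply, MulAut.mul_apply, MulAut.inv_apply_self]

variable (M D)

/-- The action on the lines of the blocks after extension of scalars. -/
@[reducible] def lineAct : MulAction H (I × (K ≃+* K)) where
  smul h x := (h • x.1, x.2 * (D.σ (M.c h x.1))⁻¹)
  one_smul x := by
    change ((1 : H) • x.1, x.2 * (D.σ (M.c 1 x.1))⁻¹) = x
    rw [one_smul, M.c_one, map_one, inv_one, mul_one]
  mul_smul g h x := by
    change ((g * h) • x.1, x.2 * (D.σ (M.c (g * h) x.1))⁻¹) =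
      (g • h • x.1, x.2 * (D.σ (M.c h x.1))⁻¹ * (D.σ (M.c g (h • x.1)))⁻¹)
    rw [mul_smul, M.coc, map_mul, mul_inv_rev, mul_assoc]

theorem link_of_conj [Finite H] [Finite I] [Finite K] [Finite (K ≃+* K)] {k : ℕ}
    (hc : ∀ h : H, IsConj h (h ^ k)) (i : I) : ∃ (j : I) (τ : K ≃+* K),
      ∀ h, Lin M D h i → Lin M D h j → ua τ (D.α (M.c h j)) = D.α (M.c h i) ^ k := by
  let _ := lineAct M D
  have hs : ∀ (h : H) (x : I × (K ≃+* K)),
    h • x = (h • x.1, x.2 * (D.σ (M.c h x.1))⁻¹) := fun _ _ => rfl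
  obtain ⟨⟨j, τ⟩, -, hj⟩ := mackey (H := H) (Λ := I × (K ≃+* K)) (A := Kˣ)
    (fun h x => ua (x.2 * (D.σ (M.c h x.1))⁻¹) (D.α (M.c h x.1))) (fun g h x => by
      rw [hs, M.coc, D.α_mul, map_mul, map_mul, ← ua_mul, mul_comm]
      simp only [mul_inv_rev, mul_assoc, inv_mul_cancel, mul_one]) k hc (i, 1)
  refine ⟨j, τ, fun h h1 h2 => ?_⟩
  have := hj h (by rw [hs, h1.1, h1.2, inv_one, mul_one]) (by rw [hs, h2.1, h2.2, inv_one, mul_one])
  simp only [h1.2, h2.2, inv_one, mul_one, ua_one] at this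
  exact this

/-- A connected component of the link graph with its pointwise linear stabiliser. -/
structure Comp (f : ℕ) (C : Finset I) (i₀ : I) (U : Subgroup Kˣ) : Prop where
  mem : i₀ ∈ C
  blk : ∀ h : H, ∀ i ∈ C, h • i ∈ C → ∀ j ∈ C, h • j ∈ C
  aut : ∀ j ∈ C, ∃ θ : MulAut Kˣ, ∀ d, (∀ i ∈ C, Lin M D d i) →
    D.α (M.c d j) = θ (D.α (M.c d i₀))
  memU : ∀ u, u ∈ U ↔ ∃ d, (∀ i ∈ C, Lin M D d i) ∧ D.α (M.c d i₀) = u
  res : ∀ j : ℕ, j.Coprime (Nat.card U) → ∃ i ∈ C, ∃ e < f, ∀ d, (∀ i ∈ C, Lin M D d i) →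
    D.α (M.c d i) ^ 17 ^ e = D.α (M.c d i₀) ^ (j * j)

theorem exists_comp [Finite H] [Finite I] [Finite K] {f : ℕ} (hf : GalD K f) (hq : QR H)
    (i₀ : I) : ∃ C U, Comp M D f C i₀ U := by
  classical
  have := Fintype.ofFinite I
  have := hf.finite
  let C : Finset I := Finset.univ.filter fun j => Relation.ReflTransGen (Link M D) i₀ j
  have hC : ∀ j, j ∈ C ↔ Relation.ReflTransGen (Link M D) i₀ j := by simp [C]
  have h0 : i₀ ∈ C := (hC _).2 Relation.ReflTransGen.refl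
  have hsym : ∀ {a b : I}, Relation.ReflTransGen (Link M D) a b →
      Relation.ReflTransGen (Link M D) b a := fun h => by
    induction h with
    | refl => exact Relation.ReflTransGen.refl
    | tail _ h ih => exact Relation.ReflTransGen.head h.symm ih
  have hsm : ∀ (g : H) {a b : I}, Relation.ReflTransGen (Link M D) a b →
      Relation.ReflTransGen (Link M D) (g • a) (g • b) := fun g _ _ h => by
    induction h with
    | refl => exact Relation.ReflTransGen.refl
    | tail _ h ih => exact ih.tail (h.smul g)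
  let U : Subgroup Kˣ :=
    { carrier := {u | ∃ d, (∀ i ∈ C, Lin M D d i) ∧ D.α (M.c d i₀) = u}
      one_mem' := ⟨1, fun i _ => Lin.one i, by
        have := ((Lin.one (M := M) (D := D) i₀).mul (Lin.one i₀)).2
        rw [mul_one] at this
        exact left_eq_mul.1 this⟩
      mul_mem' := by
        rintro _ _ ⟨a, ha, rfl⟩ ⟨b, hb, rfl⟩
        exact ⟨a * b, fun i hi => ((ha i hi).mul (hb i hi)).1, ((ha _ h0).mul (hb _ h0)).2⟩
      inv_mem' := by
        rintro _ ⟨a, ha, rfl⟩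
        refine ⟨a⁻¹, fun i hi => (ha i hi).inv, ?_⟩
        have h1 := ((ha _ h0).inv.mul (ha _ h0)).2
        have h2 := ((Lin.one (M := M) (D := D) i₀).mul (Lin.one i₀)).2
        rw [mul_one] at h2
        rw [inv_mul_cancel, left_eq_mul.1 h2] at h1
        exact eq_inv_of_mul_eq_one_left h1.symm }
  refine ⟨C, U, h0, fun h i hi hhi j hj => ?_, fun j hj => ?_, fun _ => Iff.rfl, fun j hj => ?_⟩
  · rw [hC] at *
    exact hhi.trans (hsm h ((hsym hi).trans hj))
  · rw [hC] at hj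
    induction hj with
    | refl => exact ⟨1, fun _ _ => rfl⟩
    | tail h1 h2 ih =>
      obtain ⟨θ, hθ⟩ := ih
      obtain ⟨θ', hθ'⟩ := h2
      refine ⟨θ' * θ, fun d hd => ?_⟩
      rw [hθ' d (hd _ ((hC _).2 h1)) (hd _ ((hC _).2 (h1.tail ⟨θ', hθ'⟩))), hθ d hd,
        MulAut.mul_apply]
  · have hd : Nat.card U ∣ Nat.card H * Nat.card Kˣ :=
      (Subgroup.card_subgroup_dvd_card U).mul_left _
    have : NeZero (Nat.card H * Nat.card Kˣ) := ⟨(Nat.mul_pos Nat.card_pos Nat.card_pos).ne'⟩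
    obtain ⟨u, hu⟩ := ZMod.unitsMap_surjective hd (ZMod.unitOfCoprime j hj)
    set t := (u : ZMod (Nat.card H * Nat.card Kˣ)).val with ht
    have h1 : t.Coprime (Nat.card H * Nat.card Kˣ) := ZMod.val_coe_unit_coprime u
    have h2 : j ≡ t [MOD Nat.card U] := by
      rw [← ZMod.natCast_eq_natCast_iff]
      have := congrArg Units.val hu
      rw [ZMod.unitsMap_val, ZMod.coe_unitOfCoprime] at this
      rw [← this, ht, ZMod.natCast_val]
    have h3 : t.Coprime (Nat.card H) := Nat.Coprime.coprime_mul_right_right h1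
    have h4 : t.Coprime (Nat.card Kˣ) := Nat.Coprime.coprime_mul_left_right h1
    obtain ⟨i, τ, hi⟩ := link_of_conj M D (fun h => hq.sq h t h3) i₀
    let p : MulAut Kˣ := MulEquiv.ofBijective (powMonoidHom (t * t))
      (Nat.Coprime.pow_left_bijective (Nat.Coprime.mul_left h4 h4).symm)
    have hl : Link M D i₀ i := ⟨(ua τ)⁻¹ * p, fun h a b => by
      rw [MulAut.mul_apply, eq_comm, MulAut.inv_def, MulEquiv.symm_apply_eq, hi h a b]
      rfl⟩
    have hiC : i ∈ C := (hC _).2 (Relation.ReflTransGen.single hl)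
    obtain ⟨e, he, hτ⟩ := hf.ua_pow τ
    refine ⟨i, hiC, e, he, fun d hd => ?_⟩
    rw [← hτ, hi d (hd _ h0) (hd _ hiC), pow_eq_pow_iff_modEq]
    refine (h2.mul h2).symm.of_dvd ?_
    exact Subgroup.orderOf_dvd_natCard U ⟨d, hd, rfl⟩

end model

end Pool.Agent.Lib.MP_39e620_al.Full
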