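import Pool.Agent.Lib.MP_39e620_al.FRed2
import Pool.Agent.Lib.MP_39e620_al.H66Dixon

set_option autoImplicit false

namespace Pool.Agent.Lib.MP_39e620_al.Full

/-- The generators of each cyclic subgroup lie in at most two conjugacy classes. -/
def SR (G : Type) [Group G] : Prop :=
  ∀ x : G, ∃ y : G, ∀ j : ℕ, j.Coprime (orderOf x) → IsConj (x ^ j) x ∨ IsConj (x ^ j) y

theorem SR.of_surjective {G H : Type} [Group G] [Group H] [Finite G] (f : G →* H)
    (hf : Function.Surjective f) (h : SR G) : SR H := by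
  intro x
  obtain ⟨x, rfl⟩ := hf x
  obtain ⟨y, hy⟩ := h x
  refine ⟨f y, fun j hj => ?_⟩
  have : NeZero (orderOf x) := ⟨(orderOf_pos x).ne'⟩
  have hd : orderOf (f x) ∣ orderOf x := orderOf_map_dvd f x
  obtain ⟨u, hu⟩ := ZMod.unitsMap_surjective hd (ZMod.unitOfCoprime j hj)
  have h1 : ((u : ZMod (orderOf x)).val).Coprime (orderOf x) := ZMod.val_coe_unit_coprime u
  have h2 : f x ^ j = f (x ^ (u : ZMod (orderOf x)).val) := by
    rw [map_pow, pow_eq_pow_iff_modEq, ← ZMod.natCast_eq_natCast_iff]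
    have := congrArg Units.val hu
    rw [ZMod.unitsMap_val, ZMod.coe_unitOfCoprime] at this
    rw [← this, ZMod.natCast_val]
  rw [h2]
  exact (hy _ h1).imp f.map_isConj f.map_isConj

theorem exists_inv_pow {G : Type} [Group G] [Finite G] (x : G) (j n : ℕ) (hn : 1 < n)
    (hd : orderOf x ∣ n) (hj : j.Coprime n) : ∃ u : ℕ, j * u % n = 1 ∧ (x ^ j) ^ u = x := by
  obtain ⟨u, -, hu⟩ := Nat.exists_mul_mod_eq_one_of_coprime hj hn
  refine ⟨u, hu, ?_⟩
  obtain ⟨c, hc⟩ := hd
  rw [← pow_mul, ← Nat.div_add_mod (j * u) n, hu, pow_add, pow_one, hc, mul_assoc, pow_mul,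
    pow_orderOf_eq_one, one_pow, one_mul]

theorem SR.sq {G : Type} [Group G] [Finite G] (h : SR G) (x : G) (j : ℕ)
    (hj : j.Coprime (orderOf x)) : IsConj x (x ^ (j * j)) := by
  obtain ⟨y, hy⟩ := h x
  by_cases h1 : IsConj (x ^ j) x
  · have h2 := h1.pow j
    rw [← pow_mul] at h2
    exact (h2.trans h1).symm
  · have h2 := (hy j hj).resolve_left h1
    rcases hy (j * j) (Nat.Coprime.mul_left hj hj) with h3 | h3
    · exact h3.symm
    · exfalso
      apply h1
      by_cases hx : x = 1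
      · subst hx; simp
      have ho : 1 < orderOf x := by
        have a1 := orderOf_pos x
        have a2 : orderOf x ≠ 1 := fun h => hx (orderOf_eq_one_iff.1 h)
        omega
      obtain ⟨u, -, hu⟩ := exists_inv_pow x j _ ho dvd_rfl hj
      have h4 := (h3.trans h2.symm).pow u
      rw [hu, pow_mul, ← pow_mul _ j u, mul_comm j u, pow_mul (x ^ j), hu] at h4
      exact h4

theorem SR.odd {G : Type} [Group G] [Finite G] (h : SR G) (x : G) :
    ∃ j : ℕ, (j % 8 = 3 ∨ j % 8 = 5 ∨ j % 8 = 7) ∧ IsConj x (x ^ j) := by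
  obtain ⟨a, o, ho, hc⟩ := Nat.exists_eq_two_pow_mul_odd (orderOf_pos x).ne'
  have hco : ∀ t : ℕ, Odd t → (t * o * o + 8).Coprime (orderOf x * 8) := fun t ht => by
    have h1 : (t * o * o + 8).Coprime 2 := by
      rw [Nat.coprime_two_right]
      exact ((ht.mul ho).mul ho).add_even (by decide)
    have h2 : (t * o * o + 8).Coprime o := by
      rw [Nat.coprime_mul_right_add_left]
      exact Nat.Coprime.pow_left 3 (Nat.coprime_two_left.2 ho)
    rw [hc]
    exact ((h1.pow_right a).mul_right h2).mul_right (h1.pow_right 3)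
  obtain ⟨c, rfl⟩ := ho
  obtain ⟨d, hd⟩ := Nat.even_mul_succ_self c
  have e1 : (2 * c + 1) * (2 * c + 1) = 8 * d + 1 := by nlinarith
  have h3 := hco 3 (by decide)
  have h5 := hco 5 (by decide)
  rw [mul_assoc, e1] at h3 h5
  obtain ⟨y, hy⟩ := h x
  rcases hy _ (h3.coprime_dvd_right (Dvd.intro _ rfl)) with a | a
  · exact ⟨_, by omega, a.symm⟩
  rcases hy _ (h5.coprime_dvd_right (Dvd.intro _ rfl)) with b | b
  · exact ⟨_, by omega, b.symm⟩
  obtain ⟨u, hu, hu'⟩ := exists_inv_pow x _ (orderOf x * 8)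
    (by have := orderOf_pos x; omega) (Dvd.intro _ rfl) h3
  have h1 := (a.trans b.symm).pow u
  rw [hu', ← pow_mul] at h1
  refine ⟨_, ?_, h1⟩
  have h2 := Nat.div_add_mod ((3 * (8 * d + 1) + 8) * u) (orderOf x * 8)
  rw [hu, mul_assoc, mul_comm (orderOf x), mul_assoc] at h2
  have e2 : (3 * (8 * d + 1) + 8) * u = 8 * ((3 * d + 1) * u) + 3 * u := by ring
  have e3 : (5 * (8 * d + 1) + 8) * u = 8 * ((5 * d + 1) * u) + 5 * u := by ring
  omega

theorem SR.qr {G : Type} [Group G] [Finite G] (h : SR G) : QR G :=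
  ⟨fun x j hj => h.sq x j (hj.coprime_dvd_right (orderOf_dvd_natCard x)), h.odd⟩

theorem local_false
    (main : ∀ (H V : Type) [Group H] [Finite H] [Group.IsSolvable H] [AddCommGroup V] [Finite V]
      [Nontrivial V] [DistribMulAction H V], QR H → ¬ 17 ∣ Nat.card H →
      (∀ v : V, (17 : ℤ) • v = 0) → (∀ v : V, ∃ x : H, x • v = (2 : ℤ) • v) → False)
    {G : Type} [Group G] [Finite G] [Group.IsSolvable G] (hsr : SR G) (V : Subgroup G) [V.Normal]
    (hV : V ≠ ⊥) (hc : ∀ a ∈ V, ∀ b ∈ V, a * b = b * a) (h17 : ∀ a ∈ V, a ^ 17 = 1)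
    (hi : ¬ 17 ∣ V.index) : False := by
  let inst : CommGroup V :=
    { (inferInstance : Group V) with mul_comm := fun a b => Subtype.ext (hc a a.2 b b.2) }
  have : Nontrivial V := (Subgroup.nontrivial_iff_ne_bot V).2 hV
  let τ : G →* MulAut V := MulAut.conjNormal
  let act : DistribMulAction τ.range (Additive V) :=
    { smul := fun g v => Additive.ofMul (g.1 v.toMul)
      one_smul := fun _ => rfl
      mul_smul := fun _ _ _ => rfl
      smul_zero := fun g => map_one g.1
      smul_add := fun g a b => map_mul g.1 _ _ }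
  have : Group.IsSolvable τ.range := Group.isSolvable_of_surjective τ.rangeRestrict_surjective
  refine main τ.range (Additive V) (hsr.of_surjective _ τ.rangeRestrict_surjective).qr ?_ ?_ ?_
  · intro h
    apply hi
    rw [← Subgroup.index_ker] at h
    refine h.trans (Subgroup.index_dvd_of_le fun a ha => ?_)
    rw [MonoidHom.mem_ker]
    ext b
    rw [MulAut.conjNormal_apply, hc a ha b b.2]
    simp
  · intro v
    apply Additive.toMul.injective
    apply Subtype.ext
    have := h17 v.toMul v.toMul.2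
    rw [← zpow_natCast] at this
    exact this
  · intro v
    have ha := h17 v.toMul v.toMul.2
    have hd : orderOf (v.toMul : G) ∣ 17 := orderOf_dvd_of_pow_eq_one ha
    have h1 := hsr.sq (v.toMul : G) 6 (Nat.Coprime.coprime_dvd_right hd (by norm_num))
    rw [show 6 * 6 = 17 * 2 + 2 from rfl, pow_add, pow_mul, ha, one_pow, one_mul] at h1
    obtain ⟨g, hg⟩ := isConj_iff.1 h1
    refine ⟨τ.rangeRestrict g, ?_⟩
    apply Additive.toMul.injective
    apply Subtype.ext
    rw [← zpow_natCast] at hg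
    exact hg

theorem global
    (main : ∀ (H V : Type) [Group H] [Finite H] [Group.IsSolvable H] [AddCommGroup V] [Finite V]
      [Nontrivial V] [DistribMulAction H V], QR H → ¬ 17 ∣ Nat.card H →
      (∀ v : V, (17 : ℤ) • v = 0) → (∀ v : V, ∃ x : H, x • v = (2 : ℤ) • v) → False) (n : ℕ) :
    ∀ (G : Type) [Group G] [Finite G] [Group.IsSolvable G], Nat.card G = n → SR G →
      ¬ 17 ∣ Nat.card G := by
  induction n using Nat.strong_induction_on with
  | _ n ih =>
  intro G _ _ _ hn hsr h17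
  have p17 : Nat.Prime 17 := by norm_num
  by_cases hq : ∃ M : Subgroup G, M.Normal ∧ M ≠ ⊥ ∧ 17 ∣ M.index
  · obtain ⟨M, hMn, hM, hMi⟩ := hq
    have hlt : Nat.card (G ⧸ M) < n := by
      have h1 := M.index_mul_card
      have h2 : 1 < Nat.card M := M.one_lt_card_iff_ne_bot.2 hM
      have h3 : 0 < M.index := Nat.pos_of_ne_zero M.index_ne_zero_of_finite
      change M.index < n
      nlinarith
    exact ih _ hlt (G ⧸ M) rfl (hsr.of_surjective _ (QuotientGroup.mk'_surjective M)) hMi
  have : Nontrivial G := by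
    rw [← Finite.one_lt_card_iff_nontrivial]
    have := Nat.le_of_dvd Nat.card_pos h17
    omega
  obtain ⟨A, hAn, hA, hAc⟩ := h66_abelian_normal G
  have hA17 : 17 ∣ Nat.card A := by
    by_contra h
    apply hq
    refine ⟨A, hAn, hA, ?_⟩
    rw [← A.index_mul_card] at h17
    exact ((Nat.Prime.dvd_mul p17).1 h17).resolve_right h
  let V : Subgroup G :=
    { carrier := {a | a ∈ A ∧ a ^ 17 = 1}
      one_mem' := ⟨A.one_mem, one_pow _⟩
      mul_mem' := by
        rintro a b ⟨ha, ha'⟩ ⟨hb, hb'⟩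
        refine ⟨A.mul_mem ha hb, ?_⟩
        rw [Commute.mul_pow (hAc a ha b hb), ha', hb', one_mul]
      inv_mem' := by
        rintro a ⟨ha, ha'⟩
        exact ⟨A.inv_mem ha, by rw [inv_pow, ha', inv_one]⟩ }
  have hVn : V.Normal := ⟨by
    rintro a ⟨ha, ha'⟩ g
    exact ⟨hAn.conj_mem a ha g, by rw [conj_pow, ha', mul_one, mul_inv_cancel]⟩⟩
  have hV : V ≠ ⊥ := by
    obtain ⟨a, ha⟩ := exists_prime_orderOf_dvd_card' 17 hA17
    intro h
    have h1 : (a : G) ∈ V := ⟨a.2, by
      have := pow_orderOf_eq_one a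
      rw [ha] at this
      exact congrArg Subtype.val this⟩
    rw [h, Subgroup.mem_bot] at h1
    have h2 : a = 1 := Subtype.ext h1
    rw [h2, orderOf_one] at ha
    omega
  exact local_false main hsr V hV (fun a ha b hb => hAc a ha.1 b hb.1) (fun a ha => ha.2)
    fun h => hq ⟨V, hVn, hV, h⟩

/-- Everything reduces to the primitive block models. -/
theorem no_seventeen_of
    (main : ∀ (H I G K W : Type) [Group H] [Finite H] [Group.IsSolvable H] [MulAction H I]
      [Finite I] [Nonempty I] [Group G] [Finite G]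
      [Group.IsSolvable G] [Field K] [Finite K] [CharP K 17] [AddCommGroup W] [Finite W]
      [Nontrivial W] [Module K W] [DistribMulAction G W] [FaithfulSMul G W],
      QR H → ¬ 17 ∣ Nat.card G → LM H I G W → Prim G K W → False)
    (G : Type) [Group G] [Finite G] [Group.IsSolvable G] (h : SR G) : ¬ 17 ∣ Nat.card G :=
  global (fun H V _ _ _ _ _ _ _ hq hH h17 hE =>
    reduce H V hH h17 hE fun I G K W _ _ _ _ _ _ _ _ _ _ _ _ _ _ _ => main H I G K W hq) _ G rfl h

end Pool.Agent.Lib.MP_39e620_al.Full
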