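import Pool.Agent.Lib.MP_39e620_al.F1

set_option autoImplicit false

namespace Pool.Agent.Lib.MP_39e620_al.Full

theorem exists_embed (A : Type) [CommGroup A] [Finite A] [IsCyclic A] :
    ∃ ι : A →* ℂ, Function.Injective ι := by
  have : NeZero (Nat.card A) := ⟨Nat.card_pos.ne'⟩
  have e : A ≃* rootsOfUnity (Nat.card A) ℂ := mulEquivOfCyclicCardEq (by
    rw [Complex.card_rootsOfUnity])
  exact ⟨(Units.coeHom ℂ).comp ((Subgroup.subtype _).comp e.toMonoidHom),
    Units.val_injective.comp (Subtype.val_injective.comp e.injective)⟩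

section
variable {H Λ A : Type} [Group H] [MulAction H Λ] [CommGroup A] {lam : H → Λ → A}

theorem lam_one (coc : ∀ g h i, lam (g * h) i = lam g (h • i) * lam h i) (i : Λ) :
    lam 1 i = 1 := by
  have := coc 1 1 i
  rw [one_mul, one_smul] at this
  exact left_eq_mul.1 this

theorem lam_conj (coc : ∀ g h i, lam (g * h) i = lam g (h • i) * lam h i) (g : H) {h : H} {i : Λ}
    (hi : h • i = i) : lam (g * h * g⁻¹) (g • i) = lam h i := by
  have h1 := coc g⁻¹ g i
  rw [inv_mul_cancel, lam_one coc] at h1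
  rw [coc, coc, inv_smul_smul, hi, mul_right_comm, mul_comm (lam g i), ← h1, one_mul]

theorem lam_pow (coc : ∀ g h i, lam (g * h) i = lam g (h • i) * lam h i) {h : H} {i : Λ}
    (hi : h • i = i) (n : ℕ) : lam (h ^ n) i = lam h i ^ n := by
  induction n with
  | zero => simp [lam_one coc]
  | succ n ih => rw [pow_succ, coc, hi, ih, pow_succ]

end

theorem mackey {H Λ A : Type} [Group H] [Finite H] [MulAction H Λ] [Finite Λ] [CommGroup A]
    [Finite A] [IsCyclic A] (lam : H → Λ → A)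
    (coc : ∀ g h i, lam (g * h) i = lam g (h • i) * lam h i) (k : ℕ)
    (hc : ∀ h : H, IsConj h (h ^ k)) (i : Λ) :
    ∃ j : Λ, (∃ g : H, g • i = j) ∧ ∀ h : H, h • i = i → h • j = j → lam h j = lam h i ^ k := by
  classical
  have := Fintype.ofFinite H
  have := Fintype.ofFinite Λ
  obtain ⟨ι, hι⟩ := exists_embed A
  let O : Finset Λ := Finset.univ.filter fun j => ∃ g : H, g • i = j
  have hO : ∀ j, j ∈ O ↔ ∃ g : H, g • i = j := by simp [O]
  have hOs : ∀ (g : H) j, g • j ∈ O ↔ j ∈ O := fun g j => by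
    rw [hO, hO]
    constructor
    · rintro ⟨t, ht⟩
      exact ⟨g⁻¹ * t, by rw [mul_smul, ht, inv_smul_smul]⟩
    · rintro ⟨t, ht⟩
      exact ⟨g * t, by rw [mul_smul, ht]⟩
  let χ : ℕ → H → ℂ := fun n h => ∑ a ∈ O, if h • a = a then ι (lam h a ^ n) else 0
  have hχ : ∀ h, χ k h = χ 1 h := fun h => by
    obtain ⟨g, hg⟩ := isConj_iff.1 (hc h)
    symm
    refine Finset.sum_bijective (fun a => g • a) (MulAction.bijective g)
      (fun a => (hOs g a).symm) fun a _ => ?_
    by_cases ha : h • a = a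
    · have h1 : h ^ k • g • a = g • a := by rw [← hg, mul_smul, mul_smul, inv_smul_smul, ha]
      have h2 := fix_of_conj_pow (hc h) h1
      rw [if_pos ha, if_pos h2, ← lam_pow coc h2, ← hg, lam_conj coc g ha, pow_one]
    · rw [if_neg ha, if_neg]
      intro h2
      have h1 := pow_fix h2 k
      rw [← hg, mul_smul, mul_smul, inv_smul_smul, smul_left_cancel_iff] at h1
      exact ha h1
  let St : Λ → Λ → Subgroup H := fun a b =>
    MulAction.stabilizer H a ⊓ MulAction.stabilizer H b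
  have hSt : ∀ a b h, h ∈ St a b ↔ h • a = a ∧ h • b = b := fun _ _ _ => Iff.rfl
  let f : ℕ → ∀ a b, St a b →* ℂ := fun n a b =>
    { toFun := fun h => ι (lam h a ^ n * (lam h b)⁻¹)
      map_one' := by simp [lam_one coc]
      map_mul' := fun x y => by
        rw [← map_mul, Subgroup.coe_mul, coc, coc, ((hSt _ _ _).1 y.2).1, ((hSt _ _ _).1 y.2).2,
          mul_pow, mul_inv]
        congr 1
        ac_rfl }
  have hf : ∀ n a b (h : St a b), f n a b h = ι (lam h a ^ n * (lam h b)⁻¹) := fun _ _ _ _ => rfl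
  have hS : ∀ n, ∑ h : H, χ n h * (∑ b ∈ O, if h • b = b then ι (lam h b)⁻¹ else 0) =
      ∑ a ∈ O, ∑ b ∈ O, ((if f n a b = 1 then Fintype.card (St a b) else 0 : ℕ) : ℂ) := by
    intro n
    simp only [χ, Finset.sum_mul_sum]
    rw [Finset.sum_comm]
    refine Finset.sum_congr rfl fun a _ => ?_
    rw [Finset.sum_comm]
    refine Finset.sum_congr rfl fun b _ => ?_
    have e := Finset.sum_subtype (p := (· ∈ St a b)) (F := inferInstance)
      (Finset.univ.filter (· ∈ St a b)) (by simp) (fun h => ι (lam h a ^ n * (lam h b)⁻¹))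
    rw [← sum_hom_units (f n a b)]
    simp only [hf]
    rw [← e, Finset.sum_filter]
    refine Finset.sum_congr rfl fun h _ => ?_
    by_cases ha : h • a = a <;> by_cases hb : h • b = b <;> simp [hSt, ha, hb]
  have h1 : ∑ a ∈ O, ∑ b ∈ O, (if f k a b = 1 then Fintype.card (St a b) else 0 : ℕ) =
      ∑ a ∈ O, ∑ b ∈ O, (if f 1 a b = 1 then Fintype.card (St a b) else 0 : ℕ) := by
    apply Nat.cast_injective (R := ℂ)
    push_cast
    have e1 := hS k
    have e2 := hS 1
    push_cast at e1 e2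
    rw [← e1, ← e2]
    simp only [hχ]
  have hi : i ∈ O := (hO i).2 ⟨1, one_smul _ _⟩
  have h2 : 0 < ∑ a ∈ O, ∑ b ∈ O, (if f 1 a b = 1 then Fintype.card (St a b) else 0 : ℕ) := by
    refine Finset.sum_pos' (fun _ _ => Nat.zero_le _) ⟨i, hi, ?_⟩
    refine Finset.sum_pos' (fun _ _ => Nat.zero_le _) ⟨i, hi, ?_⟩
    rw [if_pos (by ext h; simp [hf])]
    exact Fintype.card_pos
  rw [← h1] at h2
  obtain ⟨a, ha, h3⟩ := Finset.exists_ne_zero_of_sum_ne_zero h2.ne'
  obtain ⟨b, hb, h4⟩ := Finset.exists_ne_zero_of_sum_ne_zero h3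
  have h5 : f k a b = 1 := by
    by_contra h
    exact h4 (if_neg h)
  obtain ⟨g, hg⟩ := (hO a).1 ha
  refine ⟨g⁻¹ • b, (hO _).1 ((hOs _ _).2 hb), fun h h6 h7 => ?_⟩
  have h8 : g * h * g⁻¹ ∈ St a b := by
    rw [hSt, ← hg]
    constructor
    · rw [mul_smul, mul_smul, inv_smul_smul, h6]
    · rw [mul_smul, mul_smul, h7, smul_inv_smul]
  have h9 := hf k a b ⟨_, h8⟩
  rw [h5, MonoidHom.one_apply, ← ι.map_one] at h9
  have h10 := hι h9
  have e1 := lam_conj coc g h6
  have e2 := lam_conj coc g h7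
  rw [hg] at e1
  rw [smul_inv_smul] at e2
  simp only [e1, e2] at h10
  exact (mul_inv_eq_one.1 h10.symm).symm

end Pool.Agent.Lib.MP_39e620_al.Full
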