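import Pool.Agent.Lib.MP_39e620_al.F1

set_option autoImplicit false

namespace Pool.Agent.Lib.MP_39e620_al.Full

section ring
variable {E : Type} [Ring E]

/-- `x` is fixed by a power of the Frobenius map. -/
def Sep (x : E) : Prop := ∃ N : ℕ, 0 < N ∧ x ^ 17 ^ N = x

theorem pow_iter {x : E} {a : ℕ} (h : x ^ 17 ^ a = x) (b : ℕ) : x ^ 17 ^ (a * b) = x := by
  induction b with
  | zero => simp
  | succ b ih => rw [Nat.mul_succ, pow_add, pow_mul, ih, h]

theorem Sep.both {x y : E} (hx : Sep x) (hy : Sep y) :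
    ∃ N : ℕ, 0 < N ∧ x ^ 17 ^ N = x ∧ y ^ 17 ^ N = y := by
  obtain ⟨a, ha, h1⟩ := hx
  obtain ⟨b, hb, h2⟩ := hy
  exact ⟨a * b, Nat.mul_pos ha hb, pow_iter h1 b, by rw [mul_comm]; exact pow_iter h2 a⟩

theorem Sep.add [CharP E 17] {x y : E} (hx : Sep x) (hy : Sep y) (h : Commute x y) :
    Sep (x + y) := by
  obtain ⟨N, hN, h1, h2⟩ := hx.both hy
  exact ⟨N, hN, by rw [add_pow_char_pow_of_commute 17 N h, h1, h2]⟩

theorem Sep.mul {x y : E} (hx : Sep x) (hy : Sep y) (h : Commute x y) : Sep (x * y) := by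
  obtain ⟨N, hN, h1, h2⟩ := hx.both hy
  exact ⟨N, hN, by rw [h.mul_pow, h1, h2]⟩

theorem Sep.neg {x : E} (hx : Sep x) : Sep (-x) := by
  obtain ⟨N, hN, h1⟩ := hx
  exact ⟨N, hN, by rw [Odd.neg_pow (Odd.pow (by decide)), h1]⟩

variable {H : Type} [Group H] (ρ : H →* E)

theorem rho_inv (h : H) : ρ h⁻¹ * ρ h = 1 := by rw [← map_mul, inv_mul_cancel, map_one]

theorem rho_inv' (h : H) : ρ h * ρ h⁻¹ = 1 := by rw [← map_mul, mul_inv_cancel, map_one]

/-- Conjugation by `ρ h`. -/
def cj (h : H) : E →+* E where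
  toFun x := ρ h * x * ρ h⁻¹
  map_one' := by rw [mul_one, rho_inv']
  map_mul' x y := by
    calc ρ h * (x * y) * ρ h⁻¹ = ρ h * x * (ρ h⁻¹ * ρ h) * y * ρ h⁻¹ := by
          rw [rho_inv]; noncomm_ring
      _ = _ := by noncomm_ring
  map_zero' := by simp
  map_add' x y := by noncomm_ring

theorem cj_def (h : H) (x : E) : cj ρ h x = ρ h * x * ρ h⁻¹ := rfl

theorem cj_mul (g h : H) (x : E) : cj ρ (g * h) x = cj ρ g (cj ρ h x) := by
  rw [cj_def, cj_def, cj_def, mul_inv_rev, ρ.map_mul, ρ.map_mul]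
  simp only [mul_assoc]

theorem cj_one (x : E) : cj ρ 1 x = x := by simp [cj_def]

theorem cj_inv (g : H) (x : E) : cj ρ g (cj ρ g⁻¹ x) = x := by
  rw [← cj_mul, mul_inv_cancel, cj_one]

theorem cj_inv' (g : H) (x : E) : cj ρ g⁻¹ (cj ρ g x) = x := by
  rw [← cj_mul, inv_mul_cancel, cj_one]

theorem cj_rho (g h : H) : cj ρ g (ρ h) = ρ (g * h * g⁻¹) := by
  simp only [cj_def, map_mul]

theorem cj_eq {g : H} {x : E} : cj ρ g x = x ↔ ρ g * x = x * ρ g := by
  rw [cj_def]
  constructor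
  · intro h
    nth_rewrite 2 [← h]
    rw [mul_assoc, rho_inv, mul_one]
  · intro h
    rw [h, mul_assoc, rho_inv', mul_one]

/-- An invariant commutative set of separable elements. -/
def Good (S : Set E) : Prop :=
  (∀ x ∈ S, ∀ y ∈ S, Commute x y) ∧ (∀ h, ∀ x ∈ S, cj ρ h x ∈ S) ∧ ∀ x ∈ S, Sep x

theorem Good.closure [CharP E 17] {S : Set E} (h : Good ρ S) :
    Good ρ (Subring.closure S : Set E) := by
  obtain ⟨h1, h2, h3⟩ := h
  have c1 : ∀ x ∈ S, ∀ y ∈ Subring.closure S, Commute x y := fun x hx y hy => by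
    induction hy using Subring.closure_induction with
    | mem y hy => exact h1 x hx y hy
    | zero => exact Commute.zero_right _
    | one => exact Commute.one_right _
    | add a b _ _ ha hb => exact ha.add_right hb
    | neg a _ ha => exact ha.neg_right
    | mul a b _ _ ha hb => exact ha.mul_right hb
  have c2 : ∀ x ∈ Subring.closure S, ∀ y ∈ Subring.closure S, Commute x y := fun x hx y hy => by
    induction hx using Subring.closure_induction with
    | mem x hx => exact c1 x hx y hy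
    | zero => exact Commute.zero_left _
    | one => exact Commute.one_left _
    | add a b _ _ ha hb => exact ha.add_left hb
    | neg a _ ha => exact ha.neg_left
    | mul a b _ _ ha hb => exact ha.mul_left hb
  refine ⟨c2, fun h x hx => ?_, fun x hx => ?_⟩
  · induction hx using Subring.closure_induction with
    | mem x hx => exact Subring.subset_closure (h2 h x hx)
    | zero => rw [map_zero]; exact zero_mem (Subring.closure S)
    | one => rw [map_one]; exact one_mem (Subring.closure S)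
    | add a b _ _ ha hb => rw [map_add]; exact add_mem (S := Subring E) ha hb
    | neg a _ ha => rw [map_neg]; exact neg_mem (S := Subring E) ha
    | mul a b _ _ ha hb => rw [map_mul]; exact mul_mem (S := Subring E) ha hb
  · induction hx using Subring.closure_induction with
    | mem x hx => exact h3 x hx
    | zero => exact ⟨1, one_pos, by simp⟩
    | one => exact ⟨1, one_pos, by simp⟩
    | add a b ha' hb' ha hb => exact ha.add hb (c2 a ha' b hb')
    | neg a _ ha => exact ha.neg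
    | mul a b ha' hb' ha hb => exact ha.mul hb (c2 a ha' b hb')

theorem exists_max [Finite E] [CharP E 17] : ∃ R : Subring E, Good ρ (R : Set E) ∧
    ∀ S : Set E, Good ρ S → (R : Set E) ⊆ S → S ⊆ R := by
  have h0 : Good ρ (∅ : Set E) := ⟨by simp, by simp, by simp⟩
  obtain ⟨S, hS, hmax⟩ := Set.exists_max_image {S : Set E | Good ρ S} Set.ncard (Set.toFinite _)
    ⟨∅, h0⟩
  have e : S = (Subring.closure S : Set E) :=
    Set.eq_of_subset_of_ncard_le Subring.subset_closure (hmax _ (Good.closure ρ hS))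
  refine ⟨Subring.closure S, Good.closure ρ hS, fun T hT hsub => ?_⟩
  rw [← e] at hsub ⊢
  exact (Set.eq_of_subset_of_ncard_le hsub (hmax _ hT)).superset

theorem exists_min_idem [Finite E] [Nontrivial E] (R : Subring E)
    (hc : ∀ x ∈ R, ∀ y ∈ R, Commute x y) : ∃ e ∈ R, e * e = e ∧ e ≠ 0 ∧
      ∀ f ∈ R, f * f = f → f * e = 0 ∨ f * e = e := by
  obtain ⟨e, ⟨he, hee, he0⟩, hmin⟩ := Set.exists_min_image
    {e : E | e ∈ R ∧ e * e = e ∧ e ≠ 0} (fun e => {x : E | x * e = x}.ncard) (Set.toFinite _)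
    ⟨1, one_mem R, one_mul 1, one_ne_zero⟩
  refine ⟨e, he, hee, he0, fun f hf hff => ?_⟩
  by_cases h : f * e = 0
  · exact Or.inl h
  right
  have c := (hc e he f hf).eq
  have h1 : f * e * (f * e) = f * e := by
    rw [mul_assoc, ← mul_assoc e, c, mul_assoc, hee, ← mul_assoc, hff]
  have h2 : {x : E | x * (f * e) = x} ⊆ {x : E | x * e = x} := fun x hx => by
    have hx' : x * (f * e) = x := hx
    change x * e = x
    rw [← hx', mul_assoc, mul_assoc, hee]
  have h3 := Set.eq_of_subset_of_ncard_le h2 (hmin _ ⟨mul_mem hf he, h1, h⟩)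
  have h4 : e ∈ {x : E | x * (f * e) = x} := by rw [h3]; exact hee
  have h5 : e * (f * e) = e := h4
  rwa [← mul_assoc, c, mul_assoc, hee] at h5

/-- The data extracted from a maximal invariant commutative separable subring. -/
structure Blk (R : Subring E) (e : E) : Prop where
  comm : ∀ x ∈ R, ∀ y ∈ R, Commute x y
  inv : ∀ h, ∀ x ∈ R, cj ρ h x ∈ R
  mem : e ∈ R
  idem : e * e = e
  ne : e ≠ 0
  orth : ∀ g, ρ g * e = e * ρ g ∨ e * ρ g * e = 0
  field : ∀ x ∈ R, x * e = 0 ∨ ∃ y ∈ R, y * x * e = e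
  prim : ∀ T : Set H, (∀ s ∈ T, ρ s * e = e * ρ s) →
    (∀ s ∈ T, ∀ g, ρ g * e = e * ρ g → g * s * g⁻¹ ∈ T) →
    (∀ s ∈ T, ∀ x ∈ R, x * (ρ s * e) = ρ s * e * x) →
    (∀ s ∈ T, ∀ s' ∈ T, ρ s * e * (ρ s' * e) = ρ s' * e * (ρ s * e)) → ∀ s ∈ T, ρ s * e ∈ R

theorem exists_blk [Finite E] [Nontrivial E] [CharP E 17] [Finite H] (hH : ¬ 17 ∣ Nat.card H) :
    ∃ R e, Blk ρ R e := by
  obtain ⟨R, ⟨hc, hi, hs⟩, hmax⟩ := exists_max ρ
  obtain ⟨e, he, hee, he0, hmin⟩ := exists_min_idem R hc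
  have hid : ∀ g, cj ρ g e * cj ρ g e = cj ρ g e := fun g => by rw [← map_mul, hee]
  have orth' : ∀ g, cj ρ g e = e ∨ cj ρ g e * e = 0 := fun g => by
    rcases hmin _ (hi g e he) (hid g) with h | h
    · exact Or.inr h
    left
    rcases hmin _ (hi g⁻¹ e he) (hid g⁻¹) with h' | h'
    · have := congrArg (cj ρ g) h'
      rw [map_mul, cj_inv, map_zero, (hc e he _ (hi g e he)).eq, h] at this
      exact absurd this he0
    · have := congrArg (cj ρ g) h'
      rw [map_mul, cj_inv, (hc e he _ (hi g e he)).eq, h] at this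
      exact this.symm
  refine ⟨R, e, hc, hi, he, hee, he0, fun g => ?_, fun x hx => ?_, ?_⟩
  · refine (orth' g).imp (cj_eq ρ).1 fun h => ?_
    rw [(hc _ (hi g e he) e he).eq, cj_def] at h
    have := congrArg (· * ρ g) h
    simp only [mul_assoc, rho_inv, mul_one, zero_mul] at this
    rw [mul_assoc, this]
  · obtain ⟨N, hN, h⟩ := hs x hx
    obtain ⟨m, hm⟩ : ∃ m, 17 ^ N = m + 2 :=
      ⟨17 ^ N - 2, by have := Nat.one_lt_pow hN.ne' (show 1 < 17 by norm_num); omega⟩
    rw [hm] at h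
    have h1 : x ^ (m + 1) * x ^ (m + 1) = x ^ (m + 1) := by
      rw [← pow_add, show m + 1 + (m + 1) = m + (m + 2) by ring, pow_add, h, pow_succ]
    rcases hmin _ (pow_mem hx (m + 1)) h1 with h2 | h2
    · left
      rw [← h, pow_succ', mul_assoc, h2, mul_zero]
    · exact Or.inr ⟨x ^ m, pow_mem hx m, by rw [← pow_succ, h2]⟩
  · intro T t1 t2 t3 t4 s hsT
    let S : Set E := R ∪ {y | ∃ h, ∃ s ∈ T, y = cj ρ h (ρ s * e)}
    have c1 : ∀ x ∈ R, ∀ h, ∀ s ∈ T, Commute x (cj ρ h (ρ s * e)) := fun x hx h s hs => by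
      rw [← cj_inv ρ h x]
      exact Commute.map (t3 s hs _ (hi h⁻¹ x hx)) (cj ρ h)
    have c2 : ∀ s ∈ T, ∀ g, ∀ s' ∈ T, Commute (ρ s * e) (cj ρ g (ρ s' * e)) := by
      intro s hs g s' hs'
      rcases orth' g with h | h
      · rw [map_mul, cj_rho, h]
        exact t4 s hs _ (t2 s' hs' g ((cj_eq ρ).1 h))
      · have h' : e * cj ρ g e = 0 := by rw [(hc e he _ (hi g e he)).eq, h]
        have a1 : ρ s * e * cj ρ g (ρ s' * e) = 0 := by
          rw [t1 s' hs', map_mul, mul_assoc, ← mul_assoc e, h', zero_mul, mul_zero]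
        have a2 : cj ρ g (ρ s' * e) * (ρ s * e) = 0 := by
          rw [t1 s hs, map_mul, mul_assoc, ← mul_assoc _ e, h, zero_mul, mul_zero]
        exact a1.trans a2.symm
    have hS : Good ρ S := by
      refine ⟨?_, ?_, ?_⟩
      · rintro x (hx | ⟨h, s, hs, rfl⟩) y (hy | ⟨h', s', hs', rfl⟩)
        · exact hc x hx y hy
        · exact c1 x hx h' s' hs'
        · exact (c1 y hy h s hs).symm
        · have := Commute.map (c2 s hs (h⁻¹ * h') s' hs') (cj ρ h)
          rwa [← cj_mul, mul_inv_cancel_left] at this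
      · rintro g x (hx | ⟨h, s, hs, rfl⟩)
        · exact Or.inl (hi g x hx)
        · exact Or.inr ⟨g * h, s, hs, (cj_mul ρ _ _ _).symm⟩
      · rintro x (hx | ⟨h, s, hs, rfl⟩)
        · exact hs x hx
        · have hco : Nat.Coprime 17 (Nat.card H) :=
            (Nat.Prime.coprime_iff_not_dvd (by norm_num)).2 hH
          refine ⟨Nat.totient (Nat.card H), Nat.totient_pos.2 Nat.card_pos, ?_⟩
          have e1 : s ^ 17 ^ Nat.totient (Nat.card H) = s := by
            nth_rewrite 2 [← pow_one s]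
            rw [pow_eq_pow_iff_modEq]
            exact (Nat.ModEq.pow_totient hco).of_dvd (orderOf_dvd_natCard s)
          have e2 : e ^ 17 ^ Nat.totient (Nat.card H) = e :=
            IsIdempotentElem.pow_eq hee (by positivity)
          rw [← map_pow, Commute.mul_pow (t1 s hs), ← map_pow, e1, e2]
    exact hmax S hS Set.subset_union_left (Or.inr ⟨1, s, hsT, (cj_one ρ _).symm⟩)

end ring

end Pool.Agent.Lib.MP_39e620_al.Full
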