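import Pool.Agent.Lib.MP_39e620_al.FRed1

set_option autoImplicit false

namespace Pool.Agent.Lib.MP_39e620_al.Full

section
variable {H V : Type} [Group H] [AddCommGroup V] (ρ : H →* AddMonoid.End V)
  (R : Subring (AddMonoid.End V)) (e : AddMonoid.End V)

/-- The block `e V`. -/
def Wb : AddSubgroup V where
  carrier := {v | e v = v}
  zero_mem' := map_zero e
  add_mem' := fun {a b} ha hb => by
    have ha' : e a = a := ha
    have hb' : e b = b := hb
    change e (a + b) = a + b
    rw [map_add, ha', hb']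
  neg_mem' := fun {a} ha => by
    have ha' : e a = a := ha
    change e (-a) = -a
    rw [map_neg, ha']

/-- The stabiliser of the block. -/
def Sb : Subgroup H where
  carrier := {h | ρ h * e = e * ρ h}
  one_mem' := by simp
  mul_mem' := fun {a b} ha hb => by
    have ha' : ρ a * e = e * ρ a := ha
    have hb' : ρ b * e = e * ρ b := hb
    change ρ (a * b) * e = e * ρ (a * b)
    rw [map_mul, mul_assoc, hb', ← mul_assoc, ha', mul_assoc]
  inv_mem' := fun {a} ha => by
    have ha' : ρ a * e = e * ρ a := ha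
    change ρ a⁻¹ * e = e * ρ a⁻¹
    rw [← cj_eq] at ha' ⊢
    nth_rewrite 1 [← ha']
    exact cj_inv' ρ a e

/-- Restriction to the block of an endomorphism commuting with `e`. -/
def res (x : AddMonoid.End V) (hx : x * e = e * x) : AddMonoid.End (Wb e) where
  toFun w := ⟨x w, by
    have h1 : e w = w := w.2
    have h2 := DFunLike.congr_fun hx w.1
    change x (e w) = e (x w) at h2
    rw [h1] at h2
    exact h2.symm⟩
  map_zero' := Subtype.ext (map_zero x)
  map_add' a b := Subtype.ext (map_add x _ _)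

theorem res_apply (x : AddMonoid.End V) (hx : x * e = e * x) (w : Wb e) :
    (res e x hx w : V) = x w := rfl

/-- The action of the stabiliser on the block. -/
def actS : Sb ρ e →* Equiv.Perm (Wb e) :=
  MonoidHom.toHomPerm
    { toFun := fun s => (res e (ρ s) s.2 : Wb e → Wb e)
      map_one' := by
        funext w
        apply Subtype.ext
        change ρ 1 w = w
        rw [map_one]
        rfl
      map_mul' := fun s t => by
        funext w
        apply Subtype.ext
        change ρ (s * t) w = ρ s (ρ t w)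
        rw [map_mul]
        rfl }

theorem actS_apply (s : Sb ρ e) (w : Wb e) : (actS ρ e s w : V) = ρ s w := rfl

/-- The group induced on the block. -/
abbrev Gb : Type := (actS ρ e).range

instance : DistribMulAction (Gb ρ e) (Wb e) where
  __ := (inferInstance : MulAction (actS ρ e).range (Wb e))
  smul_zero := by
    rintro ⟨_, s, rfl⟩
    exact Subtype.ext (map_zero (ρ s))
  smul_add := by
    rintro ⟨_, s, rfl⟩ a b
    exact Subtype.ext (map_add (ρ s) _ _)

theorem Gb_smul (s : Sb ρ e) (w : Wb e) :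
    (((actS ρ e).rangeRestrict s • w : Wb e) : V) = ρ s w := rfl

instance : FaithfulSMul (Gb ρ e) (Wb e) :=
  ⟨fun {_ _} h => Subtype.ext (Equiv.ext h)⟩

variable {ρ R e}

/-- Restriction of `R` to the block. -/
def Blk.phi (B : Blk ρ R e) : R →+* AddMonoid.End (Wb e) where
  toFun x := res e x (B.comm x x.2 e B.mem).eq
  map_one' := rfl
  map_mul' _ _ := rfl
  map_zero' := rfl
  map_add' _ _ := rfl

theorem Blk.phi_apply (B : Blk ρ R e) (x : R) (w : Wb e) : (B.phi x w : V) = x.1 w := rfl

theorem Blk.e_mem (B : Blk ρ R e) (v : V) : e v ∈ Wb e := DFunLike.congr_fun B.idem v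

theorem Blk.nontrivial (B : Blk ρ R e) : Nontrivial (Wb e) := by
  by_contra h
  rw [not_nontrivial_iff_subsingleton] at h
  apply B.ne
  ext v
  exact congrArg Subtype.val (Subsingleton.elim (⟨e v, B.e_mem v⟩ : Wb e) 0)

theorem Blk.isField (B : Blk ρ R e) : IsField B.phi.range where
  exists_pair_ne := by
    have := B.nontrivial
    obtain ⟨w, hw⟩ := exists_ne (0 : Wb e)
    exact ⟨1, 0, fun h => hw (DFunLike.congr_fun (congrArg Subtype.val h) w)⟩
  mul_comm := by
    rintro ⟨_, x, rfl⟩ ⟨_, y, rfl⟩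
    apply Subtype.ext
    change B.phi x * B.phi y = B.phi y * B.phi x
    rw [← map_mul, ← map_mul]
    exact congrArg _ (Subtype.ext (B.comm x x.2 y y.2).eq)
  mul_inv_cancel := by
    rintro ⟨_, x, rfl⟩ hx
    rcases B.field x x.2 with h | ⟨y, hy, h⟩
    · exfalso
      apply hx
      apply Subtype.ext
      ext w
      have h1 : e w = w := w.2
      have h2 : x.1 (e w) = 0 := DFunLike.congr_fun h w.1
      rw [h1] at h2
      exact h2
    · refine ⟨⟨_, ⟨y, hy⟩, rfl⟩, Subtype.ext ?_⟩
      ext w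
      have h1 : e w = w := w.2
      rw [(B.comm y hy x x.2).eq] at h
      have h2 : x.1 (y (e w)) = e w := DFunLike.congr_fun h w.1
      rw [h1] at h2
      exact h2

/-- The block model attached to `e`. -/
noncomputable def Blk.lm [Finite H] (B : Blk ρ R e) (h17 : ∀ v : V, (17 : ℤ) • v = 0)
    (hE : ∀ v : V, ∃ x : H, Two x ∧ ρ x v = (2 : ℤ) • v) :
    LM H (H ⧸ Sb ρ e) (Gb ρ e) (Wb e) where
  c h i := (actS ρ e).rangeRestrict ⟨(h • i).out⁻¹ * h * i.out, by
    rw [mul_assoc, ← QuotientGroup.eq, QuotientGroup.out_eq', ← smul_eq_mul,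
      MulAction.Quotient.mk_smul_out]⟩
  coc g h i := by
    rw [← map_mul]
    congr 1
    apply Subtype.ext
    simp only [Subgroup.coe_mul, mul_smul, mul_assoc, mul_inv_cancel_left]
  surj := by
    rintro i ⟨_, s, rfl⟩
    have h1 : (i.out * s * i.out⁻¹) • i = i := by
      rw [← MulAction.Quotient.mk_smul_out, smul_eq_mul, inv_mul_cancel_right,
        QuotientGroup.mk_mul_of_mem _ s.2, QuotientGroup.out_eq']
    refine ⟨i.out * s * i.out⁻¹, h1, ?_⟩
    apply Subtype.ext
    change actS ρ e _ = actS ρ e s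
    congr 1
    apply Subtype.ext
    simp only [h1]
    group
  trans i j := MulAction.exists_smul_eq H i j
  h17 w := Subtype.ext (h17 w.1)
  ev v := by
    classical
    have := Fintype.ofFinite (H ⧸ Sb ρ e)
    obtain ⟨x, hx, h⟩ := hE (∑ j, ρ j.out (v j))
    refine ⟨x, hx, fun i => Subtype.ext ?_⟩
    have key : ∀ (g : H) (a : H ⧸ Sb ρ e), e (ρ (g • a).out⁻¹ (ρ g (∑ j, ρ j.out (v j)))) =
        ρ ((g • a).out⁻¹ * g * a.out) (v a) := by
      intro g a
      simp only [map_sum]
      have e1 : ∀ j : H ⧸ Sb ρ e, ρ (g • a).out⁻¹ (ρ g (ρ j.out (v j))) =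
          ρ ((g • a).out⁻¹ * g * j.out) (v j) := fun j => by
        rw [ρ.map_mul, ρ.map_mul]
        rfl
      have e2 : ∀ j : H ⧸ Sb ρ e, (g • a).out⁻¹ * g * j.out ∈ Sb ρ e ↔ a = j := fun j => by
        rw [mul_assoc, ← QuotientGroup.eq, QuotientGroup.out_eq', ← smul_eq_mul,
          MulAction.Quotient.mk_smul_out, smul_left_cancel_iff]
      rw [Finset.sum_eq_single a]
      · rw [e1]
        exact (res e _ ((e2 a).2 rfl) (v a)).2
      · intro j _ hj
        rw [e1]
        have h1 : e (v j) = v j := (v j).2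
        have h2 := (B.orth _).resolve_left fun h => hj ((e2 j).1 h).symm
        have h3 : e (ρ ((g • a).out⁻¹ * g * j.out) (e (v j))) = 0 := DFunLike.congr_fun h2 _
        rwa [h1] at h3
      · exact fun h => absurd (Finset.mem_univ a) h
    have k1 := key x i
    have k2 := key 1 (x • i)
    rw [h, map_zsmul, map_zsmul] at k1
    rw [one_smul, mul_one, inv_mul_cancel, map_one] at k2
    change e (ρ (x • i).out⁻¹ (∑ j, ρ j.out (v j))) = v (x • i) at k2
    rw [k2] at k1
    exact k1.symm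

end

theorem reduce (H V : Type) [Group H] [Finite H] [Group.IsSolvable H] [AddCommGroup V] [Finite V]
    [Nontrivial V] [DistribMulAction H V] (hH : ¬ 17 ∣ Nat.card H)
    (h17 : ∀ v : V, (17 : ℤ) • v = 0) (hE : ∀ v : V, ∃ x : H, x • v = (2 : ℤ) • v)
    (main : ∀ (I G K W : Type) [MulAction H I] [Finite I] [Nonempty I] [Group G] [Finite G]
      [Group.IsSolvable G] [Field K] [Finite K] [CharP K 17] [AddCommGroup W] [Finite W]
      [Nontrivial W] [Module K W] [DistribMulAction G W] [FaithfulSMul G W],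
      ¬ 17 ∣ Nat.card G → LM H I G W → Prim G K W → False) : False := by
  let ρ : H →* AddMonoid.End V := DistribMulAction.toAddMonoidEnd H V
  have hρ : ∀ h v, ρ h v = h • v := fun _ _ => rfl
  have hE' : ∀ v : V, ∃ x : H, Two x ∧ ρ x v = (2 : ℤ) • v := fun v => by
    obtain ⟨x, hx⟩ := hE v
    obtain ⟨a, o, ho, hc⟩ := Nat.exists_eq_two_pow_mul_odd (Nat.card_pos (α := H)).ne'
    refine ⟨x ^ (o * o), ⟨a, ?_⟩, ?_⟩
    · rw [← pow_mul, mul_assoc, mul_comm o (2 ^ a), mul_comm o, ← hc, pow_mul, pow_card_eq_one',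
        one_pow]
    · rw [hρ, pow_eig hx]
      apply zsmul_mod h17
      obtain ⟨c, rfl⟩ := ho
      obtain ⟨d, hd⟩ := Nat.even_mul_succ_self c
      have e1 : (2 * c + 1) * (2 * c + 1) = 8 * d + 1 := by nlinarith
      rw [e1, pow_succ, pow_mul]
      have : ((2 : ℤ) ^ 8) ^ d ≡ 1 ^ d [ZMOD 17] := Int.ModEq.pow _ (by decide)
      have := this.mul_right 2
      rw [one_pow, one_mul] at this
      exact this
  have : Finite (AddMonoid.End V) := DFunLike.finite _
  have : Nontrivial (AddMonoid.End V) := by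
    obtain ⟨w, hw⟩ := exists_ne (0 : V)
    exact ⟨1, 0, fun h => hw (DFunLike.congr_fun h w)⟩
  have : CharP (AddMonoid.End V) 17 := by
    rw [CharP.charP_iff_prime_eq_zero (by norm_num)]
    ext v
    have := h17 v
    rw [show (17 : ℤ) = ((17 : ℕ) : ℤ) from rfl, natCast_zsmul] at this
    exact this
  obtain ⟨R, e, B⟩ := exists_blk ρ hH
  have := B.nontrivial
  have : Finite (AddMonoid.End (Wb e)) := DFunLike.finite _
  let fK : Field B.phi.range := B.isField.toField
  let mK : Module B.phi.range (Wb e) := Module.compHom (Wb e) B.phi.range.subtype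
  have hsm : ∀ (a : B.phi.range) (w : Wb e), a • w = a.1 w := fun _ _ => rfl
  have : CharP B.phi.range 17 := by
    rw [CharP.charP_iff_prime_eq_zero (by norm_num)]
    apply Subtype.ext
    ext w
    have := h17 w.1
    rw [show (17 : ℤ) = ((17 : ℕ) : ℤ) from rfl, natCast_zsmul] at this
    exact this
  have : Group.IsSolvable (Gb ρ e) :=
    Group.isSolvable_of_surjective (actS ρ e).rangeRestrict_surjective
  refine main (H ⧸ Sb ρ e) (Gb ρ e) B.phi.range (Wb e)
    (fun h => hH (h.trans ((Subgroup.card_range_dvd _).trans (Subgroup.card_subgroup_dvd_card _))))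
    (B.lm h17 hE') ⟨?_, ?_⟩
  · intro γ
    let u : Gb ρ e →* AddMonoid.End (Wb e) := DistribMulAction.toAddMonoidEnd _ _
    have hu : ∀ γ : Gb ρ e, ∀ k ∈ B.phi.range, cj u γ k ∈ B.phi.range := by
      intro γ k hk
      obtain ⟨s, rfl⟩ := (actS ρ e).rangeRestrict_surjective γ
      obtain ⟨x, rfl⟩ := hk
      refine ⟨⟨cj ρ s x, B.inv s x x.2⟩, ?_⟩
      rw [cj_def u, ← map_inv]
      rfl
    refine ⟨{ toFun := fun k => ⟨cj u γ k, hu γ k k.2⟩
              invFun := fun k => ⟨cj u γ⁻¹ k, hu γ⁻¹ k k.2⟩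
              left_inv := fun k => Subtype.ext (cj_inv' u γ k.1)
              right_inv := fun k => Subtype.ext (cj_inv u γ k.1)
              map_mul' := fun a b => Subtype.ext (map_mul (cj u γ) a.1 b.1)
              map_add' := fun a b => Subtype.ext (map_add (cj u γ) a.1 b.1) }, fun a w => ?_⟩
    change γ • a.1 w = γ • a.1 (γ⁻¹ • γ • w)
    rw [inv_smul_smul]
  · intro A hA hlin hcomm b hb
    obtain ⟨s, rfl⟩ := (actS ρ e).rangeRestrict_surjective b
    have := B.prim {h | ∃ hs : h ∈ Sb ρ e, (actS ρ e).rangeRestrict ⟨h, hs⟩ ∈ A}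
      (fun s hs => hs.1) ?_ ?_ ?_ s ⟨s.2, hb⟩
    · refine ⟨⟨_, ⟨_, this⟩, rfl⟩, fun w => Subtype.ext ?_⟩
      have h1 : e w = w := w.2
      change ρ s w = ρ s (e w)
      rw [h1]
    · rintro s ⟨hs, hsA⟩ g hg
      refine ⟨mul_mem (mul_mem hg hs) (inv_mem hg), ?_⟩
      have := hA.conj_mem _ hsA ((actS ρ e).rangeRestrict ⟨g, hg⟩)
      rwa [← map_inv, ← map_mul, ← map_mul] at this
    · rintro s ⟨hs, hsA⟩ x hx
      ext v
      have h1 := congrArg Subtype.val (hlin _ hsA ⟨_, ⟨x, hx⟩, rfl⟩ ⟨e v, B.e_mem v⟩)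
      have h2 : x (e v) = e (x v) := DFunLike.congr_fun (B.comm x hx e B.mem).eq v
      change ρ s (x (e v)) = x (ρ s (e v)) at h1
      change x (ρ s (e v)) = ρ s (e (x v))
      rw [← h1, h2]
    · rintro s ⟨hs, hsA⟩ s' ⟨hs', hsA'⟩
      ext v
      have h1 := congrArg (fun γ : Gb ρ e => ((γ • (⟨e v, B.e_mem v⟩ : Wb e) : Wb e) : V))
        (hcomm _ hsA _ hsA')
      change ρ s (ρ s' (e v)) = ρ s' (ρ s (e v)) at h1
      have h2 : e (ρ s (e v)) = ρ s (e v) := (res e _ hs ⟨e v, B.e_mem v⟩).2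
      have h3 : e (ρ s' (e v)) = ρ s' (e v) := (res e _ hs' ⟨e v, B.e_mem v⟩).2
      change ρ s (e (ρ s' (e v))) = ρ s' (e (ρ s (e v)))
      rw [h2, h3, h1]

end Pool.Agent.Lib.MP_39e620_al.Full
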