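import Pool.Agent.Lib.MP_39e620_al.FS4a

/-! Clifford blocks in dimension two cannot occur. -/

set_option autoImplicit false

namespace Pool.Agent.Lib.MP_39e620_al.Full

namespace S4

variable {H I G W : Type} [Group H] [MulAction H I] [Group G] [AddCommGroup W]
  [DistribMulAction G W]

/-- matrix model of a block system -/
structure Md (M : LM H I G W) where
  mat : G → M4
  mul : ∀ γ δ, mat (γ * δ) = mm (mat γ) (mat δ)
  one : mat 1 = e1
  inG : ∀ γ, InG (mat γ)
  inj : ∀ γ, mat γ = e1 → γ = 1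
  ev : ∀ v : I → F × F, ∃ x : H, Two x ∧ ∀ i, app (mat (M.c x i)) (v i) = sm 2 (v (x • i))

theorem exists_md [FaithfulSMul G W] (M : LM H I G W) (h : S4Data G W) : Nonempty (Md M) := by
  obtain ⟨φ, hφ⟩ := h
  choose s m hm hact using hφ
  have key : ∀ γ w, φ (γ • φ.symm w) = app (sc (s γ) (m γ)) w := by
    intro γ w
    rw [hact, act_eq, AddEquiv.apply_symm_apply]
  refine ⟨⟨fun γ => sc (s γ) (m γ), fun γ δ => app_ext fun w => ?_, app_ext fun w => ?_,
    fun γ => ⟨s γ, m γ, hm γ, rfl⟩, fun γ hγ => ?_, fun v => ?_⟩⟩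
  · rw [app_mm, ← key, ← key, ← key, AddEquiv.symm_apply_apply, mul_smul]
  · rw [← key, one_smul, AddEquiv.apply_symm_apply, app_e1]
  · refine FaithfulSMul.eq_of_smul_eq_smul (α := W) fun w => φ.injective ?_
    have := key γ (φ w)
    rw [hγ, app_e1, AddEquiv.symm_apply_apply] at this
    rw [this, one_smul]
  · obtain ⟨x, hx, h⟩ := M.ev fun i => φ.symm (v i)
    refine ⟨x, hx, fun i => ?_⟩
    rw [← key, h i, map_zsmul, AddEquiv.apply_symm_apply]
    simp only [sm, two_zsmul, two_mul]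
    rfl

namespace Md

variable {M : LM H I G W} (D : Md M)

/-- the matrix of `h` at block `i` -/
def A (h : H) (i : I) : M4 := D.mat (M.c h i)

lemma A_mul (g h : H) (i : I) : D.A (g * h) i = mm (D.A g (h • i)) (D.A h i) := by
  simp only [A, M.coc, D.mul]

lemma A_inv (h : H) (i : I) (w : F × F) : app (D.A h⁻¹ (h • i)) (app (D.A h i) w) = w := by
  rw [← app_mm, ← A_mul, inv_mul_cancel, A, M.c_one, D.one, app_e1]

lemma mat_pow (γ : G) (n : ℕ) : D.mat (γ ^ n) = mp (D.mat γ) n := by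
  induction n with
  | zero => rw [pow_zero, D.one, mp]
  | succ n ih => rw [pow_succ, D.mul, ih, mp]

lemma eig_pow {γ : G} {l : F} (h : HasEig (D.mat γ) l) (n : ℕ) :
    HasEig (D.mat (γ ^ n)) (l ^ n) := by
  obtain ⟨w, hw, h⟩ := h
  refine ⟨w, hw, ?_⟩
  induction n with
  | zero => rw [pow_zero, D.one, app_e1, pow_zero, sm_one]
  | succ n ih => rw [pow_succ, D.mul, app_mm, h, app_sm, ih, sm_sm, pow_succ, mul_comm]

lemma eig_conj {γ δ : G} (hc : IsConj γ δ) {l : F} (h : HasEig (D.mat γ) l) :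
    HasEig (D.mat δ) l := by
  obtain ⟨g, rfl⟩ := isConj_iff.1 hc
  obtain ⟨w, hw, h⟩ := h
  have k : app (D.mat g⁻¹) (app (D.mat g) w) = w := by
    rw [← app_mm, ← D.mul, inv_mul_cancel, D.one, app_e1]
  refine ⟨app (D.mat g) w, fun h0 => hw ?_, ?_⟩
  · rw [← k, h0, app_zero]
  · rw [D.mul, D.mul, app_mm, app_mm, k, h, app_sm]

lemma tr [Finite I] {x : H} {j : ℕ} (hc : IsConj x (x ^ j)) {i : I} (hi : x • i = i) {l : F}
    (h : HasEig (D.A x i) l) : ∃ i', x • i' = i' ∧ HasEig (D.A x i') (l ^ j) := by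
  obtain ⟨g, hg⟩ := M.conj_of hc
  exact ⟨g • i, (hg i hi).1, D.eig_conj (hg i hi).2 (D.eig_pow h j)⟩

lemma tr_all [Finite I] {x : H} {j : ℕ} (hc : IsConj x (x ^ j)) {l : F}
    (h : ∀ i, x • i = i → HasEig (D.A x i) l) {i : I} (hi : x • i = i) :
    HasEig (D.A x i) (l ^ j) := by
  obtain ⟨g, hg⟩ := M.conj_of hc
  let f : {i : I // x • i = i} → {i : I // x • i = i} := fun a => ⟨g • a.1, (hg a.1 a.2).1⟩
  have hf : Function.Injective f := fun a b hab =>
    Subtype.ext (MulAction.injective g (congrArg Subtype.val hab))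
  obtain ⟨a, ha⟩ := Finite.surjective_of_injective hf ⟨i, hi⟩
  have : g • a.1 = i := congrArg Subtype.val ha
  rw [← this]
  exact D.eig_conj (hg a.1 a.2).2 (D.eig_pow (h a.1 a.2) j)

lemma tr_two [Finite I] (hq : QR H) {x : H} (h : ∀ i, x • i = i → HasEig (D.A x i) 2) :
    ∃ l ∈ [(8 : F), -2, -8], ∀ i, x • i = i → HasEig (D.A x i) l := by
  obtain ⟨j, hj, hc⟩ := hq.odd x
  refine ⟨2 ^ j, ?_, fun i hi => D.tr_all hc h hi⟩
  rw [pow_mod8 (by decide) j]
  rcases hj with h | h | h <;> rw [h] <;> decide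

lemma tr_neg [Finite H] [Finite I] (hq : QR H) {x : H} {i : I} (hi : x • i = i) {l : F}
    (hl : l ^ 9 = -l) (hl0 : l ≠ 0) (h : HasEig (D.A x i) l) :
    ∃ i', x • i' = i' ∧ HasEig (D.A x i') (-l) := by
  obtain ⟨j, h1, h2⟩ := exists_three (Nat.card H) Nat.card_pos.ne'
  have := D.tr (hq.sq x j h1) hi h
  rwa [pow_mod16 hl0, h2, hl] at this

/-- `h` fixes two blocks and multiplies the background vector by `u`. -/
def St (i0 i1 : I) (h : H) (u : F) (M0 M1 : M4) : Prop :=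
  h • i0 = i0 ∧ h • i1 = i1 ∧ (∀ i, i ≠ i0 → i ≠ i1 → app (D.A h i) b0 = sm u b0) ∧
    D.A h i0 = M0 ∧ D.A h i1 = M1

lemma St.mul {D : Md M} {i0 i1 : I} {g h : H} {u v : F} {M0 M1 N0 N1 : M4}
    (a : D.St i0 i1 g u M0 M1) (b : D.St i0 i1 h v N0 N1) :
    D.St i0 i1 (g * h) (v * u) (mm M0 N0) (mm M1 N1) := by
  obtain ⟨a0, a1, a2, a3, a4⟩ := a
  obtain ⟨b0', b1, b2, b3, b4⟩ := b
  refine ⟨by rw [mul_smul, b0', a0], by rw [mul_smul, b1, a1], fun i h0 h1 => ?_, ?_, ?_⟩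
  · rw [A_mul, app_mm, b2 i h0 h1, app_sm, a2, sm_sm]
    · intro h
      exact h0 (MulAction.injective _ (h.trans b0'.symm))
    · intro h
      exact h1 (MulAction.injective _ (h.trans b1.symm))
  · rw [A_mul, b0', a3, b3]
  · rw [A_mul, b1, a4, b4]

lemma St.cube {D : Md M} {i0 i1 : I} {g : H} {u : F} {M0 M1 : M4}
    (a : D.St i0 i1 g u M0 M1) (n : ℕ) :
    D.St i0 i1 (g ^ (n + 1)) (u ^ (n + 1)) (mp M0 (n + 1)) (mp M1 (n + 1)) := by
  induction n with
  | zero =>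
    have k : ∀ N : M4, mp N (0 + 1) = N := fun N => app_ext fun w => by
      rw [mp, mp, app_mm, app_e1]
    rw [k, k]
    simpa using a
  | succ n ih =>
    have := ih.mul a
    rw [← pow_succ, ← pow_succ'] at this
    exact this

lemma St.three {D : Md M} {i0 i1 : I} {g h k : H} {u v w : F} {M0 M1 N0 N1 K0 K1 : M4}
    (a : D.St i0 i1 g u M0 M1) (b : D.St i0 i1 h v N0 N1) (c : D.St i0 i1 k w K0 K1) :
    ∃ x, D.St i0 i1 x (w * (v ^ 15 * u)) (mm (mm M0 (mp N0 15)) K0) (mm (mm M1 (mp N1 15)) K1) :=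
  ⟨_, (a.mul (b.cube 14)).mul c⟩

lemma hasEig_of (N : M4) (l : F) (w : F × F) (h : w ≠ 0 ∧ app N w = sm l w) : HasEig N l :=
  ⟨w, h⟩

lemma c1 [Finite I] (hq : QR H) {i0 i1 : I} {x : H} {u s : F} {M0 M1 : M4}
    (h : D.St i0 i1 x u M0 M1) (hu : u = 2) (hs : s = 8 ∨ s = -8) (h0 : M0 = sc s e1)
    (h1 : M1 = sc 2 pZ ∨ M1 = sc 2 rho) : False := by
  obtain ⟨a0, a1, a2, a3, a4⟩ := h
  subst hu
  have no : ∀ i, x • i = i → ¬ HasEig (D.A x i) (-s) := by
    intro i _ h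
    by_cases k0 : i = i0
    · have := h.dt
      rw [k0, a3, h0] at this
      rcases hs with rfl | rfl <;> exact absurd this (by decide)
    by_cases k1 : i = i1
    · have := h.dt
      rw [k1, a4] at this
      rcases hs with rfl | rfl <;> rcases h1 with rfl | rfl <;> exact absurd this (by decide)
    · rcases b0_eig (D.inG _) (a2 i k0 k1) h with h | ⟨h, _⟩ <;>
        rcases hs with rfl | rfl <;> exact absurd h (by decide)
  have e0 : HasEig (D.A x i0) s := by
    rw [a3, h0]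
    rcases hs with rfl | rfl <;> exact hasEig_of _ _ (1, 0) (by decide)
  have e1' : HasEig (D.A x i1) 2 := by
    rw [a4]
    rcases h1 with rfl | rfl
    · exact hasEig_of _ _ (1, 0) (by decide)
    · exact hasEig_of _ _ (1, 2) (by decide)
  have e2 : HasEig (D.A x i1) (-2) := by
    rw [a4]
    rcases h1 with rfl | rfl
    · exact hasEig_of _ _ (0, 1) (by decide)
    · exact hasEig_of _ _ (1, 15) (by decide)
  obtain ⟨j, hj, hc⟩ := hq.odd x
  obtain ⟨k0, f0, g0⟩ := D.tr hc a0 e0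
  obtain ⟨k1, f1, g1⟩ := D.tr hc a1 e1'
  obtain ⟨k2, f2, g2⟩ := D.tr hc a1 e2
  rw [pow_mod8 (by rcases hs with rfl | rfl <;> decide) j] at g0
  rw [pow_mod8 (by decide) j] at g1 g2
  rcases hs with rfl | rfl <;> rcases hj with h | h | h <;> rw [h] at g0 g1 g2
  · exact no _ f2 (by convert g2 using 1; decide)
  · exact no _ f0 (by convert g0 using 1; decide)
  · exact no _ f1 (by convert g1 using 1; decide)
  · exact no _ f1 (by convert g1 using 1; decide)
  · exact no _ f0 (by convert g0 using 1; decide)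
  · exact no _ f2 (by convert g2 using 1; decide)

lemma c2 [Finite H] [Finite I] (hq : QR H) {i0 i1 : I} {x : H} {u s : F} {M0 M1 : M4}
    (h : D.St i0 i1 x u M0 M1) (hu : u = 1) (hs : s = 12 ∨ s = -12) (h0 : M0 = sc s e1)
    (h1 : M1 = sc 6 pZ) : False := by
  obtain ⟨a0, a1, a2, a3, a4⟩ := h
  subst hu h1
  have e0 : HasEig (D.A x i0) s := by
    rw [a3, h0]
    rcases hs with rfl | rfl <;> exact hasEig_of _ _ (1, 0) (by decide)
  obtain ⟨i, _, h⟩ := D.tr_neg hq a0 (by rcases hs with rfl | rfl <;> decide)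
    (by rcases hs with rfl | rfl <;> decide) e0
  by_cases k0 : i = i0
  · have := h.dt
    rw [k0, a3, h0] at this
    rcases hs with rfl | rfl <;> exact absurd this (by decide)
  by_cases k1 : i = i1
  · have := h.dt
    rw [k1, a4] at this
    rcases hs with rfl | rfl <;> exact absurd this (by decide)
  · rcases b0_eig (D.inG _) (a2 i k0 k1) h with h | ⟨h, _⟩ <;>
      rcases hs with rfl | rfl <;> exact absurd h (by decide)

/-- if all fixed blocks have eigenvalue 2 and one of them carries the background vector, then all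
have eigenvalue -2 -/
lemma neg_two [Finite I] (hq : QR H) {x : H} (h : ∀ i, x • i = i → HasEig (D.A x i) 2)
    {k : I} (hk : x • k = k) (hb : app (D.A x k) b0 = sm 2 b0) :
    D.A x k = sc 2 rho ∧ ∀ i, x • i = i → HasEig (D.A x i) (-2) := by
  obtain ⟨l, hl, h2⟩ := D.tr_two hq h
  simp only [List.mem_cons, List.not_mem_nil, or_false] at hl
  rcases b0_eig (D.inG _) hb (h2 k hk) with h3 | ⟨h3, h4⟩
  · rcases hl with rfl | rfl | rfl <;> exact absurd h3 (by decide)
  · exact ⟨h4, h3 ▸ h2⟩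

lemma axis_two {N : M4} (hN : InG N) {e : F × F} {r : M4} (h : Axis e r)
    (h1 : app N e = sm 2 e) (h2 : HasEig N (-2)) : N = sc 2 r := by
  rcases axis_eig hN h h1 h2 with h | h | h | ⟨_, h⟩
  · exact absurd h (by decide)
  · exact absurd h (by decide)
  · exact absurd h (by decide)
  · exact h

lemma mark2 {i0 i1 : I} (hne : i0 ≠ i1) {e : F × F} {r : M4} (h : Axis e r) (κ : F) :
    ∃ x : H, Two x ∧
      (∀ i, i ≠ i0 → i ≠ i1 → app (D.A x i) b0 = sm 2 b0 ∧ x • i ≠ i0 ∧ x • i ≠ i1) ∧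
      ((x • i0 = i0 ∧ x • i1 = i1 ∧ app (D.A x i0) e = sm 2 e ∧
          app (D.A x i1) (sm κ (1, 0)) = sm 2 (sm κ (1, 0))) ∨
        (x • i0 = i1 ∧ x • i1 = i0 ∧ app (D.A x i0) e = sm 2 (sm κ (1, 0)) ∧
          app (D.A x i1) (sm κ (1, 0)) = sm 2 e)) := by
  classical
  obtain ⟨x, hx, hv⟩ := D.ev fun i => if i = i0 then e else if i = i1 then sm κ (1, 0) else b0
  have v0 := hv i0
  have v1 := hv i1
  simp only [if_true, if_neg hne.symm] at v0 v1
  have k0 : x • i0 = i0 ∨ x • i0 = i1 := by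
    by_contra hc
    push Not at hc
    rw [if_neg hc.1, if_neg hc.2, ← sm_one e] at v0
    exact axis_tt (D.inG _) h 1 v0
  have k1 : x • i1 = i0 ∨ x • i1 = i1 := by
    by_contra hc
    push Not at hc
    rw [if_neg hc.1, if_neg hc.2] at v1
    exact axis_tt (D.inG _) (Or.inr (Or.inr ⟨rfl, rfl⟩)) κ v1
  have kk : (x • i0 = i0 ∧ x • i1 = i1) ∨ (x • i0 = i1 ∧ x • i1 = i0) := by
    rcases k0 with a | a <;> rcases k1 with b | b
    · exact absurd (MulAction.injective x (a.trans b.symm)) hne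
    · exact Or.inl ⟨a, b⟩
    · exact Or.inr ⟨a, b⟩
    · exact absurd (MulAction.injective x (a.trans b.symm)) hne
  refine ⟨x, hx, fun i h0 h1 => ?_, ?_⟩
  · have n0 : x • i ≠ i0 := by
      intro hc
      rcases kk with ⟨a, _⟩ | ⟨_, a⟩
      · exact h0 (MulAction.injective x (hc.trans a.symm))
      · exact h1 (MulAction.injective x (hc.trans a.symm))
    have n1 : x • i ≠ i1 := by
      intro hc
      rcases kk with ⟨_, a⟩ | ⟨a, _⟩
      · exact h1 (MulAction.injective x (hc.trans a.symm))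
      · exact h0 (MulAction.injective x (hc.trans a.symm))
    have := hv i
    simp only [if_neg h0, if_neg h1, if_neg n0, if_neg n1] at this
    exact ⟨this, n0, n1⟩
  · rcases kk with ⟨a, b⟩ | ⟨a, b⟩
    · left
      rw [a, if_pos rfl] at v0
      rw [b, if_neg hne.symm, if_pos rfl] at v1
      exact ⟨a, b, v0, v1⟩
    · right
      rw [a, if_neg hne.symm, if_pos rfl] at v0
      rw [b, if_pos rfl] at v1
      exact ⟨a, b, v0, v1⟩

lemma fix2 [Finite I] (hq : QR H) (hI : Nat.card I % 2 = 1) {i0 i1 : I} (hne : i0 ≠ i1)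
    {e : F × F} {r : M4} (h : Axis e r) {κ : F} (hκ : κ ≠ 0) {x : H} (hx : Two x)
    (hb : ∀ i, i ≠ i0 → i ≠ i1 → app (D.A x i) b0 = sm 2 b0 ∧ x • i ≠ i0 ∧ x • i ≠ i1)
    (a0 : x • i0 = i0) (a1 : x • i1 = i1) (v0 : app (D.A x i0) e = sm 2 e)
    (v1 : app (D.A x i1) (sm κ (1, 0)) = sm 2 (sm κ (1, 0))) :
    D.St i0 i1 x 2 (sc 2 r) (sc 2 pZ) := by
  classical
  have v1' : app (D.A x i1) (1, 0) = sm 2 (1, 0) := by
    rw [app_sm, sm_sm, mul_comm, ← sm_sm] at v1
    exact sm_cancel hκ v1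
  obtain ⟨k, hk, hk'⟩ := fix_other (Subgroup.zpowers x) (two_pgroup hx) {i0, i1}
    (by
      rintro i hi _ ⟨n, rfl⟩
      have : x • i = i := by
        simp only [Finset.mem_insert, Finset.mem_singleton] at hi
        rcases hi with rfl | rfl
        · exact a0
        · exact a1
      exact MulAction.mem_stabilizer_iff.mp
        (zpow_mem (MulAction.mem_stabilizer_iff.mpr this) n))
    (by rw [Finset.card_pair hne]; omega)
  simp only [Finset.mem_insert, Finset.mem_singleton, not_or] at hk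
  have hall : ∀ i, x • i = i → HasEig (D.A x i) 2 := by
    intro i _
    by_cases k0 : i = i0
    · exact ⟨e, h.ne, k0 ▸ v0⟩
    by_cases k1 : i = i1
    · exact ⟨(1, 0), by decide, k1 ▸ v1'⟩
    · exact ⟨b0, by decide, (hb i k0 k1).1⟩
  obtain ⟨_, h2⟩ := D.neg_two hq hall (hk' x (Subgroup.mem_zpowers x)) (hb k hk.1 hk.2).1
  exact ⟨a0, a1, fun i h0 h1 => (hb i h0 h1).1, axis_two (D.inG _) h v0 (h2 _ a0),
    axis_two (D.inG _) (Or.inr (Or.inr ⟨rfl, rfl⟩)) v1' (h2 _ a1)⟩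

lemma row [Finite H] [Finite I] (hq : QR H) (hI : Nat.card I % 2 = 1) {i0 i1 : I} (hne : i0 ≠ i1)
    {e : F × F} {r : M4} (h : Axis e r) :
    (∃ x, D.St i0 i1 x 2 (sc 2 r) (sc 2 pZ)) ∨ ∃ x, D.St i0 i1 x 1 (sc 3 r) (sc 6 pZ) := by
  obtain ⟨x, hx, xb, ⟨a0, a1, v0, v1⟩ | ⟨a0, a1, v0, v1⟩⟩ := D.mark2 hne h 1
  · exact Or.inl ⟨x, D.fix2 hq hI hne h one_ne_zero hx xb a0 a1 v0 v1⟩
  obtain ⟨y, hy, yb, ⟨c0, c1, w0, w1⟩ | ⟨c0, c1, w0, w1⟩⟩ := D.mark2 hne h 3
  · exact Or.inl ⟨y, D.fix2 hq hI hne h (by decide) hy yb c0 c1 w0 w1⟩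
  right
  rw [sm_one] at v0 v1
  have f0 : (x⁻¹ * y) • i0 = i0 := by rw [mul_smul, c0, ← a0, inv_smul_smul]
  have f1 : (x⁻¹ * y) • i1 = i1 := by rw [mul_smul, c1, ← a1, inv_smul_smul]
  have g0 : app (D.A (x⁻¹ * y) i0) e = sm 3 e := by
    have := D.A_inv x i0 e
    rw [a0, v0] at this
    rw [A_mul, app_mm, c0, w0, sm_sm, mul_comm, ← sm_sm, app_sm, this]
  have g1 : app (D.A (x⁻¹ * y) i1) (1, 0) = sm 6 (1, 0) := by
    have := D.A_inv x i1 (1, 0)
    rw [a1, v1] at this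
    refine sm_cancel (u := 3) (by decide) ?_
    rw [← app_sm, A_mul, app_mm, c1, w1, this]
    decide
  have gb : ∀ i, i ≠ i0 → i ≠ i1 → app (D.A (x⁻¹ * y) i) b0 = sm 1 b0 := by
    intro i h0 h1
    obtain ⟨k1, k2, k3⟩ := yb i h0 h1
    have k4 : x • x⁻¹ • y • i = y • i := smul_inv_smul _ _
    have := D.A_inv x (x⁻¹ • y • i) b0
    rw [k4, (xb _ (fun hc => k3 (by rw [← k4, hc, a0])) (fun hc => k2 (by rw [← k4, hc, a1]))).1]
      at this
    rw [A_mul, app_mm, k1, this, sm_one]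
  have hZ : Axis (1, 0) pZ := Or.inr (Or.inr ⟨rfl, rfl⟩)
  refine ⟨x⁻¹ * y, f0, f1, gb, ?_, ?_⟩
  · obtain ⟨i, _, hi⟩ := D.tr_neg hq f0 (l := 3) (by decide) (by decide) ⟨e, h.ne, g0⟩
    by_cases k0 : i = i0
    · rw [k0] at hi
      rcases axis_eig (D.inG _) h g0 hi with h | h | h | ⟨_, h⟩
      · exact absurd h (by decide)
      · exact absurd h (by decide)
      · exact absurd h (by decide)
      · exact h
    by_cases k1 : i = i1
    · rw [k1] at hi
      rcases axis_eig (D.inG _) hZ g1 hi with h | h | h | ⟨h, _⟩ <;> exact absurd h (by decide)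
    · rcases b0_eig (D.inG _) (gb i k0 k1) hi with h | ⟨h, _⟩ <;> exact absurd h (by decide)
  · obtain ⟨i, _, hi⟩ := D.tr_neg hq f1 (l := 6) (by decide) (by decide) ⟨(1, 0), by decide, g1⟩
    by_cases k1 : i = i1
    · rw [k1] at hi
      rcases axis_eig (D.inG _) hZ g1 hi with h | h | h | ⟨_, h⟩
      · exact absurd h (by decide)
      · exact absurd h (by decide)
      · exact absurd h (by decide)
      · exact h
    by_cases k0 : i = i0
    · rw [k0] at hi
      rcases axis_eig (D.inG _) h g0 hi with h | h | h | ⟨h, _⟩ <;> exact absurd h (by decide)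
    · rcases b0_eig (D.inG _) (gb i k0 k1) hi with h | ⟨h, _⟩ <;> exact absurd h (by decide)

include D in
theorem odd_false [Finite H] [Finite I] (hq : QR H) (hI : Nat.card I % 2 = 1) {i0 i1 : I}
    (hne : i0 ≠ i1) : False := by
  rcases D.row hq hI hne (Or.inl ⟨rfl, rfl⟩) with ⟨x, hx⟩ | ⟨x, hx⟩ <;>
  rcases D.row hq hI hne (Or.inr (Or.inl ⟨rfl, rfl⟩)) with ⟨y, hy⟩ | ⟨y, hy⟩ <;>
  rcases D.row hq hI hne (Or.inr (Or.inr ⟨rfl, rfl⟩)) with ⟨z, hz⟩ | ⟨z, hz⟩
  · obtain ⟨_, h⟩ := hx.three hy hz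
    exact D.c1 hq h (by decide) (Or.inl rfl) (by decide +kernel) (Or.inl (by decide +kernel))
  · obtain ⟨_, h⟩ := hx.three hy hz
    exact D.c2 hq h (by decide) (Or.inl rfl) (by decide +kernel) (by decide +kernel)
  · obtain ⟨_, h⟩ := hx.three hz hy
    exact D.c2 hq h (by decide) (Or.inr rfl) (by decide +kernel) (by decide +kernel)
  · obtain ⟨_, h⟩ := hy.three hz hx
    exact D.c1 hq h (by decide) (Or.inl rfl) (by decide +kernel) (Or.inl (by decide +kernel))
  · obtain ⟨_, h⟩ := hy.three hz hx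
    exact D.c2 hq h (by decide) (Or.inl rfl) (by decide +kernel) (by decide +kernel)
  · obtain ⟨_, h⟩ := hx.three hz hy
    exact D.c1 hq h (by decide) (Or.inr rfl) (by decide +kernel) (Or.inl (by decide +kernel))
  · obtain ⟨_, h⟩ := hx.three hy hz
    exact D.c1 hq h (by decide) (Or.inl rfl) (by decide +kernel) (Or.inl (by decide +kernel))
  · obtain ⟨_, h⟩ := hx.three hy hz
    exact D.c2 hq h (by decide) (Or.inl rfl) (by decide +kernel) (by decide +kernel)

lemma mark1 [Finite I] (hq : QR H) (hI : Nat.card I % 2 = 0) (i0 : I) {e : F × F} {r : M4}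
    (h : Axis e r) : ∃ x : H, x • i0 = i0 ∧ (∀ i, i ≠ i0 → app (D.A x i) b0 = sm 2 b0) ∧
      D.A x i0 = sc 2 r := by
  classical
  obtain ⟨x, hx, hv⟩ := D.ev fun i => if i = i0 then e else b0
  have v0 := hv i0
  simp only [if_true] at v0
  have k0 : x • i0 = i0 := by
    by_contra hc
    rw [if_neg hc, ← sm_one e] at v0
    exact axis_tt (D.inG _) h 1 v0
  rw [if_pos k0] at v0
  have hb : ∀ i, i ≠ i0 → app (D.A x i) b0 = sm 2 b0 := by
    intro i h0
    have n0 : x • i ≠ i0 := fun hc => h0 (MulAction.injective x (hc.trans k0.symm))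
    have := hv i
    simp only [if_neg h0, if_neg n0] at this
    exact this
  obtain ⟨k, hk, hk'⟩ := fix_other (Subgroup.zpowers x) (two_pgroup hx) {i0}
    (by
      rintro i hi _ ⟨n, rfl⟩
      rw [Finset.mem_singleton.mp hi]
      exact MulAction.mem_stabilizer_iff.mp (zpow_mem (MulAction.mem_stabilizer_iff.mpr k0) n))
    (by rw [Finset.card_singleton]; omega)
  have hall : ∀ i, x • i = i → HasEig (D.A x i) 2 := by
    intro i _
    by_cases k0 : i = i0
    · exact ⟨e, h.ne, k0 ▸ v0⟩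
    · exact ⟨b0, by decide, hb i k0⟩
  obtain ⟨_, h2⟩ := D.neg_two hq hall (hk' x (Subgroup.mem_zpowers x))
    (hb k (by simpa using hk))
  exact ⟨x, k0, hb, axis_two (D.inG _) h v0 (h2 _ k0)⟩

/-- the stabiliser of a block and of the background line, acting through Pauli matrices -/
def Del (i0 : I) : Subgroup (H × Fˣ) where
  carrier := {p | p.1 • i0 = i0 ∧ (∀ i, i ≠ i0 → app (D.A p.1 i) b0 = sm p.2 b0) ∧
    Pauli (D.A p.1 i0)}
  mul_mem' := by
    rintro ⟨g, u⟩ ⟨h, v⟩ ⟨a0, a1, a2⟩ ⟨c0, c1, c2⟩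
    simp only at a0 a1 a2 c0 c1 c2
    refine ⟨?_, fun i hi => ?_, ?_⟩
    · simp only [Prod.fst_mul, mul_smul, c0, a0]
    · simp only [Prod.fst_mul, Prod.snd_mul, Units.val_mul]
      rw [A_mul, app_mm, c1 i hi, app_sm,
        a1 _ (fun hc => hi (MulAction.injective _ (hc.trans c0.symm))), sm_sm, mul_comm]
    · simp only [Prod.fst_mul]
      rw [A_mul, c0]
      exact a2.mul c2
  one_mem' := by
    refine ⟨one_smul _ _, fun i _ => ?_, ?_⟩
    · simp only [Prod.fst_one, Prod.snd_one, Units.val_one, A, M.c_one, D.one, app_e1, sm_one]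
    · simp only [Prod.fst_one, A, M.c_one, D.one]
      exact ⟨1, one_ne_zero, e1, by simp, by decide⟩
  inv_mem' := by
    rintro ⟨g, u⟩ ⟨a0, a1, a2⟩
    simp only at a0 a1 a2
    have b0' : g⁻¹ • i0 = i0 := by rw [inv_smul_eq_iff, a0]
    refine ⟨b0', fun i hi => ?_, ?_⟩
    · simp only [Prod.fst_inv, Prod.snd_inv]
      have h1 := D.A_inv g (g⁻¹ • i) b0
      rw [smul_inv_smul, a1 _ (fun hc => hi (MulAction.injective _ (hc.trans b0'.symm))),
        app_sm] at h1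
      refine sm_cancel u.ne_zero ?_
      rw [h1, sm_sm, Units.mul_inv, sm_one]
    · simp only [Prod.fst_inv]
      have h1 : M.c g i0 ^ 16 = 1 := D.inj _ (by rw [D.mat_pow]; exact a2.pow16)
      have h2 : (M.c g i0)⁻¹ = M.c g i0 ^ 15 := by
        rw [inv_eq_iff_mul_eq_one, ← pow_succ', h1]
      rw [A, M.c_inv_fix a0, h2, D.mat_pow]
      exact a2.pow 15

/-- the action on the marked block and on the background line -/
def theta (i0 : I) : D.Del i0 →* G × Fˣ where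
  toFun p := (M.c p.1.1 i0, p.1.2)
  map_one' := by simp [M.c_one]
  map_mul' p q := by
    simp only [Subgroup.coe_mul, Prod.fst_mul, Prod.snd_mul, Prod.mk_mul_mk]
    rw [M.c_mul_fix _ q.2.1]

include D in
theorem even_false [Finite H] [Finite I] (hq : QR H) (hI : Nat.card I % 2 = 0) (i0 : I) :
    False := by
  classical
  obtain ⟨P, hP, hlift⟩ := sylow_lift (D.theta i0) (by
    rintro ⟨⟨g, u⟩, a0, a1, a2⟩
    refine Prod.ext (D.inj _ ?_) ?_
    · change D.mat (M.c g i0 ^ 16) = e1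
      rw [D.mat_pow]
      exact a2.pow16
    · change u ^ 16 = 1
      exact ZMod.units_pow_card_sub_one_eq_one 17 u)
  let f : D.Del i0 →* H := (MonoidHom.fst H Fˣ).comp (D.Del i0).subtype
  obtain ⟨k, hk, hk'⟩ := fix_other (P.map f) (hP.map f) {i0}
    (by
      rintro i hi _ ⟨p, _, rfl⟩
      rw [Finset.mem_singleton.mp hi]
      exact p.2.1)
    (by rw [Finset.card_singleton]; omega)
  have hk0 : k ≠ i0 := by simpa using hk
  have key : ∀ {e : F × F} {r : M4}, Axis e r → ∃ x, D.St i0 k x 2 (sc 2 r) (sc 2 rho) := by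
    intro e r h
    obtain ⟨x, a0, a1, a2⟩ := D.mark1 hq hI i0 h
    have hpa : Pauli (D.A x i0) := by
      refine ⟨2, by decide, r, ?_, a2⟩
      rcases h with ⟨_, rfl⟩ | ⟨_, rfl⟩ | ⟨_, rfl⟩ <;> simp
    obtain ⟨p, hp, h3⟩ := hlift ⟨(x, Units.mk0 2 (by decide)), a0, a1, hpa⟩
    have h4 : M.c p.1.1 i0 = M.c x i0 := congrArg Prod.fst h3
    have h5 : p.1.2 = Units.mk0 2 (by decide) := congrArg Prod.snd h3
    have h6 : ∀ i, i ≠ i0 → app (D.A p.1.1 i) b0 = sm 2 b0 := by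
      intro i hi
      have := p.2.2.1 i hi
      rw [h5] at this
      exact this
    have h7 : D.A p.1.1 i0 = sc 2 r := by rw [A, h4]; exact a2
    have h8 : p.1.1 • k = k := hk' _ ⟨p, hp, rfl⟩
    have hall : ∀ i, p.1.1 • i = i → HasEig (D.A p.1.1 i) 2 := by
      intro i _
      by_cases k0 : i = i0
      · rw [k0, h7]
        refine ⟨e, h.ne, ?_⟩
        rcases h with ⟨rfl, rfl⟩ | ⟨rfl, rfl⟩ | ⟨rfl, rfl⟩ <;> decide
      · exact ⟨b0, by decide, h6 i k0⟩
    exact ⟨p.1.1, p.2.1, h8, fun i hi _ => h6 i hi, h7, (D.neg_two hq hall h8 (h6 k hk0)).1⟩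
  obtain ⟨x, hx⟩ := key (Or.inl ⟨rfl, rfl⟩)
  obtain ⟨y, hy⟩ := key (Or.inr (Or.inl ⟨rfl, rfl⟩))
  obtain ⟨z, hz⟩ := key (Or.inr (Or.inr ⟨rfl, rfl⟩))
  obtain ⟨_, h⟩ := hx.three hy hz
  exact D.c1 hq h (by decide) (Or.inl rfl) (by decide +kernel) (Or.inr (by decide +kernel))

include D in
theorem one_false [Finite I] [Subsingleton I] (hq : QR H) (i0 : I) : False := by
  have hfix : ∀ x : H, x • i0 = i0 := fun x => Subsingleton.elim _ _
  have key : ∀ w : F × F, w ≠ 0 → ∃ x : H, ∃ s : F, ∃ m ∈ L24, D.A x i0 = sc s m ∧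
      app (sc s m) w = sm 2 w ∧ ∃ l ∈ [(8 : F), -2, -8], dt (sc s m) l = 0 := by
    intro w hw
    obtain ⟨x, _, hv⟩ := D.ev fun _ => w
    obtain ⟨l, hl, h⟩ := D.tr_two hq (x := x) fun i _ => ⟨w, hw, hv i⟩
    obtain ⟨s, m, hm, h2⟩ := D.inG (M.c x i0)
    refine ⟨x, s, m, hm, h2, h2 ▸ hv i0, l, hl, ?_⟩
    have := (h i0 (hfix x)).dt
    rwa [A, h2] at this
  have fin : ∀ (x : H) (s : F), D.A x i0 = sc s e1 → s ∈ [(2 : F), 8, -2, -8] → False := by
    intro x s h hs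
    simp only [List.mem_cons, List.not_mem_nil, or_false] at hs
    obtain ⟨j, hj, hc⟩ := hq.odd x
    have e0 : HasEig (D.A x i0) s := by
      rw [h]
      rcases hs with rfl | rfl | rfl | rfl <;> exact hasEig_of _ _ (1, 0) (by decide)
    obtain ⟨i, _, hi⟩ := D.tr hc (hfix x) e0
    rw [Subsingleton.elim i i0, h,
      pow_mod8 (by rcases hs with rfl | rfl | rfl | rfl <;> decide) j] at hi
    have := hi.dt
    rcases hs with rfl | rfl | rfl | rfl <;> rcases hj with h | h | h <;> rw [h] at this <;>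
      exact absurd this (by decide)
  have hmul : ∀ x y : H, D.A (x * y) i0 = mm (D.A x i0) (D.A y i0) := fun x y => by
    rw [A_mul, hfix]
  obtain ⟨x1, s1, m1, a1, b1, c1, l1, d1, f1⟩ := key (1, 2) (by decide)
  obtain ⟨x2, s2, m2, a2, b2, c2, l2, d2, f2⟩ := key (1, 9) (by decide)
  obtain ⟨x3, s3, m3, a3, b3, c3, l3, d3, f3⟩ := key (1, 5) (by decide)
  obtain ⟨x4, s4, m4, a4, b4, c4, l4, d4, f4⟩ := key (1, 0) (by decide)
  rw [one1 s1 m1 a1 c1 l1 d1 f1] at b1
  rw [one2 s2 m2 a2 c2 l2 d2 f2] at b2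
  rw [one3 s3 m3 a3 c3 l3 d3 f3] at b3
  have h4 := one4 s4 m4 a4 c4 l4 d4 f4
  rw [← b4] at h4
  simp only [List.mem_cons, List.not_mem_nil, or_false] at h4
  rcases h4 with h | h | h
  · refine fin (x4 * x3 * (x4 * x3) * (x4 * x3)) 8 ?_ (by simp)
    simp only [hmul, h, b3]
    decide
  · refine fin (x1 * x2 * x4) 2 ?_ (by simp)
    simp only [hmul, h, b1, b2]
    decide
  · refine fin (x4 * x3 * (x4 * x3) * (x4 * x3)) 2 ?_ (by simp)
    simp only [hmul, h, b3]
    decide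

end Md

end S4

/-- Clifford blocks in dimension two -/
theorem s4_false {H I G W : Type} [Group H] [Finite H] [Group.IsSolvable H] [MulAction H I]
    [Finite I] [Nonempty I] [Group G] [AddCommGroup W] [Finite W] [DistribMulAction G W]
    [FaithfulSMul G W] (M : LM H I G W) (hq : QR H) (h : S4Data G W) : False := by
  obtain ⟨D⟩ := S4.exists_md M h
  obtain ⟨i0⟩ := ‹Nonempty I›
  rcases Nat.mod_two_eq_zero_or_one (Nat.card I) with hI | hI
  · exact D.even_false hq hI i0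
  · rcases subsingleton_or_nontrivial I with hs | hn
    · exact D.one_false hq i0
    · obtain ⟨i1, h1⟩ := exists_ne i0
      exact D.odd_false hq hI h1.symm

end Pool.Agent.Lib.MP_39e620_al.Full
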