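import Pool.Agent.Lib.MP_39e620_al.F1

/-! Matrix facts for the two-dimensional Clifford blocks. -/

set_option autoImplicit false

namespace Pool.Agent.Lib.MP_39e620_al.Full.S4

abbrev M4 : Type := F × F × F × F

def app (m : M4) (w : F × F) : F × F :=
  (m.1 * w.1 + m.2.1 * w.2, m.2.2.1 * w.1 + m.2.2.2 * w.2)

def sm (u : F) (w : F × F) : F × F := (u * w.1, u * w.2)

def sc (s : F) (m : M4) : M4 := (s * m.1, s * m.2.1, s * m.2.2.1, s * m.2.2.2)

def mm (m n : M4) : M4 :=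
  (m.1 * n.1 + m.2.1 * n.2.2.1, m.1 * n.2.1 + m.2.1 * n.2.2.2,
   m.2.2.1 * n.1 + m.2.2.2 * n.2.2.1, m.2.2.1 * n.2.1 + m.2.2.2 * n.2.2.2)

def dt (m : M4) (l : F) : F := (m.1 - l) * (m.2.2.2 - l) - m.2.1 * m.2.2.1

def e1 : M4 := (1, 0, 0, 1)
def pX : M4 := (0, 1, 1, 0)
def pY : M4 := (0, 13, 4, 0)
def pZ : M4 := (1, 0, 0, 16)
def rho : M4 := (0, 9, 2, 0)
def b0 : F × F := (1, 2)

def InG (M : M4) : Prop := ∃ s : F, ∃ m ∈ L24, M = sc s m

def HasEig (M : M4) (l : F) : Prop := ∃ w : F × F, w ≠ 0 ∧ app M w = sm l w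

def Pauli (M : M4) : Prop := ∃ s : F, s ≠ 0 ∧ ∃ m ∈ [e1, pX, pY, pZ], M = sc s m

/-- an axis vector together with its Pauli matrix -/
def Axis (e : F × F) (r : M4) : Prop :=
  (e = (1, 1) ∧ r = pX) ∨ (e = (1, 4) ∧ r = pY) ∨ (e = (1, 0) ∧ r = pZ)

lemma allL {A : Type} (L : List A) {P : A → Prop} [DecidablePred P]
    (h : L.all (fun m => decide (P m)) = true) : ∀ m ∈ L, P m := by
  simpa using h

lemma app_mm (m n : M4) (w : F × F) : app (mm m n) w = app m (app n w) := by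
  simp only [app, mm, Prod.mk.injEq]
  constructor <;> ring

lemma app_sm (m : M4) (u : F) (w : F × F) : app m (sm u w) = sm u (app m w) := by
  simp only [app, sm, Prod.mk.injEq]
  constructor <;> ring

lemma sm_sm (u v : F) (w : F × F) : sm u (sm v w) = sm (u * v) w := by
  simp only [sm, Prod.mk.injEq]
  constructor <;> ring

lemma sm_one (w : F × F) : sm 1 w = w := by simp [sm]

lemma app_e1 (w : F × F) : app e1 w = w := by simp [app, e1]

lemma app_zero (m : M4) : app m 0 = 0 := by simp [app]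

lemma act_eq (s : F) (m : M4) (w : F × F) : act s m w = app (sc s m) w := by
  simp only [act, app, sc, Prod.mk.injEq]
  constructor <;> ring

lemma app_ext {m n : M4} (h : ∀ w, app m w = app n w) : m = n := by
  have h1 := h (1, 0)
  have h2 := h (0, 1)
  simp only [app, mul_one, mul_zero, add_zero, zero_add, Prod.mk.injEq] at h1 h2
  obtain ⟨a, b, c, d⟩ := m
  obtain ⟨a', b', c', d'⟩ := n
  simp only [Prod.mk.injEq]
  exact ⟨h1.1, h2.1, h1.2, h2.2⟩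

lemma sm_cancel {u : F} (hu : u ≠ 0) {w w' : F × F} (h : sm u w = sm u w') : w = w' := by
  simp only [sm, Prod.mk.injEq] at h
  exact Prod.ext (mul_left_cancel₀ hu h.1) (mul_left_cancel₀ hu h.2)

lemma HasEig.dt {M : M4} {l : F} (h : HasEig M l) : dt M l = 0 := by
  obtain ⟨⟨x, y⟩, hw, h⟩ := h
  simp only [app, sm, Prod.mk.injEq] at h
  obtain ⟨h1, h2⟩ := h
  by_contra hd
  apply hw
  have hx : S4.dt M l * x = 0 := by
    unfold S4.dt
    linear_combination (M.2.2.2 - l) * h1 - M.2.1 * h2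
  have hy : S4.dt M l * y = 0 := by
    unfold S4.dt
    linear_combination (M.1 - l) * h2 - M.2.2.1 * h1
  exact Prod.ext ((mul_eq_zero.mp hx).resolve_left hd) ((mul_eq_zero.mp hy).resolve_left hd)

lemma app_sc (s : F) (m : M4) (w : F × F) : app (sc s m) w = sm s (app m w) := by
  simp only [app, sc, sm, Prod.mk.injEq]
  constructor <;> ring

lemma axis_tt1 : ∀ k : F, ∀ m ∈ L24, sm k (app m (1, 1)) ≠ (2, 4) ∧
    sm k (app m (1, 4)) ≠ (2, 4) ∧ sm k (app m (1, 0)) ≠ (2, 4) :=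
  fun k => allL _ (by revert k; decide +kernel)

lemma axis_tt {M : M4} (hM : InG M) {e : F × F} {r : M4} (h : Axis e r) (k : F) :
    app M (sm k e) ≠ sm 2 b0 := by
  obtain ⟨s, m, hm, rfl⟩ := hM
  have h0 : sm 2 b0 = (2, 4) := by decide
  rw [app_sm, app_sc, sm_sm, h0]
  rcases h with ⟨rfl, _⟩ | ⟨rfl, _⟩ | ⟨rfl, _⟩
  · exact (axis_tt1 _ m hm).1
  · exact (axis_tt1 _ m hm).2.1
  · exact (axis_tt1 _ m hm).2.2

lemma b0_eig0 : ∀ s : F, ∀ m ∈ L24, ∀ u : F, app (sc s m) b0 = sm u b0 →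
    ∀ l : F, dt (sc s m) l = 0 → l = u ∨ (l = -u ∧ sc s m = sc u rho) :=
  fun s => allL _ (by revert s; decide +kernel)

lemma b0_eig {M : M4} (hM : InG M) {u l : F} (h : app M b0 = sm u b0) (hl : HasEig M l) :
    l = u ∨ (l = -u ∧ M = sc u rho) := by
  obtain ⟨s, m, hm, rfl⟩ := hM
  exact b0_eig0 s m hm u h l hl.dt

lemma axX0 : ∀ s : F, ∀ m ∈ L24, ∀ u : F, app (sc s m) (1, 1) = sm u (1, 1) →
    ∀ l : F, dt (sc s m) l = 0 →
      l = u ∨ l = 4 * u ∨ l = -4 * u ∨ (l = -u ∧ sc s m = sc u pX) :=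
  fun s => allL _ (by revert s; decide +kernel)

lemma axY0 : ∀ s : F, ∀ m ∈ L24, ∀ u : F, app (sc s m) (1, 4) = sm u (1, 4) →
    ∀ l : F, dt (sc s m) l = 0 →
      l = u ∨ l = 4 * u ∨ l = -4 * u ∨ (l = -u ∧ sc s m = sc u pY) :=
  fun s => allL _ (by revert s; decide +kernel)

lemma axZ0 : ∀ s : F, ∀ m ∈ L24, ∀ u : F, app (sc s m) (1, 0) = sm u (1, 0) →
    ∀ l : F, dt (sc s m) l = 0 →
      l = u ∨ l = 4 * u ∨ l = -4 * u ∨ (l = -u ∧ sc s m = sc u pZ) :=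
  fun s => allL _ (by revert s; decide +kernel)

lemma axis_eig {M : M4} (hM : InG M) {e : F × F} {r : M4} (h : Axis e r) {u l : F}
    (h1 : app M e = sm u e) (hl : HasEig M l) :
    l = u ∨ l = 4 * u ∨ l = -4 * u ∨ (l = -u ∧ M = sc u r) := by
  obtain ⟨s, m, hm, rfl⟩ := hM
  rcases h with ⟨rfl, rfl⟩ | ⟨rfl, rfl⟩ | ⟨rfl, rfl⟩
  · exact axX0 s m hm u h1 l hl.dt
  · exact axY0 s m hm u h1 l hl.dt
  · exact axZ0 s m hm u h1 l hl.dt

lemma Axis.ne {e : F × F} {r : M4} (h : Axis e r) : e ≠ 0 := by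
  rcases h with ⟨rfl, _⟩ | ⟨rfl, _⟩ | ⟨rfl, _⟩ <;> decide

lemma one1 : ∀ s : F, ∀ m ∈ L24, app (sc s m) (1, 2) = sm 2 (1, 2) →
    ∀ l ∈ [(8 : F), -2, -8], dt (sc s m) l = 0 → sc s m = (0, 1, 4, 0) :=
  fun s => allL _ (by revert s; decide +kernel)

lemma one2 : ∀ s : F, ∀ m ∈ L24, app (sc s m) (1, 9) = sm 2 (1, 9) →
    ∀ l ∈ [(8 : F), -2, -8], dt (sc s m) l = 0 → sc s m = (0, 4, 1, 0) :=
  fun s => allL _ (by revert s; decide +kernel)

lemma one3 : ∀ s : F, ∀ m ∈ L24, app (sc s m) (1, 5) = sm 2 (1, 5) →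
    ∀ l ∈ [(8 : F), -2, -8], dt (sc s m) l = 0 → sc s m = (6, 6, 6, 11) :=
  fun s => allL _ (by revert s; decide +kernel)

lemma one4 : ∀ s : F, ∀ m ∈ L24, app (sc s m) (1, 0) = sm 2 (1, 0) →
    ∀ l ∈ [(8 : F), -2, -8], dt (sc s m) l = 0 →
      sc s m ∈ [((2, 0, 0, 8) : M4), (2, 0, 0, 15), (2, 0, 0, 9)] :=
  fun s => allL _ (by revert s; decide +kernel)

lemma pauli_mul0 : ∀ m ∈ [e1, pX, pY, pZ], ∀ n ∈ [e1, pX, pY, pZ],
    ∃ t ∈ [(1 : F), 4, 13], ∃ k ∈ [e1, pX, pY, pZ], mm m n = sc t k := by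
  simp only [List.forall_mem_cons, List.not_mem_nil, IsEmpty.forall_iff, implies_true, and_true]
  refine ⟨⟨?_, ?_, ?_, ?_⟩, ⟨?_, ?_, ?_, ?_⟩, ⟨?_, ?_, ?_, ?_⟩, ⟨?_, ?_, ?_, ?_⟩⟩ <;>
    decide +kernel

lemma Pauli.mul {M N : M4} (hM : Pauli M) (hN : Pauli N) : Pauli (mm M N) := by
  obtain ⟨s, hs, m, hm, rfl⟩ := hM
  obtain ⟨s', hs', n, hn, rfl⟩ := hN
  obtain ⟨t, ht, k, hk, h⟩ := pauli_mul0 m hm n hn
  refine ⟨s * s' * t, ?_, k, hk, ?_⟩
  · refine mul_ne_zero (mul_ne_zero hs hs') ?_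
    simp only [List.mem_cons, List.not_mem_nil, or_false] at ht
    rcases ht with rfl | rfl | rfl <;> decide
  · have : mm (sc s m) (sc s' n) = sc (s * s') (mm m n) := by
      simp only [mm, sc, Prod.mk.injEq]
      refine ⟨?_, ?_, ?_, ?_⟩ <;> ring
    rw [this, h]
    simp only [sc, Prod.mk.injEq]
    refine ⟨?_, ?_, ?_, ?_⟩ <;> ring

def mp (m : M4) : ℕ → M4
  | 0 => e1
  | n + 1 => mm (mp m n) m

lemma pauli_pow0 : ∀ s : F, ∀ m ∈ [e1, pX, pY, pZ], s ≠ 0 → mp (sc s m) 16 = e1 :=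
  fun s => allL _ (by revert s; decide +kernel)

lemma Pauli.pow16 {M : M4} (hM : Pauli M) : mp M 16 = e1 := by
  obtain ⟨s, hs, m, hm, rfl⟩ := hM
  exact pauli_pow0 s m hm hs

lemma Pauli.pow {M : M4} (hM : Pauli M) (n : ℕ) : Pauli (mp M n) := by
  induction n with
  | zero => exact ⟨1, one_ne_zero, e1, by simp, by simp [mp, sc]⟩
  | succ n ih => exact ih.mul hM

lemma pow_mod16 {l : F} (hl : l ≠ 0) (j : ℕ) : l ^ j = l ^ (j % 16) := by
  have h : l ^ 16 = 1 := ZMod.pow_card_sub_one_eq_one hl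
  conv_lhs => rw [← Nat.div_add_mod j 16, pow_add, pow_mul, h, one_pow, one_mul]

lemma pow_mod8 {l : F} (h : l ^ 8 = 1) (j : ℕ) : l ^ j = l ^ (j % 8) := by
  conv_lhs => rw [← Nat.div_add_mod j 8, pow_add, pow_mul, h, one_pow, one_mul]

lemma exists_three (n : ℕ) (hn : n ≠ 0) : ∃ j : ℕ, j.Coprime n ∧ (j * j) % 16 = 9 := by
  obtain ⟨a, o, ho, rfl⟩ := Nat.exists_eq_two_pow_mul_odd hn
  have hc : Nat.Coprime 16 o := by
    have : Nat.Coprime 2 o := Nat.coprime_two_left.mpr ho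
    exact this.pow_left 4
  obtain ⟨j, h1, h2⟩ := Nat.chineseRemainder hc 3 1
  refine ⟨j, Nat.Coprime.mul_right ?_ ?_, ?_⟩
  · apply Nat.Coprime.pow_right
    rw [Nat.coprime_two_right, Nat.odd_iff]
    have : j % 16 = 3 := h1
    omega
  · have : Nat.gcd j o = Nat.gcd 1 o := h2.gcd_eq
    simpa using this
  · have : j % 16 = 3 := h1
    rw [Nat.mul_mod, this]

theorem sylow_lift {D Q : Type} [Group D] [Finite D] [Group Q] (θ : D →* Q)
    (hθ : ∀ d, θ d ^ 2 ^ 4 = 1) :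
    ∃ P : Subgroup D, IsPGroup 2 P ∧ ∀ d, ∃ p ∈ P, θ p = θ d := by
  have : Fact (Nat.Prime 2) := ⟨Nat.prime_two⟩
  obtain ⟨P⟩ : Nonempty (Sylow 2 D) := inferInstance
  refine ⟨P, P.isPGroup', fun d => ?_⟩
  have htop : IsPGroup 2 (⊤ : Subgroup θ.range) := by
    rintro ⟨⟨_, y, rfl⟩, _⟩
    exact ⟨4, Subtype.ext (Subtype.ext (hθ y))⟩
  have h := (P.mapSurjective θ.rangeRestrict_surjective).is_maximal' htop le_top
  have h2 : θ.rangeRestrict d ∈ ((P.mapSurjective θ.rangeRestrict_surjective : Sylow 2 θ.range) :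
      Subgroup θ.range) := by
    rw [← h]
    trivial
  obtain ⟨p, hp, h3⟩ := h2
  exact ⟨p, hp, congrArg Subtype.val h3⟩

theorem fix_other {H I : Type} [Group H] [MulAction H I] [Finite I] (P : Subgroup H)
    (hP : IsPGroup 2 P) (S : Finset I) (hS : ∀ i ∈ S, ∀ p ∈ P, p • i = i)
    (hpar : (Nat.card I + S.card) % 2 = 1) : ∃ i, i ∉ S ∧ ∀ p ∈ P, p • i = i := by
  have : Fact (Nat.Prime 2) := ⟨Nat.prime_two⟩
  by_contra hne
  push Not at hne
  have h1 := hP.card_modEq_card_fixedPoints I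
  have h2 : MulAction.fixedPoints P I = (S : Set I) := by
    ext i
    constructor
    · intro hi
      by_contra hiS
      obtain ⟨p, hp, h⟩ := hne i hiS
      exact h (hi ⟨p, hp⟩)
    · intro hi p
      exact hS i hi p.1 p.2
  rw [h2] at h1
  have h3 : Nat.card (S : Set I) = S.card := by simp
  rw [h3] at h1
  have : Nat.card I % 2 = S.card % 2 := h1
  omega

lemma two_pgroup {H : Type} [Group H] {x : H} (hx : Two x) : IsPGroup 2 (Subgroup.zpowers x) := by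
  obtain ⟨k, hk⟩ := hx
  rintro ⟨_, n, rfl⟩
  refine ⟨k, Subtype.ext ?_⟩
  change (x ^ n) ^ 2 ^ k = 1
  rw [← zpow_natCast, ← zpow_mul, mul_comm, zpow_mul, zpow_natCast, hk, one_zpow]

end Pool.Agent.Lib.MP_39e620_al.Full.S4
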