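import Pool.Agent.Lib.MP_39e620_al.Matrix

set_option autoImplicit false

namespace Pool.Agent.Lib.MP_39e620_al

open Matrix

/-- The generators of each cyclic subgroup lie in at most two conjugacy classes. -/
def SR (G : Type) [Group G] : Prop :=
  ∀ x : G, ∃ y : G, ∀ j : ℕ, j.Coprime (orderOf x) → IsConj (x ^ j) x ∨ IsConj (x ^ j) y

theorem SR.of_surjective {G H : Type} [Group G] [Group H] [Finite G] (f : G →* H)
    (hf : Function.Surjective f) (h : SR G) : SR H := by
  intro x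
  obtain ⟨x, rfl⟩ := hf x
  obtain ⟨y, hy⟩ := h x
  refine ⟨f y, fun j hj => ?_⟩
  have : NeZero (orderOf x) := ⟨(orderOf_pos x).ne'⟩
  have hd : orderOf (f x) ∣ orderOf x := orderOf_map_dvd f x
  obtain ⟨u, hu⟩ := ZMod.unitsMap_surjective hd (ZMod.unitOfCoprime j hj)
  have h1 : ((u : ZMod (orderOf x)).val).Coprime (orderOf x) := ZMod.val_coe_unit_coprime u
  have h2 : f x ^ j = f (x ^ (u : ZMod (orderOf x)).val) := by
    rw [map_pow, pow_eq_pow_iff_modEq, ← ZMod.natCast_eq_natCast_iff]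
    have := congrArg Units.val hu
    rw [ZMod.unitsMap_val, ZMod.coe_unitOfCoprime] at this
    rw [← this, ZMod.natCast_val]
  rw [h2]
  exact (hy _ h1).imp f.map_isConj f.map_isConj

theorem exists_inv_pow {G : Type} [Group G] [Finite G] (x : G) (j n : ℕ) (hn : 1 < n)
    (hd : orderOf x ∣ n) (hj : j.Coprime n) : ∃ u : ℕ, j * u % n = 1 ∧ (x ^ j) ^ u = x := by
  obtain ⟨u, -, hu⟩ := Nat.exists_mul_mod_eq_one_of_coprime hj hn
  refine ⟨u, hu, ?_⟩
  obtain ⟨c, hc⟩ := hd
  rw [← pow_mul, ← Nat.div_add_mod (j * u) n, hu, pow_add, pow_one, hc, mul_assoc, pow_mul,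
    pow_orderOf_eq_one, one_pow, one_mul]

theorem SR.sq {G : Type} [Group G] [Finite G] (h : SR G) (x : G) (j : ℕ)
    (hj : j.Coprime (orderOf x)) : IsConj x (x ^ (j * j)) := by
  obtain ⟨y, hy⟩ := h x
  by_cases h1 : IsConj (x ^ j) x
  · have h2 := h1.pow j
    rw [← pow_mul] at h2
    exact (h2.trans h1).symm
  · have h2 := (hy j hj).resolve_left h1
    rcases hy (j * j) (Nat.Coprime.mul_left hj hj) with h3 | h3
    · exact h3.symm
    · exfalso
      apply h1
      by_cases hx : x = 1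
      · subst hx; simp
      have ho : 1 < orderOf x := by
        have a1 := orderOf_pos x
        have a2 : orderOf x ≠ 1 := fun h => hx (orderOf_eq_one_iff.1 h)
        omega
      obtain ⟨u, -, hu⟩ := exists_inv_pow x j _ ho dvd_rfl hj
      have h4 := (h3.trans h2.symm).pow u
      rw [hu, pow_mul, ← pow_mul _ j u, mul_comm j u, pow_mul (x ^ j), hu] at h4
      exact h4

theorem SR.two_elt {G : Type} [Group G] [Finite G] (h : SR G) (x : G) (k : ℕ)
    (hk : x ^ 2 ^ k = 1) :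
    IsConj x (x ^ 9) ∧ ∃ j : ℕ, (j % 8 = 3 ∨ j % 8 = 5 ∨ j % 8 = 7) ∧ IsConj x (x ^ j) := by
  have hd : orderOf x ∣ 2 ^ k := orderOf_dvd_of_pow_eq_one hk
  have h3 : Nat.Coprime 3 (orderOf x) :=
    Nat.Coprime.coprime_dvd_right hd (Nat.Coprime.pow_right k (by norm_num))
  have h5 : Nat.Coprime 5 (orderOf x) :=
    Nat.Coprime.coprime_dvd_right hd (Nat.Coprime.pow_right k (by norm_num))
  refine ⟨h.sq x 3 h3, ?_⟩
  obtain ⟨y, hy⟩ := h x
  rcases hy 3 h3 with a | a
  · exact ⟨3, by norm_num, a.symm⟩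
  rcases hy 5 h5 with b | b
  · exact ⟨5, by norm_num, b.symm⟩
  obtain ⟨u, hu, hu'⟩ := exists_inv_pow x 3 (2 ^ k * 8)
    (by have := Nat.one_le_two_pow (n := k); omega) (hd.mul_right 8)
    (Nat.Coprime.mul_right (Nat.Coprime.pow_right k (by norm_num)) (by norm_num))
  have h1 := (a.trans b.symm).pow u
  rw [hu', ← pow_mul] at h1
  refine ⟨5 * u, ?_, h1⟩
  have h2 := Nat.div_add_mod (3 * u) (2 ^ k * 8)
  rw [hu, mul_assoc, mul_comm (2 ^ k), mul_assoc] at h2
  omega

theorem rep_false {G A : Type} [Group G] [Finite G] [CommGroup A] [Finite A] [Nontrivial A]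
    (h17 : ∀ a : A, a ^ 17 = 1) (τ : G →* MulAut A) (hsr : SR G) (R : Subgroup G)
    (hEP : ∀ a, ∃ g ∈ R, τ g a = a ^ 2) (h2 : ∀ g ∈ R, ∃ k, τ (g ^ 2 ^ k) = 1) : False := by
  classical
  let inst : Module F (Additive A) := AddCommGroup.zmodModule (n := 17) (fun x => h17 x.toMul)
  let b := Module.finBasis F (Additive A)
  have hd : Module.finrank F (Additive A) ≠ 0 := Module.finrank_pos.ne'
  let φ0 : G →* Module.End F (Additive A) :=
    { toFun := fun g => AddMonoidHom.toZModLinearMap 17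
        (MonoidHom.toAdditive (τ g).toMonoidHom)
      map_one' := by ext x; simp
      map_mul' := by intro g h; ext x; simp }
  have hφ0 : ∀ g (x : Additive A), φ0 g x = Additive.ofMul (τ g x.toMul) := fun _ _ => rfl
  let φ1 := (LinearMap.toMatrixAlgEquiv b).toMulEquiv.toMonoidHom.comp φ0
  let φ : G →* GL (Fin (Module.finrank F (Additive A))) F := φ1.toHomUnits
  have hφ : ∀ g, (φ g : Matrix _ _ F) = LinearMap.toMatrix b b (φ0 g) := fun _ => rfl
  have hpow : ∀ g ∈ R, ∃ k, φ g ^ 2 ^ k = 1 := by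
    intro g hg
    obtain ⟨k, hk⟩ := h2 g hg
    refine ⟨k, ?_⟩
    rw [← map_pow]
    apply Units.ext
    have : φ0 (g ^ 2 ^ k) = LinearMap.id := by
      ext x
      rw [hφ0, hk]
      rfl
    rw [hφ, this, LinearMap.toMatrix_id, Units.val_one]
  have hsr' : SR φ.range := hsr.of_surjective φ.rangeRestrict φ.rangeRestrict_surjective
  have hQ : ∀ s ∈ R.map φ, IsConj s (s ^ 9) ∧
      ∃ j : ℕ, (j % 8 = 3 ∨ j % 8 = 5 ∨ j % 8 = 7) ∧ IsConj s (s ^ j) := by
    rintro _ ⟨g, hg, rfl⟩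
    obtain ⟨k, hk⟩ := hpow g hg
    obtain ⟨a1, j, hj, a2⟩ := hsr'.two_elt ⟨φ g, g, rfl⟩ k (Subtype.ext hk)
    exact ⟨φ.range.subtype.map_isConj a1, j, hj, φ.range.subtype.map_isConj a2⟩
  refine matrix_false hd (R.map φ) ?_ ?_ (fun s hs => (hQ s hs).1) (fun s hs => (hQ s hs).2)
  · rintro ⟨_, g, hg, rfl⟩
    obtain ⟨k, hk⟩ := hpow g hg
    exact ⟨k, Subtype.ext hk⟩
  · intro w
    obtain ⟨g, hg, h⟩ := hEP (b.equivFun.symm w).toMul
    refine ⟨φ g, ⟨g, hg, rfl⟩, ?_⟩
    have e : w = b.repr (b.equivFun.symm w) := by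
      rw [← b.equivFun_apply, LinearEquiv.apply_symm_apply]
    have e2 : φ0 g (b.equivFun.symm w) = (2 : F) • b.equivFun.symm w := by
      rw [hφ0, h, two_smul, sq]
      rfl
    rw [hφ]
    nth_rewrite 1 [e]
    rw [LinearMap.toMatrix_mulVec_repr, e2, map_smul, Finsupp.coe_smul, ← e]

/-- The action on a normal elementary abelian `17`-subgroup is never `2`-closed. -/
theorem local_false {G : Type} [Group G] [Finite G] (hsr : SR G) (V R : Subgroup G) [V.Normal]
    (hV : V ≠ ⊥) (hc : ∀ a ∈ V, ∀ b ∈ V, a * b = b * a) (h17 : ∀ a ∈ V, a ^ 17 = 1)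
    (hodd : ∀ g : G, ∃ m : ℕ, Odd m ∧ g ^ m ∈ R)
    (h2 : ∀ g ∈ R, ∃ k : ℕ, ∀ a ∈ V, g ^ 2 ^ k * a = a * g ^ 2 ^ k) : False := by
  let inst : CommGroup V :=
    { (inferInstance : Group V) with mul_comm := fun a b => Subtype.ext (hc a a.2 b b.2) }
  have : Nontrivial V := (Subgroup.nontrivial_iff_ne_bot V).2 hV
  refine rep_false (A := V) (fun a => Subtype.ext (h17 a a.2)) MulAut.conjNormal hsr R ?_ ?_
  · intro a
    have ha := h17 a a.2
    have hd : orderOf (a : G) ∣ 17 := orderOf_dvd_of_pow_eq_one ha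
    have h1 := hsr.sq (a : G) 6 (Nat.Coprime.coprime_dvd_right hd (by norm_num))
    have red : ∀ n : ℕ, (a : G) ^ n = (a : G) ^ (n % 17) := fun n => by
      conv_lhs => rw [← Nat.div_add_mod n 17, pow_add, pow_mul, ha, one_pow, one_mul]
    rw [red] at h1
    obtain ⟨g, hg⟩ := isConj_iff.1 h1
    have hn : ∀ n : ℕ, g ^ n * a * (g ^ n)⁻¹ = (a : G) ^ 2 ^ n := by
      intro n
      induction n with
      | zero => simp
      | succ n ih =>
        have : g ^ (n + 1) * a * (g ^ (n + 1))⁻¹ = g * (g ^ n * a * (g ^ n)⁻¹) * g⁻¹ := by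
          rw [pow_succ']; group
        rw [this, ih, ← conj_pow, hg, ← pow_mul, pow_succ']
    obtain ⟨m, hm, hmR⟩ := hodd g
    refine ⟨g ^ (m * m), by rw [pow_mul]; exact R.pow_mem hmR m, Subtype.ext ?_⟩
    rw [MulAut.conjNormal_apply, hn, red]
    obtain ⟨c, rfl⟩ := hm
    obtain ⟨e, he⟩ := Nat.even_mul_succ_self c
    have e1 : (2 * c + 1) * (2 * c + 1) = 8 * e + 1 := by nlinarith
    have e2 : 2 ^ (8 * e + 1) % 17 = 2 := by
      rw [pow_succ, pow_mul, Nat.mul_mod, Nat.pow_mod]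
      norm_num
    rw [e1, e2]
    rfl
  · intro g hg
    obtain ⟨k, hk⟩ := h2 g hg
    refine ⟨k, ?_⟩
    ext a
    rw [MulAut.conjNormal_apply, hk a a.2]
    simp

theorem exists_abelian_normal (G : Type) [Group G] [Nontrivial G] [Group.IsSolvable G] :
    ∃ A : Subgroup G, A.Normal ∧ A ≠ ⊥ ∧ ∀ a ∈ A, ∀ b ∈ A, a * b = b * a := by
  classical
  have hex : ∃ n, derivedSeries G n = ⊥ := (Group.isSolvable_def G).1 inferInstance
  have h0 : Nat.find hex ≠ 0 := by
    intro h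
    have := Nat.find_spec hex
    rw [h] at this
    exact top_ne_bot this
  obtain ⟨n, hn⟩ := Nat.exists_eq_succ_of_ne_zero h0
  refine ⟨derivedSeries G n, derivedSeries_normal G n, Nat.find_min hex (by omega), ?_⟩
  have := Nat.find_spec hex
  rw [hn, derivedSeries_succ, Subgroup.commutator_eq_bot_iff_le_centralizer] at this
  intro a ha b hb
  exact (Subgroup.mem_centralizer_iff.1 (this hb) a ha)

theorem global (n : ℕ) : ∀ (G : Type) [Group G] [Finite G] [Group.IsSolvable G], Nat.card G = n →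
    SR G → ∀ (O R : Subgroup G) [O.Normal], (¬ 17 ∣ Nat.card O ∨ Group.IsNilpotent O) →
    (∀ x ∈ R, ∃ a b : ℕ, x ^ (2 ^ a * 17 ^ b) ∈ O) → (∀ g : G, ∃ m : ℕ, Odd m ∧ g ^ m ∈ R) →
    ¬ 17 ∣ Nat.card G := by
  induction n using Nat.strong_induction_on with
  | _ n ih =>
  intro G _ _ _ hn hsr O R _ hO hR hodd h17
  have p17 : Nat.Prime 17 := by norm_num
  by_cases hq : ∃ M : Subgroup G, M.Normal ∧ M ≠ ⊥ ∧ 17 ∣ M.index
  · obtain ⟨M, hMn, hM, hMi⟩ := hq
    have hlt : Nat.card (G ⧸ M) < n := by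
      have h1 := M.index_mul_card
      have h2 : 1 < Nat.card M := M.one_lt_card_iff_ne_bot.2 hM
      have h3 : 0 < M.index := Nat.pos_of_ne_zero M.index_ne_zero_of_finite
      change M.index < n
      nlinarith
    have hs : Function.Surjective (QuotientGroup.mk' M) := QuotientGroup.mk'_surjective M
    have : (O.map (QuotientGroup.mk' M)).Normal := Subgroup.Normal.map inferInstance _ hs
    refine ih _ hlt (G ⧸ M) rfl (hsr.of_surjective _ hs) (O.map (QuotientGroup.mk' M))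
      (R.map (QuotientGroup.mk' M)) ?_ ?_ ?_ hMi
    · rcases hO with hO | hO
      · exact Or.inl fun h => hO (h.trans (Subgroup.card_map_dvd _ _))
      · exact Or.inr (Group.nilpotent_of_surjective _
          ((QuotientGroup.mk' M).subgroupMap_surjective O))
    · rintro _ ⟨x, hx, rfl⟩
      obtain ⟨a, b, h⟩ := hR x hx
      exact ⟨a, b, _, h, map_pow _ _ _⟩
    · intro g
      obtain ⟨g, rfl⟩ := hs g
      obtain ⟨m, hm, h⟩ := hodd g
      exact ⟨m, hm, _, h, map_pow _ _ _⟩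
  have hmin : ∀ M : Subgroup G, M.Normal → ¬ 17 ∣ Nat.card M → M = ⊥ := by
    intro M hMn hM
    by_contra hne
    apply hq
    refine ⟨M, hMn, hne, ?_⟩
    rw [← M.index_mul_card] at h17
    exact ((Nat.Prime.dvd_mul p17).1 h17).resolve_right hM
  have hO' : ∀ x ∈ O, ∃ c : ℕ, x ^ 17 ^ c = 1 := by
    rcases hO with hO | hO
    · intro x hx
      rw [hmin O inferInstance hO, Subgroup.mem_bot] at hx
      exact ⟨0, by rw [hx, one_pow]⟩
    · have hp : ∀ p : ℕ, p.Prime → p ∣ Nat.card O → p = 17 := by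
        intro p hp hpd
        by_contra hne
        have : Fact p.Prime := ⟨hp⟩
        obtain ⟨P⟩ := (Sylow.nonempty : Nonempty (Sylow p O))
        have : (P : Subgroup O).Characteristic := P.characteristic_of_normal inferInstance
        have h1 : ((P : Subgroup O).map O.subtype) = ⊥ := by
          apply hmin _ inferInstance
          obtain ⟨k, hk⟩ := (IsPGroup.iff_card.1 (P.isPGroup'.map O.subtype))
          rw [hk]
          intro h
          exact hne ((Nat.prime_dvd_prime_iff_eq p17 hp).1 (p17.dvd_of_dvd_pow h)).symm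
        rw [Subgroup.map_eq_bot_iff_of_injective _ O.subtype_injective] at h1
        exact P.ne_bot_of_dvd_card hpd h1
      have h1 : IsPGroup 17 O := IsPGroup.of_card
        (Nat.eq_prime_pow_of_unique_prime_dvd Nat.card_pos.ne' (fun {d} hd hd' => hp d hd hd'))
      intro x hx
      obtain ⟨c, hc⟩ := h1 ⟨x, hx⟩
      exact ⟨c, congrArg Subtype.val hc⟩
  have : Nontrivial G := by
    rw [← Finite.one_lt_card_iff_nontrivial]
    have := Nat.le_of_dvd Nat.card_pos h17
    omega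
  obtain ⟨A, hAn, hA, hAc⟩ := exists_abelian_normal G
  have hA17 : 17 ∣ Nat.card A := by
    by_contra h
    exact hA (hmin A hAn h)
  let V : Subgroup G :=
    { carrier := {a | a ∈ A ∧ a ^ 17 = 1}
      one_mem' := ⟨A.one_mem, one_pow _⟩
      mul_mem' := by
        rintro a b ⟨ha, ha'⟩ ⟨hb, hb'⟩
        refine ⟨A.mul_mem ha hb, ?_⟩
        rw [Commute.mul_pow (hAc a ha b hb), ha', hb', one_mul]
      inv_mem' := by
        rintro a ⟨ha, ha'⟩
        exact ⟨A.inv_mem ha, by rw [inv_pow, ha', inv_one]⟩ }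
  have hVn : V.Normal := ⟨by
    rintro a ⟨ha, ha'⟩ g
    exact ⟨hAn.conj_mem a ha g, by rw [conj_pow, ha', mul_one, mul_inv_cancel]⟩⟩
  have hV : V ≠ ⊥ := by
    obtain ⟨a, ha⟩ := exists_prime_orderOf_dvd_card' 17 hA17
    intro h
    have h1 : (a : G) ∈ V := ⟨a.2, by
      have := pow_orderOf_eq_one a
      rw [ha] at this
      exact congrArg Subtype.val this⟩
    rw [h, Subgroup.mem_bot] at h1
    have h2 : a = 1 := Subtype.ext h1
    rw [h2, orderOf_one] at ha
    omega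
  have hVi : ¬ 17 ∣ V.index := fun h => hq ⟨V, hVn, hV, h⟩
  refine local_false hsr V R hV (fun a ha b hb => hAc a ha.1 b hb.1) (fun a ha => ha.2) hodd ?_
  intro x hx
  obtain ⟨a, b, h⟩ := hR x hx
  obtain ⟨c, hc⟩ := hO' _ h
  refine ⟨a, fun v hv => hAc _ ?_ v hv.1⟩
  have h1 : ((x ^ 2 ^ a : G) : G ⧸ V) ^ (17 ^ (b + c)) = 1 := by
    rw [← QuotientGroup.mk_pow, pow_add, ← pow_mul, ← mul_assoc, pow_mul, hc]
    rfl
  have h2 : ((x ^ 2 ^ a : G) : G ⧸ V) ^ V.index = 1 := pow_card_eq_one'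
  have h3 : Nat.Coprime (17 ^ (b + c)) V.index :=
    Nat.Coprime.pow_left _ ((Nat.Prime.coprime_iff_not_dvd p17).2 hVi)
  have h4 : ((x ^ 2 ^ a : G) : G ⧸ V) = 1 := by
    have := pow_gcd_eq_one.2 ⟨h1, h2⟩
    rwa [h3, pow_one] at this
  exact ((QuotientGroup.eq_one_iff _).1 h4).1

end Pool.Agent.Lib.MP_39e620_al
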