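import Mathlib

set_option autoImplicit false

namespace Pool.Agent.Lib.MP_39e620_al.H66

theorem hom_finite (X K : Type) [Group X] [Finite X] [Field K] [Finite K] : Finite (X →* Kˣ) :=
  Finite.of_injective (fun f : X →* Kˣ => (f : X → Kˣ)) DFunLike.coe_injective

theorem card_hom_le (X K : Type) [Group X] [Finite X] [Field K] [Finite K] :
    Nat.card (X →* Kˣ) ≤ Nat.card X := by
  have := hom_finite X K
  have h1 := linearIndependent_monoidHom X K
  have h2 : Function.Injective (fun f : X →* Kˣ => (Units.coeHom K).comp f) := by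
    intro f g h
    ext x
    exact DFunLike.congr_fun h x
  have h3 := h1.comp _ h2
  have := Fintype.ofFinite X
  have := Fintype.ofFinite (X →* Kˣ)
  have h4 := h3.fintype_card_le_finrank
  rw [Module.finrank_fintype_fun_eq_card] at h4
  simpa using h4

theorem card_split' {G H : Type} [Group G] [Group H] (f : G →* H) (K : Subgroup G) :
    Nat.card K = Nat.card (K ⊓ f.ker : Subgroup G) * Nat.card (K.map f) := by
  rw [← Subgroup.relIndex_ker, Subgroup.relIndex, ← (f.ker.subgroupOf K).card_mul_index]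
  congr 1
  rw [← Subgroup.inf_subgroupOf_left]
  exact Nat.card_congr (Subgroup.subgroupOfEquivOfLe inf_le_left).toEquiv

section pairing

variable {M K : Type} [Group M] [Finite M] [Field K] [Finite K]

/-- Every character is given by the pairing. -/
theorem pairing_surj (β : M →* M →* Kˣ) (hβ : ∀ a, (∀ b, β a b = 1) → a = 1) :
    Function.Surjective β := by
  have := hom_finite M K
  have hinj : Function.Injective β := by
    rw [injective_iff_map_eq_one]
    intro a ha
    exact hβ a (fun b => by rw [ha]; rfl)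
  exact ((Nat.bijective_iff_injective_and_card β).2 ⟨hinj, le_antisymm
    (Nat.card_le_card_of_injective _ hinj) (card_hom_le M K)⟩).2

theorem perp_card (β : M →* M →* Kˣ) (hβ : ∀ b, (∀ a, β a b = 1) → b = 1) (C : Subgroup M) :
    {x : M | ∀ c ∈ C, β x c = 1}.ncard ≤ C.index := by
  let φ : M →* (C →* Kˣ) :=
    { toFun := fun x => (β x).comp C.subtype
      map_one' := by ext c; simp
      map_mul' := by intro x y; ext c; simp }
  have hk : (φ.ker : Set M) = {x : M | ∀ c ∈ C, β x c = 1} := by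
    ext x
    simp only [SetLike.mem_coe, MonoidHom.mem_ker, Set.mem_ofPred_eq]
    constructor
    · intro h c hc
      exact DFunLike.congr_fun h ⟨c, hc⟩
    · intro h
      ext c
      simp [φ, h c c.2]
  let ψ : C → (M ⧸ φ.ker →* Kˣ) := fun c => QuotientGroup.lift φ.ker (β.flip c) (by
    intro x hx
    exact DFunLike.congr_fun (MonoidHom.mem_ker.1 hx) c)
  have hψ : Function.Injective ψ := by
    intro c d h
    have h1 : ∀ a, β a (c * (d : M)⁻¹) = 1 := by
      intro a
      have := DFunLike.congr_fun h (QuotientGroup.mk a)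
      have h2 : β a c = β a d := this
      rw [map_mul, map_inv, h2, mul_inv_cancel]
    exact Subtype.ext (mul_inv_eq_one.1 (hβ _ h1))
  have := hom_finite (M ⧸ φ.ker) K
  have h1 := (Nat.card_le_card_of_injective _ hψ).trans (card_hom_le _ K)
  have h2 := φ.ker.card_mul_index
  have h3 := C.card_mul_index
  have h4 : (φ.ker : Set M).ncard = Nat.card φ.ker := rfl
  rw [← hk, h4]
  have h5 : 0 < Nat.card C := Nat.card_pos
  have h6 : Nat.card φ.ker * Nat.card C ≤ Nat.card φ.ker * φ.ker.index :=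
    Nat.mul_le_mul_left _ h1
  rw [h2, ← h3, mul_comm (Nat.card C)] at h6
  exact Nat.le_of_mul_le_mul_right h6 h5

/-- Stabiliser chain bound for automorphisms preserving a nondegenerate pairing. -/
theorem pairing_chain (β : M →* M →* Kˣ) (hβ : ∀ b, (∀ a, β a b = 1) → b = 1) (B : ℕ → ℕ)
    (t0 : ℕ) (hB1 : 1 ≤ B 1) (hB : ∀ t, t ∣ t0 → ∀ d, d ∣ t → d < t → t * B d ≤ B t) (t : ℕ) :
    ∀ (S : Subgroup (MulAut M)) (C : Subgroup M), (∀ s ∈ S, ∀ a b, β (s a) (s b) = β a b) →
      (∀ s ∈ S, ∀ x ∈ C, s x = x) → C.index = t → t ∣ t0 → Nat.card S ≤ B t := by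
  induction t using Nat.strong_induction_on with
  | _ t ih =>
  intro S C hS hC ht ht0
  have htpos : 0 < t := ht ▸ Nat.pos_of_ne_zero C.index_ne_zero_of_finite
  by_cases hall : ∀ a ∈ S, ∀ x, a x = x
  · have : S = ⊥ := by
      rw [eq_bot_iff]
      intro a ha
      rw [Subgroup.mem_bot]
      ext x
      simpa using hall a ha x
    subst this
    rw [Subgroup.card_bot]
    rcases Nat.lt_or_ge 1 t with h | h
    · have := hB t ht0 1 (one_dvd t) h
      nlinarith
    · rwa [show t = 1 by omega]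
  push Not at hall
  obtain ⟨a, ha, x, hx⟩ := hall
  have hfin : Finite (MulAut M) := Finite.of_injective (fun f : MulAut M => (f : M → M))
    DFunLike.coe_injective
  let S' : Subgroup (MulAut M) := S ⊓ MulAction.stabilizer (MulAut M) x
  let C' : Subgroup M :=
    { carrier := {y | ∀ b ∈ S', b y = y}
      mul_mem' := by
        intro y z hy hz b hb
        rw [map_mul, hy b hb, hz b hb]
      one_mem' := by intro b _; simp
      inv_mem' := by
        intro y hy b hb
        rw [map_inv, hy b hb] }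
  have hCC' : C ≤ C' := fun y hy b hb => hC b hb.1 y hy
  have hxC' : x ∈ C' := fun b hb => hb.2
  have hxC : x ∉ C := fun h => hx (hC a ha x h)
  have hdvd : C'.index ∣ t := ht ▸ Subgroup.index_dvd_of_le hCC'
  have hlt : C'.index < t := by
    refine lt_of_le_of_ne (Nat.le_of_dvd htpos hdvd) (fun h => hxC ?_)
    have h1 := C.card_mul_index
    have h2 := C'.card_mul_index
    rw [h, ← h1, ht] at h2
    have h3 : C = C' :=
      Subgroup.eq_of_le_of_card_ge hCC' (Nat.eq_of_mul_eq_mul_right htpos h2).le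
    exact h3 ▸ hxC'
  have ih' := ih _ hlt S' C' (fun s hs => hS s hs.1) (fun b hb y hy => hy b hb) rfl
    (hdvd.trans ht0)
  have horb : Nat.card (MulAction.orbit S x) ≤ t := by
    refine le_trans ?_ (ht ▸ perp_card β hβ C)
    refine Set.ncard_le_ncard_of_injOn (s := MulAction.orbit S x) (fun y => y * x⁻¹) ?_
      (fun y _ z _ h => mul_right_cancel h)
    rintro y ⟨b, rfl⟩ c hc
    have h1 := hS b b.2 x c
    rw [hC b b.2 c hc] at h1
    show β ((b : MulAut M) x * x⁻¹) c = 1
    rw [map_mul, map_inv, MonoidHom.mul_apply, MonoidHom.inv_apply, h1, mul_inv_cancel]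
  have hst : Nat.card (MulAction.stabilizer S x) = Nat.card S' := by
    have : (MulAction.stabilizer S x).map S.subtype = S' := by
      ext b
      simp only [Subgroup.mem_map, MulAction.mem_stabilizer_iff, S', Subgroup.mem_inf]
      constructor
      · rintro ⟨c, hc, rfl⟩
        exact ⟨c.2, hc⟩
      · rintro ⟨h1, h2⟩
        exact ⟨⟨b, h1⟩, h2, rfl⟩
    rw [← this, Subgroup.card_map_of_injective S.subtype_injective]
  have hos : Nat.card (MulAction.orbit S x) * Nat.card (MulAction.stabilizer S x) =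
      Nat.card S := by
    rw [← Nat.card_prod]
    exact Nat.card_congr (MulAction.orbitProdStabilizerEquivGroup S x)
  rw [← hos, hst]
  exact (Nat.mul_le_mul horb ih').trans (hB t ht0 _ hdvd hlt)

theorem pairing_aut_le (β : M →* M →* Kˣ) (hβ : ∀ b, (∀ a, β a b = 1) → b = 1) (B : ℕ → ℕ)
    (hB1 : 1 ≤ B 1) (hB : ∀ t, t ∣ Nat.card M → ∀ d, d ∣ t → d < t → t * B d ≤ B t)
    (S : Subgroup (MulAut M)) (hS : ∀ s ∈ S, ∀ a b, β (s a) (s b) = β a b) :
    Nat.card S ≤ B (Nat.card M) :=
  pairing_chain β hβ B _ hB1 hB _ S ⊥ hS (by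
    intro s _ x hx
    rw [Subgroup.mem_bot] at hx
    rw [hx, map_one]) Subgroup.index_bot dvd_rfl

omit [Finite K] in
/-- Dimension lemma of Stone and von Neumann type. -/
theorem card_dvd_finrank {V : Type} [AddCommGroup V] [Module K V] [Module.Finite K V]
    (β : M →* M →* Kˣ) (hl : ∀ a, (∀ b, β a b = 1) → a = 1) (hr : ∀ b, (∀ a, β a b = 1) → b = 1)
    (hM : (Nat.card M : K) ≠ 0) (cj : M →* Module.End K V) (L : M → V ≃ₗ[K] V)
    (hL : ∀ b a y, cj b (L a y) = (β b a : K) • L a (cj b y)) :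
    Nat.card M ∣ Module.finrank K V := by
  classical
  have := Fintype.ofFinite M
  let C : Submodule K V :=
    { carrier := {y | ∀ b, cj b y = y}
      add_mem' := by intro x y hx hy b; rw [map_add, hx b, hy b]
      zero_mem' := by intro b; simp
      smul_mem' := by intro c x hx b; rw [map_smul, hx b] }
  have hsl : ∀ a : M, ∑ b, (β b a : K) = if a = 1 then (Nat.card M : K) else 0 := by
    intro a
    split_ifs with h
    · simp [h]
    · refine sum_hom_units_eq_zero ((Units.coeHom K).comp (β.flip a)) (fun h1 => h (hr a ?_))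
      intro b
      exact Units.ext (DFunLike.congr_fun h1 b)
  have hsr : ∀ b : M, ∑ a, (β b a : K) = if b = 1 then (Nat.card M : K) else 0 := by
    intro b
    split_ifs with h
    · simp [h]
    · refine sum_hom_units_eq_zero ((Units.coeHom K).comp (β b)) (fun h1 => h (hl b ?_))
      intro a
      exact Units.ext (DFunLike.congr_fun h1 a)
  let Φ : (M → C) →ₗ[K] V := ∑ a : M, (L a).toLinearMap ∘ₗ C.subtype ∘ₗ LinearMap.proj a
  have hΦ : ∀ f, Φ f = ∑ a, L a (f a) := by
    intro f
    simp [Φ]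
  have hinj : Function.Injective Φ := by
    rw [injective_iff_map_eq_zero]
    intro f hf
    funext a0
    rw [hΦ] at hf
    have h1 : ∀ b, ∑ a, (β b (a * a0⁻¹) : K) • L a (f a) = 0 := by
      intro b
      have h2 := congrArg (fun y => (β b a0⁻¹ : K) • cj b y) hf
      simp only [map_sum, map_zero, smul_zero, Finset.smul_sum, hL, smul_smul] at h2
      rw [← h2]
      refine Finset.sum_congr rfl (fun a _ => ?_)
      rw [(f a).2 b, map_mul, Units.val_mul, mul_comm]
    have h2 : ∑ b, ∑ a, (β b (a * a0⁻¹) : K) • L a (f a) = 0 :=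
      Finset.sum_eq_zero (fun b _ => h1 b)
    rw [Finset.sum_comm] at h2
    simp only [← Finset.sum_smul, hsl, mul_inv_eq_one, ite_smul, zero_smul, Finset.sum_ite_eq',
      Finset.mem_univ, if_true] at h2
    have h3 := (smul_eq_zero.1 h2).resolve_left hM
    exact Subtype.ext ((L a0).map_eq_zero_iff.1 h3)
  have hsurj : Function.Surjective Φ := by
    intro y
    let z : M → V := fun a => (Nat.card M : K)⁻¹ • ∑ b, (β b⁻¹ a : K) • cj b y
    have hz : ∀ a b', cj b' (z a) = (β b' a : K) • z a := by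
      intro a b'
      simp only [z, map_smul, map_sum]
      rw [smul_comm (β b' a : K), Finset.smul_sum (r := (β b' a : K))]
      congr 1
      conv_rhs => rw [← Equiv.sum_comp (Equiv.mulLeft b')]
      refine Finset.sum_congr rfl (fun b _ => ?_)
      simp only [Equiv.coe_mulLeft, map_mul, Module.End.mul_apply, smul_smul, mul_inv_rev,
        MonoidHom.mul_apply, map_inv, MonoidHom.inv_apply, Units.val_mul]
      congr 1
      simp only [Units.val_inv_eq_inv_val]
      field_simp
    have hmem : ∀ a, (L a).symm (z a) ∈ C := by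
      intro a b
      have h1 := hL b a ((L a).symm (z a))
      rw [LinearEquiv.apply_symm_apply, hz] at h1
      have h2 := smul_right_injective V (β b a).ne_zero h1
      apply (L a).injective
      rw [LinearEquiv.apply_symm_apply]
      exact h2.symm
    refine ⟨fun a => ⟨_, hmem a⟩, ?_⟩
    rw [hΦ]
    simp only [LinearEquiv.apply_symm_apply, z]
    rw [← Finset.smul_sum, Finset.sum_comm]
    simp only [← Finset.sum_smul, hsr, inv_eq_one, ite_smul, zero_smul, Finset.sum_ite_eq',
      Finset.mem_univ, if_true, map_one, Module.End.one_apply]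
    rw [smul_smul, inv_mul_cancel₀ hM, one_smul]
  have h1 := (LinearEquiv.ofBijective Φ ⟨hinj, hsurj⟩).finrank_eq
  rw [Module.finrank_pi_fintype] at h1
  rw [← h1]
  simp

theorem pairing_aut_two (β : M →* M →* Kˣ) (hβ : ∀ b, (∀ a, β a b = 1) → b = 1)
    (S : Subgroup (MulAut M)) (hS : ∀ s ∈ S, ∀ a b, β (s a) (s b) = β a b) (c : ℕ)
    (hc : Nat.card M ≤ 2 ^ c) : Nat.card S ≤ 2 ^ (c * (c + 1) / 2) := by
  have mono : ∀ a b : ℕ, a ≤ b → a * (a + 1) / 2 ≤ b * (b + 1) / 2 := fun a b h =>
    Nat.div_le_div_right (Nat.mul_le_mul h (by omega))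
  have h := pairing_aut_le β hβ (fun t => 2 ^ (Nat.clog 2 t * (Nat.clog 2 t + 1) / 2))
    (by simp) (by
      intro t ht d hd hdt
      obtain ⟨e, rfl⟩ := hd
      have hd0 : 0 < d := by
        rcases Nat.eq_zero_or_pos d with h | h
        · subst h; simp at hdt
        · exact h
      have he : 2 ≤ e := by
        by_contra h
        have : e = 0 ∨ e = 1 := by omega
        rcases this with h | h <;> subst h <;> omega
      have h1 : d * e ≤ 2 ^ Nat.clog 2 (d * e) := Nat.le_pow_clog (by norm_num) _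
      obtain ⟨k, hk⟩ : ∃ k, Nat.clog 2 (d * e) = k + 1 := by
        rcases h0 : Nat.clog 2 (d * e) with _ | k
        · rw [h0] at h1; nlinarith
        · exact ⟨k, rfl⟩
      rw [hk] at h1 ⊢
      have h2 : Nat.clog 2 d ≤ k := by
        rw [Nat.clog_le_iff_le_pow (by norm_num)]
        rw [pow_succ] at h1
        nlinarith
      have h3 : (k + 1) * (k + 1 + 1) / 2 = (k + 1) + k * (k + 1) / 2 := by
        rw [show (k + 1) * (k + 1 + 1) = k * (k + 1) + (k + 1) * 2 by ring,
          Nat.add_mul_div_right _ _ (by norm_num)]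
        ring
      rw [h3, pow_add 2 (k + 1)]
      exact Nat.mul_le_mul h1 (Nat.pow_le_pow_right (by norm_num) (mono _ _ h2))) S hS
  refine h.trans (Nat.pow_le_pow_right (by norm_num) (mono _ _ ?_))
  rwa [Nat.clog_le_iff_le_pow (by norm_num)]

/-- A table of bounds for small orders. -/
def Bs (t : ℕ) : ℕ :=
  if t = 4 then 8 else if t = 6 then 18 else if t = 8 then 64 else if t = 9 then 27 else
  if t = 12 then 216 else if t = 16 then 1024 else if t = 18 then 486 else if t = 25 then 125 else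
  if t = 27 then 729 else if t = 32 then 32768 else if t = 36 then 17496 else
  if t = 49 then 343 else if t = 64 then 2097152 else if t = 81 then 59049 else t

theorem Bs_ok : ∀ n ∈ Finset.range 10, ∀ t ∈ Finset.range 82, t ∣ n ^ 2 → n ≠ 0 →
    (∀ d ∈ Finset.range t, d ∣ t → t * Bs d ≤ Bs t) ∧ (n = 2 → t * Bs t ≤ 32) ∧
    (n = 2 → t ≠ 4 → t * Bs t ≤ 4) ∧ (n = 3 → t * Bs t ≤ 243) ∧ (n = 4 → t * Bs t ≤ 16384) ∧
    (n = 4 → t ≠ 16 → t * Bs t ≤ 512) ∧ (5 ≤ n → 21 * (t * Bs t) ≤ 17 ^ n) := by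
  decide +kernel

theorem pairing_aut_sq (β : M →* M →* Kˣ) (hβ : ∀ b, (∀ a, β a b = 1) → b = 1)
    (S : Subgroup (MulAut M)) (hS : ∀ s ∈ S, ∀ a b, β (s a) (s b) = β a b) (n : ℕ) (hn : n ≠ 0)
    (hd : Nat.card M ∣ n ^ 2) :
    (n = 2 → Nat.card M * Nat.card S ≤ 32) ∧
    (n = 2 → Nat.card M ≠ 4 → Nat.card M * Nat.card S ≤ 4) ∧
    (n = 3 → Nat.card M * Nat.card S ≤ 243) ∧ (n = 4 → Nat.card M * Nat.card S ≤ 16384) ∧
    (n = 4 → Nat.card M ≠ 16 → Nat.card M * Nat.card S ≤ 512) ∧
    (5 ≤ n → 21 * (Nat.card M * Nat.card S) ≤ 17 ^ n) := by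
  have hle : Nat.card M ≤ n ^ 2 := Nat.le_of_dvd (by positivity) hd
  by_cases h10 : n < 10
  · have hr : ∀ t, t ∣ n ^ 2 → t ∈ Finset.range 82 := by
      intro t ht
      have := Nat.le_of_dvd (by positivity) ht
      have : n ^ 2 ≤ 9 ^ 2 := Nat.pow_le_pow_left (by omega) 2
      rw [Finset.mem_range]
      omega
    have h1 := pairing_aut_le β hβ Bs (by decide) (fun t ht d hdt hlt =>
      (Bs_ok n (Finset.mem_range.2 h10) t (hr t (ht.trans hd)) (ht.trans hd) hn).1 d
        (Finset.mem_range.2 hlt) hdt) S hS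
    have h2 := Nat.mul_le_mul_left (Nat.card M) h1
    obtain ⟨-, a1, a2, a3, a4, a5, a6⟩ := Bs_ok n (Finset.mem_range.2 h10) _ (hr _ hd) hd hn
    refine ⟨fun h => h2.trans (a1 h), fun h h' => h2.trans (a2 h h'), fun h => h2.trans (a3 h),
      fun h => h2.trans (a4 h), fun h h' => h2.trans (a5 h h'), fun h => le_trans ?_ (a6 h)⟩
    exact Nat.mul_le_mul_left _ h2
  refine ⟨by omega, by omega, by omega, by omega, by omega, fun _ => ?_⟩
  have key : ∃ c, n ^ 2 ≤ 2 ^ c ∧ 21 * (n ^ 2 * 2 ^ (c * (c + 1) / 2)) ≤ 17 ^ n := by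
    by_cases h1 : n ≤ 11
    · exact ⟨7, by interval_cases n <;> omega⟩
    by_cases h2 : n ≤ 16
    · exact ⟨8, by interval_cases n <;> omega⟩
    by_cases h3 : n ≤ 22
    · exact ⟨9, by interval_cases n <;> omega⟩
    by_cases h4 : n ≤ 32
    · exact ⟨10, by interval_cases n <;> omega⟩
    have a1 : n ≤ 2 ^ Nat.clog 2 n := Nat.le_pow_clog (by norm_num) n
    have a2 : 2 ^ (Nat.clog 2 n).pred < n := Nat.pow_pred_clog_lt_self (by norm_num) (by omega)
    have a3 : 5 < Nat.clog 2 n := by
      by_contra h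
      push Not at h
      have := Nat.pow_le_pow_right (show 0 < 2 by norm_num) h
      omega
    obtain ⟨t, ht⟩ : ∃ t, Nat.clog 2 n = t + 6 := ⟨Nat.clog 2 n - 6, by omega⟩
    rw [ht] at a1 a2
    have a4 : n ^ 2 ≤ 2 ^ (2 * (t + 6)) := by
      rw [mul_comm, pow_mul]
      exact Nat.pow_le_pow_left a1 2
    refine ⟨2 * (t + 6), a4, ?_⟩
    have a5 : 2 * (t + 6) * (2 * (t + 6) + 1) / 2 = (t + 6) * (2 * (t + 6) + 1) := by
      rw [mul_assoc, Nat.mul_div_cancel_left _ (by norm_num)]
    have a6 : ∀ s : ℕ, 5 + (2 * (s + 6) + (s + 6) * (2 * (s + 6) + 1)) ≤ 4 * 2 ^ (s + 5) := by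
      intro s
      induction s with
      | zero => norm_num
      | succ s ih =>
        have : s + 5 < 2 ^ (s + 5) := Nat.lt_two_pow_self
        have h5 : 32 ≤ 2 ^ (s + 5) := by
          rw [pow_add]
          have : 1 ≤ 2 ^ s := Nat.one_le_two_pow
          omega
        have h6 : 2 ^ (s + 1 + 5) = 2 * 2 ^ (s + 5) := by ring
        nlinarith
    have a7 : 2 ^ (t + 5) ≤ n := a2.le
    rw [a5]
    calc 21 * (n ^ 2 * 2 ^ ((t + 6) * (2 * (t + 6) + 1)))
        ≤ 2 ^ 5 * (2 ^ (2 * (t + 6)) * 2 ^ ((t + 6) * (2 * (t + 6) + 1))) :=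
          Nat.mul_le_mul (by norm_num) (Nat.mul_le_mul_right _ a4)
      _ = 2 ^ (5 + (2 * (t + 6) + (t + 6) * (2 * (t + 6) + 1))) := by rw [← pow_add, ← pow_add]
      _ ≤ 2 ^ (4 * n) := Nat.pow_le_pow_right (by norm_num) ((a6 t).trans (by omega))
      _ = 16 ^ n := by rw [pow_mul]; norm_num
      _ ≤ 17 ^ n := Nat.pow_le_pow_left (by norm_num) n
  obtain ⟨c, hc1, hc2⟩ := key
  have h1 := pairing_aut_two β hβ S hS c (hle.trans hc1)
  exact (Nat.mul_le_mul_left _ (Nat.mul_le_mul hle h1)).trans hc2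

end pairing

end Pool.Agent.Lib.MP_39e620_al.H66
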