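import Pool.Agent.Lib.MP_39e620_al.H66Defs

set_option autoImplicit false

namespace Pool.Agent.Lib.MP_39e620_al.H66

open Matrix

theorem fx_fx (r s s' : ℕ) (j : Fin (2 ^ r)) : fx r s (fx r s' j) = fx r (s ^^^ s') j := by
  apply Fin.ext
  simp only [fx, Nat.xor_mod_two_pow]
  rw [Nat.xor_assoc, Nat.xor_comm (s' % 2 ^ r)]

theorem fx_zero (r : ℕ) (j : Fin (2 ^ r)) : fx r 0 j = j := by
  apply Fin.ext
  simp [fx]

theorem fx_invol (r s : ℕ) (j : Fin (2 ^ r)) : fx r s (fx r s j) = j := by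
  rw [fx_fx, Nat.xor_self, fx_zero]

theorem dot_fx (r t s : ℕ) (j : Fin (2 ^ r)) :
    dot r t (fx r s j) = xor (dot r t j) (dot r t s) := by
  simp only [fx, dot_xor, dot_mod]

variable (K : Type) [Field K]

theorem PM_mulVec (r s t : ℕ) (v : Fin (2 ^ r) → K) (i : Fin (2 ^ r)) :
    (PM K r s t *ᵥ v) i = sg K (dot r t (fx r s i)) * v (fx r s i) := by
  rw [mulVec, dotProduct, Finset.sum_eq_single (fx r s i)]
  · simp [PM, fx_invol]
  · intro j _ hj
    have : i ≠ fx r s j := by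
      rintro rfl
      exact hj (fx_invol r s j).symm
    simp [PM, this]
  · simp

theorem mul_PM (r s t : ℕ) (y : Matrix (Fin (2 ^ r)) (Fin (2 ^ r)) K) (i j : Fin (2 ^ r)) :
    (y * PM K r s t) i j = y i (fx r s j) * sg K (dot r t j) := by
  rw [mul_apply, Finset.sum_eq_single (fx r s j)]
  · simp [PM]
  · intro k _ hk
    simp [PM, hk]
  · simp

theorem PM_mul (r s t : ℕ) (y : Matrix (Fin (2 ^ r)) (Fin (2 ^ r)) K) (i j : Fin (2 ^ r)) :
    (PM K r s t * y) i j = sg K (dot r t (fx r s i)) * y (fx r s i) j :=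
  PM_mulVec K r s t (fun k => y k j) i

theorem PM_sys (r : ℕ) : PauliSys K (Matrix (Fin (2 ^ r)) (Fin (2 ^ r)) K) r (PM K r) where
  law := by
    intro s t s' t'
    ext i j
    rw [mul_PM]
    simp only [PM, fx_fx, dot_fx, xor_dot, sg_xor, Matrix.smul_apply, smul_eq_mul]
    split_ifs
    · ring
    · simp
  one := by
    ext i j
    simp [PM, fx_zero, zero_dot, sg_false, one_apply]
  low := by
    intro s t
    ext i j
    simp [PM, fx, mod_dot]

theorem PM_transpose (r s t : ℕ) : (PM K r s t)ᵀ = sg K (dot r t s) • PM K r s t := by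
  ext i j
  simp only [PM, transpose_apply, Matrix.smul_apply, smul_eq_mul]
  by_cases h : i = fx r s j
  · subst h
    rw [if_pos (fx_invol r s j).symm, if_pos rfl, dot_fx, sg_xor, mul_comm]
  · rw [if_neg h, if_neg, mul_zero]
    rintro rfl
    exact h (fx_invol r s i).symm

theorem bits_of_dot (r a b : ℕ) (ha : a < 2 ^ r) (hb : b < 2 ^ r)
    (h : ∀ i < r, dot r a (2 ^ i) = dot r b (2 ^ i)) : a = b := by
  apply Nat.eq_of_testBit_eq
  intro i
  by_cases hi : i < r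
  · simpa [dot_two_pow, hi] using h i hi
  · have : 2 ^ r ≤ 2 ^ i := Nat.pow_le_pow_right (by norm_num) (by omega)
    rw [Nat.testBit_lt_two_pow (by omega), Nat.testBit_lt_two_pow (by omega)]

theorem PM_uniq (h2 : (2 : K) ≠ 0) (r s t s' t' : ℕ) (c : K) (h : PM K r s t = c • PM K r s' t') :
    s % 2 ^ r = s' % 2 ^ r ∧ t % 2 ^ r = t' % 2 ^ r := by
  have hp := Nat.two_pow_pos r
  have h0 : ∀ j, fx r s j = fx r s' j ∧ sg K (dot r t j) = c * sg K (dot r t' j) := by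
    intro j
    have h1 := congrFun (congrFun h (fx r s j)) j
    simp only [PM, if_true, Matrix.smul_apply, smul_eq_mul] at h1
    by_cases h3 : fx r s j = fx r s' j
    · exact ⟨h3, by rwa [if_pos h3] at h1⟩
    · rw [if_neg h3, mul_zero] at h1
      exact absurd h1 (sg_ne_zero K _)
  have h1 := h0 ⟨0, hp⟩
  simp only [dot_zero, sg_false, mul_one] at h1
  refine ⟨by simpa [fx] using h1.1, bits_of_dot r _ _ (Nat.mod_lt _ hp) (Nat.mod_lt _ hp) ?_⟩
  intro i hi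
  have h3 := (h0 ⟨2 ^ i, Nat.pow_lt_pow_right (by norm_num) hi⟩).2
  rw [← h1.2, one_mul] at h3
  rw [mod_dot, mod_dot]
  exact sg_inj K h2 h3

/-- A matrix commuting with the generators up to scalars is a multiple of a Pauli matrix. -/
theorem PM_cent (h2 : (2 : K) ≠ 0) (r : ℕ) (y : Matrix (Fin (2 ^ r)) (Fin (2 ^ r)) K)
    (hX : ∀ i < r, ∃ c : K, y * PM K r (2 ^ i) 0 = c • (PM K r (2 ^ i) 0 * y))
    (hZ : ∀ i < r, ∃ c : K, y * PM K r 0 (2 ^ i) = c • (PM K r 0 (2 ^ i) * y)) :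
    ∃ s < 2 ^ r, ∃ t < 2 ^ r, ∃ c : K, y = c • PM K r s t := by
  classical
  have hp := Nat.two_pow_pos r
  by_cases hy : y = 0
  · exact ⟨0, hp, 0, hp, 0, by simp [hy]⟩
  have sys := PM_sys K r
  have hsign : ∀ (P : Matrix (Fin (2 ^ r)) (Fin (2 ^ r)) K), P * P = 1 →
      (∃ c : K, y * P = c • (P * y)) → ∃ b : Bool, y * P = sg K b • (P * y) := by
    rintro P hP ⟨c, hc⟩
    have h1 : y = (c * c) • y := by
      calc y = y * P * P := by rw [mul_assoc, hP, mul_one]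
        _ = c • (P * (y * P)) := by rw [← mul_assoc P, ← smul_mul_assoc c (P * y), ← hc]
        _ = (c * c) • y := by rw [hc, mul_smul_comm, ← mul_assoc, hP, one_mul, smul_smul]
    have h3 : c * c = 1 := by
      apply smul_left_injective K hy
      simpa using h1.symm
    rcases mul_self_eq_one_iff.1 h3 with h | h
    · exact ⟨false, by rw [hc, h]; rfl⟩
    · exact ⟨true, by rw [hc, h]; rfl⟩
  have hX' : ∀ i : Fin r, ∃ b : Bool, y * PM K r (2 ^ i.1) 0 = sg K b • (PM K r (2 ^ i.1) 0 * y) :=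
    fun i => hsign _ (by rw [sys.law, zero_dot, sg_false, one_smul, Nat.xor_self, Nat.xor_self,
      sys.one]) (hX i i.2)
  have hZ' : ∀ i : Fin r, ∃ b : Bool, y * PM K r 0 (2 ^ i.1) = sg K b • (PM K r 0 (2 ^ i.1) * y) :=
    fun i => hsign _ (by rw [sys.law, dot_zero, sg_false, one_smul, Nat.xor_self, Nat.xor_self,
      sys.one]) (hZ i i.2)
  choose bx hbx using hX'
  choose bz hbz using hZ'
  set s := Nat.ofBits bz with hs
  set t := Nat.ofBits bx with ht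
  set z := PM K r s t * y with hz
  have hcomm : ∀ (s' t' : ℕ) (b : Bool), y * PM K r s' t' = sg K b • (PM K r s' t' * y) →
      b = xor (dot r t s') (dot r t' s) → z * PM K r s' t' = PM K r s' t' * z := by
    intro s' t' b h hb
    rw [hz, mul_assoc, h, mul_smul_comm, ← mul_assoc, ← mul_assoc, sys.law, sys.law,
      smul_mul_assoc, smul_mul_assoc, smul_smul, hb, sg_xor, Nat.xor_comm s, Nat.xor_comm t,
      mul_right_comm, sg_mul_self, one_mul]
  have hzX : ∀ i < r, z * PM K r (2 ^ i) 0 = PM K r (2 ^ i) 0 * z := by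
    intro i hi
    refine hcomm _ _ _ (hbx ⟨i, hi⟩) ?_
    simp [dot_two_pow, zero_dot, hi, ht, Nat.testBit_ofBits_lt]
  have hzZ : ∀ i < r, z * PM K r 0 (2 ^ i) = PM K r 0 (2 ^ i) * z := by
    intro i hi
    refine hcomm _ _ _ (hbz ⟨i, hi⟩) ?_
    rw [dot_comm r (2 ^ i)]
    simp [dot_two_pow, dot_zero, hi, hs, Nat.testBit_ofBits_lt]
  have hdiag : ∀ i j, i ≠ j → z i j = 0 := by
    intro i j hij
    by_contra h
    apply hij
    apply Fin.ext
    refine bits_of_dot r _ _ i.2 j.2 (fun b hb => ?_)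
    have h1 := congrFun (congrFun (hzZ b hb) i) j
    rw [mul_PM, PM_mul, fx_zero, fx_zero, mul_comm] at h1
    rw [dot_comm r i, dot_comm r j]
    exact (sg_inj K h2 (mul_right_cancel₀ h h1)).symm
  have hconst : ∀ a < 2 ^ r, ∀ j, z (fx r a j) (fx r a j) = z j j := by
    refine xor_induction r _ (fun j => by rw [fx_zero]) (fun i hi j => ?_) ?_
    · have h1 := congrFun (congrFun (hzX i hi) (fx r (2 ^ i) j)) j
      rw [mul_PM, PM_mul, fx_invol] at h1
      simpa [zero_dot, sg_false] using h1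
    · intro a _ b _ ha hb j
      rw [← fx_fx, ha, hb]
  have hz1 : z = z ⟨0, hp⟩ ⟨0, hp⟩ • (1 : Matrix (Fin (2 ^ r)) (Fin (2 ^ r)) K) := by
    ext i j
    by_cases hij : i = j
    · subst hij
      have h1 := hconst i i.2 ⟨0, hp⟩
      have h3 : fx r i ⟨0, hp⟩ = i := by
        apply Fin.ext
        simp [fx, Nat.mod_eq_of_lt i.2]
      rw [h3] at h1
      simp [h1]
    · simp [hdiag i j hij, hij]
  refine ⟨s, Nat.ofBits_lt_two_pow _, t, Nat.ofBits_lt_two_pow _,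
    sg K (dot r t s) * z ⟨0, hp⟩ ⟨0, hp⟩, ?_⟩
  have h1 : PM K r s t * z = sg K (dot r t s) • y := by
    rw [hz, ← mul_assoc, sys.law, Nat.xor_self, Nat.xor_self, sys.one, smul_mul_assoc, one_mul]
  rw [hz1, mul_smul_comm, mul_one] at h1
  rw [mul_smul, h1, smul_smul, sg_mul_self, one_smul]

/-- Pauli matrices indexed by a single number. -/
def PP (R : Type) [Ring R] (r u : ℕ) : Matrix (Fin (2 ^ r)) (Fin (2 ^ r)) R := PM R r u (u >>> r)

/-- The quadratic form deciding whether a Pauli matrix is symmetric. -/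
def QQ (r u : ℕ) : Bool := dot r (u >>> r) u

theorem PP_mul (r u u' : ℕ) :
    PP K r u * PP K r u' = sg K (dot r (u >>> r) u') • PP K r (u ^^^ u') := by
  rw [PP, PP, (PM_sys K r).law, PP, Nat.shiftRight_xor_distrib]

theorem PP_zero (r : ℕ) : PP K r 0 = 1 := by
  rw [PP, Nat.zero_shiftRight, (PM_sys K r).one]

theorem PP_sq (r u : ℕ) : PP K r u * PP K r u = sg K (QQ r u) • 1 := by
  rw [PP_mul, Nat.xor_self, PP_zero, QQ]

theorem PP_transpose (r u : ℕ) : (PP K r u)ᵀ = sg K (QQ r u) • PP K r u := PM_transpose K r _ _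

theorem PP_ne_zero (r u : ℕ) : PP K r u ≠ 0 := by
  intro h
  have h1 := PP_sq K r u
  rw [h, mul_zero, eq_comm, smul_eq_zero] at h1
  have : Nonempty (Fin (2 ^ r)) := ⟨⟨0, Nat.two_pow_pos r⟩⟩
  exact h1.elim (sg_ne_zero K _) one_ne_zero

theorem four_pow (r : ℕ) : 2 ^ (2 * r) = 2 ^ r * 2 ^ r := by rw [two_mul, pow_add]

theorem PP_uniq (h2 : (2 : K) ≠ 0) (r u u' : ℕ) (hu : u < 2 ^ (2 * r)) (hu' : u' < 2 ^ (2 * r))
    (c : K) (h : PP K r u = c • PP K r u') : u = u' := by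
  obtain ⟨h3, h4⟩ := PM_uniq K h2 r _ _ _ _ c h
  rw [four_pow] at hu hu'
  rw [Nat.shiftRight_eq_div_pow, Nat.shiftRight_eq_div_pow,
    Nat.mod_eq_of_lt (Nat.div_lt_of_lt_mul hu), Nat.mod_eq_of_lt (Nat.div_lt_of_lt_mul hu')] at h4
  rw [← Nat.div_add_mod u (2 ^ r), ← Nat.div_add_mod u' (2 ^ r), h3, h4]

theorem PP_enc (r s t : ℕ) (hs : s < 2 ^ r) (ht : t < 2 ^ r) :
    ∃ u < 2 ^ (2 * r), PP K r u = PM K r s t := by
  have hp := Nat.two_pow_pos r
  refine ⟨s + 2 ^ r * t, by rw [four_pow]; nlinarith, ?_⟩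
  rw [PP, Nat.shiftRight_eq_div_pow, Nat.add_mul_div_left _ _ hp, Nat.div_eq_of_lt hs, zero_add,
    (PM_sys K r).low, Nat.add_mul_mod_self_left, ← (PM_sys K r).low]

theorem PP_cent (h2 : (2 : K) ≠ 0) (r : ℕ) (y : Matrix (Fin (2 ^ r)) (Fin (2 ^ r)) K)
    (h : ∀ j < 2 * r, ∃ c : K, y * PP K r (2 ^ j) = c • (PP K r (2 ^ j) * y)) :
    ∃ u < 2 ^ (2 * r), ∃ c : K, y = c • PP K r u := by
  obtain ⟨s, hs, t, ht, c, hc⟩ := PM_cent K h2 r y (fun i hi => by
    have h1 := h i (by omega)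
    rwa [PP, Nat.shiftRight_eq_div_pow, Nat.div_eq_of_lt (Nat.pow_lt_pow_right (by norm_num) hi)]
      at h1) (fun i hi => by
    have h1 := h (r + i) (by omega)
    rwa [PP, Nat.shiftRight_eq_div_pow, pow_add, Nat.mul_div_cancel_left _ (Nat.two_pow_pos r),
      (PM_sys K r).low, Nat.mul_mod_right, ← Nat.zero_mod (2 ^ r), ← (PM_sys K r).low] at h1)
  obtain ⟨u, hu, h1⟩ := PP_enc K r s t hs ht
  exact ⟨u, hu, c, by rw [hc, h1]⟩

variable {K}

/-- `y` conjugates `PP u` to a multiple of `PP (θ u)`. -/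
def Cj (r : ℕ) (y : Matrix (Fin (2 ^ r)) (Fin (2 ^ r)) K) (θ : ℕ → ℕ) : Prop :=
  ∀ u, θ u < 2 ^ (2 * r) ∧ ∃ c : K, c ≠ 0 ∧ y * PP K r u = c • (PP K r (θ u) * y)

theorem smul_cancel {n : Type} [Fintype n] [DecidableEq n] {y P Q : Matrix n n K} (hy : IsUnit y)
    {c d : K} (hc : c ≠ 0) (h : c • (P * y) = d • (Q * y)) : P = (c⁻¹ * d) • Q := by
  rw [← smul_mul_assoc, ← smul_mul_assoc] at h
  rw [mul_smul, ← hy.mul_right_cancel h, inv_smul_smul₀ hc]

theorem Cj.xor (h2 : (2 : K) ≠ 0) {r : ℕ} {y : Matrix (Fin (2 ^ r)) (Fin (2 ^ r)) K} {θ : ℕ → ℕ}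
    (hy : IsUnit y) (h : Cj r y θ) (u u' : ℕ) : θ (u ^^^ u') = θ u ^^^ θ u' := by
  obtain ⟨h1, c1, -, e1⟩ := h u
  obtain ⟨h3, c2, -, e2⟩ := h u'
  obtain ⟨h4, c3, hc3, e3⟩ := h (u ^^^ u')
  have e4 : y * (PP K r u * PP K r u') = (c1 * c2) • (PP K r (θ u) * PP K r (θ u') * y) := by
    rw [← mul_assoc, e1, smul_mul_assoc, mul_assoc, e2, mul_smul_comm, smul_smul, mul_assoc]
  rw [PP_mul, PP_mul, mul_smul_comm, e3, smul_smul, smul_mul_assoc, smul_smul] at e4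
  exact PP_uniq K h2 r _ _ h4 (Nat.xor_lt_two_pow h1 h3) _
    (smul_cancel hy (mul_ne_zero (sg_ne_zero K _) hc3) e4)

theorem Cj.iter {r : ℕ} {y : Matrix (Fin (2 ^ r)) (Fin (2 ^ r)) K} {θ : ℕ → ℕ}
    (h : Cj r y θ) (k u : ℕ) : ∃ c : K, y ^ k * PP K r u = c • (PP K r (θ^[k] u) * y ^ k) := by
  induction k with
  | zero => exact ⟨1, by simp⟩
  | succ k ih =>
    obtain ⟨c, hc⟩ := ih
    obtain ⟨-, d, -, hd⟩ := h (θ^[k] u)
    refine ⟨c * d, ?_⟩
    rw [pow_succ', mul_assoc, hc, mul_smul_comm, ← mul_assoc, hd, Function.iterate_succ_apply',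
      smul_mul_assoc, smul_smul, mul_assoc]

theorem Cj.iter_lt {r : ℕ} {y : Matrix (Fin (2 ^ r)) (Fin (2 ^ r)) K} {θ : ℕ → ℕ}
    (h : Cj r y θ) (k u : ℕ) (hu : u < 2 ^ (2 * r)) : θ^[k] u < 2 ^ (2 * r) := by
  cases k with
  | zero => exact hu
  | succ k => rw [Function.iterate_succ_apply']; exact (h _).1

theorem Cj.period (h2 : (2 : K) ≠ 0) {r : ℕ} {y : Matrix (Fin (2 ^ r)) (Fin (2 ^ r)) K}
    {θ : ℕ → ℕ} (h : Cj r y θ) (k : ℕ) (hk : y ^ k = 1) (u : ℕ) (hu : u < 2 ^ (2 * r)) :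
    θ^[k] u = u := by
  obtain ⟨c, hc⟩ := h.iter k u
  rw [hk, one_mul, mul_one] at hc
  exact (PP_uniq K h2 r _ _ hu (h.iter_lt k u hu) c hc).symm

/-- The quadratic invariants. -/
def BB (r u : ℕ) (v : Fin (2 ^ r) → K) : K := v ⬝ᵥ (PP K r u *ᵥ v)

theorem Cj.colour (h2 : (2 : K) ≠ 0) {r : ℕ} {y : Matrix (Fin (2 ^ r)) (Fin (2 ^ r)) K}
    {θ : ℕ → ℕ} (hy : IsUnit y) (h : Cj r y θ) : ∃ p < 2 ^ (2 * r), ∃ c0 : K, c0 ≠ 0 ∧ ∀ x,
      QQ r (θ x ^^^ p) = QQ r x ∧ ∀ v, BB r (θ x ^^^ p) (y *ᵥ v) ^ 4 = c0 ^ 4 * BB r x v ^ 4 := by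
  have hT : ∀ u, ∃ c : K, yᵀ * y * PP K r u = c • (PP K r u * (yᵀ * y)) := by
    intro u
    obtain ⟨-, c, hc, e⟩ := h u
    have e1 := congrArg transpose e
    rw [transpose_mul, transpose_smul, transpose_mul, PP_transpose, PP_transpose, smul_mul_assoc,
      mul_smul_comm, smul_smul] at e1
    refine ⟨sg K (QQ r (θ u)) * sg K (QQ r u), ?_⟩
    rw [mul_assoc, e, mul_smul_comm, ← mul_assoc, ← mul_assoc, mul_smul,
      ← smul_mul_assoc _ (PP K r u * yᵀ), e1, smul_mul_assoc, smul_smul, mul_comm c, ← mul_assoc,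
      sg_mul_self, one_mul]
  obtain ⟨u0, -, c0, e0⟩ := PP_cent K h2 r (yᵀ * y) (fun j _ => hT _)
  have hne : Nonempty (Fin (2 ^ r)) := ⟨⟨0, Nat.two_pow_pos r⟩⟩
  have hc0 : c0 ≠ 0 := by
    rintro rfl
    rw [zero_smul] at e0
    exact ((isUnit_transpose y).2 hy).mul hy |>.ne_zero e0
  refine ⟨θ u0, (h u0).1, c0, hc0, fun x => ?_⟩
  rw [← h.xor h2 hy]
  obtain ⟨-, c, hc, e⟩ := h (x ^^^ u0)
  set u := x ^^^ u0 with hu
  have hc4 : c ^ 4 = 1 := by
    have e4 : y * (PP K r u * PP K r u) = (c * c) • (PP K r (θ u) * PP K r (θ u) * y) := by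
      rw [← mul_assoc, e, smul_mul_assoc, mul_assoc, e, mul_smul_comm, smul_smul, mul_assoc]
    rw [PP_sq, PP_sq, mul_smul_comm, mul_one, smul_mul_assoc, one_mul, smul_smul] at e4
    have e5 := smul_left_injective K hy.ne_zero e4
    have e6 := sg_mul_self K (QQ r u)
    have e7 := sg_mul_self K (QQ r (θ u))
    rw [e5] at e6
    linear_combination e6 - c ^ 4 * e7
  have e1 : c • (yᵀ * PP K r (θ u) * y) = (c0 * sg K (dot r (u0 >>> r) u)) • PP K r x := by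
    rw [mul_assoc, ← mul_smul_comm, ← e, ← mul_assoc, e0, smul_mul_assoc, PP_mul, smul_smul, hu,
      Nat.xor_comm x, Nat.xor_xor_cancel_left]
  constructor
  · have e2 := congrArg transpose e1
    rw [transpose_smul, transpose_smul, transpose_mul, transpose_mul, transpose_transpose,
      PP_transpose, PP_transpose, smul_mul_assoc, mul_smul_comm, smul_comm c, ← mul_assoc, e1,
      smul_smul, smul_smul] at e2
    have e3 := smul_left_injective K (PP_ne_zero K r x) e2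
    rw [mul_comm] at e3
    exact sg_inj K h2 (mul_left_cancel₀ (mul_ne_zero hc0 (sg_ne_zero K _)) e3)
  · intro v
    have e2 : c * BB r (θ u) (y *ᵥ v) = (c0 * sg K (dot r (u0 >>> r) u)) * BB r x v := by
      have e3 := congrArg (fun m => v ⬝ᵥ (m *ᵥ v)) e1
      simp only [smul_mulVec, dotProduct_smul, smul_eq_mul] at e3
      rw [BB, BB, ← e3, mul_assoc yᵀ, ← mulVec_mulVec v yᵀ, dotProduct_mulVec v yᵀ,
        vecMul_transpose, mulVec_mulVec]
    have e3 := sg_mul_self K (dot r (u0 >>> r) u)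
    have e4 := congrArg (· ^ 4) e2
    simp only [mul_pow, hc4, one_mul] at e4
    rw [e4, show sg K (dot r (u0 >>> r) u) ^ 4 = 1 by
      rw [show (4 : ℕ) = 2 * 2 from rfl, pow_mul, sq (sg K _), e3, one_pow], mul_one]

/-- Two matrices inducing the same map on the generators differ by a Pauli matrix. -/
theorem Cj.lift (h2 : (2 : K) ≠ 0) {r : ℕ} {y C D : Matrix (Fin (2 ^ r)) (Fin (2 ^ r)) K}
    {θ : ℕ → ℕ} (h : Cj r y θ) (hCD : C * D = 1)
    (hC : ∀ j < 2 * r, ∃ c : K, c • (C * PP K r (2 ^ j)) = PP K r (θ (2 ^ j)) * C) :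
    ∃ u < 2 ^ (2 * r), ∃ c : K, y = c • (C * PP K r u) := by
  have hDC : D * C = 1 := mul_eq_one_comm.1 hCD
  obtain ⟨u, hu, c, hc⟩ := PP_cent K h2 r (D * y) (fun j hj => by
    obtain ⟨-, c, -, e⟩ := h (2 ^ j)
    obtain ⟨d, e'⟩ := hC j hj
    refine ⟨c * d, ?_⟩
    have e1 : PP K r (θ (2 ^ j)) = d • (C * PP K r (2 ^ j) * D) := by
      rw [← smul_mul_assoc, e', mul_assoc, hCD, mul_one]
    rw [mul_assoc, e, e1, mul_smul_comm, smul_mul_assoc, mul_smul_comm, smul_smul, mul_assoc C,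
      mul_assoc C, ← mul_assoc D, hDC, one_mul, mul_assoc])
  refine ⟨u, hu, c, ?_⟩
  rw [← mul_smul_comm, ← hc, ← mul_assoc, hCD, one_mul]

end Pool.Agent.Lib.MP_39e620_al.H66
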