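import Pool.Agent.Lib.MP_39e620_al.H66Defs

set_option autoImplicit false

namespace Pool.Agent.Lib.MP_39e620_al.H66

open Full

section algebra

variable {K R : Type} [Field K] [Ring R] [Algebra K R] {r : ℕ} {P : ℕ → ℕ → R}

theorem PauliSys.split (h : PauliSys K R r P) (s t : ℕ) : P s 0 * P 0 t = P s t := by
  rw [h.law, dot_zero, sg_false, one_smul, Nat.xor_zero, Nat.zero_xor]

theorem PauliSys.mulX (h : PauliSys K R r P) (s s' : ℕ) : P s 0 * P s' 0 = P (s ^^^ s') 0 := by
  rw [h.law, zero_dot, sg_false, one_smul, Nat.xor_zero]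

theorem PauliSys.mulZ (h : PauliSys K R r P) (t t' : ℕ) : P 0 t * P 0 t' = P 0 (t ^^^ t') := by
  rw [h.law, dot_zero, sg_false, one_smul, Nat.xor_zero]

theorem PauliSys.sq (h : PauliSys K R r P) (s t : ℕ) :
    P s t * P s t = sg K (dot r t s) • (1 : R) := by
  rw [h.law, Nat.xor_self, Nat.xor_self, h.one]

theorem PauliSys.swap (h : PauliSys K R r P) (s t s' t' : ℕ) :
    P s t * P s' t' = (sg K (dot r t s') * sg K (dot r t' s)) • (P s' t' * P s t) := by
  rw [h.law, h.law, smul_smul, mul_assoc, sg_mul_self, mul_one, Nat.xor_comm s', Nat.xor_comm t']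

/-- An element commuting with the generators commutes with every `P s t`. -/
theorem PauliSys.comm_of_gen (h : PauliSys K R r P) (x : R)
    (hX : ∀ i < r, x * P (2 ^ i) 0 = P (2 ^ i) 0 * x)
    (hZ : ∀ i < r, x * P 0 (2 ^ i) = P 0 (2 ^ i) * x) (s t : ℕ) : x * P s t = P s t * x := by
  have h1 := xor_induction r (fun s => x * P s 0 = P s 0 * x) (by simp [h.one]) hX (by
    intro a _ b _ ha hb
    rw [← h.mulX, ← mul_assoc, ha, mul_assoc, hb, mul_assoc])
  have h2 := xor_induction r (fun t => x * P 0 t = P 0 t * x) (by simp [h.one]) hZ (by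
    intro a _ b _ ha hb
    rw [← h.mulZ, ← mul_assoc, ha, mul_assoc, hb, mul_assoc])
  rw [h.low, ← h.split, ← mul_assoc, h1 _ (Nat.mod_lt _ (Nat.two_pow_pos r)), mul_assoc,
    h2 _ (Nat.mod_lt _ (Nat.two_pow_pos r)), mul_assoc]

theorem PauliSys.adjust (h : PauliSys K R r P) (y : R)
    (hy : ∀ s t, ∃ ε : Bool, y * P s t = sg K ε • (P s t * y)) :
    ∃ s0 < 2 ^ r, ∃ t0 < 2 ^ r, ∀ s t, (P s0 t0 * y) * P s t = P s t * (P s0 t0 * y) := by
  choose ε hε using hy
  refine ⟨Nat.ofBits (fun i : Fin r => ε 0 (2 ^ (i : ℕ))), Nat.ofBits_lt_two_pow _,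
    Nat.ofBits (fun i : Fin r => ε (2 ^ (i : ℕ)) 0), Nat.ofBits_lt_two_pow _,
    h.comm_of_gen _ ?_ ?_⟩
  · intro i hi
    rw [mul_assoc, hε, mul_smul_comm, ← mul_assoc, h.swap, dot_two_pow, zero_dot,
      Nat.testBit_ofBits_lt _ _ hi, smul_mul_assoc, smul_smul, mul_assoc (P _ _)]
    simp [hi, sg_false, sg_mul_self]
  · intro i hi
    rw [mul_assoc, hε, mul_smul_comm, ← mul_assoc, h.swap, dot_zero, dot_comm, dot_two_pow,
      Nat.testBit_ofBits_lt _ _ hi, smul_mul_assoc, smul_smul, mul_assoc (P _ _)]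
    simp [hi, sg_false, sg_mul_self]

theorem PauliSys.unadjust (h : PauliSys K R r P) {y : R} {s t : ℕ} {d : K}
    (hy : P s t * y = d • (1 : R)) : ∃ c : K, y = c • P s t := by
  refine ⟨sg K (dot r t s) * d, ?_⟩
  have h1 : P s t * (P s t * y) = d • P s t := by rw [hy, mul_smul_comm, mul_one]
  rw [← mul_assoc, h.sq, smul_mul_assoc, one_mul] at h1
  rw [mul_smul, ← h1, smul_smul, sg_mul_self, one_smul]

theorem PauliSys.zero : PauliSys K R 0 (fun _ _ => (1 : R)) :=
  ⟨by intros; simp [dot, sg], rfl, fun _ _ => rfl⟩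

theorem PauliSys.extend (h : PauliSys K R r P) (X Z : R) (hX : ∀ s t, X * P s t = P s t * X)
    (hZ : ∀ s t, Z * P s t = P s t * Z) (hXX : X * X = 1) (hZZ : Z * Z = 1)
    (hXZ : Z * X = -(X * Z)) :
    PauliSys K R (r + 1) (fun s t =>
      P s t * ((if s.testBit r then X else 1) * (if t.testBit r then Z else 1))) := by
  have hD : ∀ a b a' b' : Bool, ((if a then X else 1) * (if b then Z else 1)) *
      ((if a' then X else 1) * (if b' then Z else 1)) =
      sg K (b && a') • ((if xor a a' then X else 1) * (if xor b b' then Z else 1)) := by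
    have e2 : X * (X * Z) = Z := by rw [← mul_assoc, hXX, one_mul]
    have e3 : Z * (X * Z) = -X := by rw [← mul_assoc, hXZ, neg_mul, mul_assoc, hZZ, mul_one]
    intro a b a' b'
    cases a <;> cases b <;> cases a' <;> cases b' <;>
      simp [sg, mul_assoc, hXX, hZZ, hXZ, e2, e3]
  have hC : ∀ (a b : Bool) (s t : ℕ), ((if a then X else 1) * (if b then Z else 1)) * P s t =
      P s t * ((if a then X else 1) * (if b then Z else 1)) := by
    intro a b s t
    cases a <;> cases b <;> simp [hX, hZ]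
    rw [mul_assoc, hZ, ← mul_assoc, hX, mul_assoc]
  refine ⟨?_, by simp [h.one], ?_⟩
  · intro s t s' t'
    rw [mul_assoc, ← mul_assoc _ (P s' t'), hC, mul_assoc, ← mul_assoc (P s t), hD, h.law,
      smul_mul_assoc, mul_smul_comm, smul_smul, dot, sg_xor, Nat.testBit_xor, Nat.testBit_xor]
  · intro s t
    rw [h.low (s % 2 ^ (r + 1)), Nat.mod_mod_of_dvd _ (pow_dvd_pow 2 (Nat.le_succ r)),
      Nat.mod_mod_of_dvd _ (pow_dvd_pow 2 (Nat.le_succ r)), ← h.low]
    simp [Nat.testBit_mod_two_pow]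

end algebra

section linear

variable {K W : Type} [Field K] [AddCommGroup W] [Module K W]

theorem finrank_half [Module.Finite K W] (h2 : (2 : K) ≠ 0) (U U' : Submodule K W)
    (X Z : Module.End K W) (hX : X * X = 1) (hZ : Z * Z = 1) (hXZ : Z * X = -(X * Z))
    (hUX : ∀ w ∈ U, X w ∈ U) (hUZ : ∀ w ∈ U, Z w ∈ U) (hU' : ∀ w, w ∈ U' ↔ w ∈ U ∧ Z w = w) :
    Module.finrank K U = 2 * Module.finrank K U' := by
  have eX : ∀ w, X (X w) = w := fun w => DFunLike.congr_fun hX w
  have eZ : ∀ w, Z (Z w) = w := fun w => DFunLike.congr_fun hZ w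
  have eXZ : ∀ w, Z (X w) = -X (Z w) := fun w => DFunLike.congr_fun hXZ w
  have hinj : Function.Injective X := Function.LeftInverse.injective eX
  have h1 : Module.finrank K (U'.map X) = Module.finrank K U' :=
    (Submodule.equivMapOfInjective X hinj U').finrank_eq.symm
  have h3 : U' ⊓ U'.map X = ⊥ := by
    rw [eq_bot_iff]
    rintro w ⟨hw, v, hv, rfl⟩
    have e1 := ((hU' _).1 hw).2
    rw [eXZ, ((hU' _).1 hv).2] at e1
    have e2 : (2 : K) • X v = 0 := by rw [two_smul]; exact neg_eq_iff_add_eq_zero.1 e1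
    exact (smul_eq_zero.1 e2).resolve_left h2
  have h4 : U' ⊔ U'.map X = U := by
    apply le_antisymm
    · refine sup_le (fun w hw => ((hU' w).1 hw).1) ?_
      rintro w ⟨v, hv, rfl⟩
      exact hUX _ ((hU' v).1 hv).1
    · intro w hw
      have e1 : w = (2 : K)⁻¹ • ((w + Z w) + X (X (w - Z w))) := by
        rw [eX, add_add_sub_cancel, ← two_smul K w, inv_smul_smul₀ h2]
      rw [e1]
      refine Submodule.smul_mem _ _ (Submodule.add_mem_sup ?_ ⟨_, ?_, rfl⟩)
      · exact (hU' _).2 ⟨U.add_mem hw (hUZ w hw), by rw [map_add, eZ, add_comm]⟩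
      · refine (hU' _).2 ⟨hUX _ (U.sub_mem hw (hUZ w hw)), ?_⟩
        rw [eXZ, map_sub Z, eZ, ← map_neg, neg_sub]
  have h5 := Submodule.finrank_sup_add_finrank_inf_eq U' (U'.map X)
  rw [h3, h4, h1, finrank_bot] at h5
  omega

/-- The vectors fixed by the first `j` generators `P 0 (2 ^ i)`. -/
def fixSub (P : ℕ → ℕ → Module.End K W) (j : ℕ) : Submodule K W where
  carrier := {w | ∀ i < j, P 0 (2 ^ i) w = w}
  add_mem' := by
    intro a b ha hb i hi
    rw [map_add, ha i hi, hb i hi]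
  zero_mem' := by intro i _; simp
  smul_mem' := by
    intro c a ha i hi
    rw [map_smul, ha i hi]

theorem PauliSys.finrank_fix [Module.Finite K W] (h2 : (2 : K) ≠ 0) {r : ℕ}
    {P : ℕ → ℕ → Module.End K W} (h : PauliSys K (Module.End K W) r P) :
    ∀ j ≤ r, Module.finrank K W = 2 ^ j * Module.finrank K (fixSub P j) := by
  intro j
  induction j with
  | zero =>
    intro _
    have : fixSub P 0 = ⊤ := by
      rw [eq_top_iff]
      intro w _ i hi
      omega
    rw [this, finrank_top, pow_zero, one_mul]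
  | succ j ih =>
    intro hj
    rw [ih (by omega), pow_succ, mul_assoc]
    congr 1
    refine finrank_half h2 _ _ (P (2 ^ j) 0) (P 0 (2 ^ j)) ?_ ?_ ?_ ?_ ?_ ?_
    · rw [h.mulX, Nat.xor_self, h.one]
    · rw [h.mulZ, Nat.xor_self, h.one]
    · rw [h.swap, dot_two_pow, zero_dot]
      simp [sg, show j < r by omega]
    · intro w hw i hi
      have e := DFunLike.congr_fun (h.swap 0 (2 ^ i) (2 ^ j) 0) w
      rw [dot_two_pow, zero_dot, Nat.testBit_two_pow] at e
      simpa [sg, hi.ne, hw i hi] using e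
    · intro w hw i hi
      have e := DFunLike.congr_fun (h.swap 0 (2 ^ i) 0 (2 ^ j)) w
      rw [dot_zero, dot_zero] at e
      simpa [sg, hw i hi] using e
    · intro w
      constructor
      · intro hw
        exact ⟨fun i hi => hw i (by omega), hw j (by omega)⟩
      · rintro ⟨hw, hw'⟩ i hi
        rcases Nat.lt_succ_iff_lt_or_eq.1 hi with h1 | rfl
        · exact hw i h1
        · exact hw'

/-- Common eigenvectors with separated eigenvalues are independent. -/
theorem indep_of_sep {ι : Type} [Fintype ι] (v : ι → W) (hv : ∀ i, v i ≠ 0)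
    (hs : ∀ i j, i ≠ j → ∃ (T : Module.End K W) (l : ι → K), (∀ k, T (v k) = l k • v k) ∧
      l i ≠ l j) : LinearIndependent K v := by
  classical
  rw [Fintype.linearIndependent_iff]
  intro g hg i
  have key : ∀ s : Finset ι, i ∉ s → ∃ c : ι → K, c i ≠ 0 ∧ (∀ j ∈ s, c j = 0) ∧
      ∑ k, (c k * g k) • v k = 0 := by
    intro s
    induction s using Finset.induction_on with
    | empty => exact fun _ => ⟨fun _ => 1, one_ne_zero, by simp, by simpa using hg⟩
    | insert j s hj ih =>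
      intro hi
      rw [Finset.mem_insert, not_or] at hi
      obtain ⟨c, hc1, hc2, hc3⟩ := ih hi.2
      obtain ⟨T, l, hT, hl⟩ := hs i j hi.1
      refine ⟨fun k => (l k - l j) * c k, mul_ne_zero (sub_ne_zero.2 hl) hc1, ?_, ?_⟩
      · intro k hk
        rcases Finset.mem_insert.1 hk with rfl | hk
        · simp
        · simp [hc2 k hk]
      · have e1 := congrArg T hc3
        have e2 := congrArg (fun w => l j • w) hc3
        simp only [map_sum, map_smul, hT, map_zero, Finset.smul_sum, smul_zero, smul_smul] at e1 e2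
        rw [← sub_eq_zero.2 (e1.trans e2.symm), ← Finset.sum_sub_distrib]
        refine Finset.sum_congr rfl (fun k _ => ?_)
        rw [← sub_smul]
        congr 1
        ring
  obtain ⟨c, hc1, hc2, hc3⟩ := key (Finset.univ.erase i) (by simp)
  rw [Finset.sum_eq_single i (fun j _ hj => by rw [hc2 j (by simp [hj])]; simp) (by simp)] at hc3
  exact (mul_eq_zero.1 ((smul_eq_zero.1 hc3).resolve_right (hv i))).resolve_left hc1

end linear

theorem two_ne (K : Type) [Field K] [CharP K 17] : (2 : K) ≠ 0 := by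
  intro h
  have := (CharP.cast_eq_zero_iff K 17 2).1 (by exact_mod_cast h)
  omega

theorem neg_one_sq' (K : Type) [Field K] [CharP K 17] : (-1 : K) = 4 * 4 := by
  have : ((17 : ℕ) : K) = 0 := CharP.cast_eq_zero K 17
  push_cast at this
  linear_combination -this

variable {G K W : Type} [Group G] [Finite G] [Field K] [Finite K] [CharP K 17] [AddCommGroup W]
  [Finite W] [Nontrivial W] [Module K W] [DistribMulAction G W] [FaithfulSMul G W]

theorem PauliSys.dvd_finrank {r : ℕ} {P : ℕ → ℕ → Module.End K W}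
    (h : PauliSys K (Module.End K W) r P) : 2 ^ r ∣ Module.finrank K W :=
  ⟨_, h.finrank_fix (two_ne K) r le_rfl⟩

theorem PauliSys.coords {r : ℕ} {P : ℕ → ℕ → Module.End K W}
    (h : PauliSys K (Module.End K W) r P) (hn : Module.finrank K W = 2 ^ r) :
    ∃ e : W ≃ₗ[K] (Fin (2 ^ r) → K), ∀ s t w, e (P s t w) = (PM K r s t).mulVec (e w) := by
  have h1 : Module.finrank K (fixSub P r) = 1 := by
    have := h.finrank_fix (two_ne K) r le_rfl
    rw [hn] at this
    exact (Nat.eq_of_mul_eq_mul_left (Nat.two_pow_pos r) (this.symm.trans (mul_one _).symm))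
  have h2 : fixSub P r ≠ ⊥ := by
    intro h2
    rw [h2, finrank_bot] at h1
    omega
  obtain ⟨w0, hw0, hne⟩ := Submodule.exists_mem_ne_zero_of_ne_bot h2
  have h3 : ∀ t, P 0 t w0 = w0 := by
    have := xor_induction r (fun t => P 0 t w0 = w0) (by simp [h.one]) hw0 (by
      intro a _ b _ ha hb
      rw [← h.mulZ, Module.End.mul_apply, hb, ha])
    intro t
    rw [h.low, Nat.zero_mod]
    exact this _ (Nat.mod_lt _ (Nat.two_pow_pos r))
  let v : Fin (2 ^ r) → W := fun k => P k 0 w0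
  have h4 : ∀ s t k, P s t (v k) = sg K (dot r t k) • v (fx r s k) := by
    intro s t k
    show (P s t * P k 0) w0 = sg K (dot r t k) • P (k.1 ^^^ s % 2 ^ r) 0 w0
    rw [h.law, Nat.xor_zero, ← h.split, LinearMap.smul_apply, Module.End.mul_apply, h3,
      h.low (s ^^^ k), h.low (k ^^^ _), Nat.xor_mod_two_pow, Nat.xor_mod_two_pow, Nat.mod_mod,
      Nat.xor_comm]
  have h5 : ∀ k, fx r 0 k = k := by
    intro k
    simp [fx]
  have h6 : LinearIndependent K v := by
    apply indep_of_sep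
    · intro k hk
      apply hne
      have e : (P k 0 * P k 0) w0 = 0 := by
        rw [Module.End.mul_apply]
        show P k 0 (v k) = 0
        rw [hk, map_zero]
      rwa [h.mulX, Nat.xor_self, h.one] at e
    · intro i j hij
      have : ∃ b < r, i.1.testBit b ≠ j.1.testBit b := by
        by_contra hc
        push Not at hc
        refine hij (Fin.ext (Nat.eq_of_testBit_eq (fun b => ?_)))
        by_cases hb : b < r
        · exact hc b hb
        · have : 2 ^ r ≤ 2 ^ b := Nat.pow_le_pow_right (by norm_num) (by omega)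
          rw [Nat.testBit_lt_two_pow (by omega), Nat.testBit_lt_two_pow (by omega)]
      obtain ⟨b, hb, hb'⟩ := this
      refine ⟨P 0 (2 ^ b), fun k => sg K (dot r (2 ^ b) k), fun k => by rw [h4, h5], ?_⟩
      intro e
      have e' := sg_inj K (two_ne K) e
      rw [dot_comm, dot_two_pow, dot_comm, dot_two_pow] at e'
      exact hb' (by simpa [hb] using e')
  let B := basisOfLinearIndependentOfCardEqFinrank h6 (by rw [hn, Fintype.card_fin])
  have hB : ∀ k, B k = v k := fun k => by simp [B]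
  refine ⟨B.equivFun, fun s t w => ?_⟩
  have : B.equivFun.toLinearMap ∘ₗ P s t = (PM K r s t).mulVecLin ∘ₗ B.equivFun.toLinearMap := by
    refine B.ext (fun k => ?_)
    ext i
    have e : B.equivFun (B k) = Pi.single k 1 := by
      ext j
      simp [Pi.single_apply, eq_comm]
    simp only [LinearMap.comp_apply, LinearEquiv.coe_coe, e, Matrix.mulVecLin_apply,
      Matrix.mulVec_single_one]
    rw [hB, h4, ← hB, map_smul]
    simp [PM, Finsupp.single_apply, eq_comm]
  exact DFunLike.congr_fun this w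

section main

omit [Finite G] [Finite K] [CharP K 17] [Finite W] [Nontrivial W] [FaithfulSMul G W] in
theorem sc_normal (hP : Prim G K W) : (Sc G K W).Normal := by
  constructor
  rintro a ⟨c, hc⟩ g
  obtain ⟨σ, hσ⟩ := hP.semi g
  exact ⟨σ c, fun w => by rw [mul_smul, mul_smul, hc, hσ, smul_inv_smul]⟩

omit [Finite G] [Finite K] [CharP K 17] [Finite W] [FaithfulSMul G W] in
theorem scal_ne_zero {g : G} {c : K} (h : ∀ w : W, g • w = c • w) : c ≠ 0 := by
  rintro rfl
  obtain ⟨w, hw⟩ := exists_ne (0 : W)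
  have := h w
  rw [zero_smul, smul_eq_zero_iff_eq] at this
  exact hw this

omit [Finite G] [Finite K] [CharP K 17] [Finite W] [Nontrivial W] [FaithfulSMul G W] in
/-- The elements of `A` whose square is a scalar with property `p`. -/
theorem exists_sq_sub (hP : Prim G K W) (A : Subgroup G) (hA : Str G K W A) (p : K → Prop)
    (p1 : p 1) (pm : ∀ x y, p x → p y → p (x * y)) (pi : ∀ x, p x → p x⁻¹)
    (ps : ∀ (σ : K ≃+* K) x, p x → p (σ x))
    (pc : ∀ a ∈ A, ∀ b ∈ A, ∃ c, p c ∧ ∀ w : W, a • b • w = c • b • a • w) :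
    ∃ B : Subgroup G, B.Normal ∧ B ≤ A ∧
      ∀ a, a ∈ B ↔ a ∈ A ∧ ∃ c, p c ∧ ∀ w : W, a • a • w = c • w := by
  refine ⟨{ carrier := {a | a ∈ A ∧ ∃ c, p c ∧ ∀ w : W, a • a • w = c • w}
            mul_mem' := ?_, one_mem' := ⟨A.one_mem, 1, p1, by simp⟩, inv_mem' := ?_ }, ⟨?_⟩,
    fun a ha => ha.1, fun a => Iff.rfl⟩
  · rintro a b ⟨ha, c, hc, hc'⟩ ⟨hb, d, hd, hd'⟩
    obtain ⟨e, he, he'⟩ := pc b hb a ha
    refine ⟨A.mul_mem ha hb, e * (c * d), pm _ _ he (pm _ _ hc hd), fun w => ?_⟩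
    rw [mul_smul, mul_smul, he', hA.lin ha, hc', hd', mul_smul, mul_smul]
  · rintro a ⟨ha, c, hc, hc'⟩
    refine ⟨A.inv_mem ha, c⁻¹, pi _ hc, fun w => ?_⟩
    rw [inv_smul_eq_iff, inv_smul_eq_iff, hc']
    by_cases h : c = 0
    · have h1 := hc' w
      rw [h, zero_smul, smul_eq_zero_iff_eq, smul_eq_zero_iff_eq] at h1
      simp [h1]
    · rw [smul_inv_smul₀ h]
  · rintro a ⟨ha, c, hc, hc'⟩ g
    obtain ⟨σ, hσ⟩ := hP.semi g
    refine ⟨hA.normal.conj_mem a ha g, σ c, ps σ c hc, fun w => ?_⟩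
    rw [mul_smul, mul_smul, mul_smul, mul_smul, inv_smul_smul, hc', hσ, smul_inv_smul]

omit [Finite G] [Finite K] [CharP K 17] [Finite W] [FaithfulSMul G W] in
theorem comm_sq {A : Subgroup G} (hA : Str G K W A) {a b : G} (ha : a ∈ A) (hb : b ∈ A) {c d : K}
    (hc : ∀ w : W, a • b • w = c • b • a • w) (hd : ∀ w : W, b • b • w = d • w) : c * c = 1 := by
  have hd0 : d ≠ 0 := scal_ne_zero (W := W) (g := b * b) (fun w => by rw [mul_smul, hd])
  obtain ⟨w, hw⟩ := exists_ne (0 : W)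
  have e1 : a • b • b • w = (c * c) • b • b • a • w := by
    rw [hc, hc, hA.lin hb, mul_smul]
  rw [hd, hd, hA.lin ha, smul_smul] at e1
  have e2 := smul_left_injective K ((smul_ne_zero_iff_ne a).2 hw) e1
  exact mul_right_cancel₀ hd0 (e2.symm.trans (one_mul d).symm)

omit [Finite G] [Finite K] [CharP K 17] [Finite W] in
theorem sq_sc (hP : Prim G K W) (A : Subgroup G) (hA : Str G K W A)
    (h2 : ∀ a ∈ A, ∃ k : ℕ, a ^ 2 ^ k ∈ Sc G K W) :
    ∀ a ∈ A, ∃ c : K, ∀ w : W, a • a • w = c • w := by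
  obtain ⟨B, hBn, hBA, hB⟩ := exists_sq_sub hP A hA (fun _ => True) trivial
    (fun _ _ _ _ => trivial) (fun _ _ => trivial) (fun _ _ _ => trivial)
    (fun a ha b hb => by simpa using hA.comm a ha b hb)
  have step : ∀ y ∈ A, y ^ 4 ∈ Sc G K W → y ^ 2 ∈ Sc G K W := by
    rintro y hy ⟨c, hc⟩
    refine hA.nd B hBn hBA _ ((hB _).2 ⟨A.pow_mem hy 2, c, trivial, fun w => ?_⟩) ?_
    · rw [← hc, smul_smul, ← pow_add]
    · intro b hb
      obtain ⟨hbA, d, -, hd⟩ := (hB b).1 hb
      obtain ⟨e, he⟩ := hA.comm y hy b hbA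
      have e1 := comm_sq hA hy hbA he hd
      refine eq_of_smul_eq_smul (α := W) (fun w => ?_)
      rw [pow_two, mul_smul, mul_smul, mul_smul, mul_smul, he, hA.lin hy, he, smul_smul, e1,
        one_smul]
  have key : ∀ k : ℕ, ∀ a ∈ A, a ^ 2 ^ k ∈ Sc G K W → a ^ 2 ∈ Sc G K W := by
    intro k
    induction k using Nat.twoStepInduction with
    | zero =>
      intro a _ h
      exact Subgroup.pow_mem _ (by simpa using h) 2
    | one => intro a _ h; simpa using h
    | more k _ ih =>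
      intro a ha h
      apply ih a ha
      rw [pow_succ, pow_mul]
      apply step _ (A.pow_mem ha _)
      rwa [← pow_mul, show 2 ^ k * 4 = 2 ^ (k + 2) by ring]
  intro a ha
  obtain ⟨k, hk⟩ := h2 a ha
  obtain ⟨c, hc⟩ := key k a ha hk
  exact ⟨c, fun w => by rw [← hc, pow_two, mul_smul]⟩

/-- `T` is a nonzero multiple of an element of `B`. -/
def InS (B : Subgroup G) (T : Module.End K W) : Prop :=
  ∃ a ∈ B, ∃ c : K, c ≠ 0 ∧ ∀ w, T w = c • a • w

omit [Finite G] [Finite K] [CharP K 17] [Finite W] [Nontrivial W] [FaithfulSMul G W] in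
theorem InS.mul {B : Subgroup G} {T T' : Module.End K W} (h : InS B T) (h' : InS B T')
    (hB : B ≤ Lin G K W) : InS B (T * T') := by
  obtain ⟨a, ha, c, hc, e⟩ := h
  obtain ⟨a', ha', c', hc', e'⟩ := h'
  refine ⟨a * a', B.mul_mem ha ha', c * c', mul_ne_zero hc hc', fun w => ?_⟩
  rw [Module.End.mul_apply, e, e', hB ha, mul_smul, mul_smul]

omit [Finite G] [Finite K] [CharP K 17] [Finite W] [Nontrivial W] [FaithfulSMul G W] in
theorem InS.smul {B : Subgroup G} {T : Module.End K W} (h : InS B T) {d : K} (hd : d ≠ 0) :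
    InS B (d • T) := by
  obtain ⟨a, ha, c, hc, e⟩ := h
  exact ⟨a, ha, d * c, mul_ne_zero hd hc, fun w => by rw [LinearMap.smul_apply, e, mul_smul]⟩

omit [Finite G] [Finite K] [CharP K 17] [Finite W] [Nontrivial W] [FaithfulSMul G W] in
theorem InS.one (B : Subgroup G) : InS B (1 : Module.End K W) :=
  ⟨1, B.one_mem, 1, one_ne_zero, by simp⟩

omit [Finite G] [Finite K] [CharP K 17] [Finite W] [Nontrivial W] [FaithfulSMul G W] in
theorem InS.mono {A B : Subgroup G} {T : Module.End K W} (h : InS B T) (hB : B ≤ A) :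
    InS A T := by
  obtain ⟨a, ha, h⟩ := h
  exact ⟨a, hB ha, h⟩

omit [Finite G] [Finite K] [CharP K 17] [Finite W] [Nontrivial W] [FaithfulSMul G W] in
theorem exists_end {a : G} (ha : a ∈ Lin G K W) : ∃ T : Module.End K W, ∀ w, T w = a • w :=
  ⟨{ toFun := fun w => a • w
     map_add' := smul_add a
     map_smul' := ha }, fun _ => rfl⟩

omit [Finite G] [Finite K] [CharP K 17] [Finite W] [Nontrivial W] in
theorem InS.nd {A B : Subgroup G} (hA : Str G K W A) (hBn : B.Normal) (hBA : B ≤ A)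
    {T : Module.End K W} (h : InS B T) (hc : ∀ T', InS B T' → T * T' = T' * T) :
    ∃ d : K, T = d • 1 := by
  obtain ⟨a, ha, c, hc0, e⟩ := h
  obtain ⟨d, hd⟩ : a ∈ Sc G K W := by
    refine hA.nd B hBn hBA a ha (fun b hb => eq_of_smul_eq_smul (α := W) (fun w => ?_))
    obtain ⟨T', hT'⟩ := exists_end (hA.lin (hBA hb))
    have e1 := DFunLike.congr_fun (hc T' ⟨b, hb, 1, one_ne_zero, by simpa using hT'⟩) w
    rw [Module.End.mul_apply, Module.End.mul_apply, e, hT', hT', e, hA.lin (hBA hb)] at e1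
    rw [mul_smul, mul_smul]
    exact smul_right_injective W hc0 e1
  exact ⟨c * d, by ext w; simp [e, hd, mul_smul]⟩

theorem exists_pauli (hP : Prim G K W) (A : Subgroup G) (hA : Str G K W A)
    (h2 : ∀ a ∈ A, ∃ k : ℕ, a ^ 2 ^ k ∈ Sc G K W) :
    ∃ (r : ℕ) (P : ℕ → ℕ → Module.End K W), PauliSys K (Module.End K W) r P ∧
      (∀ s t, ∃ a ∈ A, ∃ c : K, c ≠ 0 ∧ ∀ w, P s t w = c • a • w) ∧
      (∀ a ∈ A, ∃ s < 2 ^ r, ∃ t < 2 ^ r, ∃ c : K, ∀ w, a • w = c • P s t w) := by
  classical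
  have hsq := sq_sc hP A hA h2
  have hpm : ∀ a ∈ A, ∀ b ∈ A, ∃ ε : Bool, ∀ w : W, a • b • w = sg K ε • b • a • w := by
    intro a ha b hb
    obtain ⟨c, hc⟩ := hA.comm a ha b hb
    obtain ⟨d, hd⟩ := hsq b hb
    rcases mul_self_eq_one_iff.1 (comm_sq hA ha hb hc hd) with rfl | rfl
    · exact ⟨false, hc⟩
    · exact ⟨true, hc⟩
  have hsg : ∀ ε : Bool, IsSquare (sg K ε) := by
    intro ε
    cases ε
    · exact ⟨1, by simp [sg]⟩
    · exact ⟨4, neg_one_sq' K⟩
  have hS : ∀ T T' : Module.End K W, InS A T → InS A T' →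
      ∃ ε : Bool, T * T' = sg K ε • (T' * T) := by
    rintro T T' ⟨a, ha, c, -, e⟩ ⟨a', ha', c', -, e'⟩
    obtain ⟨ε, hε⟩ := hpm a ha a' ha'
    refine ⟨ε, ?_⟩
    ext w
    simp only [LinearMap.smul_apply, Module.End.mul_apply, e, e']
    rw [hA.lin ha, hA.lin ha', hε]
    generalize a' • a • w = u
    module
  obtain ⟨B, hBn, hBA, hB⟩ := exists_sq_sub hP A hA IsSquare IsSquare.one
    (fun _ _ => IsSquare.mul) (fun _ => IsSquare.inv) (fun σ _ h => h.map σ)
    (fun a ha b hb => by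
      obtain ⟨ε, hε⟩ := hpm a ha b hb
      exact ⟨_, hsg ε, hε⟩)
  have hBL : B ≤ Lin G K W := hBA.trans hA.lin
  have hnorm : ∀ T : Module.End K W, InS B T → ∃ d : K, d ≠ 0 ∧ (d • T) * (d • T) = 1 := by
    rintro T ⟨a, ha, c, hc, e⟩
    obtain ⟨haA, _, ⟨d, rfl⟩, hd⟩ := (hB a).1 ha
    have hd0 : d * d ≠ 0 := scal_ne_zero (W := W) (g := a * a) (fun w => by rw [mul_smul, hd])
    have hd1 : d ≠ 0 := left_ne_zero_of_mul hd0
    refine ⟨(c * d)⁻¹, inv_ne_zero (mul_ne_zero hc hd1), ?_⟩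
    ext w
    rw [Module.End.mul_apply, LinearMap.smul_apply, LinearMap.smul_apply, map_smul, e, e,
      hA.lin haA, hd, smul_smul, smul_smul, smul_smul, smul_smul, Module.End.one_apply]
    rw [show (c * d)⁻¹ * (c * d)⁻¹ * c * c * (d * d) = 1 by field_simp, one_smul]
  obtain ⟨r, ⟨P, hPs, hPB⟩, hmax⟩ : ∃ r, (∃ P : ℕ → ℕ → Module.End K W,
      PauliSys K (Module.End K W) r P ∧ ∀ s t, InS B (P s t)) ∧
      ¬ ∃ P : ℕ → ℕ → Module.End K W,
        PauliSys K (Module.End K W) (r + 1) P ∧ ∀ s t, InS B (P s t) := by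
    by_contra hc
    have hall : ∀ r, ∃ P : ℕ → ℕ → Module.End K W,
        PauliSys K (Module.End K W) r P ∧ ∀ s t, InS B (P s t) := by
      intro r
      induction r with
      | zero => exact ⟨_, PauliSys.zero, fun _ _ => InS.one B⟩
      | succ r ih =>
        by_contra h
        exact hc ⟨r, ih, h⟩
    obtain ⟨P, hPs, -⟩ := hall (Module.finrank K W)
    exact absurd (Nat.le_of_dvd Module.finrank_pos hPs.dvd_finrank)
      (not_le.2 Nat.lt_two_pow_self)
  have hadj : ∀ T : Module.End K W, InS A T → ∃ s0 < 2 ^ r, ∃ t0 < 2 ^ r,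
      ∀ s t, (P s0 t0 * T) * P s t = P s t * (P s0 t0 * T) :=
    fun T hT => hPs.adjust T (fun s t => hS _ _ hT ((hPB s t).mono hBA))
  have h3 : ∀ T : Module.End K W, InS B T → ∃ s < 2 ^ r, ∃ t < 2 ^ r, ∃ c : K, T = c • P s t := by
    intro T hT
    obtain ⟨s0, hs0, t0, ht0, hx⟩ := hadj T (hT.mono hBA)
    have hxB := (hPB s0 t0).mul hT hBL
    suffices h : ∃ d : K, P s0 t0 * T = d • 1 by
      obtain ⟨d, hd⟩ := h
      exact ⟨s0, hs0, t0, ht0, hPs.unadjust hd⟩
    generalize P s0 t0 * T = x at hx hxB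
    refine InS.nd hA hBn hBA hxB (fun T' hT' => ?_)
    by_contra hne
    obtain ⟨ε, hε⟩ := hS _ _ (hT'.mono hBA) (hxB.mono hBA)
    cases ε
    · exact hne (by rw [hε, sg_false, one_smul])
    obtain ⟨s1, -, t1, -, hz⟩ := hadj T' (hT'.mono hBA)
    have hzB := (hPB s1 t1).mul hT' hBL
    have hzx : (P s1 t1 * T') * x = -(x * (P s1 t1 * T')) := by
      rw [mul_assoc, hε, ← mul_assoc x, hx, mul_assoc]
      simp [sg]
    generalize P s1 t1 * T' = z at hz hzB hzx
    obtain ⟨d, hd0, hd⟩ := hnorm x hxB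
    obtain ⟨d', hd0', hd'⟩ := hnorm z hzB
    refine hmax ⟨_, hPs.extend (d • x) (d' • z) (fun s t => ?_) (fun s t => ?_) hd hd' ?_,
      fun s t => (hPB s t).mul (InS.mul ?_ ?_ hBL) hBL⟩
    · rw [smul_mul_assoc, hx, mul_smul_comm]
    · rw [smul_mul_assoc, hz, mul_smul_comm]
    · rw [smul_mul_smul_comm, smul_mul_smul_comm, hzx, smul_neg, mul_comm d]
    · split_ifs
      exacts [hxB.smul hd0, InS.one B]
    · split_ifs
      exacts [hzB.smul hd0', InS.one B]
  have hns : ∀ a ∈ A, ∀ b ∈ A, a ∉ B → b ∉ B → a * b ∈ B := by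
    intro a ha b hb haB hbB
    obtain ⟨c, hc⟩ := hsq a ha
    obtain ⟨d, hd⟩ := hsq b hb
    obtain ⟨ε, hε⟩ := hpm b hb a ha
    have hc0 : c ≠ 0 := scal_ne_zero (W := W) (g := a * a) (fun w => by rw [mul_smul, hc])
    have hd0 : d ≠ 0 := scal_ne_zero (W := W) (g := b * b) (fun w => by rw [mul_smul, hd])
    have := Fintype.ofFinite K
    have hc1 : quadraticChar K c = -1 :=
      quadraticChar_neg_one_iff_not_isSquare.2 (fun h => haB ((hB a).2 ⟨ha, c, h, hc⟩))
    have hd1 : quadraticChar K d = -1 :=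
      quadraticChar_neg_one_iff_not_isSquare.2 (fun h => hbB ((hB b).2 ⟨hb, d, h, hd⟩))
    have hcd : IsSquare (c * d) := by
      rw [← quadraticChar_one_iff_isSquare (mul_ne_zero hc0 hd0), map_mul, hc1, hd1]
      norm_num
    refine (hB _).2 ⟨A.mul_mem ha hb, sg K ε * (c * d), (hsg ε).mul hcd, fun w => ?_⟩
    rw [mul_smul, mul_smul, hε, hA.lin ha, hc, hd, mul_smul, mul_smul]
  refine ⟨r, P, hPs, fun s t => (hPB s t).mono hBA, fun a ha => ?_⟩
  obtain ⟨T, hT⟩ := exists_end (hA.lin ha)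
  have hTA : InS A T := ⟨a, ha, 1, one_ne_zero, by simpa using hT⟩
  obtain ⟨s0, hs0, t0, ht0, hx⟩ := hadj T hTA
  have hxA := ((hPB s0 t0).mono hBA).mul hTA hA.lin
  suffices h : ∃ d : K, P s0 t0 * T = d • 1 by
    obtain ⟨d, hd⟩ := h
    obtain ⟨c, hc⟩ := hPs.unadjust hd
    exact ⟨s0, hs0, t0, ht0, c, fun w => by rw [← hT, hc, LinearMap.smul_apply]⟩
  generalize P s0 t0 * T = x at hx hxA
  have hxc : ∀ T', InS B T' → x * T' = T' * x := by
    intro T' hT'
    obtain ⟨s, -, t, -, c, rfl⟩ := h3 T' hT'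
    rw [mul_smul_comm, hx, smul_mul_assoc]
  by_cases hxB : InS B x
  · exact InS.nd hA hBn hBA hxB hxc
  refine InS.nd hA hA.normal le_rfl hxA (fun T' hT' => ?_)
  by_cases hT'B : InS B T'
  · exact hxc T' hT'B
  obtain ⟨a1, ha1, c1, hc1, e1⟩ := hxA
  obtain ⟨a2, ha2, c2, hc2, e2⟩ := hT'
  have h5 : InS B (x * T') := by
    refine ⟨a1 * a2, hns a1 ha1 a2 ha2 (fun h => hxB ⟨a1, h, c1, hc1, e1⟩)
      (fun h => hT'B ⟨a2, h, c2, hc2, e2⟩), c1 * c2, mul_ne_zero hc1 hc2, fun w => ?_⟩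
    rw [Module.End.mul_apply, e1, e2, hA.lin ha1, mul_smul, mul_smul]
  ext w
  have h6 := DFunLike.congr_fun (hxc _ h5) w
  rw [mul_assoc, Module.End.mul_apply, Module.End.mul_apply x (T' * x), e1, e1] at h6
  exact MulAction.injective a1 (smul_right_injective W hc1 h6)

end main

end Pool.Agent.Lib.MP_39e620_al.H66
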