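import Pool.Agent.Lib.MP_39e620_al.H66Struct
import Pool.Agent.Lib.MP_39e620_al.H66Mat
import Pool.Agent.Lib.MP_39e620_al.H66Pauli

set_option autoImplicit false

namespace Pool.Agent.Lib.MP_39e620_al.H66

open Full Matrix

theorem map_sg {K : Type} [Field K] (τ : K ≃+* K) (b : Bool) : τ (sg K b) = sg K b := by
  cases b <;> simp [sg]

theorem PM_mulVec_map {K : Type} [Field K] (τ : K ≃+* K) (r s t : ℕ) (v : Fin (2 ^ r) → K) :
    (PM K r s t *ᵥ fun k => τ (v k)) = fun k => τ ((PM K r s t *ᵥ v) k) := by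
  ext i
  rw [PM_mulVec, PM_mulVec, map_mul, map_sg]

variable {G K W : Type} [Group G] [Finite G] [Field K] [Finite K] [CharP K 17] [AddCommGroup W]
  [Finite W] [Nontrivial W] [Module K W] [DistribMulAction G W] [FaithfulSMul G W]

theorem bridge (σ : G →* (K ≃+* K))
    (hσ : ∀ (g : G) (a : K) (w : W), g • (a • w) = σ g a • g • w) {A : Subgroup G}
    (hA : Str G K W A) {r : ℕ} {P : ℕ → ℕ → Module.End K W}
    (sys : PauliSys K (Module.End K W) r P)
    (memA : ∀ s t, ∃ a ∈ A, ∃ c : K, c ≠ 0 ∧ ∀ w, P s t w = c • a • w)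
    (span : ∀ a ∈ A, ∃ s < 2 ^ r, ∃ t < 2 ^ r, ∃ c : K, ∀ w, a • w = c • P s t w)
    (hn : Module.finrank K W = 2 ^ r) :
    ∃ e : W ≃ₗ[K] (Fin (2 ^ r) → K), ∀ g : G,
      ∃ (y : Matrix (Fin (2 ^ r)) (Fin (2 ^ r)) K) (θ : ℕ → ℕ), IsUnit y ∧ Cj r y θ ∧
        ∀ w : W, e (g • w) = y *ᵥ fun k => σ g (e w k) := by
  obtain ⟨e, he⟩ := sys.coords hn
  refine ⟨e, fun g => ?_⟩
  let f : (Fin (2 ^ r) → K) →ₗ[K] (Fin (2 ^ r) → K) :=
    { toFun := fun v => e (g • e.symm (fun k => (σ g).symm (v k)))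
      map_add' := by
        intro v v'
        rw [← map_add, ← smul_add, ← map_add]
        congr 3
        ext k
        simp
      map_smul' := by
        intro c v
        have : (fun k => (σ g).symm ((c • v) k)) = (σ g).symm c • fun k => (σ g).symm (v k) := by
          ext k
          simp
        rw [this, map_smul e.symm, hσ, map_smul]
        simp }
  have hf : ∀ w : W, e (g • w) = LinearMap.toMatrix' f *ᵥ fun k => σ g (e w k) := by
    intro w
    rw [LinearMap.toMatrix'_mulVec]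
    show _ = e (g • e.symm (fun k => (σ g).symm (σ g (e w k))))
    simp only [RingEquiv.symm_apply_apply]
    rw [show (fun k => e w k) = e w from rfl, e.symm_apply_apply]
  have hsurj : ∀ v : Fin (2 ^ r) → K, ∃ w : W, v = fun k => σ g (e w k) := fun v =>
    ⟨e.symm (fun k => (σ g).symm (v k)), by ext k; simp⟩
  generalize LinearMap.toMatrix' f = y at hf
  have key : ∀ u, ∃ u', u' < 2 ^ (2 * r) ∧ ∃ c : K, c ≠ 0 ∧
      y * PP K r u = c • (PP K r u' * y) := by
    intro u
    obtain ⟨a, ha, c, hc, h1⟩ := memA u (u >>> r)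
    obtain ⟨s, hs, t, ht, d, h2⟩ := span _ (hA.normal.conj_mem a ha g)
    obtain ⟨u', hu', h3⟩ := PP_enc K r s t hs ht
    have hd : d ≠ 0 := by
      rintro rfl
      obtain ⟨w, hw⟩ := exists_ne (0 : W)
      have := h2 w
      rw [zero_smul, smul_eq_zero_iff_eq] at this
      exact hw this
    refine ⟨u', hu', σ g c * d, mul_ne_zero (by simpa using hc) hd, ?_⟩
    apply Matrix.ext_iff_mulVec.2
    intro v
    obtain ⟨w, rfl⟩ := hsurj v
    rw [← mulVec_mulVec, PP, PM_mulVec_map, ← he, ← hf, h1, hσ, smul_mulVec, ← mulVec_mulVec,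
      ← hf, h3, ← he, mul_smul, ← map_smul e d, ← h2, map_smul, mul_smul, mul_smul, inv_smul_smul]
  choose θ hθ using key
  refine ⟨y, θ, ?_, hθ, hf⟩
  rw [← Matrix.mulVec_injective_iff_isUnit]
  intro v v' h
  obtain ⟨w, rfl⟩ := hsurj v
  obtain ⟨w', rfl⟩ := hsurj v'
  rw [← hf, ← hf] at h
  rw [MulAction.injective g (e.injective h)]

end Pool.Agent.Lib.MP_39e620_al.H66
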