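import Pool.Agent.Lib.MP_39e620_al.H66Search

set_option autoImplicit false
set_option maxRecDepth 100000

namespace Pool.Agent.Lib.MP_39e620_al.H66

/-- Packed vector. -/
def r2V1 : ℕ := 72708
/-- Packed vector. -/
def r2V2 : ℕ := 303205

/-- Packed colours. -/
def r2T1 : ℕ := 0xc62d8c48d8b6240b481
/-- Packed colours. -/
def r2T2 : ℕ := 0x846218c5b08c22184030

/-- Colour classes. -/
def r2c1 (c : ℕ) : List ℕ :=
  cond (Nat.beq c 0) [] <|
  cond (Nat.beq c 1) [0, 3, 15] <|
  cond (Nat.beq c 4) [1, 4, 9] <|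
  cond (Nat.beq c 13) [2, 6, 8, 12] <|
  cond (Nat.beq c 16) [] <|
  [5, 7, 10, 11, 13, 14]

/-- Colour classes. -/
def r2c2 (c : ℕ) : List ℕ :=
  cond (Nat.beq c 0) [] <|
  cond (Nat.beq c 1) [1, 4, 12] <|
  cond (Nat.beq c 4) [] <|
  cond (Nat.beq c 13) [9] <|
  cond (Nat.beq c 16) [0, 2, 3, 6, 8, 15] <|
  [5, 7, 10, 11, 13, 14]

theorem r2t1 : tabOK 2 r2V1 r2T1 r2c1 = true := by decide +kernel

theorem r2t2 : tabOK 2 r2V2 r2T2 r2c2 = true := by decide +kernel

theorem r2s12 : search r2T1 r2T2 r2c2 (fun _ => false) 0 [15, 3, 9, 4] = true := by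
  decide +kernel

/-- Lifts. -/
def r2L1 : List (ℕ × ℕ) :=
  [(0x9090240242060481081, 0x6c204811b0834902420d),
   (0x9081686046c0240b5a1, 0x6842d83481811a16c20d),
   (0x20000010000008000004, 0x6800003400001a00000d),
   (0x68000010000008000004, 0x2000003400001a00000d)]

theorem r2s1 : search r2T1 r2T1 r2c1 (finL 2 r2V1 true r2L1) 3 [15, 0, 9, 4] = true := by
  decide +kernel

/-- Lifts. -/
def r2L2 : List (ℕ × ℕ) :=
  [(0x8000040000008000004, 0x800004000001a00000d),
   (0x1000200000008000004, 0x340068000001a00000d),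
   (0x4000080000008000004, 0x40080000001a00000d),
   (0x20000010000008000004, 0x6800003400001a00000d),
   (0x9081686046c0240b5a1, 0x6842d83481811a16c20d),
   (0x811a1204246860409081, 0x2402d835b00b4906c20d),
   (0x9024241a10b60420481, 0x6c1b08102d684908360d),
   (0xb6042048183424685a1, 0x6c0810b42d241a18360d)]

theorem r2s2 : search r2T2 r2T2 r2c2 (finL 2 r2V2 false r2L2) 9 [1, 12, 15, 8] = true := by
  decide +kernel

theorem cliff2 : CliffPair 2 :=
  ⟨vec 2 r2V1, vec 2 r2V2, fun _ _ hy h =>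
    ⟨no_orbit r2t1 r2t2 r2s12 (by decide +kernel) hy h,
      fun h2 hv => stab_lift (by norm_num) r2t1 r2s1 (by decide +kernel) h2 h hv,
      fun h2 hv => stab_lift (by norm_num) r2t2 r2s2 (by decide +kernel) h2 h hv⟩⟩

/-- Packed vector. -/
def r3V1 : ℕ := 383608954343
/-- Packed vector. -/
def r3V2 : ℕ := 173122011496

/-- Packed colours. -/
def r3T1 : ℕ := 0x8b5b10c624682318c4906c4318c2248c631835b02462d0c62d8c4308c42188630892248048169010
/-- Packed colours. -/
def r3T2 : ℕ := 0x8c03184630686318c481246118c2308c631234200c6216c6248c5a48c5ad8b62089221686100b610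

/-- Colour classes. -/
def r3c1 (c : ℕ) : List ℕ :=
  cond (Nat.beq c 0) [1, 54] <|
  cond (Nat.beq c 1) [4, 6, 14, 16, 17, 21, 27, 45, 59] <|
  cond (Nat.beq c 4) [2, 5, 8, 10, 31, 40, 49, 56] <|
  cond (Nat.beq c 13) [3, 24, 28, 33, 34, 47, 55, 61, 62] <|
  cond (Nat.beq c 16) [0, 7, 12, 20, 32, 35, 42, 48] <|
  [9, 11, 13, 15, 18, 19, 22, 23, 25, 26, 29, 30, 36, 37, 38, 39, 41, 43, 44, 46, 50, 51, 52, 53, 57, 58, 60, 63]

/-- Colour classes. -/
def r3c2 (c : ℕ) : List ℕ :=
  cond (Nat.beq c 0) [12, 32] <|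
  cond (Nat.beq c 1) [3, 6, 8, 28, 31, 33, 48, 54, 61] <|
  cond (Nat.beq c 4) [10, 20, 24, 35, 47, 49] <|
  cond (Nat.beq c 13) [2, 7, 14, 16, 17, 21, 27, 34, 55] <|
  cond (Nat.beq c 16) [0, 1, 4, 5, 40, 42, 45, 56, 59, 62] <|
  [9, 11, 13, 15, 18, 19, 22, 23, 25, 26, 29, 30, 36, 37, 38, 39, 41, 43, 44, 46, 50, 51, 52, 53, 57, 58, 60, 63]

theorem r3t1 : tabOK 3 r3V1 r3T1 r3c1 = true := by decide +kernel

theorem r3t2 : tabOK 3 r3V2 r3T2 r3c2 = true := by decide +kernel

theorem r3s12 : search r3T1 r3T2 r3c2 (fun _ => false) 54 [1, 49, 56, 2, 31, 10] = true := by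
  decide +kernel

/-- Lifts. -/
def r3L1 : List (ℕ × ℕ) :=
  [(0x40000000000200000000001000000000008000000000040000000000200000000001000000000008, 0x780000000003c0000000001e0000000000f0000000000780000000003c0000000001e0000000000f),
   (0x101e003c0200802100407804003c0200802781e00080f101e0781e0008020080f780401004000802, 0x780400080f03c0f781e0101e00080f03c0f1004003c02780401004003c0f03c02101e0781e003c0f)]

theorem r3s1 : search r3T1 r3T1 r3c1 (finL 3 r3V1 true r3L1) 1 [54, 49, 31, 8, 5, 10] = true := by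
  decide +kernel

/-- Lifts. -/
def r3L2 : List (ℕ × ℕ) :=
  [(0x10100481e0008080200248040101200240203c0840040101000240f0080878100480400080902402, 0x781204004003c090240f401e0781000200f00809481e0781200200203c0910120401e003c080200f),
   (0x1200043c0043c0012000000480010f0010f00048408007a0007a0004080000102001e8001e800102, 0x7a00040800408007a000001e80010200102001e843c00120001200043c000010f00048000480010f),
   (0x40000000000200000000001000000000008000000000040000000000200000000001000000000008, 0x780000000003c0000000001e0000000000f0000000000780000000003c0000000001e0000000000f),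
   (0x1000f48008008400210000840025207800248008400081000202500009e00250003c404800910002, 0x780024000903de00252003de0021001000f40009480097800f0212003c4002120009e0400087800f)]

theorem r3s2 : search r3T2 r3T2 r3c2 (finL 3 r3V2 false r3L2) 32 [12, 47, 24, 49, 35, 48] = true := by
  decide +kernel

theorem cliff3 : CliffPair 3 :=
  ⟨vec 3 r3V1, vec 3 r3V2, fun _ _ hy h =>
    ⟨no_orbit r3t1 r3t2 r3s12 (by decide +kernel) hy h,
      fun h2 hv => stab_lift (by norm_num) r3t1 r3s1 (by decide +kernel) h2 h hv,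
      fun h2 hv => stab_lift (by norm_num) r3t2 r3s2 (by decide +kernel) h2 h hv⟩⟩

end Pool.Agent.Lib.MP_39e620_al.H66
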