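import Pool.Agent.Lib.MP_39e620_al.H66Cert5a

set_option autoImplicit false
set_option maxRecDepth 100000

namespace Pool.Agent.Lib.MP_39e620_al.H66

theorem r5t2 : tabOK 5 r5V2 r5T2 r5c2 = true := by decide +kernel

theorem r5s12 : search r5T1 r5T2 r5c2 (fun _ => false) 439 [486, 25, 461, 909, 387, 521, 830, 308, 191, 554] = true := by
  decide +kernel

theorem r5s1 : search r5T1 r5T1 r5c1 (finId 5) 461 [387, 308, 439, 830, 486, 25, 521, 909, 670, 214] = true := by
  decide +kernel

theorem r5n1 : noPauli 5 r5V1 = true := by decide +kernel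

theorem r5s2 : search r5T2 r5T2 r5c2 (finId 5) 294 [895, 256, 804, 136, 175, 588, 733, 939, 518, 860] = true := by
  decide +kernel

theorem r5n2 : noPauli 5 r5V2 = true := by decide +kernel

theorem cliff5 : CliffPair 5 :=
  ⟨vec 5 r5V1, vec 5 r5V2, fun _ _ hy h =>
    ⟨no_orbit r5t1 r5t2 r5s12 (by decide +kernel) hy h,
      fun _ hv => stab_id r5t1 r5s1 (by decide +kernel) r5n1 hy h hv,
      fun _ hv => (stab_id r5t2 r5s2 (by decide +kernel) r5n2 hy h hv).weak⟩⟩

end Pool.Agent.Lib.MP_39e620_al.H66
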