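import Pool.Agent.Lib.MP_39e620_al.H66Defs

set_option autoImplicit false

namespace Pool.Agent.Lib.MP_39e620_al.H66

open Full Finset

theorem invol {K : Type} [Field K] [Finite K] [CharP K 17] (τ : K ≃+* K) (h1 : τ ≠ 1)
    (h2 : τ * τ = 1) : ∃ i : ℕ, 1 ≤ i ∧ Nat.card K = (17 ^ i) ^ 2 ∧ ∀ a, τ a = a ^ 17 ^ i := by
  let : Algebra (ZMod 17) K := ZMod.algebra K 17
  have hc : ∀ x : ZMod 17, τ (algebraMap (ZMod 17) K x) = algebraMap (ZMod 17) K x := fun x =>
    DFunLike.congr_fun (RingHom.ext_zmod (τ.toRingHom.comp (algebraMap (ZMod 17) K))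
      (algebraMap (ZMod 17) K)) x
  obtain ⟨⟨i, hi⟩, h3⟩ := (FiniteField.bijective_frobeniusAlgEquivOfAlgebraic_pow (ZMod 17) K).2
    (AlgEquiv.ofRingEquiv (f := τ) hc)
  have h4 : ∀ a, τ a = (FiniteField.frobeniusAlgEquivOfAlgebraic (ZMod 17) K ^ i) a := fun a =>
    (DFunLike.congr_fun h3 a).symm
  have h5 : i ≠ 0 := by
    rintro rfl
    exact h1 (RingEquiv.ext fun a => by rw [h4]; rfl)
  have h6 : FiniteField.frobeniusAlgEquivOfAlgebraic (ZMod 17) K ^ (i + i) = 1 := by
    ext a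
    rw [pow_add, AlgEquiv.mul_apply, ← h4, ← h4]
    exact DFunLike.congr_fun h2 a
  rw [← orderOf_dvd_iff_pow_eq_one, FiniteField.orderOf_frobeniusAlgEquivOfAlgebraic] at h6
  have h7 : Module.finrank (ZMod 17) K = i * 2 := by
    obtain ⟨k, hk⟩ := h6
    have : k = 1 := by
      rcases k with _ | _ | k
      · omega
      · rfl
      · nlinarith
    rw [this] at hk; omega
  refine ⟨i, by omega, ?_, fun a => ?_⟩
  · rw [Module.natCard_eq_pow_finrank (K := ZMod 17), Nat.card_zmod, h7, pow_mul]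
  · rw [h4, AlgEquiv.coe_pow, FiniteField.coe_frobeniusAlgEquivOfAlgebraic_iterate, ZMod.card]

section linear

variable {K W : Type} [Field K] [Fintype K] [AddCommGroup W] [Fintype W] [Module K W]

omit [Fintype K] in
theorem card_eig (f : Module.End K W) (a : K) :
    Nat.card {u // f u = a • u} = Nat.card K ^ Module.finrank K (f.eigenspace a) := by
  rw [← Module.natCard_eq_pow_finrank]
  exact Nat.card_congr (Equiv.subtypeEquivRight fun u => Module.End.mem_eigenspace_iff.symm)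

theorem sum_eig (f : Module.End K W) :
    ∑ a, Module.finrank K (f.eigenspace a) ≤ Module.finrank K W := by
  classical
  rw [← Module.finrank_directSum]
  exact LinearMap.finrank_le_finrank_of_injective f.eigenspaces_iSupIndep.dfinsupp_lsum_injective

theorem card_ne_zero [DecidableEq W] (P : W → Prop) [DecidablePred P] (h0 : P 0) :
    (univ.filter fun w => w ≠ 0 ∧ P w).card + 1 = Nat.card {u // P u} := by
  rw [Nat.card_eq_fintype_card, Fintype.card_subtype,
    ← card_erase_add_one (a := 0) (s := univ.filter P) (mem_filter.2 ⟨mem_univ _, h0⟩)]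
  congr 2
  ext w
  simp

theorem geo {q h d : ℕ} (hq : 2 ≤ q) (hd : d ≤ h) {m : ℕ} (hm : m + 1 = q ^ d) :
    h * m ≤ d * q ^ h := by
  rcases Nat.eq_zero_or_pos d with rfl | h0
  · rw [show m = 0 by simpa using hm]; simp
  obtain ⟨t, rfl⟩ := Nat.exists_eq_add_of_le hd
  have h1 : t + 1 ≤ q ^ t := (Nat.lt_two_pow_self).trans_le (Nat.pow_le_pow_left hq t)
  calc (d + t) * m ≤ (d * (t + 1)) * q ^ d := Nat.mul_le_mul (by nlinarith) (by omega)
    _ ≤ (d * q ^ t) * q ^ d := Nat.mul_le_mul_right _ (Nat.mul_le_mul_left _ h1)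
    _ = _ := by ring

open Classical in
theorem countL (f : Module.End K W) :
    Module.finrank K W / 2 * (univ.filter fun w => w ≠ 0 ∧ ∃ a b : K, a ≠ b ∧ f w = a • w ∧
      Nat.card {u // f u = a • u} ≤ Nat.card {u // f u = b • u}).card ≤
      Module.finrank K W * Nat.card K ^ (Module.finrank K W / 2) := by
  have hq : 2 ≤ Nat.card K := Finite.one_lt_card
  refine le_trans (Nat.mul_le_mul_left _ ((card_le_card (t := (univ.filter fun a : K =>
    Module.finrank K (f.eigenspace a) ≤ Module.finrank K W / 2).biUnion fun a =>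
      univ.filter fun w => w ≠ 0 ∧ f w = a • w) fun w hw => ?_).trans card_biUnion_le)) ?_
  · obtain ⟨h0, a, b, hab, h1, h2⟩ := (mem_filter.1 hw).2
    refine mem_biUnion.2 ⟨a, mem_filter.2 ⟨mem_univ _, ?_⟩, mem_filter.2 ⟨mem_univ _, h0, h1⟩⟩
    rw [card_eig, card_eig, Nat.pow_le_pow_iff_right hq] at h2
    have h3 := (sum_le_sum_of_subset (f := fun a => Module.finrank K (f.eigenspace a))
      (subset_univ {a, b})).trans (sum_eig f)
    rw [sum_pair hab] at h3
    omega
  · rw [mul_sum]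
    refine (sum_le_sum fun a ha => geo hq (mem_filter.1 ha).2
      ((card_ne_zero _ (by simp)).trans (card_eig f a))).trans ?_
    rw [← sum_mul]
    exact Nat.mul_le_mul_right _ ((sum_le_sum_of_subset (filter_subset _ _)).trans (sum_eig f))

theorem sum_pow_sub {ι : Type} {s : ℕ} (hs : 1 ≤ s) (d : ι → ℕ) (S : Finset ι) :
    ∑ i ∈ S, (s ^ d i - 1) + 1 ≤ s ^ ∑ i ∈ S, d i := by
  classical
  induction S using Finset.induction_on with
  | empty => simp
  | insert i S hi ih =>
    rw [sum_insert hi, sum_insert hi, pow_add]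
    obtain ⟨x, hx⟩ := Nat.exists_eq_add_of_le' (Nat.one_le_pow (d i) s hs)
    rw [hx, Nat.add_sub_cancel]
    nlinarith [Nat.mul_le_mul_left x ((Nat.le_add_left 1 _).trans ih)]

open Classical in
theorem countT [CharP K 17] (φ : W →+ W) (hφ : Function.Injective φ) (τ : K ≃+* K) (h1 : τ ≠ 1)
    (h2 : τ * τ = 1) (h : ∀ (a : K) (u : W), φ (a • u) = τ a • φ u) :
    ∃ s : ℕ, Nat.card K = s ^ 2 ∧ (univ.filter fun w => w ≠ 0 ∧ ∃ c : K, φ w = c • w).card ≤
      (s + 1) * s ^ Module.finrank K W := by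
  obtain ⟨i, -, hq, hτ⟩ := invol τ h1 h2
  refine ⟨_, hq, ?_⟩
  have hs : 1 ≤ 17 ^ i := Nat.one_le_pow _ _ (by norm_num)
  generalize 17 ^ i = s at hq hτ hs
  obtain ⟨θ, hθ⟩ : ∃ θ, τ θ ≠ θ := by
    by_contra hn
    push Not at hn
    exact h1 (RingEquiv.ext hn)
  obtain ⟨f, hf⟩ : ∃ f : Module.End K W, ∀ u, f u = φ (φ u) :=
    ⟨⟨⟨fun u => φ (φ u), fun u v => by simp only [map_add]⟩, fun a u => by
      have : τ (τ a) = a := DFunLike.congr_fun h2 a
      simp only [h, this, RingHom.id_apply]⟩, fun _ => rfl⟩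
  have key : ∀ c : K, (univ.filter fun w => w ≠ 0 ∧ φ w = c • w).card ≤
      s ^ Module.finrank K (f.eigenspace (c ^ (s + 1))) - 1 := fun c => by
    rcases eq_or_ne c 0 with rfl | hc
    · rw [filter_eq_empty_iff.2 fun w _ hw => hw.1 (hφ (by rw [hw.2, zero_smul, map_zero]))]
      simp
    have a1 : ∀ u, φ u = c • u → u ∈ f.eigenspace (c ^ (s + 1)) := fun u hu => by
      rw [Module.End.mem_eigenspace_iff, hf, hu, h, hu, hτ, smul_smul, pow_succ]
    have a2 := Nat.card_le_card_of_injective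
      (fun p : {u // φ u = c • u} × {u // φ u = c • u} => (⟨p.1.1 + θ • p.2.1,
        add_mem (a1 _ p.1.2) (Submodule.smul_mem _ _ (a1 _ p.2.2))⟩ : f.eigenspace (c ^ (s + 1))))
      (by
        rintro ⟨⟨u, hu⟩, ⟨v, hv⟩⟩ ⟨⟨u', hu'⟩, ⟨v', hv'⟩⟩ e
        have e1 : u + θ • v = u' + θ • v' := congrArg Subtype.val e
        have e2 := congrArg φ e1
        rw [map_add, map_add, h, h, hu, hv, hu', hv', smul_comm _ c, smul_comm _ c, ← smul_add,
          ← smul_add] at e2
        have e3 := smul_right_injective W hc e2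
        have e4 : (τ θ - θ) • (v - v') = 0 := by
          linear_combination (norm := module) e3 - e1
        have e5 : v = v' := sub_eq_zero.1 ((smul_eq_zero.1 e4).resolve_left (sub_ne_zero.2 hθ))
        subst e5
        rw [add_left_inj] at e1
        subst e1
        rfl)
    rw [Nat.card_prod, Module.natCard_eq_pow_finrank (K := K) (V := f.eigenspace _), hq,
      ← pow_mul, mul_comm 2, pow_mul, ← sq, Nat.pow_le_pow_iff_left two_ne_zero,
      ← card_ne_zero _ (by simp)] at a2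
    omega
  refine le_trans ((card_le_card (t := univ.biUnion fun c : K =>
    univ.filter fun w => w ≠ 0 ∧ φ w = c • w) fun w hw => ?_).trans card_biUnion_le) ?_
  · obtain ⟨h0, c, hc⟩ := (mem_filter.1 hw).2
    exact mem_biUnion.2 ⟨c, mem_univ _, mem_filter.2 ⟨mem_univ _, h0, hc⟩⟩
  refine (sum_le_sum fun c _ => key c).trans ?_
  rw [← sum_fiberwise univ fun c : K => c ^ (s + 1)]
  have a3 := (sum_pow_sub hs (fun ν => Module.finrank K (f.eigenspace ν)) univ).trans
    (Nat.pow_le_pow_right hs (sum_eig f))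
  refine le_trans (sum_le_sum fun ν _ => ?_) (le_trans (mul_sum _ _ _).symm.le
    (Nat.mul_le_mul_left _ ((Nat.le_succ _).trans a3)))
  rw [sum_congr rfl fun c hc => by rw [(mem_filter.1 hc).2], sum_const, smul_eq_mul]
  refine Nat.mul_le_mul_right _ (le_trans (card_le_card (t := (Polynomial.nthRoots (s + 1) ν).toFinset)
    fun c hc => ?_) ((Multiset.toFinset_card_le _).trans (Polynomial.card_nthRoots _ _)))
  exact Multiset.mem_toFinset.2 ((Polynomial.mem_nthRoots (Nat.succ_pos s)).2 (mem_filter.1 hc).2)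

end linear

variable {G K W : Type} [Group G] [Finite G] [Field K] [Finite K] [CharP K 17] [AddCommGroup W]
  [Finite W] [Nontrivial W] [Module K W] [DistribMulAction G W]

theorem count_pair (σ : G →* (K ≃+* K))
    (hσ : ∀ (g : G) (a : K) (w : W), g • (a • w) = σ g a • g • w)
    (hn : 2 ≤ Module.finrank K W) (bL bt : ℕ) (YL Yt : Finset G)
    (hbL : Module.finrank K W * Nat.card K ^ (Module.finrank K W / 2) ≤
      Module.finrank K W / 2 * bL)
    (hbt : ∀ s : ℕ, Nat.card K = s ^ 2 → (s + 1) * s ^ Module.finrank K W ≤ bt)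
    (covL : ∀ g : G, Two g → σ g = 1 → ∃ y ∈ YL, ∃ c : K, ∀ w : W, g • w = c • y • w)
    (covt : ∀ g : G, Two g → σ g ≠ 1 → σ g * σ g = 1 →
      ∃ y ∈ Yt, ∃ c : K, ∀ w : W, g • w = c • y • w)
    (hnum : 1 + YL.card * bL + Yt.card * bt + Nat.card G < Nat.card K ^ Module.finrank K W) :
    GoodPair G W := by
  classical
  let := Fintype.ofFinite K
  let := Fintype.ofFinite W
  let := Fintype.ofFinite G
  obtain ⟨DL, hDL⟩ : ∃ DL : G → Finset W, ∀ y, DL y = univ.filter fun w =>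
    (∀ (a : K) (u : W), y • (a • u) = a • y • u) ∧ w ≠ 0 ∧ ∃ a b : K, a ≠ b ∧ y • w = a • w ∧
      Nat.card {u : W // y • u = a • u} ≤ Nat.card {u : W // y • u = b • u} := ⟨_, fun _ => rfl⟩
  obtain ⟨Dt, hDt⟩ : ∃ Dt : G → Finset W, ∀ y, Dt y = univ.filter fun w =>
    (∃ τ : K ≃+* K, τ ≠ 1 ∧ τ * τ = 1 ∧ ∀ (a : K) (u : W), y • (a • u) = τ a • y • u) ∧
      w ≠ 0 ∧ ∃ c : K, y • w = c • w := ⟨_, fun _ => rfl⟩
  have cL : ∀ y, (DL y).card ≤ bL := fun y => by
    rcases (DL y).eq_empty_or_nonempty with h | ⟨w, hw⟩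
    · rw [h]; exact Nat.zero_le _
    rw [hDL] at hw
    have h1 := (countL (K := K) (⟨⟨fun u : W => y • u, smul_add y⟩, (mem_filter.1 hw).2.1⟩ :
      Module.End K W)).trans hbL
    refine le_trans (card_le_card fun u hu => ?_) (Nat.le_of_mul_le_mul_left h1 (by omega))
    rw [hDL] at hu
    exact mem_filter.2 ⟨mem_univ _, (mem_filter.1 hu).2.2⟩
  have ct : ∀ y, (Dt y).card ≤ bt := fun y => by
    rcases (Dt y).eq_empty_or_nonempty with h | ⟨w, hw⟩
    · rw [h]; exact Nat.zero_le _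
    rw [hDt] at hw
    obtain ⟨τ, t1, t2, t3⟩ := (mem_filter.1 hw).2.1
    obtain ⟨s, hs, h1⟩ := countT (DistribSMul.toAddMonoidHom W y) (MulAction.injective y) τ t1 t2 t3
    refine le_trans (card_le_card fun u hu => ?_) (h1.trans (hbt s hs))
    rw [hDt] at hu
    exact mem_filter.2 ⟨mem_univ _, (mem_filter.1 hu).2.2⟩
  have hinv : ∀ (g y : G) (c : K), (∀ w : W, g • w = c • y • w) →
      c ≠ 0 ∧ ∀ w : W, y • w = c⁻¹ • g • w := fun g y c hc => by
    have h0 : c ≠ 0 := by
      rintro rfl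
      obtain ⟨w, hw⟩ := exists_ne (0 : W)
      exact hw ((smul_eq_zero_iff_eq g).1 (by rw [hc, zero_smul]))
    exact ⟨h0, fun w => by rw [hc, inv_smul_smul₀ h0]⟩
  obtain ⟨B, hB⟩ : ∃ B : Finset W, B = {0} ∪ YL.biUnion DL ∪ Yt.biUnion Dt := ⟨_, rfl⟩
  have cB : B.card ≤ 1 + YL.card * bL + Yt.card * bt := by
    rw [hB]
    refine (card_union_le _ _).trans (Nat.add_le_add ((card_union_le _ _).trans
      (Nat.add_le_add (card_singleton _).le ?_)) ?_)
    · exact card_biUnion_le_card_mul _ _ _ fun y _ => cL y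
    · exact card_biUnion_le_card_mul _ _ _ fun y _ => ct y
  have hS : ∀ w, w ∉ B → Strict G w := fun w hw g hg h2 z hz => by
    by_contra hlt
    push Not at hlt
    apply hw
    rw [hB]
    rcases eq_or_ne w 0 with rfl | h0
    · simp
    by_cases h1 : σ g = 1
    · obtain ⟨y, hy, c, hc⟩ := covL g hg h1
      obtain ⟨c0, c1⟩ := hinv g y c hc
      have e : ∀ (x : ℤ) (u : W), y • u = (c⁻¹ * x) • u ↔ g • u = x • u := fun x u => by
        rw [c1, mul_smul, Int.cast_smul_eq_zsmul]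
        exact (smul_right_injective W (inv_ne_zero c0)).eq_iff
      refine mem_union_left _ (mem_union_right _ (mem_biUnion.2 ⟨y, hy, ?_⟩))
      rw [hDL]
      refine mem_filter.2 ⟨mem_univ _, fun a u => ?_, h0, c⁻¹ * (2 : ℤ), c⁻¹ * z, fun h => ?_,
        (e _ _).2 h2, ?_⟩
      · rw [c1, c1, hσ, h1, smul_comm]; rfl
      · have h3 := (CharP.intCast_eq_intCast K 17).1 (mul_left_cancel₀ (inv_ne_zero c0) h)
        rcases hz with rfl | rfl | rfl <;> revert h3 <;> decide
      · rw [Nat.card_congr (Equiv.subtypeEquivRight (e 2)),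
          Nat.card_congr (Equiv.subtypeEquivRight (e z))]
        exact hlt
    · obtain ⟨k, hk⟩ := hg
      have hex : ∃ j, σ (g ^ 2 ^ j) = 1 := ⟨k, by rw [hk, map_one]⟩
      obtain ⟨j, hj⟩ : ∃ j, Nat.find hex = j + 1 := Nat.exists_eq_succ_of_ne_zero fun h => h1 (by
        have := Nat.find_spec hex
        rwa [h, pow_zero, pow_one] at this)
      have j1 : σ (g ^ 2 ^ j) ≠ 1 := Nat.find_min hex (by omega)
      have j2 : σ (g ^ 2 ^ j) * σ (g ^ 2 ^ j) = 1 := by
        rw [← map_mul, ← pow_add, ← two_mul, ← pow_succ', ← hj]; exact Nat.find_spec hex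
      obtain ⟨y, hy, c, hc⟩ := covt _ ⟨k, by rw [← pow_mul, mul_comm, pow_mul, hk, one_pow]⟩ j1 j2
      obtain ⟨c0, c1⟩ := hinv _ y c hc
      refine mem_union_right _ (mem_biUnion.2 ⟨y, hy, ?_⟩)
      rw [hDt]
      refine mem_filter.2 ⟨mem_univ _, ⟨_, j1, j2, fun a u => ?_⟩, h0,
        c⁻¹ * ((2 : ℤ) ^ 2 ^ j : ℤ), ?_⟩
      · rw [c1, c1, hσ, smul_comm]
      · rw [c1, pow_eig h2, mul_smul, Int.cast_smul_eq_zsmul]
  rw [← Module.natCard_eq_pow_finrank, Nat.card_eq_fintype_card, Nat.card_eq_fintype_card] at hnum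
  obtain ⟨w1, -, hw1⟩ := exists_mem_notMem_of_card_lt_card (s := B) (t := univ)
    (by rw [card_univ]; omega)
  obtain ⟨w2, -, hw2⟩ := exists_mem_notMem_of_card_lt_card
    (s := B ∪ univ.image fun g : G => (2 : K)⁻¹ • g • w1) (t := univ) (by
      have := (card_union_le B (univ.image fun g : G => (2 : K)⁻¹ • g • w1)).trans
        (Nat.add_le_add cB card_image_le)
      rw [card_univ] at this ⊢
      omega)
  have h2 : (2 : K) ≠ 0 := fun h => by
    have := (CharP.cast_eq_zero_iff K 17 2).1 (by exact_mod_cast h)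
    revert this; decide
  refine ⟨w1, w2, fun g hg => hw2 (mem_union_right _ (mem_image.2 ⟨g, mem_univ _, ?_⟩)), hS _ hw1,
    fun g a b z c => (hS _ (fun h => hw2 (mem_union_left _ h)) g a b z c).le⟩
  rw [hg, ← Int.cast_smul_eq_zsmul K, Int.cast_ofNat, inv_smul_smul₀ h2]

end Pool.Agent.Lib.MP_39e620_al.H66
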