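import Pool.Agent.Lib.MP_39e620_al.F0

set_option autoImplicit false

namespace Pool.Agent.Lib.MP_39e620_al.H66

section groups

variable (G K W : Type) [Group G] [Field K] [AddCommGroup W] [Module K W] [DistribMulAction G W]

/-- The elements acting `K`-linearly. -/
def Lin : Subgroup G where
  carrier := {g | ∀ (a : K) (w : W), g • (a • w) = a • g • w}
  mul_mem' := by
    intro g h hg hh a w
    rw [mul_smul, mul_smul, hh, hg]
  one_mem' := by intro a w; simp
  inv_mem' := by
    intro g hg a w
    rw [inv_smul_eq_iff, hg, smul_inv_smul]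

/-- The elements acting as scalars. -/
def Sc : Subgroup G where
  carrier := {g | ∃ c : K, ∀ w : W, g • w = c • w}
  mul_mem' := by
    rintro g h ⟨c, hc⟩ ⟨d, hd⟩
    exact ⟨c * d, fun w => by rw [mul_smul, hd, hc, mul_smul]⟩
  one_mem' := ⟨1, by simp⟩
  inv_mem' := by
    rintro g ⟨c, hc⟩
    refine ⟨c⁻¹, fun w => ?_⟩
    rw [inv_smul_eq_iff, hc]
    by_cases h : c = 0
    · have h1 := hc w
      rw [h, zero_smul, smul_eq_zero_iff_eq] at h1
      simp [h1]
    · rw [smul_inv_smul₀ h]

/-- `A` is a maximal normal subgroup that is abelian modulo scalars. -/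
structure Str (A : Subgroup G) : Prop where
  normal : A.Normal
  lin : A ≤ Lin G K W
  sc : Sc G K W ≤ A
  comm : ∀ a ∈ A, ∀ b ∈ A, ∃ c : K, ∀ w : W, a • b • w = c • b • a • w
  nd : ∀ B : Subgroup G, B.Normal → B ≤ A → ∀ b ∈ B, (∀ b' ∈ B, b * b' = b' * b) → b ∈ Sc G K W
  cent : ∀ g ∈ Lin G K W, (∀ a ∈ A, ∃ c : K, ∀ w : W, g • a • w = c • a • g • w) → g ∈ A

end groups

/-- Parity of the number of common bits among the lowest `r` bits. -/
def dot : ℕ → ℕ → ℕ → Bool
  | 0, _, _ => false
  | r + 1, t, s => xor (dot r t s) (t.testBit r && s.testBit r)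

/-- The sign attached to a bit. -/
def sg (R : Type) [Ring R] (b : Bool) : R := if b then -1 else 1

/-- A family of operators multiplying like the Pauli operators `X ^ s * Z ^ t` on `r` qubits. -/
structure PauliSys (K R : Type) [Field K] [Ring R] [Algebra K R] (r : ℕ) (P : ℕ → ℕ → R) :
    Prop where
  law : ∀ s t s' t', P s t * P s' t' = sg K (dot r t s') • P (s ^^^ s') (t ^^^ t')
  one : P 0 0 = 1
  low : ∀ s t, P s t = P (s % 2 ^ r) (t % 2 ^ r)

/-- Translation by `s` on `r`-bit numbers. -/
def fx (r s : ℕ) (k : Fin (2 ^ r)) : Fin (2 ^ r) :=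
  ⟨k.1 ^^^ (s % 2 ^ r), Nat.xor_lt_two_pow k.2 (Nat.mod_lt _ (Nat.two_pow_pos r))⟩

/-- The standard Pauli matrices. -/
def PM (R : Type) [Ring R] (r s t : ℕ) : Matrix (Fin (2 ^ r)) (Fin (2 ^ r)) R :=
  fun i j => if i = fx r s j then sg R (dot r t j) else 0

theorem dot_comm (r t s : ℕ) : dot r t s = dot r s t := by
  induction r with
  | zero => rfl
  | succ r ih => simp only [dot, ih, Bool.and_comm]

theorem dot_xor (r t s s' : ℕ) : dot r t (s ^^^ s') = xor (dot r t s) (dot r t s') := by
  induction r with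
  | zero => rfl
  | succ r ih =>
    simp only [dot, ih, Nat.testBit_xor]
    cases dot r t s <;> cases dot r t s' <;> cases t.testBit r <;> cases s.testBit r <;>
      cases s'.testBit r <;> rfl

theorem xor_dot (r t t' s : ℕ) : dot r (t ^^^ t') s = xor (dot r t s) (dot r t' s) := by
  rw [dot_comm, dot_xor, dot_comm r s, dot_comm r s]

theorem dot_zero (r t : ℕ) : dot r t 0 = false := by
  induction r with
  | zero => rfl
  | succ r ih => simp [dot, ih]

theorem zero_dot (r t : ℕ) : dot r 0 t = false := by rw [dot_comm, dot_zero]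

theorem dot_congr (r t s s' : ℕ) (h : ∀ i < r, s.testBit i = s'.testBit i) :
    dot r t s = dot r t s' := by
  induction r with
  | zero => rfl
  | succ r ih => simp only [dot, ih (fun i hi => h i (by omega)), h r (by omega)]

theorem dot_mod (r t s : ℕ) : dot r t (s % 2 ^ r) = dot r t s :=
  dot_congr r t _ _ (fun i hi => by simp [Nat.testBit_mod_two_pow, hi])

theorem mod_dot (r t s : ℕ) : dot r (t % 2 ^ r) s = dot r t s := by
  rw [dot_comm, dot_mod, dot_comm]

theorem dot_two_pow (r t i : ℕ) : dot r t (2 ^ i) = (decide (i < r) && t.testBit i) := by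
  induction r with
  | zero => simp [dot]
  | succ r ih =>
    simp only [dot, ih, Nat.testBit_two_pow]
    rcases lt_trichotomy i r with h | h | h
    · simp [h, h.ne, Nat.lt_succ_of_lt h]
    · simp [h]
    · simp [h.ne', not_lt.2 h.le, show ¬ i < r + 1 by omega]

theorem sg_xor (R : Type) [Ring R] (a b : Bool) : sg R (xor a b) = sg R a * sg R b := by
  cases a <;> cases b <;> simp [sg]

theorem sg_mul_self (R : Type) [Ring R] (a : Bool) : sg R a * sg R a = 1 := by
  cases a <;> simp [sg]

theorem sg_false (R : Type) [Ring R] : sg R false = 1 := rfl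

theorem sg_ne_zero (K : Type) [Field K] (a : Bool) : sg K a ≠ 0 := by
  cases a <;> simp [sg]

theorem sg_inj (K : Type) [Field K] (h2 : (2 : K) ≠ 0) {a b : Bool} (h : sg K a = sg K b) :
    a = b := by
  cases a <;> cases b <;> simp only [sg, if_true, Bool.false_eq_true, if_false] at h
  · rfl
  · exact absurd (by linear_combination h) h2
  · exact absurd (by linear_combination -h) h2
  · rfl

/-- Induction over `r`-bit numbers along `xor`. -/
theorem xor_induction (r : ℕ) (p : ℕ → Prop) (h0 : p 0) (h1 : ∀ i < r, p (2 ^ i))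
    (hx : ∀ a < 2 ^ r, ∀ b < 2 ^ r, p a → p b → p (a ^^^ b)) : ∀ s < 2 ^ r, p s := by
  have key : ∀ j ≤ r, ∀ s < 2 ^ j, p s := by
    intro j
    induction j with
    | zero =>
      intro _ s hs
      rwa [show s = 0 by omega]
    | succ j ih =>
      intro hj s hs
      by_cases h : s < 2 ^ j
      · exact ih (by omega) s h
      · have h2 : s - 2 ^ j < 2 ^ j := by rw [pow_succ] at hs; omega
        have h3 : s = (s - 2 ^ j) ^^^ 2 ^ j := by
          apply Nat.eq_of_testBit_eq
          intro i
          conv_lhs => rw [show s = 2 ^ j + (s - 2 ^ j) by omega]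
          rw [Nat.testBit_xor, Nat.testBit_two_pow]
          rcases lt_trichotomy i j with h4 | h4 | h4
          · rw [Nat.testBit_two_pow_add_gt h4]; simp [h4.ne']
          · subst h4
            rw [Nat.testBit_two_pow_add_eq, Nat.testBit_lt_two_pow h2]; simp
          · have h5 : 2 ^ (j + 1) ≤ 2 ^ i := Nat.pow_le_pow_right (by norm_num) h4
            rw [Nat.testBit_lt_two_pow (by omega), Nat.testBit_lt_two_pow (by omega)]
            simp [h4.ne]
        have h6 : 2 ^ j < 2 ^ r := Nat.pow_lt_pow_right (by norm_num) (by omega)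
        rw [h3]
        exact hx _ (by omega) _ h6 (ih (by omega) _ h2) (h1 j (by omega))
  exact key r le_rfl

end Pool.Agent.Lib.MP_39e620_al.H66
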