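import Pool.Agent.Lib.MP_39e620_al.H66Struct
import Pool.Agent.Lib.MP_39e620_al.H66Pauli

set_option autoImplicit false

namespace Pool.Agent.Lib.MP_39e620_al.H66

open Full

namespace Four

/-- The commutation sign of two 4-bit labels. -/
def om (u v : ℕ) : Bool := xor (dot 2 (u / 4) (v % 4)) (dot 2 (v / 4) (u % 4))

/-- The xor-linear extension of a tuple. -/
def ext (p : ℕ × ℕ × ℕ × ℕ) (u : ℕ) : ℕ :=
  (if u.testBit 0 then p.1 else 0) ^^^ (if u.testBit 1 then p.2.1 else 0) ^^^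
    (if u.testBit 2 then p.2.2.1 else 0) ^^^ (if u.testBit 3 then p.2.2.2 else 0)

/-- The symplectic tuples. -/
def Sp : List (ℕ × ℕ × ℕ × ℕ) :=
  (List.range 16).flatMap fun a =>
    ((List.range 16).filter fun b => om a b == om 1 2).flatMap fun b =>
      ((List.range 16).filter fun c => om a c == om 1 4 && om b c == om 2 4).flatMap fun c =>
        ((List.range 16).filter fun d =>
          om a d == om 1 8 && om b d == om 2 8 && om c d == om 4 8).map fun d => (a, b, c, d)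

/-- The `n`-th iterate of the extension fixes the four generators. -/
def per (n : ℕ) (p : ℕ × ℕ × ℕ × ℕ) : Bool :=
  (ext p)^[n] 1 == 1 && (ext p)^[n] 2 == 2 && (ext p)^[n] 4 == 4 && (ext p)^[n] 8 == 8

theorem mem_Sp {a b c d : ℕ} (ha : a < 16) (hb : b < 16) (hc : c < 16) (hd : d < 16)
    (h1 : om 1 2 = om a b) (h2 : om 1 4 = om a c) (h3 : om 2 4 = om b c) (h4 : om 1 8 = om a d)
    (h5 : om 2 8 = om b d) (h6 : om 4 8 = om c d) : (a, b, c, d) ∈ Sp := by
  simp only [Sp, List.mem_flatMap, List.mem_filter, List.mem_range, List.mem_map, Bool.and_eq_true,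
    beq_iff_eq]
  exact ⟨a, ha, b, ⟨hb, h1.symm⟩, c, ⟨hc, h2.symm, h3.symm⟩, d,
    ⟨hd, ⟨h4.symm, h5.symm⟩, h6.symm⟩, rfl⟩

theorem Sp_per : Sp.all (fun p => [1, 2, 4, 8].all fun e =>
    (ext p)^[4] e == e || (ext p)^[5] e == e || (ext p)^[6] e == e) = true := by
  decide +kernel

theorem card_T : (Sp.filter (per 4)).length = 256 := by
  decide +kernel

theorem om_sep : ∀ u < 16, ∀ v < 16, (om u 1 = om v 1 ∧ om u 2 = om v 2 ∧ om u 4 = om v 4 ∧
    om u 8 = om v 8) → u = v := by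
  decide +kernel

theorem ext_id : ∀ u < 16, ext (1, 2, 4, 8) u = u := by
  decide +kernel

theorem ext_lt {p : ℕ × ℕ × ℕ × ℕ} (h1 : p.1 < 16) (h2 : p.2.1 < 16) (h3 : p.2.2.1 < 16)
    (h4 : p.2.2.2 < 16) (u : ℕ) : ext p u < 16 := by
  refine Nat.xor_lt_two_pow (n := 4) (Nat.xor_lt_two_pow (Nat.xor_lt_two_pow ?_ ?_) ?_) ?_ <;>
    split_ifs <;> omega

theorem gcd_dvd_four (k : ℕ) : Nat.gcd (2 ^ k) 60 ∣ 4 := by
  have h1 : Nat.Coprime (Nat.gcd (2 ^ k) 60) 15 :=
    Nat.Coprime.coprime_dvd_left (Nat.gcd_dvd_left _ _) (Nat.Coprime.pow_left k (by norm_num))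
  exact h1.dvd_of_dvd_mul_right (Nat.gcd_dvd_right (2 ^ k) 60)

end Four

open Four

variable {G K W : Type} [Group G] [Finite G] [Field K] [Finite K] [CharP K 17] [AddCommGroup W]
  [Finite W] [Nontrivial W] [Module K W] [DistribMulAction G W] [FaithfulSMul G W]

/-- `g` conjugates the operator with label `u` to a multiple of the operator with label `v`. -/
def Rel4 (P : ℕ → ℕ → Module.End K W) (g : G) (u v : ℕ) : Prop :=
  ∃ c : K, c ≠ 0 ∧ ∀ w : W, g • P (u % 4) (u / 4) w = c • P (v % 4) (v / 4) (g • w)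

omit [Finite G] [Finite K] [Finite W] [FaithfulSMul G W] in
theorem Rel4.om_eq (σ : G →* (K ≃+* K))
    (hσ : ∀ (g : G) (a : K) (w : W), g • (a • w) = σ g a • g • w)
    {P : ℕ → ℕ → Module.End K W} (sys : PauliSys K (Module.End K W) 2 P) {g : G} {u v u' v' : ℕ}
    (h : Rel4 P g u v) (h' : Rel4 P g u' v') : om u u' = om v v' := by
  obtain ⟨c, hc, h⟩ := h
  obtain ⟨c', hc', h'⟩ := h'
  obtain ⟨w, hw⟩ := exists_ne (0 : W)
  have inj : ∀ s t (x : W), P s t x = 0 → x = 0 := by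
    intro s t x hx
    have e := DFunLike.congr_fun (sys.sq s t) x
    rw [Module.End.mul_apply, hx, map_zero, LinearMap.smul_apply, Module.End.one_apply] at e
    exact (smul_eq_zero.1 e.symm).resolve_left (sg_ne_zero K _)
  have hne : P (v' % 4) (v' / 4) (P (v % 4) (v / 4) (g • w)) ≠ 0 := fun e =>
    hw ((smul_eq_zero_iff_eq g).1 (inj _ _ _ (inj _ _ _ e)))
  have e1 := DFunLike.congr_fun (sys.swap (u % 4) (u / 4) (u' % 4) (u' / 4)) w
  have e2 := DFunLike.congr_fun (sys.swap (v % 4) (v / 4) (v' % 4) (v' / 4)) (g • w)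
  rw [← sg_xor] at e1 e2
  simp only [Module.End.mul_apply, LinearMap.smul_apply] at e1 e2
  have e3 := congrArg (fun x => g • x) e1
  have e4 : ∀ b, σ g (sg K b) = sg K b := by
    intro b
    cases b <;> simp [sg]
  simp only [hσ, h, h', map_smul, e2, e4, smul_smul] at e3
  have e5 := smul_left_injective K hne e3
  apply sg_inj K (two_ne K)
  apply mul_left_cancel₀ (mul_ne_zero hc hc')
  simp only [om]
  linear_combination -e5

omit [Finite G] [Finite K] [CharP K 17] [Finite W] [Nontrivial W] [FaithfulSMul G W] in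
theorem Rel4.one (P : ℕ → ℕ → Module.End K W) (u : ℕ) : Rel4 P (1 : G) u u :=
  ⟨1, one_ne_zero, by simp⟩

omit [Finite G] [Finite K] [CharP K 17] [Finite W] [Nontrivial W] [FaithfulSMul G W] in
theorem Rel4.mul (σ : G →* (K ≃+* K))
    (hσ : ∀ (g : G) (a : K) (w : W), g • (a • w) = σ g a • g • w)
    {P : ℕ → ℕ → Module.End K W} {g g' : G} {u v x : ℕ}
    (h : Rel4 P g u v) (h' : Rel4 P g' v x) : Rel4 P (g' * g) u x := by
  obtain ⟨c, hc, h⟩ := h
  obtain ⟨c', hc', h'⟩ := h'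
  refine ⟨σ g' c * c', mul_ne_zero ((map_ne_zero _).2 hc) hc', fun w => ?_⟩
  rw [mul_smul, h, hσ, h', mul_smul, mul_smul]

omit [Finite G] [Finite K] [CharP K 17] [Finite W] [Nontrivial W] [FaithfulSMul G W] in
theorem Rel4.xor (σ : G →* (K ≃+* K))
    (hσ : ∀ (g : G) (a : K) (w : W), g • (a • w) = σ g a • g • w)
    {P : ℕ → ℕ → Module.End K W} (sys : PauliSys K (Module.End K W) 2 P) {g : G} {u v u' v' : ℕ}
    (h : Rel4 P g u v) (h' : Rel4 P g u' v') : Rel4 P g (u ^^^ u') (v ^^^ v') := by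
  obtain ⟨c, hc, h⟩ := h
  obtain ⟨c', hc', h'⟩ := h'
  have e : ∀ (a b : ℕ) (w : W), P ((a ^^^ b) % 4) ((a ^^^ b) / 4) w =
      sg K (dot 2 (a / 4) (b % 4)) • P (a % 4) (a / 4) (P (b % 4) (b / 4) w) := by
    intro a b w
    have e1 := DFunLike.congr_fun (sys.law (a % 4) (a / 4) (b % 4) (b / 4)) w
    rw [Module.End.mul_apply, LinearMap.smul_apply] at e1
    rw [e1, smul_smul, sg_mul_self, one_smul, show 4 = 2 ^ 2 from rfl, Nat.xor_mod_two_pow,
      Nat.xor_div_two_pow]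
  refine ⟨σ g (sg K (dot 2 (u / 4) (u' % 4))) * c * c' * sg K (dot 2 (v / 4) (v' % 4)),
    mul_ne_zero (mul_ne_zero (mul_ne_zero ((map_ne_zero _).2 (sg_ne_zero K _)) hc) hc')
      (sg_ne_zero K _), fun w => ?_⟩
  rw [e, e, hσ, h, h', map_smul, smul_smul, smul_smul, smul_smul, mul_assoc _ (sg K _),
    sg_mul_self, mul_one]

omit [Finite G] [Finite K] [CharP K 17] [Finite W] [Nontrivial W] [FaithfulSMul G W] in
theorem Rel4.ite {P : ℕ → ℕ → Module.End K W} (sys : PauliSys K (Module.End K W) 2 P) {g : G}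
    {u v : ℕ} (h : Rel4 P g u v) (b : Bool) :
    Rel4 P g (if b then u else 0) (if b then v else 0) := by
  cases b
  · exact ⟨1, one_ne_zero, by simp [sys.one]⟩
  · exact h

theorem reps42 (σ : G →* (K ≃+* K))
    (hσ : ∀ (g : G) (a : K) (w : W), g • (a • w) = σ g a • g • w) {A : Subgroup G}
    (hA : Str G K W A) {P : ℕ → ℕ → Module.End K W} (sys : PauliSys K (Module.End K W) 2 P)
    (memA : ∀ s t, ∃ a ∈ A, ∃ c : K, c ≠ 0 ∧ ∀ w, P s t w = c • a • w)
    (span : ∀ a ∈ A, ∃ s < 2 ^ 2, ∃ t < 2 ^ 2, ∃ c : K, ∀ w, a • w = c • P s t w)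
    (τ : K ≃+* K) : ∃ Y : Finset G, Y.card ≤ 4096 ∧
      ∀ g : G, Two g → σ g = τ → ∃ y ∈ Y, ∃ c : K, ∀ w : W, g • w = c • y • w := by
  classical
  have span' : ∀ a ∈ A, ∃ v < 16, ∃ c : K, ∀ w, a • w = c • P (v % 4) (v / 4) w := by
    intro a ha
    obtain ⟨s, hs, t, ht, c, hc⟩ := span a ha
    refine ⟨s + 4 * t, by omega, c, ?_⟩
    rw [show (s + 4 * t) % 4 = s by omega, show (s + 4 * t) / 4 = t by omega]
    exact hc
  have hex : ∀ (g : G) (u : ℕ), ∃ v < 16, Rel4 P g u v := by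
    intro g u
    obtain ⟨a, ha, c, hc, h⟩ := memA (u % 4) (u / 4)
    obtain ⟨v, hv, d, hd⟩ := span' _ (hA.normal.conj_mem a ha g)
    refine ⟨v, hv, σ g c * d, mul_ne_zero ((map_ne_zero _).2 hc) ?_, fun w => ?_⟩
    · rintro rfl
      obtain ⟨w, hw⟩ := exists_ne (0 : W)
      have := hd w
      rw [zero_smul, smul_eq_zero_iff_eq] at this
      exact hw this
    · rw [h, hσ, mul_smul, ← hd, mul_smul, mul_smul, inv_smul_smul]
  choose θ hθ hR using hex
  let tup : G → ℕ × ℕ × ℕ × ℕ := fun g => (θ g 1, θ g 2, θ g 4, θ g 8)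
  have hom : ∀ g u u', om u u' = om (θ g u) (θ g u') := fun g u u' =>
    (hR g u).om_eq σ hσ sys (hR g u')
  have hSp : ∀ g, tup g ∈ Sp := fun g =>
    mem_Sp (hθ g 1) (hθ g 2) (hθ g 4) (hθ g 8) (hom ..) (hom ..) (hom ..) (hom ..) (hom ..) (hom ..)
  have hext : ∀ g, ∀ u < 16, Rel4 P g u (ext (tup g) u) := by
    intro g u hu
    have := ((((hR g 1).ite sys (u.testBit 0)).xor σ hσ sys ((hR g 2).ite sys (u.testBit 1))).xor
      σ hσ sys ((hR g 4).ite sys (u.testBit 2))).xor σ hσ sys ((hR g 8).ite sys (u.testBit 3))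
    have e := ext_id u hu
    unfold ext at e
    rw [e] at this
    exact this
  have hiter : ∀ g, ∀ u < 16, ∀ n, (ext (tup g))^[n] u < 16 ∧
      Rel4 P (g ^ n) u ((ext (tup g))^[n] u) := by
    intro g u hu n
    induction n with
    | zero => exact ⟨hu, by rw [pow_zero]; exact Rel4.one P u⟩
    | succ n ih =>
      rw [Function.iterate_succ_apply', pow_succ']
      exact ⟨ext_lt (hθ g 1) (hθ g 2) (hθ g 4) (hθ g 8) _, ih.2.mul σ hσ (hext g _ ih.1)⟩
  have hT : ∀ g, Two g → tup g ∈ Sp.filter (per 4) := by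
    rintro g ⟨k, hk⟩
    have h1 : ∀ u < 16, (ext (tup g))^[60] u = u → (ext (tup g))^[4] u = u := by
      intro u hu h60
      obtain ⟨h2, h3⟩ := hiter g u hu (2 ^ k)
      rw [hk] at h3
      have h4 : ∀ e, om u e = om ((ext (tup g))^[2 ^ k] u) e := fun e =>
        h3.om_eq σ hσ sys (Rel4.one P e)
      have h5 : Function.IsPeriodicPt (ext (tup g)) (2 ^ k) u :=
        (om_sep u hu _ h2 ⟨h4 1, h4 2, h4 4, h4 8⟩).symm
      exact (h5.gcd h60).trans_dvd (gcd_dvd_four k)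
    have h6 : ∀ e ∈ [1, 2, 4, 8], (ext (tup g))^[60] e = e := by
      intro e he
      have h7 := List.all_eq_true.1 (List.all_eq_true.1 Sp_per _ (hSp g)) e he
      simp only [Bool.or_eq_true, beq_iff_eq] at h7
      rcases h7 with (h7 | h7) | h7 <;>
        exact Function.IsPeriodicPt.trans_dvd (f := ext (tup g)) h7 (by norm_num)
    refine List.mem_filter.2 ⟨hSp g, ?_⟩
    simp only [per, Bool.and_eq_true, beq_iff_eq]
    exact ⟨⟨⟨h1 1 (by norm_num) (h6 1 (by simp)), h1 2 (by norm_num) (h6 2 (by simp))⟩,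
      h1 4 (by norm_num) (h6 4 (by simp))⟩, h1 8 (by norm_num) (h6 8 (by simp))⟩
  have hy : ∀ p : ℕ × ℕ × ℕ × ℕ, ∃ y : G, (∃ g : G, σ g = τ ∧ tup g = p) → σ y = τ ∧ tup y = p := by
    intro p
    by_cases h : ∃ g : G, σ g = τ ∧ tup g = p
    · exact ⟨h.choose, fun _ => h.choose_spec⟩
    · exact ⟨1, fun h' => absurd h' h⟩
  choose yy hyy using hy
  choose aa haa cc _ hcc using memA
  refine ⟨((Sp.filter (per 4)).toFinset ×ˢ Finset.range 16).image
    (fun q => yy q.1 * aa (q.2 % 4) (q.2 / 4)), Finset.card_image_le.trans ?_, fun g hg hτ => ?_⟩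
  · rw [Finset.card_product, Finset.card_range]
    have := List.toFinset_card_le (Sp.filter (per 4))
    rw [card_T] at this
    omega
  · obtain ⟨hy1, hy2⟩ := hyy (tup g) ⟨g, hτ, rfl⟩
    set y := yy (tup g) with hydef
    have hlin : y⁻¹ * g ∈ Lin G K W := by
      rw [mem_Lin_iff hσ, map_mul, map_inv, hy1, hτ, inv_mul_cancel]
    have hx : y⁻¹ * g ∈ A := by
      refine hA.cent _ hlin (fun a ha => ?_)
      obtain ⟨u, hu, e, he⟩ := span' a ha
      obtain ⟨c, -, h1⟩ := hext g u hu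
      obtain ⟨c', hc', h2⟩ := hext y u hu
      rw [hy2] at h2
      refine ⟨σ y⁻¹ (c / c'), fun w => ?_⟩
      have h3 : g • P (u % 4) (u / 4) w = (c / c') • y • P (u % 4) (u / 4) ((y⁻¹ * g) • w) := by
        rw [h1, h2, smul_smul y, mul_inv_cancel_left, smul_smul, div_mul_cancel₀ _ hc']
      rw [he, hlin e, he, smul_comm _ e, mul_smul y⁻¹ g (P _ _ w), h3, hσ, inv_smul_smul]
    obtain ⟨v, hv, e, he⟩ := span' _ hx
    have hm := hT g hg
    generalize Sp.filter (per 4) = T at hm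
    refine ⟨y * aa (v % 4) (v / 4), Finset.mem_image_of_mem (a := (tup g, v)) _
      (Finset.mem_product.2 ⟨List.mem_toFinset.2 hm, Finset.mem_range.2 hv⟩),
      σ y (e * cc (v % 4) (v / 4)), fun w => ?_⟩
    rw [mul_smul y, ← hσ, mul_smul, ← hcc, ← he, smul_smul, mul_inv_cancel_left]

end Pool.Agent.Lib.MP_39e620_al.H66
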