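import Pool.Agent.Lib.MP_39e620_al.H66Two
import Pool.Agent.Lib.MP_39e620_al.H66Four
import Pool.Agent.Lib.MP_39e620_al.H66Cert23
import Pool.Agent.Lib.MP_39e620_al.H66Cert4
import Pool.Agent.Lib.MP_39e620_al.H66Cert5

set_option autoImplicit false
set_option linter.unusedSectionVars false

namespace Pool.Agent.Lib.MP_39e620_al.H66

open Full Matrix

section general

variable {G K W : Type} [Group G] [Finite G] [Field K] [Finite K] [CharP K 17] [AddCommGroup W]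
  [Finite W] [Nontrivial W] [Module K W] [DistribMulAction G W] [FaithfulSMul G W]

theorem invol_uniq {τ τ' : K ≃+* K} (h1 : τ ≠ 1) (h2 : τ * τ = 1) (h3 : τ' ≠ 1)
    (h4 : τ' * τ' = 1) : τ = τ' := by
  obtain ⟨i, -, a1, a2⟩ := invol τ h1 h2
  obtain ⟨j, -, b1, b2⟩ := invol τ' h3 h4
  have : 17 ^ i = 17 ^ j := Nat.pow_left_injective (by norm_num) (a1.symm.trans b1)
  ext a
  rw [a2, b2, this]

theorem pair_of_reps (σ : G →* (K ≃+* K))
    (hσ : ∀ (g : G) (a : K) (w : W), g • (a • w) = σ g a • g • w) (n q f T1 T bL bt : ℕ)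
    (hn : Module.finrank K W = n) (hq : Nat.card K = q) (hf : Nat.card (K ≃+* K) ≤ f) (h2 : 2 ≤ n)
    (hT : (Sc G K W).relIndex (Lin G K W) ≤ T)
    (hY : ∀ g0 : G, ∃ Y : Finset G, Y.card ≤ T1 ∧
      ∀ g : G, Two g → σ g = σ g0 → ∃ y ∈ Y, ∃ c : K, ∀ w : W, g • w = c • y • w)
    (hbL : n * q ^ (n / 2) ≤ n / 2 * bL) (hbt : ∀ s : ℕ, q = s ^ 2 → (s + 1) * s ^ n ≤ bt)
    (hnum : 1 + T1 * bL + T1 * bt + f * (q * T) < q ^ n) : GoodPair G W := by
  subst hn hq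
  obtain ⟨YL, hL1, hL2⟩ := hY 1
  obtain ⟨Yt, ht1, ht2⟩ : ∃ Y : Finset G, Y.card ≤ T1 ∧ ∀ g : G, Two g → σ g ≠ 1 →
      σ g * σ g = 1 → ∃ y ∈ Y, ∃ c : K, ∀ w : W, g • w = c • y • w := by
    by_cases h : ∃ g0, σ g0 ≠ 1 ∧ σ g0 * σ g0 = 1
    · obtain ⟨g0, a1, a2⟩ := h
      obtain ⟨Y, b1, b2⟩ := hY g0
      exact ⟨Y, b1, fun g hg c1 c2 => b2 g hg (invol_uniq c1 c2 a1 a2)⟩
    · exact ⟨∅, by simp, fun g _ c1 c2 => absurd ⟨g, c1, c2⟩ h⟩
  refine count_pair σ hσ h2 bL bt YL Yt hbL hbt (fun g hg h => hL2 g hg (by rw [h, map_one])) ht2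
    (lt_of_le_of_lt ?_ hnum)
  have h1 := (card_G_le σ hσ).trans (Nat.mul_le_mul hf (Nat.mul_le_mul_left _ hT))
  have h3 := Nat.mul_le_mul_right bL hL1
  have h4 := Nat.mul_le_mul_right bt ht1
  omega

theorem pair_of_num (hP : Prim G K W) (n q f T bL bt : ℕ)
    (hn : Module.finrank K W = n) (hq : Nat.card K = q) (hf : Nat.card (K ≃+* K) ≤ f) (h2 : 2 ≤ n)
    (hT : (Sc G K W).relIndex (Lin G K W) ≤ T)
    (hbL : n * q ^ (n / 2) ≤ n / 2 * bL) (hbt : ∀ s : ℕ, q = s ^ 2 → (s + 1) * s ^ n ≤ bt)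
    (hnum : 1 + T * bL + T * bt + f * (q * T) < q ^ n) : GoodPair G W := by
  obtain ⟨σ, hσ⟩ := exists_sigma hP
  refine pair_of_reps σ hσ n q f T T bL bt hn hq hf h2 hT (fun g0 => ?_) hbL hbt hnum
  obtain ⟨Y, h1, h3⟩ := exists_reps hP g0
  exact ⟨Y, h1.trans hT, fun g _ h => h3 g (by
    rw [mem_Lin_iff hσ, map_mul, map_inv, h, mul_inv_cancel])⟩

theorem index_le (hP : Prim G K W) {A : Subgroup G} {r : ℕ} {P : ℕ → ℕ → Module.End K W}
    (memA : ∀ s t, ∃ a ∈ A, ∃ c : K, c ≠ 0 ∧ ∀ w, P s t w = c • a • w)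
    (span : ∀ a ∈ A, ∃ s < 2 ^ r, ∃ t < 2 ^ r, ∃ c : K, ∀ w, a • w = c • P s t w) :
    (Sc G K W).relIndex A ≤ 2 ^ (2 * r) := by
  have hU := Sc_normal hP
  choose a ha c _ hc using memA
  have h1 : (Sc G K W).relIndex A = Nat.card (A.map (QuotientGroup.mk' (Sc G K W))) := by
    rw [← Subgroup.relIndex_ker, QuotientGroup.ker_mk']
  have h2 := Nat.card_le_card_of_surjective
    (fun x : Fin (2 ^ r) × Fin (2 ^ r) => mkA (K := K) (W := W) (a x.1 x.2) (ha _ _)) (by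
      intro m
      obtain ⟨b, hb, rfl⟩ := mkA_surj m
      obtain ⟨s, hs, t, ht, d, hd⟩ := span b hb
      refine ⟨(⟨s, hs⟩, ⟨t, ht⟩), Subtype.ext ((coset_iff _ _).2 ⟨d * c s t, fun w => ?_⟩).symm⟩
      rw [hd, hc, mul_smul])
  rw [h1, four_pow]
  simpa using h2

theorem odd_not_sq (f s : ℕ) (hf : f % 2 = 1) : 17 ^ f ≠ s ^ 2 := by
  intro h
  have h1 := congrArg (fun x => x.factorization 17) h
  simp only [Nat.factorization_pow, Finsupp.smul_apply, smul_eq_mul,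
    (show Nat.Prime 17 by norm_num).factorization_self] at h1
  omega

theorem bL_three (n q : ℕ) (h2 : 2 ≤ n) : n * q ^ (n / 2) ≤ n / 2 * (3 * q ^ (n / 2)) := by
  rw [← mul_assoc]
  exact Nat.mul_le_mul_right _ (by omega)

theorem bL_two (n s : ℕ) (h2 : 2 ≤ n) (hs : 2 ≤ s) :
    n * (s ^ 2) ^ (n / 2) ≤ n / 2 * (2 * s ^ n) := by
  rw [← pow_mul, ← mul_assoc]
  rcases Nat.mod_two_eq_zero_or_one n with h | h
  · rw [show 2 * (n / 2) = n by omega]
    exact Nat.mul_le_mul_right _ (by omega)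
  · have h1 : s ^ n = s * s ^ (2 * (n / 2)) := by
      rw [← pow_succ', show 2 * (n / 2) + 1 = n by omega]
    rw [h1, ← mul_assoc]
    refine Nat.mul_le_mul_right _ ?_
    have : n / 2 * 2 * 2 ≤ n / 2 * 2 * s := Nat.mul_le_mul_left _ hs
    omega

theorem num_one (n T : ℕ) (h2 : 2 ≤ n) (h : 4 * T < 17 ^ (n - n / 2)) :
    1 + T * (3 * 17 ^ (n / 2)) + T * 0 + 1 * (17 * T) < 17 ^ n := by
  have h1 : 17 ^ n = 17 ^ (n - n / 2) * 17 ^ (n / 2) := by
    rw [← pow_add, Nat.sub_add_cancel (Nat.div_le_self _ _)]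
  have h3 : 17 ^ 1 ≤ 17 ^ (n / 2) := Nat.pow_le_pow_right (by norm_num) (by omega)
  rw [h1]
  generalize 17 ^ (n / 2) = x at *
  generalize 17 ^ (n - n / 2) = y at *
  nlinarith [Nat.mul_le_mul_right x (Nat.succ_le_of_lt h), Nat.mul_le_mul_left T h3]

theorem num_odd (n f T : ℕ) (h2 : 2 ≤ n) (hf : 3 ≤ f) (h : 7 * T ≤ 17 ^ (3 * (n - n / 2))) :
    1 + T * (3 * (17 ^ f) ^ (n / 2)) + T * 0 + f * (17 ^ f * T) < (17 ^ f) ^ n := by
  obtain ⟨e, rfl⟩ : ∃ e, f = e + 3 := ⟨f - 3, by omega⟩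
  obtain ⟨k, hk⟩ : ∃ k, n - n / 2 = k + 1 := ⟨n - n / 2 - 1, by omega⟩
  have h1 : (17 ^ (e + 3)) ^ n = (17 ^ (e + 3)) ^ (n - n / 2) * (17 ^ (e + 3)) ^ (n / 2) := by
    rw [← pow_add, Nat.sub_add_cancel (Nat.div_le_self _ _)]
  have h3 : (17 ^ (e + 3)) ^ 1 ≤ (17 ^ (e + 3)) ^ (n / 2) :=
    Nat.pow_le_pow_right (by positivity) (by omega)
  have h4 : 17 ^ e * 17 ^ (3 * (n - n / 2)) ≤ (17 ^ (e + 3)) ^ (n - n / 2) := by
    rw [← pow_add, ← pow_mul, hk]
    exact Nat.pow_le_pow_right (by norm_num) (by nlinarith [Nat.zero_le (e * k)])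
  have h5 : e + 1 ≤ 17 ^ e := Nat.lt_pow_self (by norm_num)
  have h6 : 2 ≤ 17 ^ (e + 3) := by
    have : 17 ^ 1 ≤ 17 ^ (e + 3) := Nat.pow_le_pow_right (by norm_num) (by omega)
    omega
  have h7 : 2 ≤ 17 ^ (3 * (n - n / 2)) := by
    have : 17 ^ 1 ≤ 17 ^ (3 * (n - n / 2)) := Nat.pow_le_pow_right (by norm_num) (by omega)
    omega
  rw [h1]
  rw [pow_one] at h3
  generalize (17 ^ (e + 3)) ^ (n / 2) = x at *
  generalize (17 ^ (e + 3)) ^ (n - n / 2) = y at *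
  generalize 17 ^ (e + 3) = q at *
  generalize 17 ^ (3 * (n - n / 2)) = z at *
  generalize 17 ^ e = u at *
  have a1 : (e + 6) * T + 1 ≤ y := by
    rcases Nat.eq_zero_or_pos T with h0 | h0
    · subst h0; nlinarith
    · nlinarith [Nat.mul_le_mul h5 h, Nat.zero_le (e * T)]
  nlinarith [Nat.mul_le_mul_right x a1, Nat.mul_le_mul_left ((e + 3) * T) h3]

theorem num_even (n i T : ℕ) (h2 : 2 ≤ n) (hi : 2 ≤ i) (h : 2 * T ≤ 17 ^ (2 * (n - 1))) :
    1 + T * (2 * (17 ^ i) ^ n) + T * ((17 ^ i + 1) * (17 ^ i) ^ n) + 2 * i * ((17 ^ i) ^ 2 * T) <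
      ((17 ^ i) ^ 2) ^ n := by
  obtain ⟨k, rfl⟩ : ∃ k, n = k + 1 := ⟨n - 1, by omega⟩
  have h1 : ((17 ^ i) ^ 2) ^ (k + 1) = (17 ^ i) ^ k * 17 ^ i * (17 ^ i) ^ (k + 1) := by ring
  have h3 : (17 ^ i) ^ 2 ≤ (17 ^ i) ^ (k + 1) := Nat.pow_le_pow_right (by positivity) h2
  have h4 : 17 ^ (2 * (k + 1 - 1)) ≤ (17 ^ i) ^ k := by
    rw [← pow_mul, Nat.add_sub_cancel]
    exact Nat.pow_le_pow_right (by norm_num) (Nat.mul_le_mul_right _ hi)
  have h5 : 2 * i + 4 ≤ 17 ^ i := by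
    obtain ⟨j, rfl⟩ : ∃ j, i = j + 1 := ⟨i - 1, by omega⟩
    have : j + 1 ≤ 17 ^ j := Nat.lt_pow_self (by norm_num)
    rw [pow_succ]
    omega
  have h6 : 1 ≤ (17 ^ i) ^ k := Nat.one_le_pow _ _ (by positivity)
  have h7 : 2 ≤ (17 ^ i) ^ 2 := by nlinarith
  rw [h1]
  generalize (17 ^ i) ^ (k + 1) = x at *
  generalize (17 ^ i) ^ k = y at *
  generalize (17 ^ i) ^ 2 = q at *
  generalize 17 ^ i = s at *
  have a0 : 2 * T ≤ y := h.trans h4
  have a1 : (s + 3 + 2 * i) * T + 1 ≤ y * s := by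
    rcases Nat.eq_zero_or_pos T with h0 | h0
    · subst h0; nlinarith
    · nlinarith [Nat.mul_le_mul_right s a0, Nat.mul_le_mul_right T h5]
  nlinarith [Nat.mul_le_mul_right x a1, Nat.mul_le_mul_left (2 * i * T) h3]

theorem num_two (n T : ℕ) (h2 : 2 ≤ n) (h : 21 * T ≤ 17 ^ n) (h' : 3 ≤ n ∨ T ≤ 4) :
    1 + T * (2 * 17 ^ n) + T * ((17 + 1) * 17 ^ n) + 2 * (17 ^ 2 * T) < (17 ^ 2) ^ n := by
  have h1 : (17 ^ 2) ^ n = 17 ^ n * 17 ^ n := by rw [sq, mul_pow]
  have h3 : 17 ^ 2 ≤ 17 ^ n := Nat.pow_le_pow_right (by norm_num) h2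
  rw [h1]
  rcases h' with h' | h'
  · have h4 : 17 ^ 3 ≤ 17 ^ n := Nat.pow_le_pow_right (by norm_num) h'
    generalize 17 ^ n = x at *
    rcases Nat.eq_zero_or_pos T with h0 | h0
    · subst h0; nlinarith
    · nlinarith [Nat.mul_le_mul_right x h, Nat.mul_le_mul_left T h4]
  · generalize 17 ^ n = x at *
    nlinarith [Nat.mul_le_mul_right x h', Nat.mul_le_mul_right x h3]

theorem prim_big [Group.IsSolvable G] (hG : ¬ 17 ∣ Nat.card G) (hP : Prim G K W) (f : ℕ)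
    (hf2 : 2 ≤ f) (hq : Nat.card K = 17 ^ f) (hf : Nat.card (K ≃+* K) ≤ f)
    (h2 : 2 ≤ Module.finrank K W) : GoodPair G W := by
  obtain ⟨A, hA⟩ := exists_Str hP
  obtain ⟨n, hn⟩ : ∃ n, Module.finrank K W = n := ⟨_, rfl⟩
  obtain ⟨t, ht⟩ : ∃ t, (Sc G K W).relIndex A = t := ⟨_, rfl⟩
  obtain ⟨m, hT, -, -, -, hat, b2, b2', b3, b4, b4', b5⟩ := hA.bounds hG hP n t hn ht
  rw [hn] at h2
  have hcases : n = 2 ∨ n = 3 ∨ n = 4 ∨ 5 ≤ n := by omega
  rcases Nat.mod_two_eq_zero_or_one f with hf0 | hf1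
  swap
  · refine pair_of_num hP n _ f (t * m) _ 0 hn hq hf h2 hT (bL_three n _ h2)
      (fun s hs => absurd hs (odd_not_sq f s hf1)) (num_odd n f _ h2 (by omega) ?_)
    rcases hcases with rfl | rfl | rfl | h
    · have := b2 rfl; norm_num; omega
    · have := b3 rfl; norm_num; omega
    · have := b4 rfl; norm_num; omega
    · have h1 : 17 ^ n ≤ 17 ^ (3 * (n - n / 2)) := Nat.pow_le_pow_right (by norm_num) (by omega)
      have := b5 h
      omega
  obtain ⟨i, rfl⟩ : ∃ i, f = 2 * i := ⟨f / 2, by omega⟩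
  have hq' : Nat.card K = (17 ^ i) ^ 2 := by rw [hq, mul_comm, pow_mul]
  have hs2 : 2 ≤ 17 ^ i := by
    have : 17 ^ 1 ≤ 17 ^ i := Nat.pow_le_pow_right (by norm_num) (by omega)
    omega
  have hbt : ∀ s : ℕ, (17 ^ i) ^ 2 = s ^ 2 → (s + 1) * s ^ n ≤ (17 ^ i + 1) * (17 ^ i) ^ n := by
    intro s hs
    rw [Nat.pow_left_injective (by norm_num) hs]
  by_cases hi : 2 ≤ i
  · refine pair_of_num hP n _ _ (t * m) _ _ hn hq' hf h2 hT (bL_two n _ h2 hs2) hbt
      (num_even n i _ h2 hi ?_)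
    rcases hcases with rfl | rfl | rfl | h
    · have := b2 rfl; norm_num; omega
    · have := b3 rfl; norm_num; omega
    · have := b4 rfl; norm_num; omega
    · have h1 : 17 ^ n ≤ 17 ^ (2 * (n - 1)) := Nat.pow_le_pow_right (by norm_num) (by omega)
      have := b5 h
      omega
  obtain rfl : i = 1 := by omega
  simp only [pow_one, mul_one] at hq' hs2 hbt hf
  have gen := fun T hT => pair_of_num hP n _ _ T _ _ hn hq' hf h2 hT (bL_two n _ h2 hs2) hbt
  rcases hcases with rfl | rfl | rfl | h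
  · by_cases h4 : t = 4
    · obtain ⟨r, P, sys, memA, span⟩ := exists_pauli hP A hA (fun a ha => ⟨2, by
        have := hat a ha; rwa [h4] at this⟩)
      have c1 := index_le hP memA span
      have c2 := Nat.le_of_dvd (by omega) (hn ▸ sys.dvd_finrank)
      rw [ht, h4] at c1
      have c3 : r = 1 := by
        rcases r with _ | _ | r
        · omega
        · rfl
        · have : 2 ^ 2 ≤ 2 ^ (r + 1 + 1) := Nat.pow_le_pow_right (by norm_num) (by omega)
          omega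
      subst c3
      exact pair22 hP hA sys memA span hn hq'
    · have := b2' rfl h4
      exact gen _ hT (num_two 2 _ h2 (by omega) (Or.inr this))
  · exact gen 243 (hT.trans (b3 rfl)) (by norm_num)
  · by_cases h16 : t = 16
    · obtain ⟨r, P, sys, memA, span⟩ := exists_pauli hP A hA (fun a ha => ⟨4, by
        have := hat a ha; rwa [h16] at this⟩)
      have c1 := index_le hP memA span
      have c2 := Nat.le_of_dvd (by omega) (hn ▸ sys.dvd_finrank)
      rw [ht, h16] at c1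
      have c3 : r = 2 := by
        rcases r with _ | _ | _ | r
        · omega
        · omega
        · rfl
        · have : 2 ^ 3 ≤ 2 ^ (r + 1 + 1 + 1) := Nat.pow_le_pow_right (by norm_num) (by omega)
          omega
      subst c3
      obtain ⟨σ, hσ⟩ := exists_sigma hP
      exact pair_of_reps σ hσ 4 _ _ 4096 16384 _ _ hn hq' hf h2 (hT.trans (b4 rfl))
        (fun g0 => reps42 σ hσ hA sys memA span (σ g0)) (bL_two 4 _ h2 hs2) hbt (by norm_num)
    · have := b4' rfl h16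
      exact gen _ hT (num_two 4 _ h2 (by omega) (Or.inl (by norm_num)))
  · exact gen _ hT (num_two n _ h2 (b5 h) (Or.inl (by omega)))

end general

section prime

variable {G W : Type} [Group G] [Finite G] [AddCommGroup W] [Finite W] [Nontrivial W]
  [Module F W] [DistribMulAction G W] [FaithfulSMul G W]

theorem pair_of_cliff (hP : Prim G F W) {A : Subgroup G} (hA : Str G F W A) {r : ℕ}
    {P : ℕ → ℕ → Module.End F W} (sys : PauliSys F (Module.End F W) r P)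
    (memA : ∀ s t, ∃ a ∈ A, ∃ c : F, c ≠ 0 ∧ ∀ w, P s t w = c • a • w)
    (span : ∀ a ∈ A, ∃ s < 2 ^ r, ∃ t < 2 ^ r, ∃ c : F, ∀ w, a • w = c • P s t w)
    (hn : Module.finrank F W = 2 ^ r) (hc : CliffPair r) : GoodPair G W := by
  obtain ⟨σ, hσ⟩ := exists_sigma hP
  obtain ⟨e, he⟩ := bridge σ hσ hA sys memA span hn
  obtain ⟨v1, v2, hv⟩ := hc
  have h2 : ∀ v : Fin (2 ^ r) → F, (2 : ℤ) • v = (2 : F) • v := fun v => by
    rw [← Int.cast_smul_eq_zsmul F]; rfl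
  have key : ∀ g : G, ∃ y : Matrix (Fin (2 ^ r)) (Fin (2 ^ r)) F,
      (∀ v v', g • e.symm v = (2 : ℤ) • e.symm v' → y *ᵥ v = (2 : F) • v') ∧
      (∀ z, eig W g z = eigM y z) ∧ (Two g → Two y) ∧ y *ᵥ v1 ≠ (2 : F) • v2 ∧
      (Two y → y *ᵥ v1 = (2 : F) • v1 → GoodM true y) ∧
      (Two y → y *ᵥ v2 = (2 : F) • v2 → GoodM false y) := by
    intro g
    obtain ⟨y, θ, hy, hθ, h⟩ := he g
    have h' : ∀ w, e (g • w) = y *ᵥ e w := by
      intro w
      rw [h]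
      congr 1
      funext k
      exact DFunLike.congr_fun (Subsingleton.elim (σ g).toRingHom (RingHom.id F)) _
    refine ⟨y, fun v v' hvv => ?_, fun z => ?_, ?_, hv y θ hy hθ⟩
    · have := h' (e.symm v)
      rw [hvv, map_zsmul, e.apply_symm_apply, e.apply_symm_apply, h2] at this
      exact this.symm
    · refine Nat.card_congr (e.toEquiv.subtypeEquiv (fun w => ?_))
      show _ ↔ y *ᵥ e w = z • e w
      rw [← h', ← map_zsmul, e.injective.eq_iff]
    · rintro ⟨k, hk⟩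
      have hp : ∀ j w, e (g ^ j • w) = y ^ j *ᵥ e w := by
        intro j
        induction j with
        | zero => simp
        | succ j ih => intro w; rw [pow_succ, mul_smul, ih, h', mulVec_mulVec, pow_succ]
      refine ⟨k, Matrix.ext_iff_mulVec.2 (fun v => ?_)⟩
      have := hp (2 ^ k) (e.symm v)
      rw [hk, one_smul, e.apply_symm_apply] at this
      rw [← this, one_mulVec]
  refine ⟨e.symm v1, e.symm v2, fun g hg => ?_, fun g hg hw z hz => ?_, fun g hg hw z hz => ?_⟩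
  · obtain ⟨y, a1, -, -, a2, -⟩ := key g
    exact a2 (a1 _ _ hg)
  · obtain ⟨y, a1, a2, a3, -, a4, -⟩ := key g
    rw [a2, a2]
    exact a4 (a3 hg) (a1 _ _ hw) z hz
  · obtain ⟨y, a1, a2, a3, -, -, a4⟩ := key g
    rw [a2, a2]
    exact a4 (a3 hg) (a1 _ _ hw) z hz

theorem two_pow_big (r : ℕ) : 2 * r + r * (2 * r + 1) + 2 ≤ 4 * 2 ^ r ∧
    2 * (r + 6) + (r + 6) * (2 * (r + 6) + 1) + 2 ≤ 4 * 2 ^ (r + 5) := by
  have key : ∀ r : ℕ, 2 * (r + 6) + (r + 6) * (2 * (r + 6) + 1) + 2 ≤ 4 * 2 ^ (r + 5) := by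
    intro s
    induction s with
    | zero => norm_num
    | succ s ih =>
      have : s + 5 < 2 ^ (s + 5) := Nat.lt_two_pow_self
      have h5 : 32 ≤ 2 ^ (s + 5) := by
        rw [pow_add]
        have : 1 ≤ 2 ^ s := Nat.one_le_two_pow
        omega
      have h6 : 2 ^ (s + 1 + 5) = 2 * 2 ^ (s + 5) := by ring
      nlinarith
  refine ⟨?_, key r⟩
  by_cases h : r < 6
  · interval_cases r <;> norm_num
  · obtain ⟨s, rfl⟩ : ∃ s, r = s + 6 := ⟨r - 6, by omega⟩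
    have h1 := key s
    have h6 : 2 ^ (s + 6) = 2 * 2 ^ (s + 5) := by ring
    omega

theorem prim_prime [Group.IsSolvable G] (hG : ¬ 17 ∣ Nat.card G) (hP : Prim G F W)
    (h2 : 2 ≤ Module.finrank F W) : GoodPair G W ∨ S4Data G W := by
  obtain ⟨A, hA⟩ := exists_Str hP
  obtain ⟨n, hn⟩ : ∃ n, Module.finrank F W = n := ⟨_, rfl⟩
  obtain ⟨t, ht⟩ : ∃ t, (Sc G F W).relIndex A = t := ⟨_, rfl⟩
  obtain ⟨m, hT, -, hm, haq, -⟩ := hA.bounds hG hP n t hn ht
  have hq : Nat.card F = 17 := Nat.card_zmod 17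
  obtain ⟨r, P, sys, memA, span⟩ := exists_pauli hP A hA (fun a ha => ⟨4, by
    have := haq a ha; rwa [hq] at this⟩)
  have c1 := index_le hP memA span
  rw [ht] at c1
  by_cases hsm : Module.finrank F W = 2 ^ r ∧ r ≤ 5
  · obtain ⟨h1, h5⟩ := hsm
    interval_cases r
    · omega
    · exact Or.inr (s4data hP hA sys memA span h1)
    · exact Or.inl (pair_of_cliff hP hA sys memA span h1 cliff2)
    · exact Or.inl (pair_of_cliff hP hA sys memA span h1 cliff3)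
    · exact Or.inl (pair_of_cliff hP hA sys memA span h1 cliff4)
    · exact Or.inl (pair_of_cliff hP hA sys memA span h1 cliff5)
  obtain ⟨f, -, hf1, hf2⟩ := field_data F
  obtain rfl : f = 1 := Nat.pow_right_injective (show 2 ≤ 17 by norm_num) (hf1.symm.trans hq)
  rw [hn] at h2 hsm
  refine Or.inl (pair_of_num hP n 17 1 (t * m) _ 0 hn hq hf2 h2 hT (bL_three n _ h2)
    (fun s hs => absurd hs (odd_not_sq 1 s rfl)) (num_one n _ h2 ?_))
  have h1 := hm _ c1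
  rw [mul_assoc, Nat.mul_div_cancel_left _ (by norm_num)] at h1
  have h3 : 2 * r + r * (2 * r + 1) + 2 ≤ 4 * (n - n / 2) := by
    obtain ⟨d, hd⟩ := hn ▸ sys.dvd_finrank
    by_cases hd1 : d = 1
    · rw [hd1, mul_one] at hd
      obtain ⟨s, rfl⟩ : ∃ s, r = s + 6 := ⟨r - 6, by
        have := not_and.1 hsm hd
        omega⟩
      have h4 := (two_pow_big s).2
      have h6 : 2 ^ (s + 6) = 2 * 2 ^ (s + 5) := by ring
      omega
    · have h4 := (two_pow_big r).1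
      have hd0 : d ≠ 0 := by
        rintro rfl
        omega
      have h5 : 2 ^ r * 2 ≤ 2 ^ r * d := Nat.mul_le_mul_left _ (by omega)
      omega
  calc 4 * (t * m) ≤ 2 ^ 2 * (2 ^ (2 * r) * 2 ^ (r * (2 * r + 1))) :=
        Nat.mul_le_mul_left _ (Nat.mul_le_mul c1 h1)
    _ = 2 ^ (2 * r + r * (2 * r + 1) + 2) := by ring
    _ ≤ 2 ^ (4 * (n - n / 2)) := Nat.pow_le_pow_right (by norm_num) h3
    _ = 16 ^ (n - n / 2) := by rw [pow_mul]; norm_num
    _ < 17 ^ (n - n / 2) := Nat.pow_lt_pow_left (by norm_num) (by omega)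

end prime

end Pool.Agent.Lib.MP_39e620_al.H66

namespace Pool.Agent.Lib.MP_39e620_al.Full

open H66

/-- The classification of primitive blocks. -/
theorem prim_class (G K W : Type) [Group G] [Finite G] [Group.IsSolvable G] [Field K] [Finite K]
    [CharP K 17] [AddCommGroup W] [Finite W] [Nontrivial W] [Module K W] [DistribMulAction G W]
    [FaithfulSMul G W] (hG : ¬ 17 ∣ Nat.card G) (hP : Prim G K W) :
    GoodPair G W ∨ Module.finrank K W = 1 ∨ S4Data G W := by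
  by_cases h1 : Module.finrank K W = 1
  · exact Or.inr (Or.inl h1)
  have h2 : 2 ≤ Module.finrank K W := by
    have : 0 < Module.finrank K W := Module.finrank_pos
    omega
  obtain ⟨f, hf1, hq, hf⟩ := field_data K
  by_cases hf2 : 2 ≤ f
  · exact Or.inl (prim_big hG hP f hf2 hq hf h2)
  obtain rfl : f = 1 := by omega
  let φ : F →+* K := ZMod.castHom (dvd_refl 17) K
  have hφ : Function.Surjective φ := ((Nat.bijective_iff_injective_and_card φ).2
    ⟨φ.injective, by rw [hq, Nat.card_zmod, pow_one]⟩).2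
  let _ : Module F W := Module.compHom W φ
  have hsm : ∀ (a : F) (w : W), a • w = φ a • w := fun _ _ => rfl
  have hP' : Prim G F W := by
    constructor
    · intro g
      obtain ⟨σ, hσ⟩ := hP.semi g
      refine ⟨RingEquiv.refl F, fun a w => ?_⟩
      rw [hsm, hσ, hsm]
      congr 1
      exact DFunLike.congr_fun (Subsingleton.elim (σ.toRingHom.comp φ) φ) a
    · intro B hB hl hc b hb
      obtain ⟨a, ha⟩ := hP.prim B hB (fun b hb a w => by
        obtain ⟨a, rfl⟩ := hφ a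
        exact hl b hb a w) hc b hb
      obtain ⟨a, rfl⟩ := hφ a
      exact ⟨a, ha⟩
  have hfr : Module.finrank F W = Module.finrank K W := by
    have a1 := Module.natCard_eq_pow_finrank (K := F) (V := W)
    have a2 := Module.natCard_eq_pow_finrank (K := K) (V := W)
    rw [Nat.card_zmod] at a1
    rw [hq, pow_one, a1] at a2
    exact Nat.pow_right_injective (show 2 ≤ 17 by norm_num) a2
  exact (prim_prime hG hP' (hfr ▸ h2)).imp id Or.inr

end Pool.Agent.Lib.MP_39e620_al.Full
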