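import Pool.Agent.Lib.MP_39e620_al.H66Mat

set_option autoImplicit false

namespace Pool.Agent.Lib.MP_39e620_al.H66

open Matrix Full

/-- Entry `u` of a table packed into a number. -/
def look (T u : ℕ) : ℕ := (T >>> (5 * u)) % 32

/-- Multiplication of a colour by `κ`. -/
def mulc (κ c : ℕ) : ℕ := cond (Nat.beq c 17) 17 (κ * c % 17)

/-- Backtracking over affine maps compatible with the colours. -/
def go (T1 T2 κ a0 q0 : ℕ) (cls : ℕ → List ℕ) (fin : List (ℕ × ℕ) → Bool) :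
    List ℕ → List (ℕ × ℕ) → Bool
  | [], PL => fin PL
  | a :: as, PL => (cls (mulc κ (look T1 a))).all fun q =>
      !(PL.all fun p => Nat.beq (look T2 (p.2 ^^^ (q ^^^ q0)))
          (mulc κ (look T1 (p.1 ^^^ (a ^^^ a0))))) ||
        go T1 T2 κ a0 q0 cls fin as
          (PL.map (fun p => (p.1 ^^^ (a ^^^ a0), p.2 ^^^ (q ^^^ q0))) ++ PL)

theorem go_ok (T1 T2 κ a0 k : ℕ) (cls : ℕ → List ℕ) (fin : List (ℕ × ℕ) → Bool) (φ : ℕ → ℕ)
    (haff : ∀ a b c, φ (a ^^^ (b ^^^ c)) = φ a ^^^ (φ b ^^^ φ c))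
    (hcol : ∀ x < 2 ^ k, look T2 (φ x) = mulc κ (look T1 x))
    (hcls : ∀ x, φ x ∈ cls (look T2 (φ x))) (ha0 : a0 < 2 ^ k) :
    ∀ (as : List ℕ) (PL : List (ℕ × ℕ)), (∀ a ∈ as, a < 2 ^ k) →
      (∀ p ∈ PL, p.1 < 2 ^ k ∧ p.2 = φ p.1) → go T1 T2 κ a0 (φ a0) cls fin as PL = true →
      ∃ PL' : List (ℕ × ℕ), (∀ p ∈ PL', p.2 = φ p.1) ∧ fin PL' = true := by
  intro as
  induction as with
  | nil => exact fun PL _ h h' => ⟨PL, fun p hp => (h p hp).2, h'⟩
  | cons a as ih =>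
    intro PL has hPL h
    have ha : a < 2 ^ k := has a List.mem_cons_self
    have h1 := List.all_eq_true.1 h (φ a) (by rw [← hcol a ha]; exact hcls a)
    have hlt : ∀ p ∈ PL, p.1 ^^^ (a ^^^ a0) < 2 ^ k := fun p hp =>
      Nat.xor_lt_two_pow (hPL p hp).1 (Nat.xor_lt_two_pow ha ha0)
    have h2 : (PL.all fun p => Nat.beq (look T2 (p.2 ^^^ (φ a ^^^ φ a0)))
        (mulc κ (look T1 (p.1 ^^^ (a ^^^ a0))))) = true := by
      rw [List.all_eq_true]
      intro p hp
      rw [(hPL p hp).2, ← haff, hcol _ (hlt p hp)]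
      exact Nat.beq_refl _
    rw [h2, Bool.not_true, Bool.false_or] at h1
    refine ih _ (fun b hb => has b (List.mem_cons_of_mem _ hb)) ?_ h1
    intro p hp
    rcases List.mem_append.1 hp with hp | hp
    · obtain ⟨p', hp', rfl⟩ := List.mem_map.1 hp
      exact ⟨hlt p' hp', by rw [(hPL p' hp').2, ← haff]⟩
    · exact hPL p hp

/-- The complete search. -/
def search (T1 T2 : ℕ) (cls : ℕ → List ℕ) (fin : List (ℕ × ℕ) → Bool) (a0 : ℕ) (as : List ℕ) :
    Bool :=
  [1, 4, 13, 16].all fun κ => (cls (mulc κ (look T1 a0))).all fun q0 =>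
    go T1 T2 κ a0 q0 cls fin as [(a0, q0)]

/-- The vector packed into `V`. -/
def vec (r V : ℕ) : Fin (2 ^ r) → F := fun k => (look V k : F)

/-- Coordinate `k` of a Pauli matrix applied to the packed vector. -/
def pv (r V u k : ℕ) : ℕ :=
  cond (dot r (u >>> r) (k ^^^ u % 2 ^ r)) 16 1 * look V (k ^^^ u % 2 ^ r)

theorem pv_spec (r V u : ℕ) (k : Fin (2 ^ r)) : (PP F r u *ᵥ vec r V) k = (pv r V u k : F) := by
  rw [PP, PM_mulVec, pv, Nat.cast_mul]
  congr 1
  show _ = ((cond (dot r (u >>> r) (fx r u k)) 16 1 : ℕ) : F)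
  cases dot r (u >>> r) (fx r u k) <;> rfl

/-- The colour of the point `u`. -/
def colN (r V u : ℕ) : ℕ :=
  cond (QQ r u) 17 ((∑ k ∈ Finset.range (2 ^ r), look V k * pv r V u k) ^ 4 % 17)

theorem colN_spec (r V u : ℕ) (h : QQ r u = false) :
    colN r V u < 17 ∧ (colN r V u : F) = BB r u (vec r V) ^ 4 := by
  rw [colN, h, cond_false]
  refine ⟨Nat.mod_lt _ (by norm_num), ?_⟩
  rw [ZMod.natCast_mod, Nat.cast_pow, Nat.cast_sum, Finset.sum_range, BB, dotProduct]
  congr 1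
  refine Finset.sum_congr rfl (fun k _ => ?_)
  rw [pv_spec, Nat.cast_mul]
  rfl

/-- The table `T` lists the colours and `cls` lists the colour classes. -/
def tabOK (r V T : ℕ) (cls : ℕ → List ℕ) : Bool :=
  (List.range (2 ^ (2 * r))).all fun u =>
    Nat.beq (look T u) (colN r V u) && (cls (look T u)).contains u

theorem twoF_ne : (2 : F) ≠ 0 := by decide

theorem search_ok {r V1 V2 T1 T2 : ℕ} {cls1 cls : ℕ → List ℕ} {fin : List (ℕ × ℕ) → Bool} {a0 : ℕ}
    {as : List ℕ} (h1 : tabOK r V1 T1 cls1 = true) (h2 : tabOK r V2 T2 cls = true)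
    (hs : search T1 T2 cls fin a0 as = true)
    (has : (a0 :: as).all (fun a => decide (a < 2 ^ (2 * r))) = true)
    {y : Matrix (Fin (2 ^ r)) (Fin (2 ^ r)) F} {θ : ℕ → ℕ} (hy : IsUnit y) (h : Cj r y θ)
    (hv : y *ᵥ vec r V1 = (2 : F) • vec r V2) :
    ∃ (p : ℕ) (PL : List (ℕ × ℕ)), (∀ x ∈ PL, x.2 = θ x.1 ^^^ p) ∧ fin PL = true := by
  obtain ⟨p, hp, c0, hc0, hc⟩ := h.colour twoF_ne hy
  obtain ⟨κ, hκ, hκ'⟩ := (by decide : ∀ c : F, c ≠ 0 → ∃ κ ∈ [1, 4, 13, 16], c ^ 4 = (κ : ℕ)) c0 hc0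
  have hlt : ∀ x, θ x ^^^ p < 2 ^ (2 * r) := fun x => Nat.xor_lt_two_pow (h x).1 hp
  have t1 : ∀ u < 2 ^ (2 * r), look T1 u = colN r V1 u := fun u hu =>
    Nat.eq_of_beq_eq_true (Bool.and_eq_true_iff.1
      (List.all_eq_true.1 h1 u (List.mem_range.2 hu))).1
  have t2 := fun u (hu : u < 2 ^ (2 * r)) => Bool.and_eq_true_iff.1
      (List.all_eq_true.1 h2 u (List.mem_range.2 hu))
  have hcol : ∀ x < 2 ^ (2 * r), look T2 (θ x ^^^ p) = mulc κ (look T1 x) := by
    intro x hx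
    rw [t1 x hx, Nat.eq_of_beq_eq_true (t2 _ (hlt x)).1]
    obtain ⟨e1, e2⟩ := hc x
    cases hq : QQ r x
    · obtain ⟨a1, a2⟩ := colN_spec r V1 x hq
      obtain ⟨b1, b2⟩ := colN_spec r V2 _ (e1.trans hq)
      have e3 := e2 (vec r V1)
      rw [hv, BB, mulVec_smul, dotProduct_smul, smul_dotProduct, smul_eq_mul, smul_eq_mul,
        ← mul_assoc, mul_pow, show ((2 : F) * 2) ^ 4 = 1 by decide, one_mul, ← BB, ← b2, ← a2, hκ',
        ← Nat.cast_mul, ZMod.natCast_eq_natCast_iff', Nat.mod_eq_of_lt b1] at e3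
      rw [mulc, show Nat.beq (colN r V1 x) 17 = false from
        Bool.eq_false_iff.2 (fun h => absurd (Nat.eq_of_beq_eq_true h) a1.ne), cond_false, e3]
    · rw [colN, colN, e1, hq]
      rfl
  have hcls : ∀ x, θ x ^^^ p ∈ cls (look T2 (θ x ^^^ p)) := fun x =>
    List.contains_iff_mem.1 (t2 _ (hlt x)).2
  have has' : ∀ a ∈ a0 :: as, a < 2 ^ (2 * r) := fun a ha =>
    of_decide_eq_true (List.all_eq_true.1 has a ha)
  have ha0 := has' a0 List.mem_cons_self
  have h3 := List.all_eq_true.1 (List.all_eq_true.1 hs κ hκ) (θ a0 ^^^ p) (by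
    rw [← hcol a0 ha0]; exact hcls a0)
  refine ⟨p, go_ok T1 T2 κ a0 (2 * r) cls fin (fun x => θ x ^^^ p) ?_ hcol hcls ha0 as _
    (fun a ha => has' a (List.mem_cons_of_mem _ ha)) (by simp [ha0]) h3⟩
  intro a b c
  rw [h.xor twoF_ne hy, h.xor twoF_ne hy]
  apply Nat.eq_of_testBit_eq
  intro i
  simp only [Nat.testBit_xor]
  cases (θ a).testBit i <;> cases (θ b).testBit i <;> cases (θ c).testBit i <;>
    cases p.testBit i <;> rfl

/-- The linear part read off from a list of values of the affine map. -/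
def th (PL : List (ℕ × ℕ)) (u : ℕ) : ℕ := (PL.lookup u).getD 0 ^^^ (PL.lookup 0).getD 0

theorem th_ok {θ : ℕ → ℕ} {p : ℕ} {PL : List (ℕ × ℕ)} (h0 : θ 0 = 0)
    (h : ∀ x ∈ PL, x.2 = θ x.1 ^^^ p) (hz : (PL.lookup 0).isSome = true) {u : ℕ}
    (hu : (PL.lookup u).isSome = true) : th PL u = θ u := by
  have key : ∀ u, (PL.lookup u).isSome = true → (PL.lookup u).getD 0 = θ u ^^^ p := by
    intro u hu
    obtain ⟨l, hl⟩ := Option.isSome_iff_exists.1 hu
    obtain ⟨l1, l2, h1, -⟩ := List.lookup_eq_some_iff.1 hl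
    rw [hl, Option.getD_some]
    exact h (u, l) (by rw [h1]; simp)
  rw [th, key u hu, key 0 hz, h0, Nat.zero_xor, Nat.xor_xor_cancel_right]

/-- Size of an eigenspace. -/
noncomputable def eigM {n : Type} [Fintype n] (y : Matrix n n F) (z : ℤ) : ℕ :=
  Nat.card {v : n → F // y *ᵥ v = z • v}

/-- The conclusion wanted for a matrix. -/
def GoodM {n : Type} [Fintype n] (strict : Bool) (y : Matrix n n F) : Prop :=
  ∀ z : ℤ, (z = 8 ∨ z = -2 ∨ z = -8) → cond strict (eigM y z < eigM y 2) (eigM y z ≤ eigM y 2)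

theorem eigM_one {n : Type} [Fintype n] (y : Matrix n n F) (z : ℤ)
    (h : ∀ v, y *ᵥ v = z • v → v = 0) : eigM y z = 1 := by
  rw [eigM, Nat.card_eq_one_iff_exists]
  exact ⟨⟨0, by simp⟩, fun v => Subtype.ext (h v.1 v.2)⟩

theorem good_scalar {n : Type} [Fintype n] [DecidableEq n] [Nonempty n] :
    GoodM true ((2 : F) • (1 : Matrix n n F)) := by
  intro z hz
  have h1 : eigM ((2 : F) • (1 : Matrix n n F)) z = 1 := by
    apply eigM_one
    intro v hv
    rw [smul_mulVec, one_mulVec, ← Int.cast_smul_eq_zsmul F, ← sub_eq_zero, ← sub_smul,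
      smul_eq_zero] at hv
    refine hv.resolve_left ?_
    rcases hz with rfl | rfl | rfl <;> decide
  rw [cond_true, h1, eigM, Finite.one_lt_card_iff_nontrivial]
  have h2 : ∀ v : n → F, ((2 : F) • (1 : Matrix n n F)) *ᵥ v = (2 : ℤ) • v := by
    intro v
    rw [smul_mulVec, one_mulVec, ← Int.cast_smul_eq_zsmul F]
    rfl
  obtain ⟨a, b, hab⟩ := exists_pair_ne (n → F)
  exact ⟨⟨a, h2 a⟩, ⟨b, h2 b⟩, fun h => hab (congrArg Subtype.val h)⟩

/-- Test for matrices whose square is 4. -/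
def invOK {n : ℕ} (strict : Bool) (y : Matrix (Fin n) (Fin n) F) : Prop :=
  y * y = (4 : F) • 1 ∧ cond strict (n + 1) n ≤ 2 * (trace ((13 : F) • (y + (2 : F) • 1))).val

instance {n : ℕ} (strict : Bool) (y : Matrix (Fin n) (Fin n) F) : Decidable (invOK strict y) :=
  inferInstanceAs (Decidable (_ ∧ _))

theorem good_inv {n : ℕ} (hn : n ≤ 16) (strict : Bool) (y : Matrix (Fin n) (Fin n) F)
    (h : invOK strict y) : GoodM strict y := by
  obtain ⟨h1, h2⟩ := h
  let E : ℤ → Submodule F (Fin n → F) := fun z =>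
    LinearMap.eqLocus (Matrix.toLin' y) ((z : F) • LinearMap.id)
  have hE : ∀ z v, v ∈ E z ↔ y *ᵥ v = (z : F) • v := fun z v => Iff.rfl
  have hc : ∀ z, eigM y z = 17 ^ Module.finrank F (E z) := by
    intro z
    have h0 := Module.natCard_eq_pow_finrank (K := F) (V := E z)
    rw [Nat.card_zmod] at h0
    rw [← h0]
    refine Nat.card_congr (Equiv.subtypeEquivRight (fun v => ?_))
    rw [hE, Int.cast_smul_eq_zsmul]
  have hproj : LinearMap.IsProj (E 2) (Matrix.toLin' ((13 : F) • (y + (2 : F) • 1))) := by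
    constructor
    · intro v
      rw [hE, toLin'_apply, mulVec_mulVec, ← smul_mulVec, mul_smul_comm, mul_add, h1,
        mul_smul_comm, mul_one, smul_comm, smul_add ((2 : ℤ) : F), smul_smul, add_comm]
      rfl
    · intro v hv
      rw [hE] at hv
      rw [toLin'_apply, smul_mulVec, add_mulVec, hv, smul_mulVec, one_mulVec, ← add_smul,
        smul_smul, show (13 : F) * (((2 : ℤ) : F) + 2) = 1 by decide, one_smul]
  have htr := hproj.trace
  rw [Matrix.trace_toLin'_eq] at htr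
  have hle : Module.finrank F (E 2) ≤ n := by
    have := Submodule.finrank_le (E 2)
    rwa [Module.finrank_fin_fun] at this
  rw [htr, ZMod.val_natCast, Nat.mod_eq_of_lt (by omega)] at h2
  have hdis : Module.finrank F (E 2) + Module.finrank F (E (-2)) ≤ n := by
    have h3 := Submodule.finrank_add_finrank_le_of_disjoint (s := E 2) (t := E (-2)) (by
      rw [Submodule.disjoint_def]
      intro v h3 h4
      rw [hE] at h3 h4
      rw [h3, ← sub_eq_zero, ← sub_smul, smul_eq_zero] at h4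
      exact h4.resolve_left (by decide))
    rwa [Module.finrank_fin_fun] at h3
  have h8 : ∀ z : ℤ, (z = 8 ∨ z = -8) → Module.finrank F (E z) = 0 := by
    intro z hz
    rw [Submodule.finrank_eq_zero, eq_bot_iff]
    intro v hv
    rw [hE] at hv
    have h3 : (y * y) *ᵥ v = ((z : F) * z) • v := by
      rw [← mulVec_mulVec, hv, mulVec_smul, hv, smul_smul]
    rw [h1, smul_mulVec, one_mulVec, ← sub_eq_zero, ← sub_smul, smul_eq_zero] at h3
    refine h3.resolve_left ?_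
    rcases hz with rfl | rfl <;> decide
  intro z hz
  have key : cond strict (Module.finrank F (E z) + 1) (Module.finrank F (E z)) ≤
      Module.finrank F (E 2) := by
    rcases hz with rfl | rfl | rfl
    · rw [h8 8 (Or.inl rfl)]
      cases strict <;> simp only [cond_true, cond_false] at h2 ⊢ <;> omega
    · cases strict <;> simp only [cond_true, cond_false] at h2 ⊢ <;> omega
    · rw [h8 (-8) (Or.inr rfl)]
      cases strict <;> simp only [cond_true, cond_false] at h2 ⊢ <;> omega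
  rw [hc, hc]
  cases strict
  · exact Nat.pow_le_pow_right (by norm_num) key
  · exact Nat.pow_lt_pow_right (by norm_num) key

theorem GoodM.weak {n : Type} [Fintype n] {y : Matrix n n F} (h : GoodM true y) : GoodM false y :=
  fun z hz => le_of_lt (h z hz)

theorem Cj.zero {r : ℕ} {y : Matrix (Fin (2 ^ r)) (Fin (2 ^ r)) F} {θ : ℕ → ℕ} (hy : IsUnit y)
    (h : Cj r y θ) : θ 0 = 0 := by
  have := h.xor twoF_ne hy 0 0
  rwa [Nat.xor_self, Nat.xor_self] at this

/-- Final test: the linear part fixes the generators. -/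
def finId (r : ℕ) (PL : List (ℕ × ℕ)) : Bool :=
  (PL.lookup 0).isSome && (List.range (2 * r)).all fun j =>
    (PL.lookup (2 ^ j)).isSome && Nat.beq (th PL (2 ^ j)) (2 ^ j)

/-- The vector is not an eigenvector of a nontrivial Pauli matrix. -/
def noPauli (r V : ℕ) : Bool :=
  !(Nat.beq (look V 0 % 17) 0) && (List.range (2 ^ (2 * r))).all fun a =>
    Nat.beq a 0 || (List.range (2 ^ r)).any fun k =>
      !(Nat.beq (pv r V a k * look V 0 % 17) (pv r V a 0 * look V k % 17))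

theorem stab_id {r V T : ℕ} {cls : ℕ → List ℕ} {a0 : ℕ} {as : List ℕ}
    (h1 : tabOK r V T cls = true) (hs : search T T cls (finId r) a0 as = true)
    (has : (a0 :: as).all (fun a => decide (a < 2 ^ (2 * r))) = true) (hn : noPauli r V = true)
    {y : Matrix (Fin (2 ^ r)) (Fin (2 ^ r)) F} {θ : ℕ → ℕ} (hy : IsUnit y) (h : Cj r y θ)
    (hv : y *ᵥ vec r V = (2 : F) • vec r V) : GoodM true y := by
  obtain ⟨p, PL, hPL, hf⟩ := search_ok h1 h1 hs has hy h hv
  obtain ⟨f0, f1⟩ := Bool.and_eq_true_iff.1 hf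
  obtain ⟨n0, n1⟩ := Bool.and_eq_true_iff.1 hn
  have hp := Nat.two_pow_pos r
  obtain ⟨u, hu, c, hc⟩ := h.lift twoF_ne (one_mul 1) (fun j hj => ⟨1, by
    obtain ⟨f2, f3⟩ := Bool.and_eq_true_iff.1 (List.all_eq_true.1 f1 j (List.mem_range.2 hj))
    rw [← th_ok (h.zero hy) hPL f0 f2, Nat.eq_of_beq_eq_true f3, one_smul, one_mul, mul_one]⟩)
  rw [one_mul] at hc
  have hc0 : c ≠ 0 := by
    rintro rfl
    have : Nonempty (Fin (2 ^ r)) := ⟨⟨0, hp⟩⟩
    exact hy.ne_zero (by rw [hc, zero_smul])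
  have hk : ∀ k : Fin (2 ^ r), c * (pv r V u k : F) = 2 * (look V k : F) := by
    intro k
    have := congrFun hv k
    rwa [hc, smul_mulVec, Pi.smul_apply, pv_spec] at this
  rcases Bool.or_eq_true_iff.1 (List.all_eq_true.1 n1 u (List.mem_range.2 hu)) with h3 | h3
  · rw [Nat.eq_of_beq_eq_true h3, PP_zero] at hc
    have h4 : vec r V ⟨0, hp⟩ ≠ 0 := by
      intro h5
      have h6 : look V 0 % 17 = 0 := Nat.mod_eq_zero_of_dvd ((ZMod.natCast_eq_zero_iff _ _).1 h5)
      rw [h6] at n0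
      exact absurd n0 (by decide)
    have h5 := congrFun hv ⟨0, hp⟩
    rw [hc, smul_mulVec, one_mulVec] at h5
    have : Nonempty (Fin (2 ^ r)) := ⟨⟨0, hp⟩⟩
    rw [hc, mul_right_cancel₀ h4 h5]
    exact good_scalar
  · exfalso
    obtain ⟨k, hk1, hk2⟩ := List.any_eq_true.1 h3
    have h4 : pv r V u k * look V 0 % 17 = pv r V u 0 * look V k % 17 := by
      rw [← ZMod.natCast_eq_natCast_iff', Nat.cast_mul, Nat.cast_mul]
      apply mul_left_cancel₀ hc0
      have a1 := hk ⟨k, List.mem_range.1 hk1⟩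
      have a2 := hk ⟨0, hp⟩
      simp only at a1 a2
      linear_combination (look V 0 : F) * a1 - (look V k : F) * a2
    rw [h4, Nat.beq_refl] at hk2
    exact absurd hk2 (by decide)

/-- The matrix packed into `M`. -/
def mat (r M : ℕ) : Matrix (Fin (2 ^ r)) (Fin (2 ^ r)) F :=
  fun i j => (look M (i * 2 ^ r + j) : F)

/-- `C` induces `θ` on the generators and all multiples of `C * PP a` fixing the line are good. -/
def liftOK (r V : ℕ) (strict : Bool) (θ : ℕ → ℕ) (C D : Matrix (Fin (2 ^ r)) (Fin (2 ^ r)) F) :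
    Prop :=
  (∀ j ∈ List.range (2 * r), ∃ c : F, c • (C * PP F r (2 ^ j)) = PP F r (θ (2 ^ j)) * C) ∧
    C * D = 1 ∧ ∀ a ∈ List.range (2 ^ (2 * r)), ∀ c : F,
      c • (C *ᵥ fun k => (pv r V a k : F)) = (2 : F) • vec r V → invOK strict (c • (C * PP F r a))

instance (r V : ℕ) (strict : Bool) (θ : ℕ → ℕ) (C D : Matrix (Fin (2 ^ r)) (Fin (2 ^ r)) F) :
    Decidable (liftOK r V strict θ C D) :=
  inferInstanceAs (Decidable (_ ∧ _ ∧ _))

/-- Final test with a list of lifts. -/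
def finL (r V : ℕ) (strict : Bool) (Ls : List (ℕ × ℕ)) (PL : List (ℕ × ℕ)) : Bool :=
  ((List.range (2 ^ (2 * r))).all fun u => (PL.lookup u).isSome) &&
    (((List.range (2 ^ (2 * r))).any fun u =>
        Nat.beq ((th PL)^[6] u) u && !(Nat.beq ((th PL)^[2] u) u)) ||
      Ls.any fun L => decide (liftOK r V strict (th PL) (mat r L.1) (mat r L.2)))

theorem stab_lift {r V T : ℕ} {cls : ℕ → List ℕ} {a0 : ℕ} {as : List ℕ} {strict : Bool}
    {Ls : List (ℕ × ℕ)} (hr : 2 ^ r ≤ 16)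
    (h1 : tabOK r V T cls = true) (hs : search T T cls (finL r V strict Ls) a0 as = true)
    (has : (a0 :: as).all (fun a => decide (a < 2 ^ (2 * r))) = true)
    {y : Matrix (Fin (2 ^ r)) (Fin (2 ^ r)) F} {θ : ℕ → ℕ} (hy : Two y) (h : Cj r y θ)
    (hv : y *ᵥ vec r V = (2 : F) • vec r V) : GoodM strict y := by
  obtain ⟨k, hk⟩ := hy
  have hy : IsUnit y := IsUnit.of_pow_eq_one hk (Nat.two_pow_pos k).ne'
  obtain ⟨p, PL, hPL, hf⟩ := search_ok h1 h1 hs has hy h hv
  obtain ⟨f0, f1⟩ := Bool.and_eq_true_iff.1 hf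
  have hth : ∀ u < 2 ^ (2 * r), th PL u = θ u := fun u hu =>
    th_ok (h.zero hy) hPL (List.all_eq_true.1 f0 0 (List.mem_range.2 (Nat.two_pow_pos _)))
      (List.all_eq_true.1 f0 u (List.mem_range.2 hu))
  rcases Bool.or_eq_true_iff.1 f1 with h3 | h3
  · exfalso
    obtain ⟨u, hu, h4⟩ := List.any_eq_true.1 h3
    rw [List.mem_range] at hu
    have hit : ∀ j, (th PL)^[j] u = θ^[j] u := by
      intro j
      induction j with
      | zero => rfl
      | succ j ih =>
        rw [Function.iterate_succ_apply', Function.iterate_succ_apply', ih,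
          hth _ (h.iter_lt j u hu)]
    rw [hit, hit] at h4
    obtain ⟨h5, h6⟩ := Bool.and_eq_true_iff.1 h4
    have h7 : Function.IsPeriodicPt θ 6 u := Nat.eq_of_beq_eq_true h5
    have h8 : Function.IsPeriodicPt θ (2 ^ k) u := h.period twoF_ne _ hk u hu
    have h9 : Nat.gcd 6 (2 ^ k) ∣ 2 := by
      have : Nat.Coprime (Nat.gcd 6 (2 ^ k)) 3 :=
        Nat.Coprime.coprime_dvd_left (Nat.gcd_dvd_right _ _) (Nat.Coprime.pow_left k (by norm_num))
      exact this.dvd_of_dvd_mul_right (Nat.gcd_dvd_left 6 _)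
    have h10 : θ^[2] u = u := (h7.gcd h8).trans_dvd h9
    rw [h10, Nat.beq_refl] at h6
    exact absurd h6 (by decide)
  · obtain ⟨L, -, h4⟩ := List.any_eq_true.1 h3
    obtain ⟨l1, l2, l3⟩ := of_decide_eq_true h4
    obtain ⟨u, hu, c, hc⟩ := h.lift twoF_ne l2 (fun j hj => by
      rw [← hth _ (Nat.pow_lt_pow_right (by norm_num) hj)]
      exact l1 j (List.mem_range.2 hj))
    rw [hc] at hv ⊢
    refine good_inv hr strict _ (l3 u (List.mem_range.2 hu) c ?_)
    rw [← hv, smul_mulVec, ← mulVec_mulVec]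
    congr 2
    funext k
    exact (pv_spec r V u k).symm

theorem no_orbit {r V1 V2 T1 T2 : ℕ} {cls1 cls : ℕ → List ℕ} {a0 : ℕ}
    {as : List ℕ} (h1 : tabOK r V1 T1 cls1 = true) (h2 : tabOK r V2 T2 cls = true)
    (hs : search T1 T2 cls (fun _ => false) a0 as = true)
    (has : (a0 :: as).all (fun a => decide (a < 2 ^ (2 * r))) = true)
    {y : Matrix (Fin (2 ^ r)) (Fin (2 ^ r)) F} {θ : ℕ → ℕ} (hy : IsUnit y) (h : Cj r y θ) :
    y *ᵥ vec r V1 ≠ (2 : F) • vec r V2 := by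
  intro hv
  obtain ⟨p, PL, -, hf⟩ := search_ok h1 h2 hs has hy h hv
  exact absurd hf (by decide)

/-- A good pair of vectors against the full normaliser of the Pauli matrices. -/
def CliffPair (r : ℕ) : Prop :=
  ∃ v1 v2 : Fin (2 ^ r) → F, ∀ (y : Matrix (Fin (2 ^ r)) (Fin (2 ^ r)) F) (θ : ℕ → ℕ),
    IsUnit y → Cj r y θ → y *ᵥ v1 ≠ (2 : F) • v2 ∧
      (Two y → y *ᵥ v1 = (2 : F) • v1 → GoodM true y) ∧
      (Two y → y *ᵥ v2 = (2 : F) • v2 → GoodM false y)

end Pool.Agent.Lib.MP_39e620_al.H66
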