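import Pool.Agent.Lib.MP_39e620_al.H66Defs
import Pool.Agent.Lib.MP_39e620_al.H66Alg

set_option autoImplicit false
set_option linter.unusedSectionVars false

namespace Pool.Agent.Lib.MP_39e620_al.H66

open Full
open scoped commutatorElement

variable {G K W : Type} [Group G] [Finite G] [Field K] [Finite K] [AddCommGroup W]
  [Finite W] [Nontrivial W] [Module K W] [DistribMulAction G W] [FaithfulSMul G W]

theorem sc_uniq (g : G) {c d : K} (h : ∀ w : W, c • g • w = d • g • w) : c = d := by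
  obtain ⟨w, hw⟩ := exists_ne (0 : W)
  have := h (g⁻¹ • w)
  rw [smul_inv_smul] at this
  exact smul_left_injective K hw this

theorem sc_ne_zero {g y : G} {c : K} (h : ∀ w : W, g • w = c • y • w) : c ≠ 0 := by
  rintro rfl
  obtain ⟨w, hw⟩ := exists_ne (0 : W)
  have := h w
  rw [zero_smul, smul_eq_zero_iff_eq] at this
  exact hw this

theorem exists_sigma (hP : Prim G K W) : ∃ σ : G →* (K ≃+* K),
    ∀ (g : G) (a : K) (w : W), g • (a • w) = σ g a • g • w := by
  choose σ hσ using hP.semi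
  refine ⟨MonoidHom.mk' σ ?_, hσ⟩
  intro g h
  ext a
  apply sc_uniq (W := W) (g * h)
  intro w
  rw [← hσ, mul_smul, hσ, hσ, mul_smul]
  rfl

theorem mem_Lin_iff {σ : G →* (K ≃+* K)}
    (hσ : ∀ (g : G) (a : K) (w : W), g • (a • w) = σ g a • g • w) (g : G) :
    g ∈ Lin G K W ↔ σ g = 1 := by
  constructor
  · intro h
    ext a
    apply sc_uniq (W := W) g
    intro w
    rw [← hσ, h]
    rfl
  · intro h a w
    rw [hσ, h]
    rfl

theorem Sc_le_Lin : Sc G K W ≤ Lin G K W := by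
  rintro g ⟨c, hc⟩ a w
  rw [hc, hc, smul_comm]

theorem Sc_normal (hP : Prim G K W) : (Sc G K W).Normal := by
  refine ⟨?_⟩
  rintro u ⟨c, hc⟩ g
  obtain ⟨σ, hσ⟩ := hP.semi g
  exact ⟨σ c, fun w => by rw [mul_smul, mul_smul, hc, hσ, smul_inv_smul]⟩

theorem Lin_normal (hP : Prim G K W) : (Lin G K W).Normal := by
  obtain ⟨σ, hσ⟩ := exists_sigma hP
  have : Lin G K W = σ.ker := by
    ext g
    rw [mem_Lin_iff hσ, MonoidHom.mem_ker]
  rw [this]
  infer_instance

section quot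

variable [(Sc G K W).Normal]

theorem coset_iff (x y : G) : (x : G ⧸ Sc G K W) = y ↔ ∃ c : K, ∀ w : W, x • w = c • y • w := by
  rw [QuotientGroup.eq_iff_div_mem, div_eq_mul_inv]
  constructor
  · rintro ⟨c, hc⟩
    refine ⟨c, fun w => ?_⟩
    rw [← hc, mul_smul, inv_smul_smul]
  · rintro ⟨c, hc⟩
    refine ⟨c, fun w => ?_⟩
    rw [mul_smul, hc, smul_inv_smul]

theorem comm_iff (x y : G) : Commute (x : G ⧸ Sc G K W) y ↔
    ∃ c : K, ∀ w : W, x • y • w = c • y • x • w := by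
  simp only [← mul_smul]
  rw [← coset_iff]
  rfl

/-- The class of `a` in the image of `A` modulo scalars. -/
def mkA {A : Subgroup G} (a : G) (ha : a ∈ A) : A.map (QuotientGroup.mk' (Sc G K W)) :=
  ⟨a, Subgroup.mem_map_of_mem _ ha⟩

theorem mkA_surj {A : Subgroup G} (m : A.map (QuotientGroup.mk' (Sc G K W))) :
    ∃ a, ∃ ha : a ∈ A, mkA a ha = m := by
  obtain ⟨_, a, ha, rfl⟩ := m
  exact ⟨a, ha, rfl⟩

theorem exists_beta (A : Subgroup G) (hl : A ≤ Lin G K W)
    (hc : ∀ a ∈ A, ∀ b ∈ A, ∃ c : K, ∀ w : W, a • b • w = c • b • a • w)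
    (hn : ∀ b ∈ A, (∀ b' ∈ A, b * b' = b' * b) → b ∈ Sc G K W) :
    ∃ β : A.map (QuotientGroup.mk' (Sc G K W)) →* A.map (QuotientGroup.mk' (Sc G K W)) →* Kˣ,
      (∀ a ha b hb, ∀ w : W, a • b • w = (β (mkA a ha) (mkA b hb) : K) • b • a • w) ∧
      (∀ a, (∀ b, β a b = 1) → a = 1) ∧ (∀ b, (∀ a, β a b = 1) → b = 1) := by
  have hrel : ∀ m m' : A.map (QuotientGroup.mk' (Sc G K W)), ∃ c : Kˣ, ∀ a ha b hb,
      mkA a ha = m → mkA b hb = m' → ∀ w : W, a • b • w = (c : K) • b • a • w := by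
    intro m m'
    obtain ⟨a0, ha0, rfl⟩ := mkA_surj m
    obtain ⟨b0, hb0, rfl⟩ := mkA_surj m'
    obtain ⟨c, hc0⟩ := hc a0 ha0 b0 hb0
    have hc1 : c ≠ 0 := sc_ne_zero (g := a0 * b0) (y := b0 * a0) (W := W) (by
      simpa only [mul_smul] using hc0)
    refine ⟨Units.mk0 c hc1, fun a ha b hb h1 h2 w => ?_⟩
    obtain ⟨d, hd⟩ := (coset_iff a a0).1 (congrArg Subtype.val h1)
    obtain ⟨e, he⟩ := (coset_iff b b0).1 (congrArg Subtype.val h2)
    rw [hd, he, he, hd, hl ha0, hl hb0, hc0, Units.val_mk0]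
    simp only [smul_smul]
    congr 1
    ring
  choose β hβ using hrel
  have hβ' : ∀ a ha b hb, ∀ w : W, a • b • w = (β (mkA a ha) (mkA b hb) : K) • b • a • w :=
    fun a ha b hb => hβ _ _ a ha b hb rfl rfl
  have h1 : ∀ m m' m'', β m (m' * m'') = β m m' * β m m'' := by
    intro m m' m''
    obtain ⟨a, ha, rfl⟩ := mkA_surj m
    obtain ⟨b, hb, rfl⟩ := mkA_surj m'
    obtain ⟨c, hc, rfl⟩ := mkA_surj m''
    apply Units.ext
    apply sc_uniq (W := W) (b * c * a)
    intro w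
    have := hβ _ (mkA b hb * mkA c hc) a ha (b * c) (A.mul_mem hb hc) rfl rfl w
    rw [mul_smul, ← this, mul_smul, mul_smul, hβ' a ha b hb, hβ' a ha c hc, hl hb,
      smul_smul, Units.val_mul]
  have h2 : ∀ m m' m'', β (m * m') m'' = β m m'' * β m' m'' := by
    intro m m' m''
    obtain ⟨a, ha, rfl⟩ := mkA_surj m
    obtain ⟨b, hb, rfl⟩ := mkA_surj m'
    obtain ⟨c, hc, rfl⟩ := mkA_surj m''
    apply Units.ext
    apply sc_uniq (W := W) (c * (a * b))
    intro w
    have := hβ (mkA a ha * mkA b hb) _ (a * b) (A.mul_mem ha hb) c hc rfl rfl w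
    rw [mul_smul, ← this, mul_smul, mul_smul, hβ' b hb c hc, hl ha, hβ' a ha c hc,
      smul_smul, Units.val_mul, mul_comm]
  refine ⟨MonoidHom.mk' (fun m => MonoidHom.mk' (β m) (h1 m)) (fun m m' => MonoidHom.ext
    (h2 m m')), hβ', ?_, ?_⟩
  · intro m hm
    obtain ⟨a, ha, rfl⟩ := mkA_surj m
    apply Subtype.ext
    refine (QuotientGroup.eq_one_iff a).2 (hn a ha (fun b hb => ?_))
    apply eq_of_smul_eq_smul (α := W)
    intro w
    have h3 : β (mkA a ha) (mkA b hb) = 1 := hm _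
    rw [mul_smul, mul_smul, hβ' a ha b hb, h3, Units.val_one, one_smul]
  · intro m hm
    obtain ⟨a, ha, rfl⟩ := mkA_surj m
    apply Subtype.ext
    refine (QuotientGroup.eq_one_iff a).2 (hn a ha (fun b hb => ?_))
    apply eq_of_smul_eq_smul (α := W)
    intro w
    have h3 : β (mkA b hb) (mkA a ha) = 1 := hm _
    rw [mul_smul, mul_smul, hβ' b hb a ha, h3, Units.val_one, one_smul]

end quot

theorem exists_Str [Group.IsSolvable G] (hP : Prim G K W) : ∃ A : Subgroup G, Str G K W A := by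
  classical
  have hU := Sc_normal hP
  have hL := Lin_normal hP
  obtain ⟨A, ⟨hAn, hAl, hAs, hAc⟩, hmax⟩ := Set.exists_max_image
    {A : Subgroup G | A.Normal ∧ A ≤ Lin G K W ∧ Sc G K W ≤ A ∧
      ∀ a ∈ A, ∀ b ∈ A, Commute (a : G ⧸ Sc G K W) b} (fun A => Nat.card A) (Set.toFinite _)
    ⟨Sc G K W, hU, Sc_le_Lin, le_rfl, fun a ha b _ => by
      rw [(QuotientGroup.eq_one_iff a).2 ha]; exact Commute.one_left _⟩
  have hcomm : ∀ a ∈ A, ∀ b ∈ A, ∃ c : K, ∀ w : W, a • b • w = c • b • a • w :=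
    fun a ha b hb => (comm_iff a b).1 (hAc a ha b hb)
  have hnd : ∀ B : Subgroup G, B.Normal → B ≤ A → ∀ b ∈ B, (∀ b' ∈ B, b * b' = b' * b) →
      b ∈ Sc G K W := by
    intro B hB hBA b hb h
    refine hP.prim (B ⊓ Subgroup.centralizer (B : Set G)) inferInstance
      (fun x hx => hAl (hBA hx.1)) (fun x hx y hy => ?_) b ⟨hb, fun y hy => (h y hy).symm⟩
    exact hy.2 x hx.1
  refine ⟨A, hAn, hAl, hAs, hcomm, hnd, ?_⟩
  have hD : ∀ d ∈ Lin G K W ⊓ Subgroup.centralizer (A : Set G), d ∈ Sc G K W := by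
    have hex : ∃ n, (Lin G K W ⊓ Subgroup.centralizer (A : Set G)) ⊓ derivedSeries G n ≤
        Sc G K W := by
      obtain ⟨n, hn⟩ := (Group.isSolvable_def G).1 inferInstance
      exact ⟨n, by rw [hn]; simp⟩
    rcases h0 : Nat.find hex with _ | k
    · have := Nat.find_spec hex
      rw [h0] at this
      intro d hd
      exact this ⟨hd, Subgroup.mem_top d⟩
    exfalso
    have h1 := Nat.find_spec hex
    rw [h0] at h1
    apply Nat.find_min hex (show k < Nat.find hex by omega)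
    set D := (Lin G K W ⊓ Subgroup.centralizer (A : Set G)) ⊓ derivedSeries G k with hDdef
    have hDn : D.Normal := inferInstance
    have hDD : ∀ x ∈ D, ∀ y ∈ D, Commute (x : G ⧸ Sc G K W) y := by
      intro x hx y hy
      have h2 : ⁅x, y⁆ ∈ Sc G K W := by
        refine h1 ⟨?_, Subgroup.commutator_mem_commutator hx.2 hy.2⟩
        rw [commutatorElement_def]
        exact Subgroup.mul_mem _ (Subgroup.mul_mem _ (Subgroup.mul_mem _ hx.1 hy.1)
          (Subgroup.inv_mem _ hx.1)) (Subgroup.inv_mem _ hy.1)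
      rw [← commutatorElement_eq_one_iff_commute]
      exact (QuotientGroup.eq_one_iff _).2 h2
    have hAD : ∀ a ∈ A, ∀ x ∈ D, Commute (a : G ⧸ Sc G K W) x := by
      intro a ha x hx
      exact congrArg QuotientGroup.mk (hx.1.2 a ha)
    have h3 := hmax (A ⊔ D) ⟨inferInstance, sup_le hAl (fun x hx => hx.1.1),
      hAs.trans le_sup_left, by
        intro x hx y hy
        obtain ⟨a, ha, d, hd, rfl⟩ := Subgroup.mem_sup_of_normal_right.1 hx
        obtain ⟨a', ha', d', hd', rfl⟩ := Subgroup.mem_sup_of_normal_right.1 hy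
        rw [QuotientGroup.mk_mul, QuotientGroup.mk_mul]
        exact ((hAc a ha a' ha').mul_right (hAD a ha d' hd')).mul_left
          ((hAD a' ha' d hd).symm.mul_right (hDD d hd d' hd'))⟩
    have h4 : A = A ⊔ D := Subgroup.eq_of_le_of_card_ge le_sup_left h3
    intro x hx
    have hxA : x ∈ A := h4 ▸ Subgroup.mem_sup_right hx
    exact hnd A hAn le_rfl x hxA (fun b hb => (hx.1.2 b hb).symm)
  obtain ⟨β, hβ, hl, -⟩ := exists_beta A hAl hcomm (hnd A hAn le_rfl)
  intro g hg hgc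
  have hrel : ∀ m : A.map (QuotientGroup.mk' (Sc G K W)), ∃ c : Kˣ, ∀ a ha,
      mkA a ha = m → ∀ w : W, g • a • w = (c : K) • a • g • w := by
    intro m
    obtain ⟨a0, ha0, rfl⟩ := mkA_surj m
    obtain ⟨c, hc0⟩ := hgc a0 ha0
    have hc1 : c ≠ 0 := sc_ne_zero (g := g * a0) (y := a0 * g) (W := W) (by
      simpa only [mul_smul] using hc0)
    refine ⟨Units.mk0 c hc1, fun a ha h1 w => ?_⟩
    obtain ⟨d, hd⟩ := (coset_iff a a0).1 (congrArg Subtype.val h1)
    rw [hd, hd, hg, hc0, Units.val_mk0, smul_comm]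
  choose χ hχ using hrel
  obtain ⟨m0, hm0⟩ := pairing_surj β hl (MonoidHom.mk' χ (by
    intro m m'
    obtain ⟨a, ha, rfl⟩ := mkA_surj m
    obtain ⟨b, hb, rfl⟩ := mkA_surj m'
    apply Units.ext
    apply sc_uniq (W := W) (a * b * g)
    intro w
    have := hχ (mkA a ha * mkA b hb) (a * b) (A.mul_mem ha hb) rfl w
    rw [mul_smul, ← this, mul_smul, mul_smul, hχ _ a ha rfl, hχ _ b hb rfl, hAl ha,
      smul_smul, Units.val_mul]))
  obtain ⟨a0, ha0, rfl⟩ := mkA_surj m0
  have h1 : a0⁻¹ * g ∈ Sc G K W := by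
    refine hD _ ⟨(Lin G K W).mul_mem ((Lin G K W).inv_mem (hAl ha0)) hg, fun a ha => ?_⟩
    apply eq_of_smul_eq_smul (α := W)
    intro w
    have h2 : β (mkA a0 ha0) (mkA a ha) = χ (mkA a ha) := DFunLike.congr_fun hm0 _
    rw [mul_smul, mul_smul, mul_smul, mul_smul, eq_inv_smul_iff, hβ a0 ha0 a ha, smul_inv_smul,
      hχ _ a ha rfl, h2]
  have := A.mul_mem ha0 (hAs h1)
  rwa [mul_inv_cancel_left] at this

/-- The linear map given by an element of `Lin`. -/
def linE (g : G) (hg : g ∈ Lin G K W) : Module.End K W where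
  toFun w := g • w
  map_add' := smul_add g
  map_smul' := hg

theorem linE_apply (g : G) (hg : g ∈ Lin G K W) (w : W) : linE g hg w = g • w := rfl

theorem Str.bounds [CharP K 17] (hG : ¬ 17 ∣ Nat.card G) (hP : Prim G K W) {A : Subgroup G}
    (hA : Str G K W A) (n t : ℕ) (hn : Module.finrank K W = n) (ht : (Sc G K W).relIndex A = t) :
    ∃ m : ℕ, (Sc G K W).relIndex (Lin G K W) ≤ t * m ∧ t ∣ n ^ 2 ∧
      (∀ c, t ≤ 2 ^ c → m ≤ 2 ^ (c * (c + 1) / 2)) ∧
      (∀ a ∈ A, a ^ (Nat.card K - 1) ∈ Sc G K W) ∧ (∀ a ∈ A, a ^ t ∈ Sc G K W) ∧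
      (n = 2 → t * m ≤ 32) ∧ (n = 2 → t ≠ 4 → t * m ≤ 4) ∧ (n = 3 → t * m ≤ 243) ∧
      (n = 4 → t * m ≤ 16384) ∧ (n = 4 → t ≠ 16 → t * m ≤ 512) ∧
      (5 ≤ n → 21 * (t * m) ≤ 17 ^ n) := by
  classical
  have hU := Sc_normal hP
  have hAn := hA.normal
  have hMn : (A.map (QuotientGroup.mk' (Sc G K W))).Normal :=
    hAn.map _ (QuotientGroup.mk'_surjective _)
  obtain ⟨β, hβ, hl, hr⟩ := exists_beta A hA.lin hA.comm (hA.nd A hAn le_rfl)
  have hrel : ∀ B : Subgroup G, (Sc G K W).relIndex B =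
      Nat.card (B.map (QuotientGroup.mk' (Sc G K W))) := by
    intro B
    rw [← Subgroup.relIndex_ker, QuotientGroup.ker_mk']
  rw [hrel] at ht
  let cn : G ⧸ Sc G K W →* MulAut (A.map (QuotientGroup.mk' (Sc G K W))) := MulAut.conjNormal
  have hcn : ∀ (g a : G) (ha : a ∈ A), cn g (mkA a ha) = mkA (g * a * g⁻¹) (hAn.conj_mem a ha g) :=
    fun g a ha => rfl
  let S := ((Lin G K W).map (QuotientGroup.mk' (Sc G K W))).map cn
  have hS : ∀ s ∈ S, ∀ a b, β (s a) (s b) = β a b := by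
    rintro _ ⟨_, ⟨g, hg, rfl⟩, rfl⟩ a b
    obtain ⟨a, ha, rfl⟩ := mkA_surj a
    obtain ⟨b, hb, rfl⟩ := mkA_surj b
    rw [QuotientGroup.mk'_apply, hcn, hcn]
    apply Units.ext
    apply sc_uniq (W := W) (g * b * g⁻¹ * (g * a * g⁻¹))
    intro w
    rw [mul_smul, ← hβ]
    simp only [mul_smul, inv_smul_smul]
    rw [hβ a ha b hb, hg]
  have hT : (Sc G K W).relIndex (Lin G K W) ≤ t * Nat.card S := by
    rw [hrel, card_split' cn, ← ht]
    refine Nat.mul_le_mul_right _ (Subgroup.card_le_of_le ?_)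
    rintro _ ⟨⟨g, hg, rfl⟩, hk⟩
    refine Subgroup.mem_map_of_mem _ (hA.cent g hg (fun a ha => (comm_iff g a).1 ?_))
    have h1 := congrArg Subtype.val (DFunLike.congr_fun (MonoidHom.mem_ker.1 hk) (mkA a ha))
    have h2 : (g : G ⧸ Sc G K W) * a * (g : G ⧸ Sc G K W)⁻¹ = a := h1
    exact mul_inv_eq_iff_eq_mul.1 h2
  have hdvd : t ∣ n ^ 2 := by
    choose r hr1 hr2 using mkA_surj (A := A) (K := K) (W := W)
    let cj0 : A.map (QuotientGroup.mk' (Sc G K W)) → Module.End K (Module.End K W) := fun m =>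
      (LinearMap.mulLeft K (linE (r m) (hA.lin (hr1 m)))).comp
        (LinearMap.mulRight K (linE (r m)⁻¹ (hA.lin (A.inv_mem (hr1 m)))))
    have hcj : ∀ a ha y w, cj0 (mkA a ha) y w = a • y (a⁻¹ • w) := by
      intro a ha y w
      obtain ⟨c, hc⟩ := (coset_iff _ _).1 (congrArg Subtype.val (hr2 (mkA a ha)))
      have hc0 := sc_ne_zero hc
      have h1 : (r (mkA a ha))⁻¹ • w = c⁻¹ • a⁻¹ • w := by
        rw [inv_smul_eq_iff, hc, hA.lin ha, smul_inv_smul, smul_inv_smul₀ hc0]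
      show r (mkA a ha) • y ((r (mkA a ha))⁻¹ • w) = _
      rw [h1, hc, map_smul, hA.lin ha, smul_inv_smul₀ hc0]
    let cj : A.map (QuotientGroup.mk' (Sc G K W)) →* Module.End K (Module.End K W) :=
      { toFun := cj0
        map_one' := by
          ext y w
          exact (hcj 1 A.one_mem y w).trans (by simp)
        map_mul' := by
          intro m m'
          obtain ⟨a, ha, rfl⟩ := mkA_surj m
          obtain ⟨b, hb, rfl⟩ := mkA_surj m'
          ext y w
          refine (hcj (a * b) (A.mul_mem ha hb) y w).trans ?_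
          rw [Module.End.mul_apply, hcj, hcj, mul_inv_rev, mul_smul, mul_smul] }
    let L : A.map (QuotientGroup.mk' (Sc G K W)) → Module.End K W ≃ₗ[K] Module.End K W := fun m =>
      LinearEquiv.ofLinearMap (LinearMap.mulLeft K (linE (r m) (hA.lin (hr1 m))))
        (LinearMap.mulLeft K (linE (r m)⁻¹ (hA.lin (A.inv_mem (hr1 m)))))
        (by ext y w; simp [linE_apply]) (by ext y w; simp [linE_apply])
    have h17 : (Nat.card (A.map (QuotientGroup.mk' (Sc G K W))) : K) ≠ 0 := by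
      rw [Ne, CharP.cast_eq_zero_iff K 17]
      exact fun h => hG ((h.trans (Subgroup.card_subgroup_dvd_card _)).trans
        (Subgroup.card_quotient_dvd_card _))
    have h1 := card_dvd_finrank β hl hr h17 cj L (by
      intro b a y
      ext w
      have h2 := hβ (r b) (hr1 b) (r a) (hr1 a) (y ((r b)⁻¹ • w))
      rw [hr2, hr2] at h2
      exact h2)
    rwa [ht, Module.finrank_linearMap, hn, ← sq] at h1
  have hn0 : n ≠ 0 := by
    rw [← hn]
    exact Module.finrank_pos.ne'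
  have h1 := pairing_aut_sq β hr S hS n hn0 (ht ▸ hdvd)
  rw [ht] at h1
  refine ⟨Nat.card S, hT, hdvd, fun c hc => pairing_aut_two β hr S hS c (ht ▸ hc), ?_, ?_, h1⟩
  · intro a ha
    have h2 : mkA (K := K) (W := W) a ha ^ (Nat.card K - 1) = 1 := by
      apply hl
      intro b
      rw [map_pow, MonoidHom.pow_apply, ← Nat.card_units, pow_card_eq_one']
    exact (QuotientGroup.eq_one_iff _).1 (congrArg Subtype.val h2)
  · intro a ha
    have h2 : mkA (K := K) (W := W) a ha ^ t = 1 := by rw [← ht, pow_card_eq_one']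
    exact (QuotientGroup.eq_one_iff _).1 (congrArg Subtype.val h2)

theorem field_data (K : Type) [Field K] [Finite K] [CharP K 17] :
    ∃ f : ℕ, 1 ≤ f ∧ Nat.card K = 17 ^ f ∧ Nat.card (K ≃+* K) ≤ f := by
  classical
  let _ := ZMod.algebra K 17
  refine ⟨Module.finrank (ZMod 17) K, Module.finrank_pos, by
    rw [Module.natCard_eq_pow_finrank (K := ZMod 17), Nat.card_zmod], ?_⟩
  have h1 := AlgEquiv.card_le (F := ZMod 17) (K := K)
  rw [← Nat.card_eq_fintype_card] at h1
  refine le_trans (Nat.card_le_card_of_injective (fun τ : K ≃+* K =>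
    (AlgEquiv.ofRingEquiv (f := τ) (fun x => DFunLike.congr_fun (Subsingleton.elim
      (τ.toRingHom.comp (algebraMap (ZMod 17) K)) (algebraMap (ZMod 17) K)) x) :
      K ≃ₐ[ZMod 17] K)) ?_) h1
  intro a b h
  ext x
  exact DFunLike.congr_fun h x

theorem card_G_le (σ : G →* (K ≃+* K))
    (hσ : ∀ (g : G) (a : K) (w : W), g • (a • w) = σ g a • g • w) :
    Nat.card G ≤ Nat.card (K ≃+* K) * (Nat.card K * (Sc G K W).relIndex (Lin G K W)) := by
  have hfin : Finite (K ≃+* K) := Finite.of_injective (fun τ : K ≃+* K => (τ : K → K))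
    DFunLike.coe_injective
  have h0 : σ.ker = Lin G K W := by
    ext g
    rw [mem_Lin_iff hσ, MonoidHom.mem_ker]
  have h1 : Nat.card G = Nat.card σ.range * Nat.card (Lin G K W) := by
    rw [← h0, Subgroup.card_eq_card_quotient_mul_card_subgroup σ.ker,
      Nat.card_congr (QuotientGroup.quotientKerEquivRange σ).toEquiv]
  have h2 := ((Sc G K W).subgroupOf (Lin G K W)).card_mul_index
  have h3 : Nat.card ((Sc G K W).subgroupOf (Lin G K W)) ≤ Nat.card K := by
    have h4 : ∀ u : (Sc G K W).subgroupOf (Lin G K W), ∃ c : K, ∀ w : W,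
      ((u : Lin G K W) : G) • w = c • w := fun u => u.2
    choose c hc using h4
    refine Nat.card_le_card_of_injective c (fun u v h => ?_)
    apply Subtype.ext
    apply Subtype.ext
    apply eq_of_smul_eq_smul (α := W)
    intro w
    rw [hc, hc, h]
  rw [h1, ← h2]
  exact Nat.mul_le_mul (Subgroup.card_le_card_group _) (Nat.mul_le_mul_right _ h3)

/-- Representatives for a coset of `Lin` modulo scalars. -/
theorem exists_reps (hP : Prim G K W) (g0 : G) : ∃ Y : Finset G,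
    Y.card ≤ (Sc G K W).relIndex (Lin G K W) ∧
      ∀ g : G, g * g0⁻¹ ∈ Lin G K W → ∃ y ∈ Y, ∃ c : K, ∀ w : W, g • w = c • y • w := by
  classical
  have hU := Sc_normal hP
  have := Fintype.ofFinite ((Lin G K W).map (QuotientGroup.mk' (Sc G K W)))
  choose r hr1 hr2 using mkA_surj (A := Lin G K W) (K := K) (W := W)
  refine ⟨Finset.univ.image (fun m => r m * g0), Finset.card_image_le.trans ?_, fun g hg => ?_⟩
  · rw [Finset.card_univ, ← Nat.card_eq_fintype_card, ← Subgroup.relIndex_ker,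
      QuotientGroup.ker_mk']
  · refine ⟨_, Finset.mem_image_of_mem _ (Finset.mem_univ (mkA _ hg)), (coset_iff _ _).1 ?_⟩
    have h1 : (r (mkA _ hg) : G ⧸ Sc G K W) = (g * g0⁻¹ : G) := congrArg Subtype.val (hr2 _)
    rw [QuotientGroup.mk_mul, h1, ← QuotientGroup.mk_mul, inv_mul_cancel_right]

end Pool.Agent.Lib.MP_39e620_al.H66
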