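import Pool.Agent.Lib.MP_39e620_al.H66Struct
import Pool.Agent.Lib.MP_39e620_al.H66Mat
import Pool.Agent.Lib.MP_39e620_al.H66Pauli
import Pool.Agent.Lib.MP_39e620_al.H66Count
import Pool.Agent.Lib.MP_39e620_al.H66Bridge

set_option autoImplicit false

namespace Pool.Agent.Lib.MP_39e620_al.H66

open Full Matrix

/-- The matrix with rows `(a, b)`, `(c, d)`. -/
def mat2 (m : F × F × F × F) : Matrix (Fin (2 ^ 1)) (Fin (2 ^ 1)) F :=
  fun i j => if i.1 = 0 then (if j.1 = 0 then m.1 else m.2.1)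
    else (if j.1 = 0 then m.2.2.1 else m.2.2.2)

set_option synthInstance.maxSize 100000 in
set_option maxRecDepth 10000 in
theorem cliff_table : ∀ a < 4, ∀ b < 4, a ≠ 0 → b ≠ 0 → a ≠ b → ∃ m ∈ L24,
    (∃ d : F, mat2 m * mat2 (d * m.2.2.2, -d * m.2.1, -d * m.2.2.1, d * m.1) = 1) ∧
    (∃ c : F, c • (mat2 m * PP F 1 1) = PP F 1 a * mat2 m) ∧
    (∃ c : F, c • (mat2 m * PP F 1 2) = PP F 1 b * mat2 m) ∧
    ∀ u < 4, ∃ m' ∈ L24, ∃ c : F, mat2 m * PP F 1 u = c • mat2 m' := by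
  decide +kernel

theorem orbit_table : ∀ m ∈ L24, ∀ s ∈ [(1 : F), -1], ∀ b ∈ [(1 : F), 2], ∀ b' ∈ [(1 : F), 2],
    m.2.2.1 + m.2.2.2 - ((m.1 + m.2.1) + 3 * m.2.1 * b * s * b') = 0 →
    m.2.2.2 * b * s - ((m.1 + m.2.1) * b' + m.2.1 * b * s) = 0 →
    m = (1, 0, 0, 1) ∧ s = 1 ∧ b = b' := by
  decide +kernel

theorem three_not_sq : ∀ z : F, z * z ≠ 3 := by decide +kernel

variable {G K W : Type} [Group G] [Finite G] [Field K] [Finite K] [CharP K 17] [AddCommGroup W]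
  [Finite W] [Nontrivial W] [Module K W] [DistribMulAction G W] [FaithfulSMul G W]

omit [Finite K] in
theorem map_PP (r u : ℕ) : (ZMod.castHom (dvd_refl 17) K).mapMatrix (PP F r u) = PP K r u := by
  ext i j
  simp only [RingHom.mapMatrix_apply, Matrix.map_apply, PP, PM]
  split_ifs
  · cases dot r (u >>> r) j <;> simp only [sg, if_true, Bool.false_eq_true, if_false, map_neg,
      map_one]
  · exact map_zero _

omit [Finite K] in
theorem map_smul_mat {n : Type} [Fintype n] [DecidableEq n] (c : F) (M : Matrix n n F) :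
    (ZMod.castHom (dvd_refl 17) K).mapMatrix (c • M) =
      ZMod.castHom (dvd_refl 17) K c • (ZMod.castHom (dvd_refl 17) K).mapMatrix M := by
  ext i j
  simp only [RingHom.mapMatrix_apply, Matrix.map_apply, Matrix.smul_apply, smul_eq_mul, map_mul]

theorem cliff1 {y : Matrix (Fin (2 ^ 1)) (Fin (2 ^ 1)) K} {θ : ℕ → ℕ} (hy : IsUnit y)
    (h : Cj 1 y θ) : ∃ c : K, ∃ m ∈ L24, ∀ v : Fin (2 ^ 1) → K,
      (y *ᵥ v) 0 = c * (ZMod.castHom (dvd_refl 17) K m.1 * v 0 +
        ZMod.castHom (dvd_refl 17) K m.2.1 * v 1) ∧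
      (y *ᵥ v) 1 = c * (ZMod.castHom (dvd_refl 17) K m.2.2.1 * v 0 +
        ZMod.castHom (dvd_refl 17) K m.2.2.2 * v 1) := by
  have h2 := two_ne K
  have hz : ∀ u < 4, θ u = 0 → u = 0 := by
    intro u hu h0
    obtain ⟨-, c, -, e⟩ := h u
    rw [h0, PP_zero, one_mul] at e
    refine PP_uniq K h2 1 u 0 hu (by norm_num) c (hy.mul_left_cancel ?_)
    rw [e, PP_zero, mul_smul_comm, mul_one]
  obtain ⟨m, -, ⟨d, hd⟩, ⟨c1, h1⟩, ⟨c2, h3⟩, h4⟩ := cliff_table (θ 1) (h 1).1 (θ 2) (h 2).1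
    (fun e => by simpa using hz 1 (by norm_num) e) (fun e => by simpa using hz 2 (by norm_num) e)
    (fun e => by
      have e1 := h.xor h2 hy 1 2
      rw [e, Nat.xor_self] at e1
      exact absurd (hz _ (by decide) e1) (by decide))
  set φ := ZMod.castHom (dvd_refl 17) K with hφ
  have hd' := congrArg φ.mapMatrix hd
  have h1' := congrArg φ.mapMatrix h1
  have h3' := congrArg φ.mapMatrix h3
  rw [map_mul, map_one] at hd'
  rw [map_smul_mat, map_mul, map_mul, map_PP, map_PP] at h1' h3'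
  obtain ⟨u, hu, c, hc⟩ := h.lift h2 hd' (by
    intro j hj
    rcases (show j = 0 ∨ j = 1 by omega) with rfl | rfl
    · exact ⟨_, h1'⟩
    · exact ⟨_, h3'⟩)
  obtain ⟨m', hm', c', h5⟩ := h4 u hu
  have h5' := congrArg φ.mapMatrix h5
  rw [map_smul_mat, map_mul, map_PP] at h5'
  rw [h5', smul_smul] at hc
  refine ⟨c * φ c', m', hm', fun v => ?_⟩
  have hs : ∀ f : Fin (2 ^ 1) → K, ∑ j, f j = f 0 + f 1 := fun f => Fin.sum_univ_two f
  rw [hc, smul_mulVec]
  constructor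
  · rw [Pi.smul_apply, smul_eq_mul, mulVec, dotProduct, hs]
    rfl
  · rw [Pi.smul_apply, smul_eq_mul, mulVec, dotProduct, hs]
    rfl

theorem s4data {G W : Type} [Group G] [Finite G] [AddCommGroup W] [Finite W] [Nontrivial W]
    [Module F W] [DistribMulAction G W] [FaithfulSMul G W] (hP : Prim G F W) {A : Subgroup G}
    (hA : Str G F W A) {P : ℕ → ℕ → Module.End F W} (sys : PauliSys F (Module.End F W) 1 P)
    (memA : ∀ s t, ∃ a ∈ A, ∃ c : F, c ≠ 0 ∧ ∀ w, P s t w = c • a • w)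
    (span : ∀ a ∈ A, ∃ s < 2 ^ 1, ∃ t < 2 ^ 1, ∃ c : F, ∀ w, a • w = c • P s t w)
    (hn : Module.finrank F W = 2) : S4Data G W := by
  obtain ⟨σ, hσ⟩ := exists_sigma hP
  obtain ⟨e, he⟩ := bridge σ hσ hA sys memA span hn
  refine ⟨e.toAddEquiv.trans (LinearEquiv.finTwoArrow F F).toAddEquiv, fun g => ?_⟩
  obtain ⟨y, θ, hy, hC, hg⟩ := he g
  obtain ⟨c, m, hm, hc⟩ := cliff1 hy hC
  refine ⟨c, m, hm, fun w => ?_⟩
  have h1 : ∀ x, σ g x = x := fun x =>
    DFunLike.congr_fun (RingHom.ext_zmod (σ g : F →+* F) (RingHom.id F)) x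
  show (e (g • w) 0, e (g • w) 1) = act c m (e w 0, e w 1)
  rw [hg, (hc _).1, (hc _).2]
  simp only [h1, ZMod.castHom_self, RingHom.id_apply, act]

theorem pair22 (hP : Prim G K W) {A : Subgroup G}
    (hA : Str G K W A) {P : ℕ → ℕ → Module.End K W} (sys : PauliSys K (Module.End K W) 1 P)
    (memA : ∀ s t, ∃ a ∈ A, ∃ c : K, c ≠ 0 ∧ ∀ w, P s t w = c • a • w)
    (span : ∀ a ∈ A, ∃ s < 2 ^ 1, ∃ t < 2 ^ 1, ∃ c : K, ∀ w, a • w = c • P s t w)
    (hn : Module.finrank K W = 2) (hK : Nat.card K = 289) : GoodPair G W := by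
  classical
  obtain ⟨σ, hσ⟩ := exists_sigma hP
  obtain ⟨e, he⟩ := bridge σ hσ hA sys memA span hn
  have h2 := two_ne K
  set φ := ZMod.castHom (dvd_refl 17) K with hφ
  have hφ3 : φ 3 = 3 := map_ofNat φ 3
  obtain ⟨ρ, hρ⟩ : IsSquare (φ 3) := by
    have := Fintype.ofFinite K
    rw [FiniteField.isSquare_iff (by rw [ringChar.eq K 17]; norm_num)
      ((map_ne_zero φ).2 (by decide)), ← Nat.card_eq_fintype_card, hK, ← map_pow,
      show (3 : F) ^ (289 / 2) = 1 by decide +kernel, map_one]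
  have hind : ∀ x y : F, φ x + φ y * ρ = 0 → x = 0 ∧ y = 0 := by
    intro x y h
    by_cases hy : y = 0
    · rw [hy, map_zero, zero_mul, add_zero] at h
      exact ⟨(map_eq_zero φ).1 h, hy⟩
    · exfalso
      have hy' : φ y ≠ 0 := (map_ne_zero φ).2 hy
      have h1 : ρ = φ (-x / y) := by
        rw [map_div₀, map_neg, eq_div_iff hy']
        linear_combination h
      rw [h1, ← map_mul] at hρ
      exact three_not_sq _ (φ.injective hρ).symm
  have hspan : ∀ k : K, ∃ x y : F, k = φ x + φ y * ρ := by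
    have hinj : Function.Injective (fun p : F × F => φ p.1 + φ p.2 * ρ) := by
      intro p q h
      obtain ⟨h1, h3⟩ := hind (p.1 - q.1) (p.2 - q.2) (by
        rw [map_sub, map_sub]
        linear_combination h)
      exact Prod.ext (sub_eq_zero.1 h1) (sub_eq_zero.1 h3)
    have hb := (Nat.bijective_iff_injective_and_card _).2 ⟨hinj, by
      rw [Nat.card_prod, Nat.card_zmod, hK]⟩
    intro k
    obtain ⟨p, hp⟩ := hb.2 k
    exact ⟨p.1, p.2, hp.symm⟩
  have hfix : ∀ g x, σ g (φ x) = φ x := fun g x =>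
    DFunLike.congr_fun (RingHom.ext_zmod ((σ g : K →+* K).comp φ) φ) x
  let wv : F → W := fun b => e.symm (fun k => if k.1 = 0 then 1 else 1 + φ b * ρ)
  have hw0 : ∀ b, e (wv b) 0 = 1 := fun b => by simp [wv]
  have hw1 : ∀ b, e (wv b) 1 = 1 + φ b * ρ := fun b => by
    simp only [wv, LinearEquiv.apply_symm_apply]
    rfl
  have key : ∀ (g : G), ∀ b ∈ [(1 : F), 2], ∀ b' ∈ [(1 : F), 2], g • wv b = (2 : ℤ) • wv b' →
      b = b' ∧ ∀ w : W, g • w = (2 : ℤ) • w := by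
    intro g b hb b' hb' hg
    obtain ⟨y, θ, hy, hC, hy'⟩ := he g
    obtain ⟨c, m, hm, hc⟩ := cliff1 hy hC
    obtain ⟨s, hs, hsρ⟩ : ∃ s ∈ [(1 : F), -1], σ g ρ = φ s * ρ := by
      have h1 : σ g ρ * σ g ρ = ρ * ρ := by rw [← map_mul, ← hρ, hfix]
      rcases mul_self_eq_mul_self_iff.1 h1 with h3 | h3
      · exact ⟨1, by simp, by rw [h3, map_one, one_mul]⟩
      · exact ⟨-1, by simp, by rw [h3, map_neg, map_one, neg_one_mul]⟩
    have e0 := congrFun (congrArg e hg) 0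
    have e1 := congrFun (congrArg e hg) 1
    rw [hy', (hc _).1, map_zsmul, Pi.smul_apply, zsmul_eq_mul] at e0
    rw [hy', (hc _).2, map_zsmul, Pi.smul_apply, zsmul_eq_mul] at e1
    simp only [hw0, hw1, map_one, map_add, map_mul, hfix, hsρ, ← hφ, Int.cast_ofNat] at e0 e1
    have hc0 : c ≠ 0 := by
      rintro rfl
      exact h2 (by linear_combination -e0)
    obtain ⟨h3, h4⟩ := hind (m.2.2.1 + m.2.2.2 - ((m.1 + m.2.1) + 3 * m.2.1 * b * s * b'))
      (m.2.2.2 * b * s - ((m.1 + m.2.1) * b' + m.2.1 * b * s)) (by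
        apply mul_left_cancel₀ hc0
        simp only [map_sub, map_add, map_mul, hρ]
        linear_combination e1 - (1 + φ b' * ρ) * e0)
    obtain ⟨rfl, rfl, h5⟩ := orbit_table m hm s hs b hb b' hb' h3 h4
    refine ⟨h5, fun w => e.injective ?_⟩
    have hid : ∀ k, σ g k = k := by
      intro k
      obtain ⟨x, y, rfl⟩ := hspan k
      rw [map_add, map_mul, hfix, hfix, hsρ, map_one, one_mul]
    simp only [map_one, map_zero, zero_mul, add_zero, mul_one] at e0
    rw [hy', map_zsmul]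
    ext k
    rcases (show k = 0 ∨ k = 1 by revert k; decide) with rfl | rfl
    · rw [(hc _).1]
      simp [hid, e0]
    · rw [(hc _).2]
      simp [hid, e0]
  have hstrict : ∀ b ∈ [(1 : F), 2], Strict G (wv b) := by
    intro b hb g _ hg z hz
    have h1 := (key g b hb b hb hg).2
    have h3 : eig W g 2 = Nat.card W := Nat.card_congr (Equiv.subtypeUnivEquiv h1)
    obtain ⟨w, hw⟩ := exists_ne (0 : W)
    rw [h3]
    refine Finite.card_subtype_lt (x := w) (fun h => ?_)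
    rw [h1, ← sub_eq_zero, ← sub_smul, ← Int.cast_smul_eq_zsmul K, smul_eq_zero,
      CharP.intCast_eq_zero_iff K 17] at h
    rcases h with h | h
    · rcases hz with rfl | rfl | rfl <;> norm_num at h
    · exact hw h
  refine ⟨wv 1, wv 2, fun g hg => ?_, hstrict 1 (by simp), fun g h1 h3 z hz =>
    (hstrict 2 (by simp) g h1 h3 z hz).le⟩
  exact absurd (key g 1 (by simp) 2 (by simp) hg).1 (by decide)

end Pool.Agent.Lib.MP_39e620_al.H66
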