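import Pool.Agent.Lib.MP_39e620_al.Mono

set_option autoImplicit false

namespace Pool.Agent.Lib.MP_39e620_al

open Equiv Matrix

/-- The monomial matrix sending the `j`-th basis vector to `b j` times the `σ j`-th one. -/
def monoMat {d : ℕ} (σ : Perm (Fin d)) (b : Fin d → U) : Matrix (Fin d) (Fin d) F :=
  fun i j => if i = σ j then (b j : F) else 0

theorem monoMat_mulVec {d : ℕ} (σ : Perm (Fin d)) (b : Fin d → U) (w : Fin d → F) (j : Fin d) :
    (monoMat σ b *ᵥ w) (σ j) = b j * w j := by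
  simp only [mulVec, dotProduct, monoMat, σ.injective.eq_iff]
  rw [Finset.sum_eq_single j]
  · simp
  · intro i _ hi
    simp [Ne.symm hi]
  · simp

theorem monoMat_mul {d : ℕ} (σ τ : Perm (Fin d)) (b c : Fin d → U) :
    monoMat σ b * monoMat τ c = monoMat (σ * τ) (fun j => b (τ j) * c j) := by
  ext i j
  simp only [Matrix.mul_apply, monoMat]
  rw [Finset.sum_eq_single (τ j)]
  · by_cases h : i = σ (τ j) <;> simp [h]
  · intro k _ hk
    simp [hk]
  · simp

theorem monoMat_one {d : ℕ} : monoMat (1 : Perm (Fin d)) 1 = 1 := by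
  ext i j
  simp [monoMat, Matrix.one_apply]

theorem monoMat_trace {d : ℕ} (σ : Perm (Fin d)) (b : Fin d → U) :
    (monoMat σ b).trace = mtr σ b := by
  simp only [Matrix.trace, Matrix.diag, monoMat, mtr, eq_comm]

theorem monoMat_inj {d : ℕ} {σ τ : Perm (Fin d)} {b c : Fin d → U}
    (h : monoMat σ b = monoMat τ c) : σ = τ ∧ b = c := by
  have h1 : ∀ j, σ j = τ j ∧ b j = c j := by
    intro j
    have := congrFun (congrFun h (σ j)) j
    simp only [monoMat, if_true] at this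
    by_cases h2 : σ j = τ j
    · rw [if_pos h2] at this
      exact ⟨h2, Units.ext this⟩
    · rw [if_neg h2] at this
      exact absurd this (b j).ne_zero
  exact ⟨Equiv.ext fun j => (h1 j).1, funext fun j => (h1 j).2⟩

theorem monoMat_mul_inv {d : ℕ} (σ : Perm (Fin d)) (b : Fin d → U) :
    monoMat σ b * monoMat σ⁻¹ (fun j => (b (σ⁻¹ j))⁻¹) = 1 := by
  rw [monoMat_mul, mul_inv_cancel, ← monoMat_one]
  congr 1
  funext j
  simp

theorem monoMat_inv_mul {d : ℕ} (σ : Perm (Fin d)) (b : Fin d → U) :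
    monoMat σ⁻¹ (fun j => (b (σ⁻¹ j))⁻¹) * monoMat σ b = 1 := by
  rw [monoMat_mul, inv_mul_cancel, ← monoMat_one]
  congr 1
  funext j
  simp

/-- The monomial subgroup of `GL_d(17)`. -/
def monoGrp (d : ℕ) : Subgroup (GL (Fin d) F) where
  carrier := {g | ∃ σ b, (g : Matrix (Fin d) (Fin d) F) = monoMat σ b}
  one_mem' := ⟨1, 1, monoMat_one.symm⟩
  mul_mem' := by
    rintro g h ⟨σ, b, hg⟩ ⟨τ, c, hh⟩
    exact ⟨_, _, by rw [Units.val_mul, hg, hh, monoMat_mul]⟩
  inv_mem' := by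
    rintro g ⟨σ, b, hg⟩
    refine ⟨σ⁻¹, fun j => (b (σ⁻¹ j))⁻¹, ?_⟩
    apply Units.inv_eq_of_mul_eq_one_right
    rw [hg, monoMat_mul_inv]

theorem card_monoGrp (d : ℕ) : Nat.card (monoGrp d) = d.factorial * 16 ^ d := by
  let f : Perm (Fin d) × (Fin d → U) → monoGrp d := fun p =>
    ⟨⟨monoMat p.1 p.2, _, monoMat_mul_inv p.1 p.2, monoMat_inv_mul p.1 p.2⟩, p.1, p.2, rfl⟩
  have hf : Function.Bijective f := by
    constructor
    · intro p q h
      have h1 : monoMat p.1 p.2 = monoMat q.1 q.2 :=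
        congrArg (fun g : monoGrp d => ((g : GL (Fin d) F) : Matrix (Fin d) (Fin d) F)) h
      exact Prod.ext (monoMat_inj h1).1 (monoMat_inj h1).2
    · rintro ⟨g, σ, b, hg⟩
      exact ⟨(σ, b), Subtype.ext (Units.ext hg.symm)⟩
  rw [← Nat.card_eq_of_bijective f hf, Nat.card_prod, Nat.card_eq_fintype_card,
    Nat.card_eq_fintype_card, Fintype.card_perm, Fintype.card_fun, card_U, Fintype.card_fin]

theorem emult_term (n : ℕ) :
    emultiplicity 2 (17 ^ n - 1 : ℕ) = emultiplicity 2 (16 : ℕ) + emultiplicity 2 n := by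
  have h := Int.two_pow_sub_pow' (x := 17) (y := 1) n (by norm_num) (by norm_num)
  have e1 : ((17 ^ n - 1 : ℕ) : ℤ) = 17 ^ n - 1 ^ n := by
    rw [Nat.cast_sub (Nat.one_le_pow _ _ (by norm_num))]
    simp
  rw [← Int.natCast_emultiplicity, ← Int.natCast_emultiplicity 2 16,
    ← Int.natCast_emultiplicity 2 n, e1]
  exact h

theorem emult_GL (d : ℕ) : emultiplicity 2 (∏ i : Fin d, (17 ^ d - 17 ^ (i : ℕ)) : ℕ) =
    emultiplicity 2 (d.factorial * 16 ^ d) := by
  have h2 : Prime (2 : ℕ) := Nat.prime_two.prime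
  induction d with
  | zero => simp
  | succ d ih =>
    rw [Fin.prod_univ_succ]
    have : ∏ i : Fin d, (17 ^ (d + 1) - 17 ^ ((i.succ : Fin (d + 1)) : ℕ)) =
        17 ^ d * ∏ i : Fin d, (17 ^ d - 17 ^ (i : ℕ)) := by
      have e : ∀ i : Fin d, (17 ^ (d + 1) - 17 ^ ((i.succ : Fin (d + 1)) : ℕ) : ℕ) =
          17 * (17 ^ d - 17 ^ (i : ℕ)) := by
        intro i
        rw [Fin.val_succ, pow_succ', pow_succ', Nat.mul_sub]
      simp only [e, Finset.prod_mul_distrib, Finset.prod_const, Finset.card_univ,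
        Fintype.card_fin]
    have h17 : emultiplicity 2 (17 ^ d : ℕ) = 0 := by
      rw [emultiplicity_eq_zero]
      intro h
      have := Nat.prime_two.dvd_of_dvd_pow h
      norm_num at this
    rw [this, emultiplicity_mul h2, emultiplicity_mul h2, ih, h17, Fin.val_zero, pow_zero,
      emult_term, Nat.factorial_succ, pow_succ, emultiplicity_mul h2, emultiplicity_mul h2,
      emultiplicity_mul h2, emultiplicity_mul h2]
    abel

theorem index_monoGrp (d : ℕ) : ¬ 2 ∣ (monoGrp d).index := by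
  have h1 := (monoGrp d).index_mul_card
  rw [card_monoGrp, Matrix.card_GL_field, ZMod.card 17] at h1
  have h2 := emult_GL d
  rw [← h1, emultiplicity_mul Nat.prime_two.prime] at h2
  have h3 : emultiplicity 2 (d.factorial * 16 ^ d) ≠ ⊤ := by
    rw [← finiteMultiplicity_iff_emultiplicity_ne_top, Nat.finiteMultiplicity_iff]
    exact ⟨by norm_num, by positivity⟩
  rw [← emultiplicity_eq_zero]
  apply (ENat.add_left_injective_of_ne_top h3)
  simpa using h2

theorem twisted_lt {Ω : Type} [Fintype Ω] [DecidableEq Ω] (σ : Perm Ω) (ε : F) (hε : ε ≠ 1)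
    (i0 : Ω) (h0 : σ i0 = i0) :
    Nat.card {u : Ω → F // ∀ i, u (σ i) = ε * u i} <
      Nat.card {u : Ω → F // ∀ i, u (σ i) = u i} := by
  let rep : Ω → Ω := fun i => (Quotient.mk (Perm.SameCycle.setoid σ) i).out
  have hrep : ∀ i, σ.SameCycle (rep i) i := fun i =>
    Quotient.exact (Quotient.out_eq (Quotient.mk (Perm.SameCycle.setoid σ) i))
  have hrepσ : ∀ i, rep (σ i) = rep i := by
    intro i
    have : Quotient.mk (Perm.SameCycle.setoid σ) (σ i) =
        Quotient.mk (Perm.SameCycle.setoid σ) i :=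
      Quotient.sound (Perm.sameCycle_apply_left.2 (Perm.SameCycle.refl σ i))
    simp only [rep, this]
  let f : {u : Ω → F // ∀ i, u (σ i) = ε * u i} → {u : Ω → F // ∀ i, u (σ i) = u i} :=
    fun u => ⟨fun i => u.1 (rep i), fun i => congrArg u.1 (hrepσ i)⟩
  have hpow : ∀ (u : {u : Ω → F // ∀ i, u (σ i) = ε * u i}) (n : ℕ) (i : Ω),
      u.1 ((σ ^ n) i) = ε ^ n * u.1 i := by
    intro u n i
    induction n with
    | zero => simp
    | succ n ih => rw [pow_succ', Perm.mul_apply, u.2, ih]; ring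
  have hf : Function.Injective f := by
    intro u u' h
    apply Subtype.ext
    funext i
    obtain ⟨n, -, hn⟩ := (hrep i).exists_pow_eq'
    have : u.1 (rep i) = u'.1 (rep i) := congrFun (congrArg Subtype.val h) i
    rw [← hn, hpow, hpow, this]
  have hns : ¬ Function.Surjective f := by
    intro hs
    obtain ⟨u, hu⟩ := hs ⟨fun i => if i = i0 then 1 else 0, fun i => by
      have : σ i = i0 ↔ i = i0 := by
        nth_rewrite 1 [← h0]
        exact σ.injective.eq_iff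
      simp only [this]⟩
    have h1 : u.1 (rep i0) = 1 := by
      have := congrFun (congrArg Subtype.val hu) i0
      simpa using this
    have h2 : rep i0 = i0 := by
      obtain ⟨n, -, hn⟩ := (hrep i0).symm.exists_pow_eq'
      rw [← hn]
      exact Perm.pow_apply_eq_self_of_apply_eq_self h0 n
    have h3 := u.2 i0
    rw [h2] at h1
    rw [h0, h1, mul_one] at h3
    exact hε h3.symm
  rw [Nat.card_eq_fintype_card, Nat.card_eq_fintype_card]
  exact Fintype.card_lt_of_injective_not_surjective f hf hns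

/-- The unit `2` of `ZMod 17`, of multiplicative order `8`. -/
def two : U := Units.mk0 2 (by decide)

theorem derangement {d : ℕ} (s : GL (Fin d) F) (σ : Perm (Fin d)) (b : Fin d → U)
    (hs : (s : Matrix (Fin d) (Fin d) F) = monoMat σ b) (j : ℕ)
    (hj : j % 8 = 3 ∨ j % 8 = 5 ∨ j % 8 = 7) (hc : IsConj s (s ^ j)) (w : Fin d → U)
    (hw : ∀ i, b i * w i = two * w (σ i)) (i0 : Fin d) : σ i0 ≠ i0 := by
  intro h0
  obtain ⟨x, hx⟩ := isConj_iff.1 hc
  have h8 : (2 : F) ^ 8 = 1 := by decide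
  have hj2 : (2 : F) ^ j = 2 ^ (j % 8) := by
    conv_lhs => rw [← Nat.div_add_mod j 8, pow_add, pow_mul, h8, one_pow, one_mul]
  have hne : (2 : F) ^ j ≠ 0 := pow_ne_zero _ (by decide)
  have hε : 2 / (2 : F) ^ j ≠ 1 := by
    rw [Ne, div_eq_one_iff_eq hne, hj2]
    rcases hj with h | h | h <;> rw [h] <;> decide
  have hw' : ∀ i, (b i : F) * w i = 2 * w (σ i) := fun i => by
    have := congrArg Units.val (hw i)
    simpa [two] using this
  have hlt := twisted_lt σ _ hε i0 h0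
  have hev : ∀ u : {u : Fin d → F // ∀ i, u (σ i) = u i},
      (s : Matrix (Fin d) (Fin d) F) *ᵥ (fun i => w i * u.1 i) =
        (2 : F) • (fun i => w i * u.1 i) := by
    intro u
    funext i
    obtain ⟨i, rfl⟩ := σ.surjective i
    rw [hs, monoMat_mulVec, ← mul_assoc, hw', Pi.smul_apply, smul_eq_mul, u.2, mul_assoc]
  have hevn : ∀ (v : Fin d → F), (s : Matrix (Fin d) (Fin d) F) *ᵥ v = (2 : F) • v →
      ∀ n : ℕ, ((s ^ n : GL (Fin d) F) : Matrix (Fin d) (Fin d) F) *ᵥ v = (2 : F) ^ n • v := by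
    intro v hv n
    induction n with
    | zero => simp
    | succ n ih =>
      rw [pow_succ, Units.val_mul, ← mulVec_mulVec, hv, mulVec_smul, ih, smul_smul, pow_succ']
  have hev' : ∀ u : {u : Fin d → F // ∀ i, u (σ i) = u i},
      (s : Matrix (Fin d) (Fin d) F) *ᵥ (((x⁻¹ : GL (Fin d) F) : Matrix (Fin d) (Fin d) F) *ᵥ
        (fun i => w i * u.1 i)) = (2 : F) ^ j •
        (((x⁻¹ : GL (Fin d) F) : Matrix (Fin d) (Fin d) F) *ᵥ (fun i => w i * u.1 i)) := by
    intro u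
    have e : s * x⁻¹ = x⁻¹ * s ^ j := by rw [← hx]; group
    rw [mulVec_mulVec, ← Units.val_mul, e, Units.val_mul, ← mulVec_mulVec, hevn _ (hev u),
      mulVec_smul]
  let f : {u : Fin d → F // ∀ i, u (σ i) = u i} →
      {u : Fin d → F // ∀ i, u (σ i) = 2 / (2 : F) ^ j * u i} := fun u =>
    ⟨fun i => (((x⁻¹ : GL (Fin d) F) : Matrix (Fin d) (Fin d) F) *ᵥ
      (fun i => w i * u.1 i)) i / w i, fun i => by
      have h1 := congrFun (hev' u) (σ i)
      rw [hs, monoMat_mulVec, Pi.smul_apply, smul_eq_mul] at h1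
      have h2 := hw' i
      have h3 := (w i).ne_zero
      have h4 := (w (σ i)).ne_zero
      field_simp
      linear_combination (-(w i : F)) * h1 + ((((x⁻¹ : GL (Fin d) F) : Matrix (Fin d) (Fin d) F) *ᵥ
        (fun i => w i * u.1 i)) i) * h2⟩
  have hf : Function.Injective f := by
    intro u u' h
    have h1 : ((x⁻¹ : GL (Fin d) F) : Matrix (Fin d) (Fin d) F) *ᵥ (fun i => w i * u.1 i) =
        ((x⁻¹ : GL (Fin d) F) : Matrix (Fin d) (Fin d) F) *ᵥ (fun i => w i * u'.1 i) := by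
      funext i
      have := congrFun (congrArg Subtype.val h) i
      exact (div_left_inj' (w i).ne_zero).1 this
    have h2 := congrArg (fun v => (x : Matrix (Fin d) (Fin d) F) *ᵥ v) h1
    simp only [mulVec_mulVec, ← Units.val_mul, mul_inv_cancel, Units.val_one, one_mulVec] at h2
    apply Subtype.ext
    funext i
    exact mul_left_cancel₀ (w i).ne_zero (congrFun h2 i)
  exact absurd (Nat.card_le_card_of_injective f hf) (not_le.2 hlt)

theorem trace_conj {d : ℕ} {s t : GL (Fin d) F} (h : IsConj s t) :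
    (t : Matrix (Fin d) (Fin d) F).trace = (s : Matrix (Fin d) (Fin d) F).trace := by
  obtain ⟨x, rfl⟩ := isConj_iff.1 h
  rw [Units.val_mul, Units.val_mul]
  exact Matrix.trace_units_conj x _

theorem mono_case {d : ℕ} (hd : d ≠ 0) (S : Subgroup (GL (Fin d) F)) (hS : IsPGroup 2 S)
    (hM : S ≤ monoGrp d)
    (EP : ∀ w : Fin d → F, ∃ s ∈ S, (s : Matrix (Fin d) (Fin d) F) *ᵥ w = (2 : F) • w)
    (Q9 : ∀ s ∈ S, IsConj s (s ^ 9))
    (Q : ∀ s ∈ S, ∃ j : ℕ, (j % 8 = 3 ∨ j % 8 = 5 ∨ j % 8 = 7) ∧ IsConj s (s ^ j)) : False := by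
  have hex : ∀ g : S, ∃ σ b, ((g : GL (Fin d) F) : Matrix (Fin d) (Fin d) F) = monoMat σ b :=
    fun g => hM g.2
  choose π0 a h using hex
  have hmul : ∀ g g' : S, π0 (g * g') = π0 g * π0 g' ∧
      a (g * g') = fun j => a g (π0 g' j) * a g' j := by
    intro g g'
    apply monoMat_inj
    rw [← monoMat_mul, ← h, ← h, ← h, Subgroup.coe_mul, Units.val_mul]
  let π : S →* Perm (Fin d) := MonoidHom.mk' π0 (fun g g' => (hmul g g').1)
  have : Nonempty (Fin d) := ⟨⟨0, Nat.pos_of_ne_zero hd⟩⟩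
  have htr : ∀ g : S, mtr (π g) (a g) =
      ((g : GL (Fin d) F) : Matrix (Fin d) (Fin d) F).trace := by
    intro g
    rw [h, monoMat_trace]
    rfl
  refine mono_false hS π a (fun g g' i => congrFun (hmul g g').2 i) two ?_ ?_ ?_ ?_
  · intro w
    obtain ⟨s, hs, hw⟩ := EP (fun i => w i)
    refine ⟨⟨s, hs⟩, fun i => Units.ext ?_⟩
    have h1 := congrFun hw (π0 ⟨s, hs⟩ i)
    have h2 := h ⟨s, hs⟩
    simp only at h2
    rw [h2, monoMat_mulVec] at h1
    exact h1
  · intro g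
    rw [htr, htr]
    exact trace_conj (Q9 g g.2)
  · intro g
    obtain ⟨j, hj, hc⟩ := Q g g.2
    refine ⟨j, hj, fun k => ?_⟩
    rw [htr, htr, pow_mul]
    exact trace_conj (hc.pow k)
  · intro g w hw i
    obtain ⟨j, hj, hc⟩ := Q g g.2
    exact derangement g _ _ (h g) j hj hc w hw i

/-- No `2`-subgroup of `GL_d(17)` has the eigenvalue property and quadratic conjugacy. -/
theorem matrix_false {d : ℕ} (hd : d ≠ 0) (S : Subgroup (GL (Fin d) F)) (hS : IsPGroup 2 S)
    (EP : ∀ w : Fin d → F, ∃ s ∈ S, (s : Matrix (Fin d) (Fin d) F) *ᵥ w = (2 : F) • w)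
    (Q9 : ∀ s ∈ S, IsConj s (s ^ 9))
    (Q : ∀ s ∈ S, ∃ j : ℕ, (j % 8 = 3 ∨ j % 8 = 5 ∨ j % 8 = 7) ∧ IsConj s (s ^ j)) : False := by
  have : Fact (Nat.Prime 2) := ⟨Nat.prime_two⟩
  obtain ⟨q, hq⟩ := hS.nonempty_fixed_point_of_prime_not_dvd_card
    (GL (Fin d) F ⧸ monoGrp d) (index_monoGrp d)
  obtain ⟨x, rfl⟩ := QuotientGroup.mk_surjective q
  let φ : GL (Fin d) F →* GL (Fin d) F := (MulAut.conj x⁻¹).toMonoidHom
  have hφ : ∀ s, φ s = x⁻¹ * s * x := fun s => by simp [φ]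
  refine mono_case hd (S.map φ) (hS.map φ) ?_ ?_ ?_ ?_
  · rintro _ ⟨s, hs, rfl⟩
    have h1 : ((s⁻¹ * x : GL (Fin d) F) : GL (Fin d) F ⧸ monoGrp d) = (x : _ ⧸ monoGrp d) :=
      hq ⟨s⁻¹, S.inv_mem hs⟩
    rw [QuotientGroup.eq] at h1
    rw [hφ]
    simpa [mul_assoc] using h1
  · intro w
    obtain ⟨s, hs, hw⟩ := EP ((x : Matrix (Fin d) (Fin d) F) *ᵥ w)
    refine ⟨φ s, ⟨s, hs, rfl⟩, ?_⟩
    rw [hφ, Units.val_mul, Units.val_mul, ← mulVec_mulVec, ← mulVec_mulVec, hw, mulVec_smul,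
      mulVec_mulVec, ← Units.val_mul, inv_mul_cancel, Units.val_one, one_mulVec]
  · rintro _ ⟨s, hs, rfl⟩
    rw [← map_pow]
    exact φ.map_isConj (Q9 s hs)
  · rintro _ ⟨s, hs, rfl⟩
    obtain ⟨j, hj, hc⟩ := Q s hs
    exact ⟨j, hj, by rw [← map_pow]; exact φ.map_isConj hc⟩

end Pool.Agent.Lib.MP_39e620_al
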