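import Pool.Agent.Lib.MP_39e620_al.Core

set_option autoImplicit false

namespace Pool.Agent.Lib.MP_39e620_al

open Equiv

/-- Trace of the monomial transformation with permutation `σ` and entries `b`. -/
def mtr {Ω : Type} [Fintype Ω] [DecidableEq Ω] (σ : Perm Ω) (b : Ω → U) : F :=
  ∑ i, if σ i = i then (b i : F) else 0

theorem mono_false {S Ω : Type} [Group S] [Fintype Ω] [DecidableEq Ω] [Nonempty Ω]
    (hS : IsPGroup 2 S) (π : S →* Perm Ω) (a : S → Ω → U)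
    (hco : ∀ g h i, a (g * h) i = a g (π h i) * a h i) (l : U)
    (EP : ∀ w : Ω → U, ∃ g, ∀ i, a g i * w i = l * w (π g i))
    (Q1 : ∀ g, mtr (π (g ^ 9)) (a (g ^ 9)) = mtr (π g) (a g))
    (Q2 : ∀ g, ∃ j : ℕ, (j % 8 = 3 ∨ j % 8 = 5 ∨ j % 8 = 7) ∧
      ∀ k : ℕ, mtr (π (g ^ (j * k))) (a (g ^ (j * k))) = mtr (π (g ^ k)) (a (g ^ k)))
    (Q3 : ∀ g (w : Ω → U), (∀ i, a g i * w i = l * w (π g i)) → ∀ i, π g i ≠ i) : False := by
  classical
  have ha1 : ∀ i, a 1 i = 1 := by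
    intro i
    have := hco 1 1 i
    simp only [mul_one, map_one, Perm.coe_one, id_eq] at this
    exact left_eq_mul.1 this
  have hainv : ∀ g i, a g⁻¹ (π g i) = (a g i)⁻¹ := by
    intro g i
    have := hco g⁻¹ g i
    rw [inv_mul_cancel, ha1] at this
    exact eq_inv_of_mul_eq_one_left this.symm
  have hππ : ∀ g i, π g (π g⁻¹ i) = i := by intro g i; simp
  have hππ' : ∀ g i, π g⁻¹ (π g i) = i := by intro g i; simp
  let star : Finset Ω → Prop := fun A => A.Nonempty ∧ ∀ w : Ω → U, (∀ i, i ∉ A → w i = 1) →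
    ∃ g, (∀ i, π g i ∈ A ↔ i ∈ A) ∧ ∀ i, a g i * w i = l * w (π g i)
  have hstar : star Finset.univ := ⟨Finset.univ_nonempty, fun w _ => by
    obtain ⟨g, hg⟩ := EP w
    exact ⟨g, by simp, hg⟩⟩
  obtain ⟨A, hA, hmin⟩ := Finset.exists_min_image (Finset.univ.filter star) Finset.card
    ⟨Finset.univ, Finset.mem_filter.2 ⟨Finset.mem_univ _, hstar⟩⟩
  obtain ⟨hAne, hAs⟩ := (Finset.mem_filter.1 hA).2
  let K : Subgroup S :=
    { carrier := {g | (∀ i, π g i ∈ A ↔ i ∈ A) ∧ ∃ c : U, ∀ i, i ∉ A → a g i = c}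
      one_mem' := ⟨by simp, 1, fun i _ => ha1 i⟩
      mul_mem' := by
        rintro g h ⟨hg, c, hc⟩ ⟨hh, c', hc'⟩
        refine ⟨fun i => by rw [map_mul, Perm.mul_apply, hg, hh], c * c', fun i hi => ?_⟩
        rw [hco, hc' i hi, hc _ (fun h' => hi ((hh i).1 h'))]
      inv_mem' := by
        rintro g ⟨hg, c, hc⟩
        have h1 : ∀ i, π g⁻¹ i ∈ A ↔ i ∈ A := fun i => by rw [← hg, hππ]
        refine ⟨h1, c⁻¹, fun i hi => ?_⟩
        rw [← hc _ (fun h' => hi ((h1 i).1 h')), ← hainv, hππ] }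
  have hKl : ∀ (w : Ω → U) g, (∀ i, i ∉ A → w i = 1) → (∀ i, π g i ∈ A ↔ i ∈ A) →
      (∀ i, a g i * w i = l * w (π g i)) → ∀ i, i ∉ A → a g i = l := by
    intro w g hw hg h i hi
    have := h i
    rwa [hw i hi, hw _ (fun h' => hi ((hg i).1 h')), mul_one, mul_one] at this
  let P : Subgroup (Perm A) :=
    { carrier := {σ | ∃ g ∈ K, ∀ x : A, (σ x : Ω) = π g x}
      one_mem' := ⟨1, K.one_mem, by simp⟩
      mul_mem' := by
        rintro σ τ ⟨g, hg, h⟩ ⟨g', hg', h'⟩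
        exact ⟨g * g', K.mul_mem hg hg', fun x => by
          rw [Perm.mul_apply, h, h', map_mul, Perm.mul_apply]⟩
      inv_mem' := by
        rintro σ ⟨g, hg, h⟩
        refine ⟨g⁻¹, K.inv_mem hg, fun x => ?_⟩
        have := h (σ⁻¹ x)
        have hx : σ (σ⁻¹ x) = x := by simp
        rw [hx] at this
        rw [this, hππ'] }
  have hPK : ∀ g ∈ K, ∃ σ ∈ P, ∀ x : A, (σ x : Ω) = π g x := fun g hg =>
    ⟨(π g).subtypePerm hg.1, ⟨g, hg, fun _ => rfl⟩, fun _ => rfl⟩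
  have hP : IsPGroup 2 P := by
    rintro ⟨σ, g, hg, h⟩
    obtain ⟨k, hk⟩ := hS g
    have hn : ∀ n : ℕ, ∀ x : A, ((σ ^ n) x : Ω) = π (g ^ n) x := by
      intro n
      induction n with
      | zero => simp
      | succ n ih => intro x; rw [pow_succ', pow_succ', Perm.mul_apply, h, ih, map_mul,
          Perm.mul_apply]
    refine ⟨k, Subtype.ext ?_⟩
    have : σ ^ 2 ^ k = 1 := by
      ext x
      rw [hn, hk]
      simp
    simpa using this
  have htr : ∀ x y : A, ∃ σ ∈ P, σ x = y := by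
    intro x y
    let A1 : Finset Ω := A.filter (fun i => ∃ g ∈ K, π g x = i)
    have hsub : A1 ⊆ A := Finset.filter_subset _ _
    have hA1 : star A1 := by
      refine ⟨⟨x, Finset.mem_filter.2 ⟨x.2, 1, K.one_mem, by simp⟩⟩, fun w hw => ?_⟩
      have hw' : ∀ i, i ∉ A → w i = 1 := fun i hi => hw i (fun h => hi (hsub h))
      obtain ⟨g, hg, hg'⟩ := hAs w hw'
      have hgK : g ∈ K := ⟨hg, l, hKl w g hw' hg hg'⟩
      refine ⟨g, fun i => ?_, hg'⟩
      simp only [A1, Finset.mem_filter, hg]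
      constructor
      · rintro ⟨hi, h, hh, e⟩
        exact ⟨hi, g⁻¹ * h, K.mul_mem (K.inv_mem hgK) hh, by
          rw [map_mul, Perm.mul_apply, e, hππ']⟩
      · rintro ⟨hi, h, hh, e⟩
        exact ⟨hi, g * h, K.mul_mem hgK hh, by rw [map_mul, Perm.mul_apply, e]⟩
    have hle := hmin A1 (Finset.mem_filter.2 ⟨Finset.mem_univ _, hA1⟩)
    have heq : A1 = A := Finset.eq_of_subset_of_card_le hsub hle
    have hy : (y : Ω) ∈ A1 := by rw [heq]; exact y.2
    obtain ⟨g, hg, e⟩ := (Finset.mem_filter.1 hy).2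
    obtain ⟨σ, hσ, h⟩ := hPK g hg
    exact ⟨σ, hσ, Subtype.ext (by rw [h, e])⟩
  let K1 : Subgroup S :=
    { carrier := {g | (∀ i, π g i ∈ A ↔ i ∈ A) ∧ (∀ i, i ∉ A → a g i = 1) ∧ ∀ i ∈ A, π g i = i}
      one_mem' := ⟨by simp, fun i _ => ha1 i, by simp⟩
      mul_mem' := by
        rintro g h ⟨hg, hc, hf⟩ ⟨hh, hc', hf'⟩
        refine ⟨fun i => by rw [map_mul, Perm.mul_apply, hg, hh], fun i hi => ?_, fun i hi => ?_⟩
        · rw [hco, hc' i hi, hc _ (fun h' => hi ((hh i).1 h')), mul_one]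
        · rw [map_mul, Perm.mul_apply, hf' i hi, hf i hi]
      inv_mem' := by
        rintro g ⟨hg, hc, hf⟩
        have h1 : ∀ i, π g⁻¹ i ∈ A ↔ i ∈ A := fun i => by rw [← hg, hππ]
        refine ⟨h1, fun i hi => ?_, fun i hi => ?_⟩
        · rw [← inv_one, ← hc _ (fun h' => hi ((h1 i).1 h')), ← hainv, hππ]
        · nth_rewrite 1 [← hf i hi]
          exact hππ' g i }
  let ψ : K1 →* (A → U) :=
    { toFun := fun g x => a g x
      map_one' := by funext x; exact ha1 x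
      map_mul' := by
        intro g h
        funext x
        simp only [Subgroup.coe_mul, Pi.mul_apply]
        rw [hco, h.2.2.2 x x.2] }
  let N : S → F := fun g => ∑ i ∈ Aᶜ, if π g i = i then 1 else 0
  have htrK : ∀ g : K1, mtr (π g) (a g) = ∑ x : A, (ψ g x : F) + N g := by
    intro g
    rw [mtr, ← Finset.sum_add_sum_compl A]
    congr 1
    · rw [← Finset.sum_coe_sort A]
      apply Finset.sum_congr rfl
      intro x _
      rw [if_pos (g.2.2.2 x x.2)]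
      rfl
    · apply Finset.sum_congr rfl
      intro i hi
      rw [g.2.2.1 i (Finset.mem_compl.1 hi), Units.val_one]
  have hN : ∀ (g : S) (j : ℕ), Odd j → N (g ^ j) = N g := by
    intro g j hj
    apply Finset.sum_congr rfl
    intro i _
    obtain ⟨k, hk⟩ := hS g
    have hk' : π g ^ 2 ^ k = 1 := by rw [← map_pow, hk, map_one]
    obtain ⟨u, -, hu⟩ := fixed_of_odd_pow (π g) k hk' j hj
    have : π (g ^ j) i = i ↔ π g i = i := by
      rw [map_pow]
      constructor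
      · intro h
        rw [← hu]
        exact Perm.pow_apply_eq_self_of_apply_eq_self h u
      · intro h
        exact Perm.pow_apply_eq_self_of_apply_eq_self h j
    simp only [this]
  have hpow : ∀ (g : K1) (n : ℕ), mtr (π (g.1 ^ n)) (a (g.1 ^ n)) =
      ∑ x : A, (ψ g x : F) ^ n + N (g.1 ^ n) := by
    intro g n
    have := htrK (g ^ n)
    rw [map_pow] at this
    simpa using this
  have : Nonempty A := hAne.to_subtype
  let c : Perm A → A → U := fun σ =>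
    if h : ∃ g, (∀ i, π g i ∈ A ↔ i ∈ A) ∧ (∀ i, i ∉ A → a g i = l) ∧
      ∀ x : A, (σ x : Ω) = π g x then fun x => a h.choose x * l⁻¹ else 1
  refine core P hP htr ψ.range ?_ ?_ ?_ c ?_
  · rintro σ ⟨g, ⟨hg, c0, hc0⟩, hσ⟩ _ ⟨h, rfl⟩
    have hm : g⁻¹ * h * g ∈ K1 := by
      have h1 : ∀ i, π g⁻¹ i ∈ A ↔ i ∈ A := fun i => by rw [← hg, hππ]
      refine ⟨fun i => ?_, fun i hi => ?_, fun i hi => ?_⟩
      · rw [map_mul, map_mul, Perm.mul_apply, Perm.mul_apply, h1, h.2.1, hg]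
      · have e1 : π g i ∉ A := fun h' => hi ((hg i).1 h')
        have e2 : π h (π g i) ∉ A := fun h' => e1 ((h.2.1 _).1 h')
        have e3 : π g⁻¹ (π h (π g i)) ∉ A := fun h' => e2 ((h1 _).1 h')
        have e4 := hainv g (π g⁻¹ (π h (π g i)))
        rw [hππ, hc0 _ e3] at e4
        rw [hco, hco, h.2.2.1 _ e1, e4, hc0 i hi, mul_one, inv_mul_cancel]
      · rw [map_mul, map_mul, Perm.mul_apply, Perm.mul_apply, h.2.2.2 _ ((hg i).2 hi), hππ']
    refine ⟨⟨_, hm⟩, ?_⟩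
    funext x
    change a (g⁻¹ * h * g) x = a h (σ x)
    rw [hco, hco, h.2.2.2 _ ((hg x).2 x.2), hainv, hσ, mul_comm (a g x)⁻¹, mul_assoc,
      inv_mul_cancel, mul_one]
  · rintro _ ⟨g, rfl⟩
    have h1 := Q1 g
    have h2 := hpow g 1
    rw [pow_one] at h2
    rw [hpow, h2, hN g 9 (by decide)] at h1
    simpa using h1
  · rintro _ ⟨g, rfl⟩
    obtain ⟨j, hj, h⟩ := Q2 g
    refine ⟨j, hj, fun k => ?_⟩
    have h1 := h k
    have h2 : N (g.1 ^ (j * k)) = N (g.1 ^ k) := by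
      rw [mul_comm, pow_mul]
      exact hN _ j (Nat.odd_iff.2 (by omega))
    rw [hpow, hpow, h2] at h1
    exact add_right_cancel h1
  · intro w
    let w' : Ω → U := fun i => if h : i ∈ A then w ⟨i, h⟩ else 1
    have hw' : ∀ i, i ∉ A → w' i = 1 := fun i hi => dif_neg hi
    have hw'' : ∀ x : A, w' x = w x := fun x => dif_pos x.2
    obtain ⟨g, hg, hg'⟩ := hAs w' hw'
    have hgl := hKl w' g hw' hg hg'
    obtain ⟨σ, hσ, h⟩ := hPK g ⟨hg, l, hgl⟩
    refine ⟨σ, hσ, fun x hx => Q3 g w' hg' x (by rw [← h, hx]), ?_⟩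
    have hex : ∃ g, (∀ i, π g i ∈ A ↔ i ∈ A) ∧ (∀ i, i ∉ A → a g i = l) ∧
      ∀ x : A, (σ x : Ω) = π g x := ⟨g, hg, hgl, h⟩
    obtain ⟨b1, b2, b3⟩ := hex.choose_spec
    have hcσ : c σ = fun x : A => a hex.choose x * l⁻¹ := dif_pos hex
    rw [hcσ]
    set g0 := hex.choose with hg0
    have h1 : ∀ i, π g0⁻¹ i ∈ A ↔ i ∈ A := fun i => by rw [← b1, hππ]
    have hm : g0⁻¹ * g ∈ K1 := by
      refine ⟨fun i => ?_, fun i hi => ?_, fun i hi => ?_⟩
      · rw [map_mul, Perm.mul_apply, h1, hg]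
      · have e1 : π g i ∉ A := fun h' => hi ((hg i).1 h')
        have e3 : π g0⁻¹ (π g i) ∉ A := fun h' => e1 ((h1 _).1 h')
        have e4 := hainv g0 (π g0⁻¹ (π g i))
        rw [hππ, b2 _ e3] at e4
        rw [hco, e4, hgl i hi, inv_mul_cancel]
      · rw [map_mul, Perm.mul_apply, ← h ⟨i, hi⟩, b3 ⟨i, hi⟩, hππ']
    refine ⟨⟨_, hm⟩, ?_⟩
    funext x
    change a (g0⁻¹ * g) x = w (σ x) * (w x)⁻¹ * (a g0 x * l⁻¹)⁻¹
    have e1 := hg' x
    rw [← h, hw'', hw''] at e1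
    rw [hco, ← h, b3, hainv, eq_mul_inv_of_mul_eq e1, mul_inv_rev, inv_inv]
    simp only [mul_comm, mul_left_comm, mul_assoc]

end Pool.Agent.Lib.MP_39e620_al
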