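import Mathlib

set_option autoImplicit false

namespace Pool.Agent.Lib.MP_39e620_al

open Equiv

/-- A `2`-subgroup of the symmetric group on `d ≥ 1` points has fewer than `2 ^ d` elements. -/
theorem card_two_subgroup_lt {X : Type} [Fintype X] [DecidableEq X] [Nonempty X]
    (Q : Subgroup (Perm X)) (hQ : IsPGroup 2 Q) : Nat.card Q < 2 ^ Fintype.card X := by
  obtain ⟨k, hk⟩ := (IsPGroup.iff_card (p := 2)).1 hQ
  have h1 : Nat.card Q ∣ Nat.card (Perm X) := Subgroup.card_subgroup_dvd_card Q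
  rw [Nat.card_eq_fintype_card (α := Perm X), Fintype.card_perm, hk] at h1
  have h2 := Nat.emultiplicity_two_factorial_lt (n := Fintype.card X) Fintype.card_ne_zero
  have h3 : (k : ℕ∞) ≤ emultiplicity 2 (Fintype.card X).factorial :=
    le_emultiplicity_of_pow_dvd h1
  have h4 : (k : ℕ∞) < (Fintype.card X : ℕ∞) := lt_of_le_of_lt h3 h2
  rw [hk]
  exact Nat.pow_lt_pow_right (by norm_num) (by exact_mod_cast h4)

/-- A point fixed by an odd power of a permutation of `2`-power order is fixed. -/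
theorem fixed_of_odd_pow {X : Type} (σ : Perm X) (k : ℕ) (hk : σ ^ 2 ^ k = 1) (m : ℕ)
    (hm : Odd m) : ∃ u : ℕ, Odd u ∧ (σ ^ m) ^ u = σ := by
  have hc : Nat.Coprime m (2 ^ (k + 1)) := by
    apply Nat.Coprime.pow_right
    exact Nat.coprime_two_right.2 hm
  obtain ⟨u, -, hu⟩ := Nat.exists_mul_mod_eq_one_of_coprime hc
    (Nat.one_lt_two_pow (Nat.succ_ne_zero k))
  have h2 : m * u = 2 ^ (k + 1) * (m * u / 2 ^ (k + 1)) + 1 := by
    have := Nat.div_add_mod (m * u) (2 ^ (k + 1))
    omega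
  refine ⟨u, ?_, ?_⟩
  · have : Odd (m * u) := by
      rw [h2, pow_succ]
      exact ⟨2 ^ k * (m * u / (2 ^ k * 2)), by ring⟩
    exact (Nat.odd_mul.1 this).2
  · rw [← pow_mul, h2, pow_add, pow_one, pow_succ, mul_assoc, pow_mul, hk, one_pow, one_mul]

/-- An invariant equivalence relation with a nontrivial class contains an invariant matching. -/
theorem exists_matching {X : Type} [Fintype X] [DecidableEq X] (P : Subgroup (Perm X))
    (hP : IsPGroup 2 P) (htr : ∀ x y : X, ∃ σ ∈ P, σ x = y) (r : X → X → Prop)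
    (hr : Equivalence r) (hinv : ∀ σ ∈ P, ∀ x y, r x y → r (σ x) (σ y))
    (i0 j0 : X) (hne : i0 ≠ j0) (h0 : r i0 j0) :
    ∃ ι : Perm X, (∀ x, ι (ι x) = x) ∧ (∀ x, ι x ≠ x) ∧ (∀ σ ∈ P, ∀ x, σ (ι x) = ι (σ x)) ∧
      ∀ x, r x (ι x) := by
  classical
  let B : Subgroup (Perm X) :=
    { carrier := {σ | σ ∈ P ∧ r i0 (σ i0)}
      mul_mem' := by
        rintro a b ⟨ha, ha'⟩ ⟨hb, hb'⟩
        exact ⟨P.mul_mem ha hb, hr.trans ha' (hinv a ha _ _ hb')⟩
      one_mem' := ⟨P.one_mem, hr.refl _⟩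
      inv_mem' := by
        rintro a ⟨ha, ha'⟩
        refine ⟨P.inv_mem ha, ?_⟩
        have := hinv a⁻¹ (P.inv_mem ha) _ _ ha'
        simp only [Perm.coe_inv, symm_apply_apply] at this
        exact hr.symm this }
  have hBP : B ≤ P := fun σ h => h.1
  have hB : IsPGroup 2 B := hP.to_le hBP
  have : Fact (Nat.Prime 2) := ⟨Nat.prime_two⟩
  have : Group.IsNilpotent B := hB.isNilpotent
  have hnc : NormalizerCondition B := Group.normalizerCondition_of_isNilpotent
  let H : Subgroup B := MulAction.stabilizer B i0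
  have hH : H < ⊤ := by
    rw [lt_top_iff_ne_top]
    intro h
    obtain ⟨σ, hσ, hσ'⟩ := htr i0 j0
    have hm : (⟨σ, hσ, by rw [hσ']; exact h0⟩ : B) ∈ H := by rw [h]; trivial
    have : σ i0 = i0 := hm
    exact hne (this.symm.trans hσ')
  obtain ⟨ρ, hρN, hρH⟩ := SetLike.exists_of_lt (hnc H hH)
  -- powers of `ρ` move `i0` to points fixed by the stabiliser
  have key : ∀ n : ℕ, ∀ h ∈ P, h i0 = i0 → h (((ρ : Perm X) ^ n) i0) = ((ρ : Perm X) ^ n) i0 := by
    intro n h hh hfix
    have hhB : h ∈ B := ⟨hh, by rw [hfix]; exact hr.refl _⟩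
    have hN : (ρ ^ n)⁻¹ ∈ Subgroup.normalizer (H : Set B) :=
      Subgroup.inv_mem _ (Subgroup.pow_mem _ hρN n)
    have h1 : (⟨h, hhB⟩ : B) ∈ H := hfix
    have h2 := (Subgroup.mem_normalizer_iff.1 hN ⟨h, hhB⟩).1 h1
    have h3 : (((ρ ^ n)⁻¹ * ⟨h, hhB⟩ * (ρ ^ n)⁻¹⁻¹ : B) : Perm X) i0 = i0 := h2
    simp only [inv_inv, Subgroup.coe_mul, Subgroup.coe_inv, SubmonoidClass.coe_pow,
      Perm.coe_mul, Function.comp_apply] at h3
    rw [Perm.inv_eq_iff_eq] at h3
    exact h3
  obtain ⟨k, hk⟩ := hB ρ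
  have hk' : (ρ : Perm X) ^ 2 ^ k = 1 := by
    have := congrArg Subtype.val hk
    simpa using this
  have hex : ∃ m : ℕ, ((ρ : Perm X) ^ 2 ^ m) i0 = i0 := ⟨k, by rw [hk']; rfl⟩
  have hm0 : Nat.find hex ≠ 0 := by
    intro h
    have := Nat.find_spec hex
    rw [h] at this
    apply hρH
    have h' : (ρ : Perm X) i0 = i0 := by simpa using this
    exact h'
  obtain ⟨m, hm⟩ := Nat.exists_eq_succ_of_ne_zero hm0
  have h1 : ((ρ : Perm X) ^ 2 ^ (m + 1)) i0 = i0 := by
    have := Nat.find_spec hex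
    rwa [hm] at this
  have h2 : ((ρ : Perm X) ^ 2 ^ m) i0 ≠ i0 := Nat.find_min hex (by omega)
  set s : Perm X := (ρ : Perm X) ^ 2 ^ m with hs
  have hsB : s ∈ B := B.pow_mem ρ.2 _
  have hss : s (s i0) = i0 := by
    rw [pow_succ, pow_mul, sq] at h1
    exact h1
  choose g hgP hg using htr i0
  have hc : ∀ σ ∈ P, g (σ i0) (s i0) = σ (s i0) := by
    intro σ hσ
    have := key (2 ^ m) (σ⁻¹ * g (σ i0)) (P.mul_mem (P.inv_mem hσ) (hgP _))
      (by simp [hg])
    simp only [Perm.coe_mul, Function.comp_apply] at this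
    rw [Perm.inv_eq_iff_eq] at this
    exact this
  have hinvol : Function.Involutive (fun x => g x (s i0)) := by
    intro x
    have := hc (g x * s) (P.mul_mem (hgP x) (hBP hsB))
    simp only [Perm.coe_mul, Function.comp_apply] at this
    simp only [this, hss, hg]
  refine ⟨hinvol.toPerm, hinvol, ?_, ?_, ?_⟩
  · intro x hx
    have hx' : g x (s i0) = g x i0 := by rw [hg]; exact hx
    exact h2 ((g x).injective hx')
  · intro σ hσ x
    have := hc (σ * g x) (P.mul_mem hσ (hgP x))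
    simp only [Perm.coe_mul, Function.comp_apply, hg] at this
    exact this.symm
  · intro x
    have := hinv (g x) (hgP x) _ _ hsB.2
    rw [hg] at this
    exact this

/-- A two-colouring of the points outside the swapped pairs. -/
theorem exists_colouring {X : Type} (σ ι : Perm X) (k : ℕ) (hk : σ ^ 2 ^ k = 1)
    (hι : ∀ x, ι (ι x) = x) (hc : ∀ x, σ (ι x) = ι (σ x)) (hσ : ∀ x, σ x ≠ x) :
    ∃ κ : X → Prop, (∀ x, κ (ι x) ↔ κ x) ∧ ∀ x, σ x ≠ ι x → (κ (σ x) ↔ ¬ κ x) := by
  classical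
  have hcomm : Commute σ ι := by ext x; simp [hc]
  have hcn : ∀ (n : ℕ) x, (σ ^ n) (ι x) = ι ((σ ^ n) x) := by
    intro n x
    have := (hcomm.pow_left n).eq
    exact congrArg (fun τ : Perm X => τ x) this
  -- no odd power of `σ` maps `x` into its pair, outside the swapped pairs
  have hodd : ∀ x, σ x ≠ ι x → ∀ m, Odd m → (σ ^ m) x ≠ x ∧ (σ ^ m) x ≠ ι x := by
    intro x hx m hm
    obtain ⟨u, hu, hu'⟩ := fixed_of_odd_pow σ k hk m hm
    constructor
    · intro h
      apply hσ x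
      rw [← hu']
      exact Perm.pow_apply_eq_self_of_apply_eq_self h u
    · intro h
      apply hx
      have : ∀ n : ℕ, ((σ ^ m) ^ (2 * n + 1)) x = ι x := by
        intro n
        induction n with
        | zero => simpa using h
        | succ n ih =>
          have e : 2 * (n + 1) + 1 = 1 + 1 + (2 * n + 1) := by ring
          rw [e, pow_add, pow_add, pow_one, Perm.mul_apply, Perm.mul_apply, ih, hcn, h, hι, h]
      obtain ⟨n, rfl⟩ := hu
      rw [← hu']
      exact this n
  have hback : ∀ (n : ℕ) x, (σ ^ (n * (2 ^ (k + 1) - 1))) ((σ ^ n) x) = x := by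
    intro n x
    rw [← Perm.mul_apply, ← pow_add]
    have h1 : 1 ≤ 2 ^ (k + 1) := Nat.one_le_two_pow
    have : n * (2 ^ (k + 1) - 1) + n = 2 ^ k * (2 * n) := by
      have h2 : 2 ^ (k + 1) = 2 ^ k * 2 := pow_succ 2 k
      zify [h1]
      ring
    rw [this, pow_mul, hk, one_pow]
    rfl
  let s : Setoid X :=
    { r := fun x y => ∃ n : ℕ, (σ ^ n) x = y ∨ (σ ^ n) x = ι y
      iseqv := by
        refine ⟨fun x => ⟨0, Or.inl rfl⟩, ?_, ?_⟩
        · rintro x y ⟨n, h | h⟩
          · exact ⟨_, Or.inl (by rw [← h]; exact hback n x)⟩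
          · refine ⟨n * (2 ^ (k + 1) - 1), Or.inr ?_⟩
            have : y = ι ((σ ^ n) x) := by rw [h, hι]
            rw [this, hcn, hback]
        · rintro x y z ⟨n, h | h⟩ ⟨m, h' | h'⟩
          · exact ⟨m + n, Or.inl (by rw [pow_add, Perm.mul_apply, h, h'])⟩
          · exact ⟨m + n, Or.inr (by rw [pow_add, Perm.mul_apply, h, h'])⟩
          · exact ⟨m + n, Or.inr (by rw [pow_add, Perm.mul_apply, h, hcn, h'])⟩
          · exact ⟨m + n, Or.inl (by rw [pow_add, Perm.mul_apply, h, hcn, h', hι])⟩ }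
  let rep : X → X := fun x => (Quotient.mk s x).out
  have hrep : ∀ x, s.r (rep x) x := fun x => Quotient.exact (Quotient.out_eq (Quotient.mk s x))
  have hrepι : ∀ x, rep (ι x) = rep x := by
    intro x
    have : Quotient.mk s (ι x) = Quotient.mk s x := Quotient.sound ⟨0, Or.inr rfl⟩
    simp only [rep, this]
  have hrepσ : ∀ x, rep (σ x) = rep x := by
    intro x
    have : Quotient.mk s x = Quotient.mk s (σ x) := Quotient.sound ⟨1, Or.inl (by simp)⟩
    simp only [rep, this]
  refine ⟨fun x => ∃ n : ℕ, Even n ∧ ((σ ^ n) (rep x) = x ∨ (σ ^ n) (rep x) = ι x), ?_, ?_⟩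
  · intro x
    simp only [hrepι, hι, or_comm]
  · intro x hx
    simp only [hrepσ]
    constructor
    · rintro ⟨n, hn, h⟩ ⟨m, hm, h'⟩
      -- `σ x` is in the pair of an even power of `x`
      have hx1 : (σ ^ (m * (2 ^ (k + 1) - 1))) x = rep x ∨
          (σ ^ (m * (2 ^ (k + 1) - 1))) x = ι (rep x) := by
        rcases h' with h' | h'
        · left; rw [← hback m (rep x), h']
        · right
          rw [← hback m (rep x), h', hcn, hι]
      have hx2 : (σ ^ (n + m * (2 ^ (k + 1) - 1))) x = σ x ∨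
          (σ ^ (n + m * (2 ^ (k + 1) - 1))) x = ι (σ x) := by
        rw [pow_add, Perm.mul_apply]
        rcases hx1 with h1 | h1 <;> rcases h with h | h <;> rw [h1]
        · exact Or.inl h
        · exact Or.inr h
        · rw [hcn, h]; exact Or.inr rfl
        · rw [hcn, h, hι]; exact Or.inl rfl
      have hev : Even (n + m * (2 ^ (k + 1) - 1)) := hn.add (hm.mul_right _)
      have hod : Odd (1 * (2 ^ (k + 1) - 1) + (n + m * (2 ^ (k + 1) - 1))) := by
        apply Odd.add_even _ hev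
        rw [one_mul]
        apply Nat.Even.sub_odd Nat.one_le_two_pow _ odd_one
        exact (Nat.even_pow.2 ⟨even_two, Nat.succ_ne_zero k⟩)
      have h5 := hodd x hx _ hod
      have h6 := hback 1 x
      rw [pow_one] at h6
      rw [pow_add, Perm.mul_apply] at h5
      rcases hx2 with h2 | h2
      · exact h5.1 (by rw [h2, h6])
      · exact h5.2 (by rw [h2, hcn, h6])
    · intro hn
      obtain ⟨n, h⟩ := hrep x
      rcases Nat.even_or_odd n with he | ho
      · exact absurd ⟨n, he, h⟩ hn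
      · refine ⟨1 + n, odd_one.add_odd ho, ?_⟩
        rw [pow_add, pow_one, Perm.mul_apply]
        rcases h with h | h
        · left; rw [h]
        · right; rw [h, hc]

end Pool.Agent.Lib.MP_39e620_al
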